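import Pool.Agent.HB45.Defs

set_option autoImplicit false

/-!
# HB45/Swap: swap symmetry and the number of comparable neighbours
-/

open Polynomial

namespace Pool.HB45

private def nb {N : ℕ} (p : Fin N) : Finset (Fin N) :=
  Finset.univ.filter fun q => q.val + 1 = p.val ∨ q.val = p.val + 1

private noncomputable def av {N : ℕ} (Q : Rel (N + 1)) (p : Fin N) (g : Equiv.Perm (Fin (N + 1))) : ℕ :=
  ((adjs Q g).filter fun q => q ∈ nb p).card

private theorem mem_adjs {N : ℕ} {Q : Rel (N + 1)} {g : Equiv.Perm (Fin (N + 1))} {q : Fin N} :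
    q ∈ adjs Q g ↔ Q (g q.castSucc) (g q.succ) := by
  classical
  unfold adjs
  simp

private theorem sw_left {N : ℕ} (p : Fin N) (g : Equiv.Perm (Fin (N + 1))) :
    (g * Equiv.swap p.castSucc p.succ) p.castSucc = g p.succ := by
  rw [Equiv.Perm.mul_apply, Equiv.swap_apply_left]

private theorem sw_right {N : ℕ} (p : Fin N) (g : Equiv.Perm (Fin (N + 1))) :
    (g * Equiv.swap p.castSucc p.succ) p.succ = g p.castSucc := by
  rw [Equiv.Perm.mul_apply, Equiv.swap_apply_right]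

private theorem sw_other {N : ℕ} {p : Fin N} {i : Fin (N + 1)} (g : Equiv.Perm (Fin (N + 1)))
    (h1 : i.val ≠ p.val) (h2 : i.val ≠ p.val + 1) :
    (g * Equiv.swap p.castSucc p.succ) i = g i := by
  rw [Equiv.Perm.mul_apply, Equiv.swap_apply_of_ne_of_ne]
  · intro h; apply h1; rw [h]; simp
  · intro h; apply h2; rw [h]; simp

private theorem sw_lt {N : ℕ} (p : Fin N) {x y : Fin (N + 1)} (hxy : x < y)
    (hne : ¬ (x = p.castSucc ∧ y = p.succ)) :
    Equiv.swap p.castSucc p.succ x < Equiv.swap p.castSucc p.succ y := by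
  rw [Equiv.swap_apply_def, Equiv.swap_apply_def]
  have hc : p.castSucc.val = p.val := rfl
  have hs : p.succ.val = p.val + 1 := rfl
  have hxy' : x.val < y.val := hxy
  by_cases hx1 : x = p.castSucc
  · rw [if_pos hx1]
    have hx1' : x.val = p.val := by rw [hx1]; rfl
    have hy1 : y ≠ p.castSucc := fun h => by rw [h] at hxy'; omega
    have hy2 : y ≠ p.succ := fun h => hne ⟨hx1, h⟩
    rw [if_neg hy1, if_neg hy2]
    have hy3 : y.val ≠ p.val + 1 := fun h => hy2 (Fin.ext (by rw [hs]; exact h))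
    show p.succ.val < y.val
    omega
  · rw [if_neg hx1]
    have hx1' : x.val ≠ p.val := fun h => hx1 (Fin.ext h)
    by_cases hx2 : x = p.succ
    · rw [if_pos hx2]
      have hx2' : x.val = p.val + 1 := by rw [hx2]; rfl
      have hy1 : y ≠ p.castSucc := fun h => by rw [h] at hxy'; omega
      have hy2 : y ≠ p.succ := fun h => by rw [h] at hxy'; omega
      rw [if_neg hy1, if_neg hy2]
      show p.castSucc.val < y.val
      omega
    · rw [if_neg hx2]
      have hx2' : x.val ≠ p.val + 1 := fun h => hx2 (Fin.ext (by rw [hs]; exact h))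
      by_cases hy1 : y = p.castSucc
      · rw [if_pos hy1]
        have : y.val = p.val := by rw [hy1]; rfl
        show x.val < p.succ.val
        omega
      · rw [if_neg hy1]
        by_cases hy2 : y = p.succ
        · rw [if_pos hy2]
          have : y.val = p.val + 1 := by rw [hy2]; rfl
          show x.val < p.castSucc.val
          omega
        · rw [if_neg hy2]
          exact hxy

private theorem sw_mem {N : ℕ} {Q : Rel (N + 1)} {p : Fin N} {g : Equiv.Perm (Fin (N + 1))}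
    (hg : g ∈ LE Q) (hp : ¬ Q (g p.castSucc) (g p.succ)) :
    g * Equiv.swap p.castSucc p.succ ∈ LE Q := by
  rw [mem_LE] at hg ⊢
  intro i j hij
  rw [Equiv.Perm.mul_apply, Equiv.Perm.mul_apply] at hij
  have h1 := hg _ _ hij
  have h2 := sw_lt p h1 (by
    rintro ⟨h3, h4⟩
    rw [h3, h4] at hij
    exact hp hij)
  rwa [Equiv.swap_apply_self, Equiv.swap_apply_self] at h2

private theorem sw_not {N : ℕ} {Q : Rel (N + 1)} {p : Fin N} {g : Equiv.Perm (Fin (N + 1))}
    (hg : g ∈ LE Q) : ¬ Q (g p.succ) (g p.castSucc) := by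
  intro h
  have h1 := mem_LE.1 hg _ _ h
  have h2 : p.succ.val < p.castSucc.val := h1
  have hc : p.castSucc.val = p.val := rfl
  have hs : p.succ.val = p.val + 1 := rfl
  omega

private theorem rest_eq {N : ℕ} {Q : Rel (N + 1)} {p : Fin N} {g : Equiv.Perm (Fin (N + 1))}
    (hg : g ∈ LE Q) (hp : ¬ Q (g p.castSucc) (g p.succ)) :
    (adjs Q (g * Equiv.swap p.castSucc p.succ)).filter (fun q => ¬ q ∈ nb p) =
      (adjs Q g).filter (fun q => ¬ q ∈ nb p) := by
  ext q
  rw [Finset.mem_filter, Finset.mem_filter, mem_adjs, mem_adjs]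
  by_cases hq : q ∈ nb p
  · simp [hq]
  · have hq2 : ¬ (q.val + 1 = p.val ∨ q.val = p.val + 1) := by
      intro h; apply hq; unfold nb; simp only [Finset.mem_filter, Finset.mem_univ, true_and]
      exact h
    by_cases hqp : q = p
    · subst hqp
      rw [sw_left, sw_right]
      simp only [hp, sw_not hg, false_and]
    · have h0 : q.val ≠ p.val := fun h => hqp (Fin.ext h)
      have hc : q.castSucc.val = q.val := rfl
      have hs : q.succ.val = q.val + 1 := rfl
      rw [sw_other g (i := q.castSucc) (by rw [hc]; exact h0) (by rw [hc]; omega),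
        sw_other g (i := q.succ) (by rw [hs]; omega) (by rw [hs]; omega)]

private theorem adj_eq {N : ℕ} (Q : Rel (N + 1)) (p : Fin N) (g : Equiv.Perm (Fin (N + 1))) :
    adj Q g = ((adjs Q g).filter (fun q => ¬ q ∈ nb p)).card + av Q p g := by
  unfold adj av
  rw [add_comm]
  exact (Finset.card_filter_add_card_filter_not (fun q => q ∈ nb p)).symm

private theorem pow_sub_one {u : ℝ} (hu : 0 ≤ u) (a : ℕ) :
    (1 + u) ^ a - 1 ≤ a * u * (1 + u) ^ a := by
  induction a with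
  | zero => simp
  | succ a ih =>
    have h1 : (1 : ℝ) ≤ (1 + u) ^ a := one_le_pow₀ (by linarith)
    have h2 : (1 + u) ^ (a + 1) = (1 + u) ^ a + u * (1 + u) ^ a := by ring
    push_cast
    have h3 : 0 ≤ (a : ℝ) := Nat.cast_nonneg a
    have h4 : (a : ℝ) * u * (1 + u) ^ a + u * (1 + u) ^ a ≤ (a + 1) * u * (1 + u) ^ (a + 1) := by
      rw [h2]
      have : 0 ≤ (a + 1) * u * (u * (1 + u) ^ a) := by positivity
      nlinarith
    rw [h2] at *
    linarith

private theorem diff_le {u : ℝ} (hu : 0 ≤ u) (A a a' : ℕ) :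
    |(1 + u) ^ (A + a) - (1 + u) ^ (A + a')| ≤
      u * (a * (1 + u) ^ (A + a) + a' * (1 + u) ^ (A + a')) := by
  have hA : (0 : ℝ) ≤ (1 + u) ^ A := by positivity
  have h1 := mul_le_mul_of_nonneg_left (pow_sub_one hu a) hA
  have h2 := mul_le_mul_of_nonneg_left (pow_sub_one hu a') hA
  have h3 : (1 : ℝ) ≤ (1 + u) ^ a := one_le_pow₀ (by linarith)
  have h4 : (1 : ℝ) ≤ (1 + u) ^ a' := one_le_pow₀ (by linarith)
  have h5 := mul_le_mul_of_nonneg_left h3 hA
  have h6 := mul_le_mul_of_nonneg_left h4 hA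
  have h7 : 0 ≤ u * (a * (1 + u) ^ (A + a)) := by positivity
  have h8 : 0 ≤ u * (a' * (1 + u) ^ (A + a')) := by positivity
  rw [pow_add, pow_add] at *
  rw [abs_le]
  constructor <;> nlinarith

/-- the words not comparable at `p` -/
private noncomputable def NC {N : ℕ} (Q : Rel (N + 1)) (p : Fin N) :
    Finset (Equiv.Perm (Fin (N + 1))) := by
  classical
  exact (LE Q).filter fun g => ¬ Q (g p.castSucc) (g p.succ)

private theorem mem_NC {N : ℕ} {Q : Rel (N + 1)} {p : Fin N} {g : Equiv.Perm (Fin (N + 1))} :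
    g ∈ NC Q p ↔ g ∈ LE Q ∧ ¬ Q (g p.castSucc) (g p.succ) := by
  classical
  unfold NC
  rw [Finset.mem_filter]

private theorem NC_sw {N : ℕ} {Q : Rel (N + 1)} {p : Fin N} {g : Equiv.Perm (Fin (N + 1))}
    (hg : g ∈ NC Q p) : g * Equiv.swap p.castSucc p.succ ∈ NC Q p := by
  rw [mem_NC] at hg ⊢
  refine ⟨sw_mem hg.1 hg.2, ?_⟩
  rw [sw_left, sw_right]
  exact sw_not hg.1

private theorem sum_sw {N : ℕ} {Q : Rel (N + 1)} {p : Fin N}
    (f : Equiv.Perm (Fin (N + 1)) → ℝ) :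
    ∑ g ∈ NC Q p, f (g * Equiv.swap p.castSucc p.succ) = ∑ g ∈ NC Q p, f g := by
  refine Finset.sum_nbij' (fun g => g * Equiv.swap p.castSucc p.succ)
    (fun g => g * Equiv.swap p.castSucc p.succ) (fun g hg => NC_sw hg) (fun g hg => NC_sw hg)
    ?_ ?_ ?_
  · intro g _
    rw [mul_assoc, Equiv.swap_mul_self, mul_one]
  · intro g _
    rw [mul_assoc, Equiv.swap_mul_self, mul_one]
  · intro g _
    rfl

private noncomputable def dd {N : ℕ} (κ : Fin (N + 1) → ℕ) (p : Fin N)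
    (g : Equiv.Perm (Fin (N + 1))) : ℝ := (κ (g p.succ) : ℝ) - κ (g p.castSucc)

private theorem dd_sw {N : ℕ} (κ : Fin (N + 1) → ℕ) (p : Fin N)
    (g : Equiv.Perm (Fin (N + 1))) : dd κ p (g * Equiv.swap p.castSucc p.succ) = - dd κ p g := by
  unfold dd
  rw [sw_left, sw_right]
  ring

private theorem dd_le {N h : ℕ} {Q : Rel (N + 1)} {κ : Fin (N + 1) → ℕ} (hκ : Lev h Q κ)
    (p : Fin N) (g : Equiv.Perm (Fin (N + 1))) : |dd κ p g| ≤ h := by
  unfold dd
  have h1 : (κ (g p.succ) : ℝ) ≤ h := by exact_mod_cast (hκ.lt _).le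
  have h2 : (κ (g p.castSucc) : ℝ) ≤ h := by exact_mod_cast (hκ.lt _).le
  have h3 : (0 : ℝ) ≤ κ (g p.succ) := Nat.cast_nonneg _
  have h4 : (0 : ℝ) ≤ κ (g p.castSucc) := Nat.cast_nonneg _
  rw [abs_le]
  constructor <;> linarith

private theorem T_ge {N h : ℕ} {Q : Rel (N + 1)} {κ : Fin (N + 1) → ℕ} (hκ : Lev h Q κ) {u : ℝ}
    (hu : 0 ≤ u) (p : Fin N) :
    - (h * u * ∑ g ∈ NC Q p, (av Q p g : ℝ) * (1 + u) ^ adj Q g) ≤
      ∑ g ∈ NC Q p, (1 + u) ^ adj Q g * dd κ p g := by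
  set σ : Equiv.Perm (Fin (N + 1)) := Equiv.swap p.castSucc p.succ with hσ
  have e1 : ∑ g ∈ NC Q p, (1 + u) ^ adj Q g * dd κ p g =
      - ∑ g ∈ NC Q p, (1 + u) ^ adj Q (g * σ) * dd κ p g := by
    rw [← sum_sw (fun g => (1 + u) ^ adj Q g * dd κ p g), ← Finset.sum_neg_distrib]
    refine Finset.sum_congr rfl fun g _ => ?_
    show (1 + u) ^ adj Q (g * σ) * dd κ p (g * σ) = _
    rw [hσ, dd_sw]
    ring
  have e2 : ∑ g ∈ NC Q p, ((av Q p (g * σ) : ℕ) : ℝ) * (1 + u) ^ adj Q (g * σ) =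
      ∑ g ∈ NC Q p, (av Q p g : ℝ) * (1 + u) ^ adj Q g :=
    sum_sw (fun g => (av Q p g : ℝ) * (1 + u) ^ adj Q g)
  have e3 : ∀ g ∈ NC Q p, - (h * (u * ((av Q p g : ℝ) * (1 + u) ^ adj Q g +
      (av Q p (g * σ) : ℝ) * (1 + u) ^ adj Q (g * σ)))) ≤
      ((1 + u) ^ adj Q g - (1 + u) ^ adj Q (g * σ)) * dd κ p g := by
    intro g hg
    rw [mem_NC] at hg
    have h1 := adj_eq Q p g
    have h2 := adj_eq Q p (g * σ)
    rw [hσ, rest_eq hg.1 hg.2, ← hσ] at h2
    have h3 := diff_le hu ((adjs Q g).filter (fun q => ¬ q ∈ nb p)).card (av Q p g)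
      (av Q p (g * σ))
    rw [← h1, ← h2] at h3
    have h4 := dd_le hκ p g
    have h5 : |((1 + u) ^ adj Q g - (1 + u) ^ adj Q (g * σ)) * dd κ p g| ≤
        (u * ((av Q p g : ℝ) * (1 + u) ^ adj Q g +
          (av Q p (g * σ) : ℝ) * (1 + u) ^ adj Q (g * σ))) * h := by
      rw [abs_mul]
      exact mul_le_mul h3 h4 (abs_nonneg _) (by positivity)
    have h6 := (abs_le.1 h5).1
    linarith
  have e4 := Finset.sum_le_sum e3
  rw [Finset.sum_neg_distrib, ← Finset.mul_sum, ← Finset.mul_sum, Finset.sum_add_distrib, e2] at e4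
  have e5 : ∑ g ∈ NC Q p, ((1 + u) ^ adj Q g - (1 + u) ^ adj Q (g * σ)) * dd κ p g =
      2 * ∑ g ∈ NC Q p, (1 + u) ^ adj Q g * dd κ p g := by
    have : ∑ g ∈ NC Q p, ((1 + u) ^ adj Q g - (1 + u) ^ adj Q (g * σ)) * dd κ p g =
        ∑ g ∈ NC Q p, (1 + u) ^ adj Q g * dd κ p g -
          ∑ g ∈ NC Q p, (1 + u) ^ adj Q (g * σ) * dd κ p g := by
      rw [← Finset.sum_sub_distrib]
      exact Finset.sum_congr rfl fun g _ => by ring
    rw [this]
    linarith
  rw [e5] at e4
  linarith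

private theorem sum_av {N : ℕ} (Q : Rel (N + 1)) (g : Equiv.Perm (Fin (N + 1))) :
    ∑ p : Fin N, av Q p g ≤ 2 * adj Q g := by
  classical
  have e1 : ∀ p : Fin N, av Q p g = ∑ q ∈ adjs Q g, if q ∈ nb p then 1 else 0 := by
    intro p
    unfold av
    rw [Finset.card_filter]
  rw [Finset.sum_congr rfl fun p _ => e1 p, Finset.sum_comm]
  have e2 : ∀ q ∈ adjs Q g, (∑ p : Fin N, if q ∈ nb p then 1 else 0) ≤ 2 := by
    intro q _
    rw [← Finset.card_filter]
    have e3 : (Finset.univ.filter fun p : Fin N => q ∈ nb p) ⊆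
        (Finset.univ.filter fun p : Fin N => q.val + 1 = p.val) ∪
        (Finset.univ.filter fun p : Fin N => q.val = p.val + 1) := by
      intro p hp
      unfold nb at hp
      simp only [Finset.mem_filter, Finset.mem_univ, true_and, Finset.mem_union] at hp ⊢
      exact hp
    have e4 : (Finset.univ.filter fun p : Fin N => q.val + 1 = p.val).card ≤ 1 := by
      rw [Finset.card_le_one]
      intro a ha b hb
      simp only [Finset.mem_filter, Finset.mem_univ, true_and] at ha hb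
      exact Fin.ext (by omega)
    have e5 : (Finset.univ.filter fun p : Fin N => q.val = p.val + 1).card ≤ 1 := by
      rw [Finset.card_le_one]
      intro a ha b hb
      simp only [Finset.mem_filter, Finset.mem_univ, true_and] at ha hb
      exact Fin.ext (by omega)
    exact (Finset.card_le_card e3).trans ((Finset.card_union_le _ _).trans (by omega))
  have e6 := Finset.sum_le_sum e2
  rw [Finset.sum_const, smul_eq_mul] at e6
  unfold adj
  rw [mul_comm]
  exact e6

private theorem telescope {N : ℕ} (κ : Fin (N + 1) → ℕ) (g : Equiv.Perm (Fin (N + 1))) :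
    ∑ p : Fin N, dd κ p g = (κ (g (Fin.last N)) : ℝ) - κ (g 0) := by
  have key : ∀ (M : ℕ) (F : Fin (M + 1) → ℝ),
      ∑ p : Fin M, (F p.succ - F p.castSucc) = F (Fin.last M) - F 0 := by
    intro M
    induction M with
    | zero => intro F; simp
    | succ M ih =>
      intro F
      rw [Fin.sum_univ_castSucc]
      have h1 := ih (fun i => F i.castSucc)
      have h2 : ∑ p : Fin M, (F p.castSucc.succ - F p.castSucc.castSucc) =
          F (Fin.last M).castSucc - F (0 : Fin (M + 1)).castSucc := h1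
      rw [h2]
      have h3 : (Fin.last M).succ = Fin.last (M + 1) := rfl
      have h4 : ((0 : Fin (M + 1)).castSucc : Fin (M + 2)) = 0 := rfl
      rw [h3, h4]
      ring
  exact key N (fun i => (κ (g i) : ℝ))

private theorem per_word {N h : ℕ} {Q : Rel (N + 1)} {κ : Fin (N + 1) → ℕ} (hκ : Lev h Q κ)
    (g : Equiv.Perm (Fin (N + 1))) :
    (adj Q g : ℝ) + ∑ p ∈ Finset.univ.filter (fun p : Fin N => ¬ p ∈ adjs Q g), dd κ p g ≤ h := by
  have h1 := telescope κ g
  have h2 : (κ (g (Fin.last N)) : ℝ) ≤ h := by exact_mod_cast (hκ.lt _).le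
  have h3 : (0 : ℝ) ≤ κ (g 0) := Nat.cast_nonneg _
  have h4 := Finset.sum_filter_add_sum_filter_not Finset.univ (fun p : Fin N => p ∈ adjs Q g)
    (fun p => dd κ p g)
  have h5 : (adj Q g : ℝ) ≤ ∑ p ∈ Finset.univ.filter (fun p : Fin N => p ∈ adjs Q g), dd κ p g := by
    have h6 : Finset.univ.filter (fun p : Fin N => p ∈ adjs Q g) = adjs Q g := by
      ext p; simp
    rw [h6]
    unfold adj
    have h7 : ∀ p ∈ adjs Q g, (1 : ℝ) ≤ dd κ p g := by
      intro p hp
      rw [mem_adjs] at hp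
      have h8 := hκ.mono _ _ hp
      unfold dd
      have h9 : (κ (g p.castSucc) : ℝ) + 1 ≤ κ (g p.succ) := by exact_mod_cast h8
      linarith
    have h8 := Finset.sum_le_sum h7
    rw [Finset.sum_const, nsmul_eq_mul, mul_one] at h8
    exact h8
  linarith

/-- WEIGHTED SWAP SYMMETRY. Write `ν g = (1+u)^(adj Q g)`.
PROOF. For `p : Fin N` let `T p = Σ_{g ∈ LE Q, not comparable at p} ν g (κ (g p.succ) - κ (g p.castSucc))`
(real numbers). The map `g ↦ g * Equiv.swap p.castSucc p.succ` is an involution of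
`{g ∈ LE Q | ¬ Q (g p.castSucc) (g p.succ)}` (also `¬ Q (g p.succ) (g p.castSucc)` because `g ∈ LE Q`),
so `2 T p = Σ (ν g - ν g') (κ (g p.succ) - κ (g p.castSucc))`. `g` and `g'` have the same comparable
neighbours except possibly at the positions `p - 1`, `p + 1` (at `p` neither has one); let `a`, `a'` in
`{0,1,2}` be the number of comparable neighbours at these two positions in `g`, `g'`, and `A0` the number
of all the others: `|ν g - ν g'| = (1+u)^A0 |(1+u)^a - (1+u)^a'| ≤ u (a ν g + a' ν g')` because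
`(1+u)^a - 1 ≤ a u (1+u)^a` for `a = 0, 1, 2`. Since `|κ - κ| ≤ h`, `|T p| ≤ h u Σ_g a_p(g) ν g`, and
`Σ_p a_p(g) ≤ 2 adj Q g`. On the other hand (telescoping) for every `g`
`h ≥ κ (g last) - κ (g 0) = Σ_p (κ (g p.succ) - κ (g p.castSucc))`, and at comparable positions the
summand is `≥ 1`; multiply by `ν g` and sum: `Σ ν adj ≤ h Σ ν - Σ_p T p ≤ h Σ ν + 2 h u Σ ν adj`. -/
theorem swap_weight {N h : ℕ} {Q : Rel (N + 1)} {κ : Fin (N + 1) → ℕ} (hκ : Lev h Q κ) (u : ℝ)
    (hu : 0 ≤ u) :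
    (1 - 2 * (h : ℝ) * u) * ∑ g ∈ LE Q, (adj Q g : ℝ) * (1 + u) ^ adj Q g ≤
      h * ∑ g ∈ LE Q, (1 + u) ^ adj Q g := by
  classical
  have hν : ∀ g : Equiv.Perm (Fin (N + 1)), (0 : ℝ) ≤ (1 + u) ^ adj Q g := fun g => by positivity
  -- multiply the inequality of one word by its weight and sum
  have e1 : ∑ g ∈ LE Q, ((adj Q g : ℝ) * (1 + u) ^ adj Q g +
      ∑ p ∈ Finset.univ.filter (fun p : Fin N => ¬ p ∈ adjs Q g),
        (1 + u) ^ adj Q g * dd κ p g) ≤ ∑ g ∈ LE Q, h * (1 + u) ^ adj Q g := by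
    refine Finset.sum_le_sum fun g _ => ?_
    have h1 := mul_le_mul_of_nonneg_right (per_word hκ g) (hν g)
    rw [← Finset.mul_sum]
    linarith
  rw [Finset.sum_add_distrib, ← Finset.mul_sum] at e1
  have e2 : ∑ g ∈ LE Q, ∑ p ∈ Finset.univ.filter (fun p : Fin N => ¬ p ∈ adjs Q g),
      (1 + u) ^ adj Q g * dd κ p g = ∑ p : Fin N, ∑ g ∈ NC Q p, (1 + u) ^ adj Q g * dd κ p g := by
    have h1 : ∀ g ∈ LE Q, ∑ p ∈ Finset.univ.filter (fun p : Fin N => ¬ p ∈ adjs Q g),
        (1 + u) ^ adj Q g * dd κ p g =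
        ∑ p : Fin N, if ¬ p ∈ adjs Q g then (1 + u) ^ adj Q g * dd κ p g else 0 := fun g _ => by
      rw [Finset.sum_filter]
    rw [Finset.sum_congr rfl h1, Finset.sum_comm]
    refine Finset.sum_congr rfl fun p _ => ?_
    rw [← Finset.sum_filter]
    refine Finset.sum_congr ?_ fun _ _ => rfl
    ext g
    rw [Finset.mem_filter, mem_NC, mem_adjs]
  rw [e2] at e1
  have e3 : - (h * u * ∑ p : Fin N, ∑ g ∈ NC Q p, (av Q p g : ℝ) * (1 + u) ^ adj Q g) ≤
      ∑ p : Fin N, ∑ g ∈ NC Q p, (1 + u) ^ adj Q g * dd κ p g := by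
    rw [Finset.mul_sum, ← Finset.sum_neg_distrib]
    exact Finset.sum_le_sum fun p _ => T_ge hκ hu p
  have e4 : ∑ p : Fin N, ∑ g ∈ NC Q p, (av Q p g : ℝ) * (1 + u) ^ adj Q g ≤
      2 * ∑ g ∈ LE Q, (adj Q g : ℝ) * (1 + u) ^ adj Q g := by
    have h1 : ∀ p ∈ (Finset.univ : Finset (Fin N)),
        ∑ g ∈ NC Q p, (av Q p g : ℝ) * (1 + u) ^ adj Q g ≤
        ∑ g ∈ LE Q, (av Q p g : ℝ) * (1 + u) ^ adj Q g := by
      intro p _
      refine Finset.sum_le_sum_of_subset_of_nonneg (fun g hg => (mem_NC.1 hg).1) ?_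
      intro g _ _
      exact mul_nonneg (Nat.cast_nonneg _) (hν g)
    refine (Finset.sum_le_sum h1).trans ?_
    rw [Finset.sum_comm, Finset.mul_sum]
    refine Finset.sum_le_sum fun g _ => ?_
    rw [← Finset.sum_mul]
    have h2 : (∑ p : Fin N, (av Q p g : ℝ)) ≤ 2 * adj Q g := by exact_mod_cast sum_av Q g
    have h3 := mul_le_mul_of_nonneg_right h2 (hν g)
    linarith
  have h5 : 0 ≤ (h : ℝ) * u := by positivity
  have e5 := mul_le_mul_of_nonneg_left e4 h5
  linarith

/-- the case `u = 0` of `swap_weight` -/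
theorem sum_adj_le {N h : ℕ} {Q : Rel (N + 1)} {κ : Fin (N + 1) → ℕ} (hκ : Lev h Q κ) :
    ∑ g ∈ LE Q, (adj Q g : ℝ) ≤ h * (LE Q).card := by
  have := swap_weight hκ 0 le_rfl
  simpa using this

end Pool.HB45
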