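import Pool.Agent.HB45.Swap

set_option autoImplicit false

/-!
# HB45/Exp: exponential moment of the number of comparable neighbours
-/

namespace Pool.HB45

/-- PROOF. `f v = Σ_{g ∈ LE Q} (1+v)^(adj Q g)`. For `0 ≤ v ≤ u` (so `2 h v ≤ 1/2`)
`f' v = Σ adj (1+v)^(adj-1) ≤ Σ adj (1+v)^adj ≤ 2 h f v` by `swap_weight`. So `f v * exp (-2 h v)` is
nonincreasing on `[0,u]` and `f u ≤ exp (2 h u) f 0 ≤ (1 + 4 h u) f 0` (`exp x ≤ 1 + 2 x` for
`0 ≤ x ≤ 1/2`), `f 0 = card`. -/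
theorem exp_adj {N h : ℕ} {Q : Rel (N + 1)} {κ : Fin (N + 1) → ℕ} (hκ : Lev h Q κ) (u : ℝ)
    (hu : 0 ≤ u) (hu' : 4 * (h : ℝ) * u ≤ 1) :
    ∑ g ∈ LE Q, (1 + u) ^ adj Q g ≤ (1 + 4 * h * u) * (LE Q).card := by
  set f : ℝ → ℝ := fun v => ∑ g ∈ LE Q, (1 + v) ^ adj Q g with hf
  have hderiv : ∀ v : ℝ, HasDerivAt f (∑ g ∈ LE Q, (adj Q g : ℝ) * (1 + v) ^ (adj Q g - 1)) v := by
    intro v
    refine HasDerivAt.fun_sum fun g _ => ?_
    have h1 : HasDerivAt (fun v : ℝ => 1 + v) 1 v := (hasDerivAt_id v).const_add 1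
    have h2 := h1.fun_pow (adj Q g)
    rw [mul_one] at h2
    exact h2
  set F : ℝ → ℝ := fun v => f v * Real.exp (-(2 * h * v)) with hF
  have hFderiv : ∀ v : ℝ, HasDerivAt F ((∑ g ∈ LE Q, (adj Q g : ℝ) * (1 + v) ^ (adj Q g - 1)) *
      Real.exp (-(2 * h * v)) + f v * (Real.exp (-(2 * h * v)) * (-(2 * h)))) v := by
    intro v
    have h1 : HasDerivAt (fun v : ℝ => -(2 * (h : ℝ) * v)) (-(2 * h)) v := by
      have := ((hasDerivAt_id v).const_mul (2 * (h : ℝ))).fun_neg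
      rw [mul_one] at this
      exact this
    exact (hderiv v).mul h1.exp
  have hanti : AntitoneOn F (Set.Icc 0 u) := by
    refine antitoneOn_of_deriv_nonpos (convex_Icc 0 u)
      (fun v _ => (hFderiv v).continuousAt.continuousWithinAt)
      (fun v _ => (hFderiv v).differentiableAt.differentiableWithinAt) ?_
    intro v hv
    rw [interior_Icc] at hv
    rw [(hFderiv v).deriv]
    have hv0 : 0 ≤ v := hv.1.le
    have hh : (0 : ℝ) ≤ h := Nat.cast_nonneg h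
    have h2 : 2 * (h : ℝ) * v ≤ 1 / 2 := by
      have : (h : ℝ) * v ≤ h * u := mul_le_mul_of_nonneg_left hv.2.le hh
      linarith
    have h3 := swap_weight hκ v hv0
    have h4 : ∑ g ∈ LE Q, (adj Q g : ℝ) * (1 + v) ^ (adj Q g - 1) ≤
        ∑ g ∈ LE Q, (adj Q g : ℝ) * (1 + v) ^ adj Q g := by
      refine Finset.sum_le_sum fun g _ => mul_le_mul_of_nonneg_left ?_ (Nat.cast_nonneg _)
      exact pow_le_pow_right₀ (by linarith) (Nat.sub_le _ _)
    have h5 : 0 ≤ ∑ g ∈ LE Q, (adj Q g : ℝ) * (1 + v) ^ adj Q g :=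
      Finset.sum_nonneg fun g _ => by positivity
    have h6 : ∑ g ∈ LE Q, (adj Q g : ℝ) * (1 + v) ^ adj Q g ≤ 2 * h * f v := by
      show _ ≤ 2 * (h : ℝ) * ∑ g ∈ LE Q, (1 + v) ^ adj Q g
      nlinarith
    have h7 : 0 < Real.exp (-(2 * h * v)) := Real.exp_pos _
    have h8 : (∑ g ∈ LE Q, (adj Q g : ℝ) * (1 + v) ^ (adj Q g - 1)) * Real.exp (-(2 * h * v)) +
        f v * (Real.exp (-(2 * h * v)) * (-(2 * h))) =
        ((∑ g ∈ LE Q, (adj Q g : ℝ) * (1 + v) ^ (adj Q g - 1)) - 2 * h * f v) * Real.exp (-(2 * h * v)) := by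
      ring
    rw [h8]
    exact mul_nonpos_of_nonpos_of_nonneg (by linarith) h7.le
  have h9 : F u ≤ F 0 := hanti ⟨le_rfl, hu⟩ ⟨hu, le_rfl⟩ hu
  have h10 : F 0 = (LE Q).card := by
    simp [hF, hf]
  rw [h10] at h9
  have h11 : f u = F u * Real.exp (2 * h * u) := by
    show f u = f u * Real.exp (-(2 * h * u)) * Real.exp (2 * h * u)
    rw [mul_assoc, ← Real.exp_add]; simp
  have hx0 : 0 ≤ 2 * (h : ℝ) * u := by positivity
  have h12 : Real.exp (2 * h * u) ≤ 1 + 4 * h * u := by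
    have h13 := Real.abs_exp_sub_one_sub_id_le (x := 2 * (h : ℝ) * u) (by rw [abs_of_nonneg hx0]; linarith)
    have h14 := (abs_le.mp h13).2
    nlinarith
  have h15 : 0 ≤ f u := Finset.sum_nonneg fun g _ => by positivity
  have h16 : 0 ≤ F u := mul_nonneg h15 (Real.exp_pos _).le
  have h17 : 0 ≤ 1 + 4 * (h : ℝ) * u := by linarith
  show f u ≤ _
  rw [h11, mul_comm]
  exact mul_le_mul h12 h9 h16 h17

end Pool.HB45
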