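import Pool.Agent.HB45.Defs

set_option autoImplicit false

/-!
# HB45/Val: the values of `desB` on a window form an interval with at least two elements
-/

namespace Pool.HB45

/-- The word sorted by an injective function which increases along `Q`. -/
theorem exists_sort {N : ℕ} {Q : Rel (N + 1)} (f : Fin (N + 1) → ℕ) (hinj : Function.Injective f)
    (hmono : ∀ a b, Q a b → f a < f b) : ∃ g ∈ LE Q, StrictMono (f ∘ g) := by
  have h1 : StrictMono (f ∘ Tuple.sort f) :=
    (Tuple.monotone_sort f).strictMono_of_injective (hinj.comp (Tuple.sort f).injective)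
  refine ⟨Tuple.sort f, ?_, h1⟩
  rw [mem_LE]
  intro i j hij
  exact h1.lt_iff_lt.1 (hmono _ _ hij)

theorem des_eq_zero {N : ℕ} (lab : Fin (N + 1) → ℕ) (g : Equiv.Perm (Fin (N + 1))) :
    des lab g = 0 ↔ ∀ i : Fin N, lab (g i.castSucc) ≤ lab (g i.succ) := by
  unfold des
  rw [Finset.card_eq_zero, Finset.filter_eq_empty_iff]
  constructor
  · intro h i
    exact not_lt.1 (h (Finset.mem_univ i))
  · intro h i _
    exact not_lt.2 (h i)

theorem strictMono_of_des {N : ℕ} (lab : Fin (N + 1) → ℕ) (hinj : Function.Injective lab)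
    (g : Equiv.Perm (Fin (N + 1))) (h : des lab g = 0) : StrictMono (lab ∘ g) := by
  rw [des_eq_zero] at h
  refine Fin.strictMono_iff_lt_succ.2 fun i => ?_
  refine lt_of_le_of_ne (h i) ?_
  intro he
  have h1 := g.injective (hinj he)
  exact absurd h1 (Fin.castSucc_lt_succ).ne

/-- The letters sorted by their labels form a linear extension (with no descent). -/
theorem exists_sorted {N : ℕ} {Q : Rel (N + 1)} {lab : Fin (N + 1) → ℕ} (hn : Nat' Q lab) :
    ∃ g ∈ LE Q, des lab g = 0 := by
  obtain ⟨g, hg, hm⟩ := exists_sort lab hn.inj hn.mono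
  refine ⟨g, hg, ?_⟩
  rw [des_eq_zero]
  intro i
  exact (hm (Fin.castSucc_lt_succ (i := i))).le

/-- The letters sorted by increasing level, and by decreasing label inside each level, form a linear
extension with at least `N + 1 - h` descents (one descent for every two neighbours of equal level; at
most `h - 1` neighbours have different levels). -/
theorem exists_many {N h : ℕ} {Q : Rel (N + 1)} {κ lab : Fin (N + 1) → ℕ} (hκ : Lev h Q κ)
    (hn : Nat' Q lab) : ∃ g ∈ LE Q, N + 1 ≤ des lab g + h := by
  classical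
  set M : ℕ := ∑ a, lab a with hM
  have hle : ∀ a, lab a ≤ M := fun a =>
    Finset.single_le_sum (f := lab) (fun _ _ => Nat.zero_le _) (Finset.mem_univ a)
  have hlt : ∀ a b, κ a < κ b → κ a * (M + 1) + (M - lab a) < κ b * (M + 1) + (M - lab b) := by
    intro a b hab
    have h1 : (κ a + 1) * (M + 1) ≤ κ b * (M + 1) := Nat.mul_le_mul_right _ hab
    have h2 : (κ a + 1) * (M + 1) = κ a * (M + 1) + (M + 1) := by ring
    omega
  obtain ⟨g, hg, hm⟩ := exists_sort (Q := Q) (fun a => κ a * (M + 1) + (M - lab a)) (by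
    intro a b hab
    simp only at hab
    rcases lt_trichotomy (κ a) (κ b) with h1 | h1 | h1
    · exact absurd hab (hlt a b h1).ne
    · apply hn.inj
      have := hle a
      have := hle b
      rw [h1] at hab
      omega
    · exact absurd hab (hlt b a h1).ne') (fun a b hab => hlt a b (hκ.mono a b hab))
  refine ⟨g, hg, ?_⟩
  have hpos : 0 < h := lt_of_le_of_lt (Nat.zero_le _) (hκ.lt 0)
  have hkm : Monotone fun i => κ (g i) := by
    intro i j hij
    by_contra hcon
    push Not at hcon
    have h1 := hlt _ _ hcon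
    have h2 := hm.monotone hij
    simp only [Function.comp] at h2
    omega
  -- the neighbours with different levels
  have hA : (Finset.univ.filter fun p : Fin N => κ (g p.castSucc) < κ (g p.succ)).card ≤ h - 1 := by
    have h1 : (Finset.univ.filter fun p : Fin N => κ (g p.castSucc) < κ (g p.succ)).card ≤
        (Finset.Ico 1 h).card := by
      apply Finset.card_le_card_of_injOn (fun p => κ (g p.succ))
      · intro p hp
        have hp' := (Finset.mem_filter.1 hp).2
        simp only [Finset.coe_Ico, Set.mem_Ico]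
        exact ⟨by omega, hκ.lt _⟩
      · have key : ∀ p q : Fin N, κ (g q.castSucc) < κ (g q.succ) → p < q →
            κ (g p.succ) < κ (g q.succ) := by
          intro p q hq hpq
          have h1 : p.succ ≤ q.castSucc := by
            rw [Fin.le_def]
            simp only [Fin.val_succ, Fin.val_castSucc]
            exact hpq
          exact lt_of_le_of_lt (hkm h1) hq
        intro p hp q hq hpq
        have hp' := (Finset.mem_filter.1 hp).2
        have hq' := (Finset.mem_filter.1 hq).2
        rcases lt_trichotomy p q with h1 | h1 | h1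
        · exact absurd hpq (key p q hq' h1).ne
        · exact h1
        · exact absurd hpq (key q p hp' h1).ne'
    rw [Nat.card_Ico] at h1
    exact h1
  have hB : N ≤ des lab g +
      (Finset.univ.filter fun p : Fin N => κ (g p.castSucc) < κ (g p.succ)).card := by
    have h1 : (Finset.univ : Finset (Fin N)) ⊆
        (Finset.univ.filter fun i : Fin N => lab (g i.succ) < lab (g i.castSucc)) ∪
        (Finset.univ.filter fun p : Fin N => κ (g p.castSucc) < κ (g p.succ)) := by
      intro p _
      rw [Finset.mem_union, Finset.mem_filter, Finset.mem_filter]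
      by_cases hp : κ (g p.castSucc) < κ (g p.succ)
      · exact Or.inr ⟨Finset.mem_univ _, hp⟩
      · refine Or.inl ⟨Finset.mem_univ _, ?_⟩
        have h2 : κ (g p.castSucc) = κ (g p.succ) :=
          le_antisymm (hkm (Fin.castSucc_lt_succ (i := p)).le) (not_lt.1 hp)
        have h3 := hm (Fin.castSucc_lt_succ (i := p))
        simp only [Function.comp] at h3
        rw [h2] at h3
        omega
    have h2 := Finset.card_le_card h1
    rw [Finset.card_univ, Fintype.card_fin] at h2
    exact le_trans h2 (Finset.card_union_le _ _)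
  omega

/-! ### the extended word -/

/-- the word `c, lab (g 0), …, lab (g N), d, d, …` -/
def ext {N : ℕ} (lab : Fin (N + 1) → ℕ) (c d : ℕ) (g : Equiv.Perm (Fin (N + 1))) : ℕ → ℕ
  | 0 => c
  | i + 1 => if h : i < N + 1 then lab (g ⟨i, h⟩) else d

theorem desB_ext {N : ℕ} (lab : Fin (N + 1) → ℕ) (c d : ℕ) (g : Equiv.Perm (Fin (N + 1))) :
    desB lab c d g = ∑ i ∈ Finset.range (N + 2),
      if ext lab c d g (i + 1) < ext lab c d g i then 1 else 0 := by
  rw [Finset.sum_range_succ, Finset.sum_range_succ']
  unfold desB des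
  rw [Finset.card_filter, ← Fin.sum_univ_eq_sum_range]
  have h1 : ext lab c d g (0 + 1) = lab (g 0) := by
    show (if h : 0 < N + 1 then lab (g ⟨0, h⟩) else d) = _
    rw [dif_pos (Nat.succ_pos N)]
    rfl
  have h2 : ext lab c d g (N + 1 + 1) = d := by
    show (if h : N + 1 < N + 1 then lab (g ⟨N + 1, h⟩) else d) = _
    rw [dif_neg (lt_irrefl _)]
  have h3 : ext lab c d g (N + 1) = lab (g (Fin.last N)) := by
    show (if h : N < N + 1 then lab (g ⟨N, h⟩) else d) = _
    rw [dif_pos (Nat.lt_succ_self N)]
    rfl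
  rw [h1, h2, h3]
  have h0 : ext lab c d g 0 = c := rfl
  rw [h0]
  congr 2
  refine Finset.sum_congr rfl fun i _ => ?_
  have h4 : ext lab c d g ((i : ℕ) + 1 + 1) = lab (g i.succ) := by
    show (if h : (i : ℕ) + 1 < N + 1 then lab (g ⟨(i : ℕ) + 1, h⟩) else d) = _
    rw [dif_pos (by have := i.isLt; omega)]
    rfl
  have h5 : ext lab c d g ((i : ℕ) + 1) = lab (g i.castSucc) := by
    show (if h : (i : ℕ) < N + 1 then lab (g ⟨(i : ℕ), h⟩) else d) = _
    rw [dif_pos (by have := i.isLt; omega)]
    rfl
  rw [h4, h5]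

theorem ext_swap (E E' : ℕ → ℕ) (p r : ℕ) (h : ∀ i, i ≠ p + 1 → i ≠ p + 2 → E' i = E i)
    (ha : E' (p + 1) = E (p + 2)) (hb : E' (p + 2) = E (p + 1)) (_ : E (p + 1) ≠ E (p + 2)) :
    (∑ i ∈ Finset.range (p + 3 + r), if E' (i + 1) < E' i then 1 else 0) ≤
        (∑ i ∈ Finset.range (p + 3 + r), if E (i + 1) < E i then 1 else 0) + 1 ∧
      (∑ i ∈ Finset.range (p + 3 + r), if E (i + 1) < E i then 1 else 0) ≤
        (∑ i ∈ Finset.range (p + 3 + r), if E' (i + 1) < E' i then 1 else 0) + 1 := by
  have key : ∀ F : ℕ → ℕ, (∑ i ∈ Finset.range (p + 3 + r), if F (i + 1) < F i then 1 else 0) =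
      (∑ i ∈ Finset.range p, if F (i + 1) < F i then 1 else 0) +
      (if F (p + 1) < F p then 1 else 0) + (if F (p + 2) < F (p + 1) then 1 else 0) +
      (if F (p + 3) < F (p + 2) then 1 else 0) +
      ∑ i ∈ Finset.range r, if F (p + 3 + i + 1) < F (p + 3 + i) then 1 else 0 := by
    intro F
    rw [Finset.sum_range_add, Finset.sum_range_succ, Finset.sum_range_succ, Finset.sum_range_succ]
  have h1 : (∑ i ∈ Finset.range p, if E' (i + 1) < E' i then 1 else 0) =
      ∑ i ∈ Finset.range p, if E (i + 1) < E i then 1 else 0 := by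
    refine Finset.sum_congr rfl fun i hi => ?_
    have hi' := Finset.mem_range.1 hi
    rw [h (i + 1) (by omega) (by omega), h i (by omega) (by omega)]
  have h2 : (∑ i ∈ Finset.range r, if E' (p + 3 + i + 1) < E' (p + 3 + i) then 1 else 0) =
      ∑ i ∈ Finset.range r, if E (p + 3 + i + 1) < E (p + 3 + i) then 1 else 0 := by
    refine Finset.sum_congr rfl fun i _ => ?_
    rw [h (p + 3 + i + 1) (by omega) (by omega), h (p + 3 + i) (by omega) (by omega)]
  rw [key E, key E', h1, h2, h p (by omega) (by omega), h (p + 3) (by omega) (by omega), ha, hb]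
  generalize E p = x at *
  generalize E (p + 1) = a at *
  generalize E (p + 2) = b at *
  generalize E (p + 3) = y at *
  split_ifs <;> constructor <;> omega

/-- Swapping two neighbouring letters `a < b` (labels) with neighbours `c'`, `d'` changes `desB` by
`1 - [a < c' ≤ b] - [a ≤ d' < b]` (missing neighbours: the boundary letters `c`, `d`). -/
theorem desB_swap {N : ℕ} {lab : Fin (N + 1) → ℕ} (hinj : Function.Injective lab) (c d : ℕ)
    (g : Equiv.Perm (Fin (N + 1))) (p : Fin N) :
    desB lab c d (g * Equiv.swap p.castSucc p.succ) ≤ desB lab c d g + 1 ∧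
      desB lab c d g ≤ desB lab c d (g * Equiv.swap p.castSucc p.succ) + 1 := by
  rw [desB_ext, desB_ext]
  obtain ⟨r, hr⟩ : ∃ r, N + 2 = p.val + 3 + r := ⟨N - p.val - 1, by have := p.isLt; omega⟩
  rw [hr]
  have hp := p.isLt
  apply ext_swap
  · intro i h1 h2
    cases i with
    | zero => rfl
    | succ i =>
      show (if h : i < N + 1 then lab ((g * Equiv.swap p.castSucc p.succ) ⟨i, h⟩) else d) =
        (if h : i < N + 1 then lab (g ⟨i, h⟩) else d)
      by_cases h : i < N + 1
      · rw [dif_pos h, dif_pos h, Equiv.Perm.mul_apply, Equiv.swap_apply_of_ne_of_ne]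
        · intro he
          rw [Fin.ext_iff] at he
          simp only [Fin.val_castSucc] at he
          omega
        · intro he
          rw [Fin.ext_iff] at he
          simp only [Fin.val_succ] at he
          omega
      · rw [dif_neg h, dif_neg h]
  · show (if h : p.val < N + 1 then lab ((g * Equiv.swap p.castSucc p.succ) ⟨p.val, h⟩) else d) =
        (if h : p.val + 1 < N + 1 then lab (g ⟨p.val + 1, h⟩) else d)
    rw [dif_pos (by omega), dif_pos (by omega), Equiv.Perm.mul_apply]
    congr 2
    exact Equiv.swap_apply_left p.castSucc p.succ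
  · show (if h : p.val + 1 < N + 1 then lab ((g * Equiv.swap p.castSucc p.succ) ⟨p.val + 1, h⟩)
        else d) = (if h : p.val < N + 1 then lab (g ⟨p.val, h⟩) else d)
    rw [dif_pos (by omega), dif_pos (by omega), Equiv.Perm.mul_apply]
    congr 2
    exact Equiv.swap_apply_right p.castSucc p.succ
  · show (if h : p.val < N + 1 then lab (g ⟨p.val, h⟩) else d) ≠
        (if h : p.val + 1 < N + 1 then lab (g ⟨p.val + 1, h⟩) else d)
    rw [dif_pos (by omega), dif_pos (by omega)]
    intro he
    have h1 := g.injective (hinj he)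
    rw [Fin.ext_iff] at h1
    simp only at h1
    omega

/-- swapping two incomparable neighbours -/
theorem swap_mem {N : ℕ} {Q : Rel (N + 1)} (g : Equiv.Perm (Fin (N + 1))) (hg : g ∈ LE Q)
    (p : Fin N) (hp : ¬ Q (g p.castSucc) (g p.succ)) : g * Equiv.swap p.castSucc p.succ ∈ LE Q := by
  rw [mem_LE] at hg ⊢
  intro i j hij
  rw [Equiv.Perm.mul_apply, Equiv.Perm.mul_apply] at hij
  have h1 := hg _ _ hij
  have h2 : ¬ (Equiv.swap p.castSucc p.succ i = p.castSucc ∧
      Equiv.swap p.castSucc p.succ j = p.succ) := by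
    rintro ⟨h3, h4⟩
    rw [h3, h4] at hij
    exact hp hij
  have e1 : (p.castSucc : Fin (N + 1)).val = p.val := rfl
  have e2 : (p.succ : Fin (N + 1)).val = p.val + 1 := rfl
  by_cases hi1 : i = p.castSucc
  · subst hi1
    rw [Equiv.swap_apply_left] at h1 h2
    by_cases hj1 : j = p.castSucc
    · subst hj1
      rw [Equiv.swap_apply_left] at h1
      exact absurd h1 (lt_irrefl _)
    · by_cases hj2 : j = p.succ
      · subst hj2
        exact Fin.castSucc_lt_succ
      · rw [Equiv.swap_apply_of_ne_of_ne hj1 hj2] at h1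
        exact lt_trans Fin.castSucc_lt_succ h1
  · by_cases hi2 : i = p.succ
    · subst hi2
      rw [Equiv.swap_apply_right] at h1 h2
      by_cases hj1 : j = p.castSucc
      · subst hj1
        exact absurd ⟨rfl, Equiv.swap_apply_left _ _⟩ h2
      · by_cases hj2 : j = p.succ
        · subst hj2
          rw [Equiv.swap_apply_right] at h1
          exact absurd h1 (lt_irrefl _)
        · rw [Equiv.swap_apply_of_ne_of_ne hj1 hj2] at h1
          rw [Fin.lt_def] at h1 ⊢
          have h3 : j.val ≠ p.val + 1 := fun h => hj2 (Fin.ext (by omega))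
          omega
    · rw [Equiv.swap_apply_of_ne_of_ne hi1 hi2] at h1
      by_cases hj1 : j = p.castSucc
      · subst hj1
        rw [Equiv.swap_apply_left] at h1
        rw [Fin.lt_def] at h1 ⊢
        have h3 : i.val ≠ p.val := fun h => hi1 (Fin.ext (by omega))
        omega
      · by_cases hj2 : j = p.succ
        · subst hj2
          rw [Equiv.swap_apply_right] at h1
          exact lt_trans h1 Fin.castSucc_lt_succ
        · rw [Equiv.swap_apply_of_ne_of_ne hj1 hj2] at h1
          exact h1

/-- the potential `Σ i * lab (g i)` -/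
def pot {N : ℕ} (lab : Fin (N + 1) → ℕ) (g : Equiv.Perm (Fin (N + 1))) : ℕ :=
  ∑ i : Fin (N + 1), i.val * lab (g i)

theorem pot_swap {N : ℕ} (lab : Fin (N + 1) → ℕ) (g : Equiv.Perm (Fin (N + 1))) (p : Fin N)
    (hp : lab (g p.succ) < lab (g p.castSucc)) :
    pot lab g < pot lab (g * Equiv.swap p.castSucc p.succ) := by
  have h1 : pot lab (g * Equiv.swap p.castSucc p.succ) =
      ∑ i : Fin (N + 1), (Equiv.swap p.castSucc p.succ i).val * lab (g i) := by
    unfold pot
    rw [← Equiv.sum_comp (Equiv.swap p.castSucc p.succ)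
      (fun i : Fin (N + 1) => (Equiv.swap p.castSucc p.succ i).val * lab (g i))]
    refine Finset.sum_congr rfl fun i _ => ?_
    rw [Equiv.swap_apply_self, Equiv.Perm.mul_apply]
  have hne : p.castSucc ≠ p.succ := (Fin.castSucc_lt_succ (i := p)).ne
  have h2 : ∑ i : Fin (N + 1), (((Equiv.swap p.castSucc p.succ i).val : ℤ) - (i.val : ℤ)) *
      (lab (g i) : ℤ) = (lab (g p.castSucc) : ℤ) - lab (g p.succ) := by
    rw [Fintype.sum_eq_add p.castSucc p.succ hne]
    · rw [Equiv.swap_apply_left, Equiv.swap_apply_right, Fin.val_succ, Fin.val_castSucc]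
      push_cast
      ring
    · rintro x ⟨hx1, hx2⟩
      rw [Equiv.swap_apply_of_ne_of_ne hx1 hx2]
      ring
  have h3 : (pot lab (g * Equiv.swap p.castSucc p.succ) : ℤ) - pot lab g =
      (lab (g p.castSucc) : ℤ) - lab (g p.succ) := by
    rw [← h2, h1]
    unfold pot
    push_cast
    rw [← Finset.sum_sub_distrib]
    refine Finset.sum_congr rfl fun i _ => ?_
    ring
  have h4 : (lab (g p.succ) : ℤ) < lab (g p.castSucc) := by exact_mod_cast hp
  omega

theorem between_aux {N : ℕ} {Q : Rel (N + 1)} {lab : Fin (N + 1) → ℕ} (hn : Nat' Q lab) (c d : ℕ)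
    (s : Equiv.Perm (Fin (N + 1))) (hs : des lab s = 0) (B : ℕ) (hB : ∀ g, pot lab g ≤ B) :
    ∀ (m : ℕ) (g : Equiv.Perm (Fin (N + 1))), B - pot lab g = m → g ∈ LE Q → ∀ v : ℕ,
      ((desB lab c d g ≤ v ∧ v ≤ desB lab c d s) ∨ (desB lab c d s ≤ v ∧ v ≤ desB lab c d g)) →
      ∃ g' ∈ LE Q, desB lab c d g' = v := by
  intro m
  induction m using Nat.strong_induction_on with
  | _ m ih =>
    intro g hm hg v hv
    by_cases h0 : des lab g = 0
    · have h1 := strictMono_of_des lab hn.inj g h0
      have h2 := strictMono_of_des lab hn.inj s hs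
      have h3 : lab ∘ g = lab ∘ s := by
        refine (StrictMono.range_inj h1 h2).1 ?_
        rw [Set.range_comp, Set.range_comp, g.surjective.range_eq, s.surjective.range_eq]
      have h4 : g = s := by
        ext i
        exact congrArg Fin.val (hn.inj (congrFun h3 i))
      refine ⟨g, hg, ?_⟩
      rw [h4] at hv ⊢
      omega
    · obtain ⟨p, hp⟩ : ∃ p : Fin N, lab (g p.succ) < lab (g p.castSucc) := by
        by_contra hcon
        push Not at hcon
        exact h0 ((des_eq_zero lab g).2 hcon)
      by_cases hv0 : v = desB lab c d g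
      · exact ⟨g, hg, hv0.symm⟩
      · have h1 : g * Equiv.swap p.castSucc p.succ ∈ LE Q :=
          swap_mem g hg p fun hq => absurd (hn.mono _ _ hq) (not_lt.2 hp.le)
        have h2 := pot_swap lab g p hp
        have h3 := hB (g * Equiv.swap p.castSucc p.succ)
        have h4 := desB_swap hn.inj c d g p
        exact ih (B - pot lab (g * Equiv.swap p.castSucc p.succ)) (by omega) _ rfl h1 v (by omega)

/-- BUBBLE SORT: if some linear extension has `desB ≤ v` and `s` is sorted, then ... in the form used:
every value between `desB g` and `desB s` is taken, `s` the sorted word.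
PROOF. Induction on the number of inversions `#{i < j | lab (g j) < lab (g i)}`: if `g` is not sorted it
has a descent at some `p`; the two letters are incomparable (`hn.mono`), so
`g' = g * swap p.castSucc p.succ ∈ LE Q` has one inversion less; `desB_swap`. -/
theorem between {N : ℕ} {Q : Rel (N + 1)} {lab : Fin (N + 1) → ℕ} (hn : Nat' Q lab) (c d : ℕ)
    (s : Equiv.Perm (Fin (N + 1))) (hs : des lab s = 0) (g : Equiv.Perm (Fin (N + 1))) (hg : g ∈ LE Q)
    (v : ℕ) (hv : (desB lab c d g ≤ v ∧ v ≤ desB lab c d s) ∨ (desB lab c d s ≤ v ∧ v ≤ desB lab c d g)) :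
    ∃ g' ∈ LE Q, desB lab c d g' = v :=
  between_aux hn c d s hs (Finset.univ.sup (pot lab))
    (fun g => Finset.le_sup (f := pot lab) (Finset.mem_univ g)) _ g rfl hg v hv

/-- MAIN. The minimum `v` of `desB` and `v + 1` are both values. PROOF. `s` sorted has `desB ≤ 2`, the
word of `exists_many` has `desB ≥ 3`. Let `v` be the minimum, taken at `g0`. If `v < desB s` use
`between` with `g0` and `v + 1`; otherwise `v = desB s ≤ 2` and use `between` with the word of
`exists_many`. -/
theorem win_values {N h : ℕ} {Q : Rel (N + 1)} {κ lab : Fin (N + 1) → ℕ} (hκ : Lev h Q κ)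
    (hn : Nat' Q lab) (hN : h + 2 ≤ N) (c d : ℕ) :
    ∃ v, (∀ g ∈ LE Q, v ≤ desB lab c d g) ∧ (∃ g ∈ LE Q, desB lab c d g = v) ∧
      ∃ g ∈ LE Q, desB lab c d g = v + 1 := by
  obtain ⟨s, hs, hs0⟩ := exists_sorted hn
  obtain ⟨b, hb, hb0⟩ := exists_many hκ hn
  obtain ⟨g0, hg0, hmin⟩ := Finset.exists_min_image (LE Q) (desB lab c d) ⟨s, hs⟩
  refine ⟨desB lab c d g0, hmin, ⟨g0, hg0, rfl⟩, ?_⟩
  have h1 : desB lab c d s ≤ 2 := by
    unfold desB
    rw [hs0]
    split_ifs <;> omega
  have h2 : 3 ≤ desB lab c d b := by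
    unfold desB
    omega
  have h3 := hmin s hs
  by_cases h4 : desB lab c d g0 < desB lab c d s
  · exact between hn c d s hs0 g0 hg0 _ (Or.inl ⟨by omega, by omega⟩)
  · exact between hn c d s hs0 b hb _ (Or.inr ⟨by omega, by omega⟩)

end Pool.HB45
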