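import Pool.Agent.HB45.Val

set_option autoImplicit false

/-!
# HB45/DecG: facts about the window polynomials
-/

open Polynomial

namespace Pool.HB45

theorem coeff_Gp {B : ℕ} (Q : Rel (B + 1)) (lab : Fin (B + 1) → ℕ) (c d k : ℕ) :
    (Gp Q lab c d).coeff k = ∑ g ∈ LE Q, if k = desB lab c d g then (1 : ℝ) else 0 := by
  unfold Gp
  rw [finsetSum_coeff]
  refine Finset.sum_congr rfl fun g _ => ?_
  rw [coeff_X_pow]

theorem coeff_Gp_nonneg {B : ℕ} (Q : Rel (B + 1)) (lab : Fin (B + 1) → ℕ) (c d k : ℕ) :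
    0 ≤ (Gp Q lab c d).coeff k := by
  rw [coeff_Gp]
  refine Finset.sum_nonneg fun g _ => ?_
  split_ifs
  · exact zero_le_one
  · exact le_rfl

theorem one_le_coeff_Gp {B : ℕ} (Q : Rel (B + 1)) (lab : Fin (B + 1) → ℕ) (c d : ℕ)
    (g : Equiv.Perm (Fin (B + 1))) (hg : g ∈ LE Q) : 1 ≤ (Gp Q lab c d).coeff (desB lab c d g) := by
  rw [coeff_Gp]
  have h1 := Finset.single_le_sum
    (f := fun g' => if desB lab c d g = desB lab c d g' then (1 : ℝ) else 0) (s := LE Q)
    (fun g' _ => by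
      split_ifs
      · exact zero_le_one
      · exact le_rfl) hg
  simp only [if_true] at h1
  exact h1

theorem desB_le {B : ℕ} (lab : Fin (B + 1) → ℕ) (c d : ℕ) (g : Equiv.Perm (Fin (B + 1))) :
    desB lab c d g ≤ B + 2 := by
  have h1 : des lab g ≤ B := by
    unfold des
    refine le_trans (Finset.card_le_univ _) ?_
    rw [Fintype.card_fin]
  unfold desB
  split_ifs <;> omega

/-- facts about the window polynomials: nonnegative coefficients, degree `≤ B + 2`, value at `1` equal to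
`#LE ≤ (B+1)!`, two neighbouring coefficients `≥ 1`, the smaller one being the lowest (`win_values`) -/
theorem Gp_facts {B h : ℕ} {Q : Rel (B + 1)} {κ lab : Fin (B + 1) → ℕ} (hκ : Lev h Q κ)
    (hn : Nat' Q lab) (hB : h + 2 ≤ B) (c d : ℕ) :
    (∀ k, 0 ≤ (Gp Q lab c d).coeff k) ∧ (Gp Q lab c d).natDegree ≤ B + 2 ∧
    (Gp Q lab c d).eval 1 = (LE Q).card ∧ ((LE Q).card : ℝ) ≤ ((B + 1).factorial : ℝ) ∧
    1 ≤ ((LE Q).card : ℝ) ∧
    ∃ v, (∀ k < v, (Gp Q lab c d).coeff k = 0) ∧ 1 ≤ (Gp Q lab c d).coeff v ∧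
      1 ≤ (Gp Q lab c d).coeff (v + 1) := by
  refine ⟨coeff_Gp_nonneg Q lab c d, ?_, ?_, ?_, ?_, ?_⟩
  · unfold Gp
    refine natDegree_sum_le_of_forall_le _ _ fun g _ => ?_
    exact le_trans (natDegree_X_pow_le _) (desB_le lab c d g)
  · unfold Gp
    rw [eval_finsetSum]
    simp
  · have h1 : (LE Q).card ≤ (B + 1).factorial := by
      refine le_trans (Finset.card_le_univ _) ?_
      rw [Fintype.card_perm, Fintype.card_fin]
    exact_mod_cast h1
  · obtain ⟨g, hg, _⟩ := exists_sorted hn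
    have h1 : 1 ≤ (LE Q).card := Finset.card_pos.2 ⟨g, hg⟩
    exact_mod_cast h1
  · obtain ⟨v, h1, ⟨g, hg, h2⟩, ⟨g', hg', h3⟩⟩ := win_values hκ hn hB c d
    refine ⟨v, ?_, ?_, ?_⟩
    · intro k hk
      rw [coeff_Gp]
      refine Finset.sum_eq_zero fun f hf => ?_
      rw [if_neg]
      have := h1 f hf
      omega
    · have := one_le_coeff_Gp Q lab c d g hg
      rwa [h2] at this
    · have := one_le_coeff_Gp Q lab c d g' hg'
      rwa [h3] at this

end Pool.HB45
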