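import Mathlib

set_option autoImplicit false

/-!
# HB45/FacDec: decay of one window polynomial on a circle

`p_d = G_d r^d / G(r)`: the two neighbouring terms `v`, `v + 1` alone give
`‖G(re^(iθ))‖ ≤ G(r) - g_v g_(v+1) (1 - cos θ) / (g_v + g_(v+1))`, `g_v, g_(v+1) ≥ 2^(-b)`, `G(r) ≤ M 2^b`.
-/

open Polynomial

namespace Pool.HB45

private theorem facDec_two {x y : ℝ} (hx : 0 < x) (hy : 0 < y) (θ : ℝ) :
    ‖(x : ℂ) + (y : ℂ) * Complex.exp (θ * Complex.I)‖ ≤ (x + y) - x * y * (1 - Real.cos θ) / (x + y) := by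
  have hS : 0 < x + y := by linarith
  have hc1 := Real.cos_le_one θ
  have hc2 := Real.neg_one_le_cos θ
  have hnorm : ‖(x : ℂ) + (y : ℂ) * Complex.exp (θ * Complex.I)‖ ^ 2 =
      (x + y) ^ 2 - 2 * (x * y * (1 - Real.cos θ)) := by
    rw [Complex.sq_norm, Complex.normSq_apply]
    simp only [Complex.add_re, Complex.add_im, Complex.ofReal_re, Complex.ofReal_im, Complex.mul_re,
      Complex.mul_im, Complex.exp_ofReal_mul_I_re, Complex.exp_ofReal_mul_I_im]
    linear_combination y ^ 2 * Real.sin_sq_add_cos_sq θ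
  have hp : 0 ≤ x * y * (1 - Real.cos θ) := by
    have := mul_pos hx hy
    exact mul_nonneg this.le (by linarith)
  have hle : x * y * (1 - Real.cos θ) ≤ (x + y) ^ 2 := by
    have := mul_pos hx hy
    nlinarith [sq_nonneg (x - y)]
  have hnn : 0 ≤ (x + y) - x * y * (1 - Real.cos θ) / (x + y) := by
    rw [sub_nonneg, div_le_iff₀ hS]
    nlinarith
  rw [← pow_le_pow_iff_left₀ (norm_nonneg _) hnn two_ne_zero, hnorm]
  have e1 : ((x + y) - x * y * (1 - Real.cos θ) / (x + y)) ^ 2 =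
      (x + y) ^ 2 - 2 * (x * y * (1 - Real.cos θ)) + (x * y * (1 - Real.cos θ) / (x + y)) ^ 2 := by
    field_simp
    ring
  rw [e1]
  have := sq_nonneg (x * y * (1 - Real.cos θ) / (x + y))
  linarith

/-- ONE FACTOR. `p_d = G_d r^d / G(r)`: `|G(re^(iθ))/G(r)|² = 1 - Σ_{d<d'} 2 p_d p_d' (1 - cos ((d'-d)θ))
≤ 1 - 2 p_v p_(v+1) (1 - cos θ) ≤ exp (-2 p_v p_(v+1) (1 - cos θ))`, `p_v, p_(v+1) ≥ 1/(M 4^b)`. -/
theorem factor_decay (b : ℕ) (M : ℝ) (G : ℝ[X]) (hpos : ∀ k, 0 ≤ G.coeff k) (hdeg : G.natDegree ≤ b)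
    (hM : G.eval 1 ≤ M) (v : ℕ) (hv : 1 ≤ G.coeff v) (hv' : 1 ≤ G.coeff (v + 1)) (r θ : ℝ)
    (hr : 1 / 2 ≤ r) (hr' : r ≤ 2) :
    ‖aeval ((r : ℂ) * Complex.exp (θ * Complex.I)) G‖ ≤
      Real.exp (-(1 / (M * 4 ^ b) ^ 2 * (1 - Real.cos θ))) * G.eval r := by
  have hr0 : 0 < r := by linarith
  have hc1 := Real.cos_le_one θ
  have hvb : v + 1 ≤ b := by
    refine le_trans (le_natDegree_of_ne_zero ?_) hdeg
    intro h0
    rw [h0] at hv'
    linarith
  have hlt : G.natDegree < b + 1 := by omega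
  set g : ℕ → ℝ := fun i => G.coeff i * r ^ i with hg
  have hg0 : ∀ i, 0 ≤ g i := fun i => mul_nonneg (hpos i) (by positivity)
  have hA : G.eval r = ∑ i ∈ Finset.range (b + 1), g i := eval_eq_sum_range' hlt r
  have hvm : v ∈ Finset.range (b + 1) := Finset.mem_range.mpr (by omega)
  have hvm' : v + 1 ∈ (Finset.range (b + 1)).erase v :=
    Finset.mem_erase.mpr ⟨by omega, Finset.mem_range.mpr (by omega)⟩
  -- splitting
  have hA2 : G.eval r = g v + (g (v + 1) + ∑ i ∈ ((Finset.range (b + 1)).erase v).erase (v + 1), g i) := by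
    rw [hA, ← Finset.add_sum_erase _ _ hvm, ← Finset.add_sum_erase _ _ hvm']
  have hrest : 0 ≤ ∑ i ∈ ((Finset.range (b + 1)).erase v).erase (v + 1), g i :=
    Finset.sum_nonneg fun i _ => hg0 i
  -- lower bounds for the two terms
  have hlow : ∀ i, i ≤ b → 1 ≤ G.coeff i → (1 / 2 : ℝ) ^ b ≤ g i := by
    intro i hi h1
    have h2 : (1 / 2 : ℝ) ^ b ≤ (1 / 2 : ℝ) ^ i := pow_le_pow_of_le_one (by norm_num) (by norm_num) hi
    have h3 : (1 / 2 : ℝ) ^ i ≤ r ^ i := pow_le_pow_left₀ (by norm_num) hr i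
    have h4 : r ^ i ≤ g i := by
      have : 0 < r ^ i := by positivity
      show r ^ i ≤ G.coeff i * r ^ i
      nlinarith
    linarith
  have hgv := hlow v (by omega) hv
  have hgv' := hlow (v + 1) hvb hv'
  have hhalf : (0 : ℝ) < (1 / 2) ^ b := by positivity
  have hgvp : 0 < g v := by linarith
  have hgvp' : 0 < g (v + 1) := by linarith
  have hApos : 0 < G.eval r := by rw [hA2]; linarith
  -- upper bound
  have hAle : G.eval r ≤ M * 2 ^ b := by
    have h1 : G.eval 1 = ∑ i ∈ Finset.range (b + 1), G.coeff i * 1 ^ i := eval_eq_sum_range' hlt 1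
    have h2 : G.eval r ≤ G.eval 1 * 2 ^ b := by
      rw [hA, h1, Finset.sum_mul]
      refine Finset.sum_le_sum fun i hi => ?_
      have h3 : r ^ i ≤ 2 ^ b := by
        refine (pow_le_pow_left₀ hr0.le hr' i).trans (pow_le_pow_right₀ (by norm_num) ?_)
        have := Finset.mem_range.mp hi
        omega
      show G.coeff i * r ^ i ≤ G.coeff i * 1 ^ i * 2 ^ b
      rw [one_pow, mul_one]
      exact mul_le_mul_of_nonneg_left h3 (hpos i)
    refine h2.trans (mul_le_mul_of_nonneg_right hM (by positivity))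
  -- the norm
  have hterm : ∀ i, ‖G.coeff i • ((r : ℂ) * Complex.exp (θ * Complex.I)) ^ i‖ = g i := by
    intro i
    rw [norm_smul, norm_pow, norm_mul, Complex.norm_exp_ofReal_mul_I, mul_one, Complex.norm_real,
      Real.norm_of_nonneg (hpos i), Real.norm_of_nonneg hr0.le]
  have htwo : G.coeff v • ((r : ℂ) * Complex.exp (θ * Complex.I)) ^ v +
      G.coeff (v + 1) • ((r : ℂ) * Complex.exp (θ * Complex.I)) ^ (v + 1) =
      Complex.exp (θ * Complex.I) ^ v * (((g v : ℝ) : ℂ) + ((g (v + 1) : ℝ) : ℂ) * Complex.exp (θ * Complex.I)) := by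
    rw [Complex.real_smul, Complex.real_smul, hg]
    push_cast
    ring
  have hmain : ‖aeval ((r : ℂ) * Complex.exp (θ * Complex.I)) G‖ ≤
      G.eval r - g v * g (v + 1) * (1 - Real.cos θ) / (g v + g (v + 1)) := by
    rw [aeval_eq_sum_range' hlt, ← Finset.add_sum_erase _ _ hvm, ← Finset.add_sum_erase _ _ hvm', ← add_assoc, htwo]
    refine (norm_add_le _ _).trans ?_
    rw [norm_mul, norm_pow, Complex.norm_exp_ofReal_mul_I, one_pow, one_mul, hA2]
    have h1 := facDec_two hgvp hgvp' θ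
    have h2 : ‖∑ i ∈ ((Finset.range (b + 1)).erase v).erase (v + 1),
        G.coeff i • ((r : ℂ) * Complex.exp (θ * Complex.I)) ^ i‖ ≤
        ∑ i ∈ ((Finset.range (b + 1)).erase v).erase (v + 1), g i := by
      refine (norm_sum_le _ _).trans (le_of_eq ?_)
      exact Finset.sum_congr rfl fun i _ => hterm i
    linarith
  refine hmain.trans ?_
  -- compare with the exponential
  set p := g v * g (v + 1) * (1 - Real.cos θ) with hp
  have hp0 : 0 ≤ p := mul_nonneg (mul_pos hgvp hgvp').le (by linarith)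
  have hS : 0 < g v + g (v + 1) := by linarith
  have hSA : g v + g (v + 1) ≤ G.eval r := by rw [hA2]; linarith
  have hM0 : 0 < M * 2 ^ b := lt_of_lt_of_le hApos hAle
  have hMpos : 0 < M := by
    by_contra hc
    push Not at hc
    have : M * 2 ^ b ≤ 0 := mul_nonpos_of_nonpos_of_nonneg hc (by positivity)
    linarith
  have hquot : 1 / (M * 4 ^ b) ^ 2 * (1 - Real.cos θ) * G.eval r ≤ p / (g v + g (v + 1)) := by
    rw [le_div_iff₀ hS]
    have h1 : (1 / 2 : ℝ) ^ b * (1 / 2 : ℝ) ^ b ≤ g v * g (v + 1) :=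
      mul_le_mul hgv hgv' hhalf.le hgvp.le
    have h2 : G.eval r * (g v + g (v + 1)) ≤ (M * 2 ^ b) * (M * 2 ^ b) :=
      mul_le_mul hAle (hSA.trans hAle) hS.le hM0.le
    have h3 : 1 / (M * 4 ^ b) ^ 2 * ((M * 2 ^ b) * (M * 2 ^ b)) = (1 / 2 : ℝ) ^ b * (1 / 2 : ℝ) ^ b := by
      have e4 : (4 : ℝ) ^ b = 2 ^ b * 2 ^ b := by
        rw [← mul_pow]; norm_num
      rw [e4, one_div_pow]
      have : (2 : ℝ) ^ b ≠ 0 := by positivity
      field_simp
    have h4 : 1 / (M * 4 ^ b) ^ 2 * (G.eval r * (g v + g (v + 1))) ≤ g v * g (v + 1) := by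
      refine le_trans (mul_le_mul_of_nonneg_left h2 (by positivity)) ?_
      rw [h3]
      exact h1
    calc 1 / (M * 4 ^ b) ^ 2 * (1 - Real.cos θ) * G.eval r * (g v + g (v + 1))
        = (1 / (M * 4 ^ b) ^ 2 * (G.eval r * (g v + g (v + 1)))) * (1 - Real.cos θ) := by ring
      _ ≤ (g v * g (v + 1)) * (1 - Real.cos θ) := mul_le_mul_of_nonneg_right h4 (by linarith)
      _ = p := by rw [hp]
  have hexp := Real.add_one_le_exp (-(1 / (M * 4 ^ b) ^ 2 * (1 - Real.cos θ)))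
  have h5 := mul_le_mul_of_nonneg_right hexp hApos.le
  refine le_trans ?_ h5
  have : (-(1 / (M * 4 ^ b) ^ 2 * (1 - Real.cos θ)) + 1) * G.eval r =
      G.eval r - 1 / (M * 4 ^ b) ^ 2 * (1 - Real.cos θ) * G.eval r := by ring
  rw [this]
  linarith

end Pool.HB45
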