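import Pool.Agent.HB45.Win
import Pool.Agent.HB45.DecG
import Pool.Agent.HB45.FacDec

set_option autoImplicit false

/-!
# HB45/Dec: decay of `W` on circles
-/

open Polynomial

namespace Pool.HB45

theorem aeval_Wp {N : ℕ} (Q : Rel (N + 1)) (lab : Fin (N + 1) → ℕ) (t : ℂ) :
    aeval t (Wp Q lab) = Wc Q lab t := by
  simp [Wp, Wc]

theorem eval_Wp {N : ℕ} (Q : Rel (N + 1)) (lab : Fin (N + 1) → ℕ) (t : ℝ) :
    (Wp Q lab).eval t = Wr Q lab t := by
  simp [Wp, Wr, eval_finset_sum]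

/-- DECAY. `B = h + 2`, `m = (N + 1) / (B + 2)` windows; `win_decomp`, triangle inequality,
`factor_decay` for every window, `r ^ rest ≥ 0`: `‖W(re^(iθ))‖ ≤ exp (-c m (1 - cos θ)) W(r)` and
`m ≥ N/(2(B+2))` for large `N`. -/
theorem decay (h : ℕ) : ∃ c1 : ℝ, 0 < c1 ∧ ∃ N1 : ℕ, ∀ N ≥ N1, ∀ (Q : Rel (N + 1))
    (κ lab : Fin (N + 1) → ℕ), Lev h Q κ → Nat' Q lab → ∀ r θ : ℝ, 1 / 2 ≤ r → r ≤ 2 →
      ‖aeval ((r : ℂ) * Complex.exp (θ * Complex.I)) (Wp Q lab)‖ ≤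
        Real.exp (-(c1 * N * (1 - Real.cos θ))) * (Wp Q lab).eval r := by
  obtain ⟨B, hB⟩ : ∃ B, B = h + 2 := ⟨_, rfl⟩
  obtain ⟨M, hM⟩ : ∃ M : ℝ, M = ((B + 1).factorial : ℝ) := ⟨_, rfl⟩
  have hM0 : 0 < M := by
    rw [hM]
    exact_mod_cast Nat.factorial_pos _
  obtain ⟨c, hc⟩ : ∃ c : ℝ, c = 1 / (M * 4 ^ (B + 2)) ^ 2 := ⟨_, rfl⟩
  have hc0 : 0 < c := by
    rw [hc]
    positivity
  refine ⟨c / (2 * ((B : ℝ) + 2)), by positivity, 2 * B, ?_⟩
  intro N hN Q κ lab hκ hn r θ hr hr'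
  obtain ⟨m, hmd⟩ : ∃ m, m = (N + 1) / (B + 2) := ⟨_, rfl⟩
  have hm : m * (B + 2) ≤ N + 1 := by
    rw [hmd]
    exact Nat.div_mul_le_self _ _
  have hm' : N + 1 < m * (B + 2) + (B + 2) := by
    have h1 := Nat.div_add_mod (N + 1) (B + 2)
    have h2 := Nat.mod_lt (N + 1) (show 0 < B + 2 by omega)
    rw [← hmd, Nat.mul_comm] at h1
    omega
  have hr0 : 0 ≤ r := by linarith
  have hcos : 0 ≤ 1 - Real.cos θ := by linarith [Real.cos_le_one θ]
  have ht : ‖(r : ℂ) * Complex.exp (θ * Complex.I)‖ = r := by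
    rw [norm_mul, Complex.norm_exp_ofReal_mul_I, mul_one, Complex.norm_real, Real.norm_eq_abs,
      abs_of_nonneg hr0]
  generalize htt : (r : ℂ) * Complex.exp (θ * Complex.I) = t at ht
  have hfac : ∀ (π : Equiv.Perm (Fin (N + 1))) (k : Fin m),
      ‖aeval t (GW hm Q lab π k)‖ ≤
        Real.exp (-(c * (1 - Real.cos θ))) * (GW hm Q lab π k).eval r := by
    intro π k
    obtain ⟨h1, h2, h3, h4, _, v, _, h6, h7⟩ := Gp_facts (lev_win hκ (win_le hm k) π)
      (nat_win hn (win_le hm k) π) (by omega) (cB lab B k.val π) (dB lab B k.val π)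
    have h8 := factor_decay (B + 2) M (GW hm Q lab π k) h1 h2
      (by rw [hM]; exact h3.trans_le h4) v h6 h7 r θ hr hr'
    rw [htt, ← hc] at h8
    exact h8
  have hpos : ∀ (π : Equiv.Perm (Fin (N + 1))) (k : Fin m), 0 ≤ (GW hm Q lab π k).eval r := by
    intro π k
    unfold GW Gp
    rw [eval_finset_sum]
    refine Finset.sum_nonneg fun g _ => ?_
    rw [eval_pow, eval_X]
    exact pow_nonneg hr0 _
  have hE : Real.exp (-(c * (1 - Real.cos θ))) ^ m ≤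
      Real.exp (-(c / (2 * ((B : ℝ) + 2)) * N * (1 - Real.cos θ))) := by
    rw [← Real.exp_nat_mul]
    refine Real.exp_le_exp.2 ?_
    have h1 : (N : ℝ) ≤ 2 * ((B : ℝ) + 2) * m := by
      have h2 : N ≤ 2 * (B + 2) * m := by nlinarith
      exact_mod_cast h2
    have h3 : c / (2 * ((B : ℝ) + 2)) * N ≤ c * m := by
      rw [div_mul_eq_mul_div, div_le_iff₀ (by positivity)]
      nlinarith
    nlinarith [mul_le_mul_of_nonneg_right h3 hcos]
  rw [win_decomp hm Q lab, map_sum, eval_finset_sum, Finset.mul_sum]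
  refine (norm_sum_le _ _).trans (Finset.sum_le_sum fun π _ => ?_)
  rw [map_mul, map_mul, map_pow, map_prod, aeval_C, aeval_X, norm_mul, norm_mul, norm_pow, norm_prod,
    eval_mul, eval_mul, eval_pow, eval_prod, eval_C, eval_X, ht, Complex.coe_algebraMap,
    Complex.norm_real, Real.norm_eq_abs, abs_of_nonneg (inv_nonneg.2 (Finset.prod_nonneg
      fun k _ => Nat.cast_nonneg _))]
  have hprod : ∏ k : Fin m, ‖aeval t (GW hm Q lab π k)‖ ≤
      Real.exp (-(c / (2 * ((B : ℝ) + 2)) * N * (1 - Real.cos θ))) *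
        ∏ k : Fin m, (GW hm Q lab π k).eval r := by
    calc ∏ k : Fin m, ‖aeval t (GW hm Q lab π k)‖
        ≤ ∏ k : Fin m, (Real.exp (-(c * (1 - Real.cos θ))) * (GW hm Q lab π k).eval r) :=
          Finset.prod_le_prod (fun k _ => norm_nonneg _) fun k _ => hfac π k
      _ = Real.exp (-(c * (1 - Real.cos θ))) ^ m * ∏ k : Fin m, (GW hm Q lab π k).eval r := by
          rw [Finset.prod_mul_distrib, Finset.prod_const, Finset.card_univ, Fintype.card_fin]
      _ ≤ _ := mul_le_mul_of_nonneg_right hE (Finset.prod_nonneg fun k _ => hpos π k)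
  have hcoef : 0 ≤ (∏ k : Fin m, ((LE (winRel (win_le hm k) Q π)).card : ℝ))⁻¹ *
      r ^ rest lab B m π :=
    mul_nonneg (inv_nonneg.2 (Finset.prod_nonneg fun k _ => Nat.cast_nonneg _)) (pow_nonneg hr0 _)
  calc _ ≤ _ := mul_le_mul_of_nonneg_left hprod hcoef
    _ = _ := by ring

end Pool.HB45
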