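import Pool.Agent.HB45.Emb

set_option autoImplicit false

/-!
# HB45/Avg: averaging over the rearrangements of a window
-/

namespace Pool.HB45

/-- the number of linear extensions of a window does not change when the window is rearranged -/
theorem card_winRel_mul_emb {n o f : ℕ} {Q : Rel n} (hof : o + f ≤ n) (π : Equiv.Perm (Fin n))
    (hπ : π ∈ LE Q) (g : Equiv.Perm (Fin f)) (hg : g ∈ LE (winRel hof Q π)) :
    (LE (winRel hof Q (π * emb hof g))).card = (LE (winRel hof Q π)).card := by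
  have hm : π * emb hof g ∈ LE Q := (mul_emb_mem hof π hπ g).2 hg
  refine Finset.card_bij' (fun g' _ => g * g') (fun g' _ => g⁻¹ * g') ?_ ?_ ?_ ?_
  · intro g' hg'
    rw [← mul_emb_mem hof _ hm, mul_assoc, ← emb_mul, mul_emb_mem hof π hπ] at hg'
    exact hg'
  · intro g' hg'
    rw [← mul_emb_mem hof _ hm, mul_assoc, ← emb_mul, mul_emb_mem hof π hπ, mul_inv_cancel_left]
    exact hg'
  · intro g' _
    exact inv_mul_cancel_left g g'
  · intro g' _
    exact mul_inv_cancel_left g g'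

theorem one_mem_winRel {n o f : ℕ} {Q : Rel n} (hof : o + f ≤ n) (π : Equiv.Perm (Fin n))
    (hπ : π ∈ LE Q) : (1 : Equiv.Perm (Fin f)) ∈ LE (winRel hof Q π) := by
  rw [← mul_emb_mem hof π hπ, emb_one, mul_one]
  exact hπ

/-- AVERAGING. PROOF. The right side is
`Σ_π Σ_g F (π * emb g) / e(π)`, `e(π) = #LE (winRel π)`. Substitute `π' = π * emb g ∈ LE Q`
(`mul_emb_mem`), i.e. `π = π' * emb g⁻¹`; `e(π) = e(π')` (`LE (winRel π') = g⁻¹ • LE (winRel π)` by
`winRel_mul_emb`), and for fixed `π'` the number of `g` with `π' * emb g⁻¹ ∈ LE Q` and `g ∈ LE (winRel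
π)` is `e(π')`. (Values in a real vector space; used for `ℝ`, `ℂ` and `ℝ[X]`.) -/
theorem avg {n o f : ℕ} {E : Type} [AddCommGroup E] [Module ℝ E] {Q : Rel n} (hof : o + f ≤ n)
    (F : Equiv.Perm (Fin n) → E) :
    ∑ π ∈ LE Q, F π = ∑ π ∈ LE Q, ((LE (winRel hof Q π)).card : ℝ)⁻¹ •
      ∑ g ∈ LE (winRel hof Q π), F (π * emb hof g) := by
  classical
  symm
  calc ∑ π ∈ LE Q, ((LE (winRel hof Q π)).card : ℝ)⁻¹ •
      ∑ g ∈ LE (winRel hof Q π), F (π * emb hof g)
      = ∑ x ∈ (LE Q).sigma (fun π => LE (winRel hof Q π)),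
          ((LE (winRel hof Q x.1)).card : ℝ)⁻¹ • F (x.1 * emb hof x.2) := by
        rw [Finset.sum_sigma]
        exact Finset.sum_congr rfl fun π _ => Finset.smul_sum
    _ = ∑ x ∈ (LE Q).sigma (fun π => LE (winRel hof Q π)),
          ((LE (winRel hof Q x.1)).card : ℝ)⁻¹ • F x.1 := by
        refine Finset.sum_bij' (fun x _ => ⟨x.1 * emb hof x.2, x.2⁻¹⟩)
          (fun x _ => ⟨x.1 * emb hof x.2, x.2⁻¹⟩) ?_ ?_ ?_ ?_ ?_
        · rintro ⟨π, g⟩ hx
          rw [Finset.mem_sigma] at hx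
          have hm : π * emb hof g ∈ LE Q := (mul_emb_mem hof π hx.1 g).2 hx.2
          rw [Finset.mem_sigma]
          refine ⟨hm, ?_⟩
          change g⁻¹ ∈ LE (winRel hof Q (π * emb hof g))
          rw [← mul_emb_mem hof _ hm, mul_assoc, ← emb_mul, mul_inv_cancel, emb_one, mul_one]
          exact hx.1
        · rintro ⟨π, g⟩ hx
          rw [Finset.mem_sigma] at hx
          have hm : π * emb hof g ∈ LE Q := (mul_emb_mem hof π hx.1 g).2 hx.2
          rw [Finset.mem_sigma]
          refine ⟨hm, ?_⟩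
          change g⁻¹ ∈ LE (winRel hof Q (π * emb hof g))
          rw [← mul_emb_mem hof _ hm, mul_assoc, ← emb_mul, mul_inv_cancel, emb_one, mul_one]
          exact hx.1
        · rintro ⟨π, g⟩ _
          simp only [inv_inv, mul_assoc, ← emb_mul, mul_inv_cancel, emb_one, mul_one]
        · rintro ⟨π, g⟩ _
          simp only [inv_inv, mul_assoc, ← emb_mul, mul_inv_cancel, emb_one, mul_one]
        · rintro ⟨π, g⟩ hx
          rw [Finset.mem_sigma] at hx
          change _ = ((LE (winRel hof Q (π * emb hof g))).card : ℝ)⁻¹ • F (π * emb hof g)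
          rw [card_winRel_mul_emb hof π hx.1 g hx.2]
    _ = ∑ π ∈ LE Q, F π := by
        rw [Finset.sum_sigma]
        refine Finset.sum_congr rfl fun π hπ => ?_
        change ∑ _g ∈ LE (winRel hof Q π), ((LE (winRel hof Q π)).card : ℝ)⁻¹ • F π = F π
        rw [Finset.sum_const, ← Nat.cast_smul_eq_nsmul ℝ, smul_smul, mul_inv_cancel₀, one_smul]
        exact Nat.cast_ne_zero.2 (Finset.card_ne_zero.2 ⟨1, one_mem_winRel hof π hπ⟩)

end Pool.HB45
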