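import Pool.Agent.HB45.Psi

set_option autoImplicit false

/-!
# HB45/CentB: positivity of the central integral
-/

open MeasureTheory intervalIntegral Filter Topology

namespace Pool.HB45

private theorem cb_continuous_S : Continuous S := by
  have h : Continuous (fun s : ℂ => ∫ x in (-(1/2) : ℝ)..(1/2), Complex.exp (s * x)) :=
    intervalIntegral.continuous_parametric_intervalIntegral_of_continuous' (by fun_prop) _ _
  exact h

private theorem cb_continuous_psi (s : ℝ) : Continuous (psi s) := by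
  unfold psi
  have h := cb_continuous_S
  refine Continuous.div_const ?_ _
  refine Continuous.mul ?_ ?_
  · exact h.comp (by fun_prop)
  · fun_prop

/-- the integrand -/
private noncomputable def cbF (s : ℝ) (M : ℕ) (θ : ℝ) : ℝ :=
  ((psi s θ ^ M).re - 1 / 16 * ‖psi s θ‖ ^ M) * (2 - 2 * Real.cos θ)

private theorem cb_continuous_F (s : ℝ) (M : ℕ) : Continuous (cbF s M) := by
  unfold cbF
  have h := cb_continuous_psi s
  refine Continuous.mul ?_ (by fun_prop)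
  refine Continuous.sub ?_ ?_
  · exact Complex.continuous_re.comp (h.pow M)
  · exact continuous_const.mul (h.norm.pow M)

private theorem cb_all (s θ : ℝ) (hs : |s| ≤ 1 / 10) (hθ : |θ| ≤ 1 / 10) (M : ℕ) (L : ℝ) (hL : 0 ≤ L)
    (hLM : L ^ 3 = M) : -(5 * Real.exp (-(L / 480))) ≤ cbF s M θ := by
  unfold cbF
  have hw0 : 0 ≤ 2 - 2 * Real.cos θ := by have := Real.cos_le_one θ; linarith
  have hw4 : 2 - 2 * Real.cos θ ≤ 4 := by have := Real.neg_one_le_cos θ; linarith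
  have hn : 0 ≤ ‖psi s θ‖ ^ M := by positivity
  have hE := Real.exp_pos (-(L / 480))
  by_cases hM : (M : ℝ) * |θ| ^ 3 ≤ 1 / 8
  · have h1 := psi_pow_re s θ hs hθ M hM
    have h2 : 0 ≤ (psi s θ ^ M).re - 1 / 16 * ‖psi s θ‖ ^ M := by linarith
    have h3 := mul_nonneg h2 hw0
    linarith
  · push Not at hM
    have h1 : -‖psi s θ‖ ^ M ≤ (psi s θ ^ M).re := by
      have h2 := Complex.abs_re_le_norm (psi s θ ^ M)
      rw [norm_pow] at h2
      exact (abs_le.mp h2).1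
    have h3 := psi_norm_le s θ hs hθ
    have h4 : ‖psi s θ‖ ^ M ≤ Real.exp (-(L / 480)) := by
      calc ‖psi s θ‖ ^ M ≤ Real.exp (-(θ ^ 2 / 120)) ^ M :=
            pow_le_pow_left₀ (norm_nonneg _) h3 M
        _ = Real.exp (M * (-(θ ^ 2 / 120))) := by rw [← Real.exp_nat_mul]
        _ ≤ Real.exp (-(L / 480)) := by
            apply Real.exp_le_exp.mpr
            have h5 : L / 4 ≤ M * θ ^ 2 := by
              refine le_of_pow_le_pow_left₀ (n := 3) (by norm_num) (by positivity) ?_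
              have h6 : ((M : ℝ) * θ ^ 2) ^ 3 = M * (M * |θ| ^ 3) ^ 2 := by
                have : (|θ| ^ 3) ^ 2 = (θ ^ 2) ^ 3 := by
                  rw [← pow_mul, ← sq_abs θ, ← pow_mul]
                rw [mul_pow, mul_pow _ _ 2, this]; ring
              rw [h6, div_pow, hLM]
              have h7 : (1 / 8 : ℝ) ^ 2 ≤ (M * |θ| ^ 3) ^ 2 :=
                pow_le_pow_left₀ (by norm_num) hM.le 2
              have h8 : (0 : ℝ) ≤ M := Nat.cast_nonneg M
              nlinarith [mul_le_mul_of_nonneg_left h7 h8]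
            linarith
    have h5 : -(17 / 16 * ‖psi s θ‖ ^ M) ≤ (psi s θ ^ M).re - 1 / 16 * ‖psi s θ‖ ^ M := by linarith
    have h6 : -(17 / 16 * ‖psi s θ‖ ^ M) * (2 - 2 * Real.cos θ) ≤
        ((psi s θ ^ M).re - 1 / 16 * ‖psi s θ‖ ^ M) * (2 - 2 * Real.cos θ) :=
      mul_le_mul_of_nonneg_right h5 hw0
    have h7 : 17 / 16 * ‖psi s θ‖ ^ M * (2 - 2 * Real.cos θ) ≤ 17 / 16 * Real.exp (-(L / 480)) * 4 :=
      mul_le_mul (by linarith) hw4 hw0 (by positivity)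
    linarith

private theorem cb_small (s θ : ℝ) (hs : |s| ≤ 1 / 10) (M : ℕ) (hM : 10 ≤ M) (hθ : |θ| ≤ 1 / M) :
    θ ^ 2 / 8 ≤ cbF s M θ := by
  unfold cbF
  have hM' : (10 : ℝ) ≤ M := by exact_mod_cast hM
  have hM0 : (0 : ℝ) < M := by linarith
  have h10 : 1 / (M : ℝ) ≤ 1 / 10 := one_div_le_one_div_of_le (by norm_num) hM'
  have hθ' : |θ| ≤ 1 / 10 := hθ.trans h10
  have hMθ : (M : ℝ) * |θ| ≤ 1 := by
    calc (M : ℝ) * |θ| ≤ M * (1 / M) := mul_le_mul_of_nonneg_left hθ hM0.le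
      _ = 1 := by field_simp
  have h0 := abs_nonneg θ
  have h3 : (M : ℝ) * |θ| ^ 3 ≤ 1 / 8 := by
    have e : (M : ℝ) * |θ| ^ 3 = (M * |θ|) * (|θ| * |θ|) := by ring
    rw [e]
    have : |θ| * |θ| ≤ 1 / 10 * (1 / 10) := mul_le_mul hθ' hθ' h0 (by norm_num)
    calc (M * |θ|) * (|θ| * |θ|) ≤ 1 * (1 / 10 * (1 / 10)) :=
          mul_le_mul hMθ this (by positivity) (by norm_num)
      _ ≤ 1 / 8 := by norm_num
  have h4 := psi_pow_re s θ hs hθ' M h3
  have h5 := le_psi_norm s θ hs hθ'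
  have hsq : θ ^ 2 = |θ| * |θ| := by rw [← sq_abs]; ring
  have h6 : (M : ℝ) * θ ^ 2 ≤ 1 / 10 := by
    rw [hsq, ← mul_assoc]
    calc (M : ℝ) * |θ| * |θ| ≤ 1 * (1 / 10) := mul_le_mul hMθ hθ' h0 (by norm_num)
      _ = 1 / 10 := by norm_num
  have hsq1 : θ ^ 2 ≤ 1 := by
    rw [hsq]; nlinarith
  have h7 : 9 / 10 ≤ ‖psi s θ‖ ^ M := by
    have h8 : 1 + (M : ℝ) * (-θ ^ 2) ≤ (1 + (-θ ^ 2)) ^ M :=
      one_add_mul_le_pow (by nlinarith) M
    have h9 : (1 + (-θ ^ 2)) ^ M ≤ ‖psi s θ‖ ^ M :=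
      pow_le_pow_left₀ (by linarith) (by linarith) M
    linarith
  have h8 : 3 / 4 ≤ (psi s θ ^ M).re - 1 / 16 * ‖psi s θ‖ ^ M := by linarith
  have h9 : θ ^ 2 / 2 ≤ 2 - 2 * Real.cos θ := by
    have h10 := Real.cos_bound (x := θ) (by linarith)
    have h11 := (abs_le.mp h10).2
    have h12 : |θ| ^ 4 = θ ^ 2 * θ ^ 2 := by
      have : |θ| ^ 4 = (|θ| ^ 2) ^ 2 := by ring
      rw [this, sq_abs]; ring
    rw [h12] at h11
    nlinarith [sq_nonneg θ, mul_nonneg (sq_nonneg θ) (sub_nonneg.mpr hsq1)]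
  have h13 : 3 / 4 * (θ ^ 2 / 2) ≤
      ((psi s θ ^ M).re - 1 / 16 * ‖psi s θ‖ ^ M) * (2 - 2 * Real.cos θ) :=
    mul_le_mul h8 h9 (by positivity) (by linarith)
  nlinarith [sq_nonneg θ]

private theorem cb_int (s : ℝ) (hs : |s| ≤ 1 / 10) (δ : ℝ) (hδ : 0 < δ) (hδ1 : δ ≤ 1 / 10) (M : ℕ)
    (hM : 10 ≤ M) (hMδ : 1 / (M : ℝ) ≤ δ / 2) (L : ℝ) (hL : 0 ≤ L) (hLM : L ^ 3 = M) :
    1 / 12 * (1 / (M : ℝ)) ^ 3 - 1 / 2 * Real.exp (-(L / 480)) ≤ ∫ θ in (-(δ / 2))..(δ / 2), cbF s M θ := by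
  have hE := Real.exp_pos (-(L / 480))
  set E := Real.exp (-(L / 480)) with hEdef
  set r := 1 / (M : ℝ) with hr
  have hM' : (10 : ℝ) ≤ M := by exact_mod_cast hM
  have hr0 : 0 < r := by positivity
  have hc := cb_continuous_F s M
  have hi : ∀ a b : ℝ, IntervalIntegrable (cbF s M) volume a b := fun a b => hc.intervalIntegrable a b
  rw [← intervalIntegral.integral_add_adjacent_intervals (hi (-(δ / 2)) (-r)) (hi (-r) (δ / 2)),
    ← intervalIntegral.integral_add_adjacent_intervals (hi (-r) r) (hi r (δ / 2))]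
  have h1 : ∫ _θ in (-(δ / 2))..(-r), (-(5 * E)) ≤ ∫ θ in (-(δ / 2))..(-r), cbF s M θ := by
    refine intervalIntegral.integral_mono_on (by linarith) (by simp) (hi _ _) fun θ hθ => ?_
    refine cb_all s θ hs ?_ M L hL hLM
    rw [abs_le]
    constructor
    · linarith [hθ.1]
    · linarith [hθ.2]
  have h2 : ∫ _θ in r..(δ / 2), (-(5 * E)) ≤ ∫ θ in r..(δ / 2), cbF s M θ := by
    refine intervalIntegral.integral_mono_on (by linarith) (by simp) (hi _ _) fun θ hθ => ?_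
    refine cb_all s θ hs ?_ M L hL hLM
    rw [abs_le]
    constructor
    · linarith [hθ.1]
    · linarith [hθ.2]
  have h3 : ∫ θ in (-r)..r, θ ^ 2 / 8 ≤ ∫ θ in (-r)..r, cbF s M θ := by
    refine intervalIntegral.integral_mono_on (by linarith)
      ((by fun_prop : Continuous fun θ : ℝ => θ ^ 2 / 8).intervalIntegrable _ _) (hi _ _) fun θ hθ => ?_
    refine cb_small s θ hs M hM ?_
    rw [abs_le]
    exact ⟨hθ.1, hθ.2⟩
  rw [intervalIntegral.integral_const, smul_eq_mul] at h1 h2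
  rw [intervalIntegral.integral_div, integral_pow] at h3
  norm_num at h3
  have h4 : ((-r) - -(δ / 2)) * (-(5 * E)) + (δ / 2 - r) * (-(5 * E)) ≥ -(1 / 2 * E) := by
    nlinarith
  have h5 : 1 / 12 * r ^ 3 ≤ (r ^ 3 - (-r) ^ 3) / 3 / 8 := by
    have : (-r) ^ 3 = -r ^ 3 := by ring
    rw [this]
    ring_nf
    exact le_rfl
  linarith

/-- CENTRAL INTEGRAL. `M = N + 2`, `t0 = (8 M)^(-1/3)`. On `|θ| ≤ t0` the integrand is
`≥ (11/12 - 1/16) ‖ψ‖^M (2 - 2 cos θ) ≥ 0` (`psi_pow_re`); on `t0 ≤ |θ| ≤ δ/2` it is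
`≥ -(17/16) e^(-M θ²/120) 4 ≥ -5 e^(-M^(1/3)/480)` (`psi_norm_le`); on `|θ| ≤ M^(-1/2) ≤ t0` (`M ≥ 64`)
`‖ψ‖^M ≥ (1 - 1/M)^M ≥ 1/4`, `2 - 2 cos θ ≥ θ²/2`, so the integral is
`≥ (1/16) M^(-3/2) - 40 e^(-M^(1/3)/480)`, which is larger than `40 e^(-c N)` for large `N`. -/
theorem central_integral (δ c : ℝ) (hδ : 0 < δ) (hδ1 : δ ≤ 1 / 10) (hc : 0 < c) :
    ∃ N0 : ℕ, ∀ N ≥ N0, ∀ s : ℝ, |s| ≤ 1 / 10 →
      40 * Real.exp (-(c * N)) < ∫ θ in (-(δ / 2))..(δ / 2),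
        ((psi s θ ^ (N + 2)).re - 1 / 16 * ‖psi s θ‖ ^ (N + 2)) * (2 - 2 * Real.cos θ) := by
  have hε1 : 0 < c ^ 3 / (24 * 40 * Real.exp (2 * c)) := by positivity
  have hε2 : (0 : ℝ) < 1 / (12 * 480 ^ 9) := by positivity
  obtain ⟨X1, hX1⟩ := eventually_atTop.mp
    ((Real.tendsto_pow_mul_exp_neg_atTop_nhds_zero 3).eventually_lt_const hε1)
  obtain ⟨X2, hX2⟩ := eventually_atTop.mp
    ((Real.tendsto_pow_mul_exp_neg_atTop_nhds_zero 9).eventually_lt_const hε2)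
  obtain ⟨N0, hN0⟩ := exists_nat_ge (|X1| / c + (480 * |X2|) ^ 3 + 2 / δ + 10)
  refine ⟨N0, fun N hN s hs => ?_⟩
  have hNr : |X1| / c + (480 * |X2|) ^ 3 + 2 / δ + 10 ≤ N := hN0.trans (by exact_mod_cast hN)
  have p1 : 0 ≤ |X1| / c := by positivity
  have p2 : 0 ≤ (480 * |X2|) ^ 3 := by positivity
  have p3 : 0 < 2 / δ := by positivity
  set M := N + 2 with hMdef
  have hMr : (M : ℝ) = N + 2 := by rw [hMdef]; push_cast; ring
  have hM10 : 10 ≤ M := by
    have : (10 : ℝ) ≤ N := by linarith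
    have : 10 ≤ N := by exact_mod_cast this
    omega
  have hM0 : (0 : ℝ) < M := by rw [hMr]; linarith
  set L : ℝ := (M : ℝ) ^ (1 / 3 : ℝ) with hLdef
  have hL0 : 0 ≤ L := by positivity
  have hLM : L ^ 3 = M := by
    rw [hLdef, ← Real.rpow_natCast, ← Real.rpow_mul hM0.le]
    norm_num
  have hMδ : 1 / (M : ℝ) ≤ δ / 2 := by
    have h1 : 2 / δ ≤ M := by rw [hMr]; linarith
    rw [div_le_iff₀ hδ] at h1
    rw [div_le_iff₀ hM0]
    linarith
  have hmain := cb_int s hs δ hδ hδ1 M hM10 hMδ L hL0 hLM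
  have hgoal : 40 * Real.exp (-(c * N)) + 1 / 2 * Real.exp (-(L / 480)) < 1 / 12 * (1 / (M : ℝ)) ^ 3 := by
    -- first term
    have hx1 : X1 ≤ c * M := by
      have h1 : |X1| / c ≤ M := by rw [hMr]; linarith
      rw [div_le_iff₀ hc] at h1
      linarith [le_abs_self X1]
    have h1 := hX1 (c * M) hx1
    have h2 : X2 ≤ L / 480 := by
      have h3 : 480 * |X2| ≤ L := by
        refine le_of_pow_le_pow_left₀ (n := 3) (by norm_num) hL0 ?_
        rw [hLM, hMr]; linarith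
      have h4 := le_abs_self X2
      linarith
    have h3 := hX2 (L / 480) h2
    have hM3 : (0 : ℝ) < (M : ℝ) ^ 3 := by positivity
    have e1 : 40 * Real.exp (-(c * N)) * (M : ℝ) ^ 3 < 1 / 24 := by
      have e2 : Real.exp (-(c * N)) = Real.exp (2 * c) * Real.exp (-(c * M)) := by
        rw [← Real.exp_add, hMr]; congr 1; ring
      rw [lt_div_iff₀ (by positivity)] at h1
      have e3 : (c * M) ^ 3 * Real.exp (-(c * M)) * (24 * 40 * Real.exp (2 * c)) =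
          c ^ 3 * (24 * (40 * (Real.exp (2 * c) * Real.exp (-(c * M))) * (M : ℝ) ^ 3)) := by ring
      rw [e3, ← e2] at h1
      have hc3 : (0 : ℝ) < c ^ 3 := by positivity
      have h4 : 24 * (40 * Real.exp (-(c * N)) * (M : ℝ) ^ 3) < 1 := by
        by_contra hcon
        push Not at hcon
        have := mul_le_mul_of_nonneg_left hcon hc3.le
        linarith
      linarith
    have e4 : 1 / 2 * Real.exp (-(L / 480)) * (M : ℝ) ^ 3 < 1 / 24 := by
      rw [lt_div_iff₀ (by positivity)] at h3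
      have e5 : (M : ℝ) ^ 3 = L ^ 9 := by rw [← hLM]; ring
      have e6 : (L / 480) ^ 9 * Real.exp (-(L / 480)) * (12 * 480 ^ 9) =
          24 * (1 / 2 * Real.exp (-(L / 480)) * L ^ 9) := by
        rw [div_pow]
        field_simp
        ring
      rw [e6] at h3
      rw [e5]
      linarith
    have e7 : 1 / 12 * (1 / (M : ℝ)) ^ 3 = (1 / 12) / (M : ℝ) ^ 3 := by
      rw [one_div_pow]; ring
    rw [e7, lt_div_iff₀ hM3]
    linarith
  have hfin : ∫ θ in (-(δ / 2))..(δ / 2), cbF s M θ = ∫ θ in (-(δ / 2))..(δ / 2),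
        ((psi s θ ^ M).re - 1 / 16 * ‖psi s θ‖ ^ M) * (2 - 2 * Real.cos θ) := rfl
  rw [← hfin]
  linarith

end Pool.HB45
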