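import Pool.Agent.HB45.CentA
import Pool.Agent.HB45.CentB

set_option autoImplicit false

/-!
# HB45/Cent: log-concavity in the middle (abstract form)
-/

open Polynomial

namespace Pool.HB45

theorem cent_S_continuous : Continuous S := by
  unfold S
  refine intervalIntegral.continuous_parametric_intervalIntegral_of_continuous' ?_ _ _
  fun_prop

theorem cent_psi_continuous (s : ℝ) : Continuous (psi s) := by
  unfold psi
  have h1 : Continuous fun θ : ℝ => S ((s : ℂ) - θ * Complex.I) :=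
    cent_S_continuous.comp (by fun_prop)
  fun_prop

theorem cent_psi_zero (s : ℝ) : psi s 0 = 1 := by
  unfold psi
  have h : S (s : ℂ) ≠ 0 := by
    rw [S_ofReal]
    exact_mod_cast (Sr_pos s).ne'
  simp [h]

/-- the phases cancel -/
theorem cent_phase (A : ℝ[X]) (N j : ℕ) (e s0 θ : ℝ)
    (hmu : mu s0 = ((N : ℝ) / 2 - j) / (N + 2))
    (h : ‖aeval (Complex.exp (-((s0 : ℂ) - θ * Complex.I))) A *
        Complex.exp (((s0 : ℂ) - θ * Complex.I) * N / 2) - e * S ((s0 : ℂ) - θ * Complex.I) ^ (N + 2)‖ ≤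
        1 / 16 * (e * ‖S ((s0 : ℂ) - θ * Complex.I)‖ ^ (N + 2))) :
    ‖aeval ((Real.exp (-s0) : ℂ) * Complex.exp (θ * Complex.I)) A *
        Complex.exp (-(j * θ * Complex.I)) -
        (e * Real.exp (-(s0 * N / 2)) * Sr s0 ^ (N + 2) : ℝ) * psi s0 θ ^ (N + 2)‖ ≤
      1 / 16 * ((e * Real.exp (-(s0 * N / 2)) * Sr s0 ^ (N + 2)) * ‖psi s0 θ‖ ^ (N + 2)) := by
  have hM : ((N : ℂ) + 2) ≠ 0 := by
    exact_mod_cast (by omega : N + 2 ≠ 0)
  have hM' : ((N : ℝ) + 2) ≠ 0 := by positivity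
  have hS : S ((s0 : ℂ) - θ * Complex.I) ^ (N + 2) =
      (Sr s0 : ℂ) ^ (N + 2) * Complex.exp (-(θ * ((N : ℂ) / 2 - j) * Complex.I)) *
        psi s0 θ ^ (N + 2) := by
    rw [S_eq_psi, mul_pow, mul_pow, ← Complex.exp_nat_mul, hmu]
    congr 3
    push_cast
    field_simp
  have hSn : ‖S ((s0 : ℂ) - θ * Complex.I)‖ ^ (N + 2) = Sr s0 ^ (N + 2) * ‖psi s0 θ‖ ^ (N + 2) := by
    rw [← norm_pow, hS, norm_mul, norm_mul]
    have h1 : ‖Complex.exp (-(θ * ((N : ℂ) / 2 - j) * Complex.I))‖ = 1 := by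
      have h2 : (-(θ * ((N : ℂ) / 2 - j) * Complex.I)) =
          ((-(θ * ((N : ℝ) / 2 - j)) : ℝ) : ℂ) * Complex.I := by
        push_cast
        ring
      rw [h2, Complex.norm_exp_ofReal_mul_I]
    rw [h1, norm_pow, norm_pow, Complex.norm_real, Real.norm_eq_abs, abs_of_pos (Sr_pos s0)]
    ring
  have harg : (Real.exp (-s0) : ℂ) * Complex.exp (θ * Complex.I) =
      Complex.exp (-((s0 : ℂ) - θ * Complex.I)) := by
    rw [Complex.ofReal_exp, ← Complex.exp_add]
    congr 1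
    push_cast
    ring
  rw [harg]
  set a := aeval (Complex.exp (-((s0 : ℂ) - θ * Complex.I))) A with ha
  set u : ℂ := Complex.exp (-(((s0 : ℂ) - θ * Complex.I) * N / 2) - j * θ * Complex.I) with hu
  have hun : ‖u‖ = Real.exp (-(s0 * N / 2)) := by
    rw [hu, Complex.norm_exp]
    congr 1
    simp
  have hkey : a * Complex.exp (-(j * θ * Complex.I)) -
        (e * Real.exp (-(s0 * N / 2)) * Sr s0 ^ (N + 2) : ℝ) * psi s0 θ ^ (N + 2) =
      (a * Complex.exp (((s0 : ℂ) - θ * Complex.I) * N / 2) -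
        e * S ((s0 : ℂ) - θ * Complex.I) ^ (N + 2)) * u := by
    have e1 : Complex.exp (((s0 : ℂ) - θ * Complex.I) * N / 2) * u =
        Complex.exp (-(j * θ * Complex.I)) := by
      rw [hu, ← Complex.exp_add]
      congr 1
      ring
    have e2 : Complex.exp (-(θ * ((N : ℂ) / 2 - j) * Complex.I)) * u =
        (Real.exp (-(s0 * N / 2)) : ℂ) := by
      rw [hu, ← Complex.exp_add, Complex.ofReal_exp]
      congr 1
      push_cast
      ring
    rw [sub_mul, mul_assoc a, e1, hS]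
    congr 1
    rw [show (e : ℂ) * ((Sr s0 : ℂ) ^ (N + 2) * Complex.exp (-(θ * ((N : ℂ) / 2 - j) * Complex.I)) *
        psi s0 θ ^ (N + 2)) * u = e * (Sr s0 : ℂ) ^ (N + 2) *
        (Complex.exp (-(θ * ((N : ℂ) / 2 - j) * Complex.I)) * u) * psi s0 θ ^ (N + 2) by ring, e2]
    push_cast
    ring
  rw [hkey, norm_mul, hun]
  calc _ ≤ 1 / 16 * (e * ‖S ((s0 : ℂ) - θ * Complex.I)‖ ^ (N + 2)) * Real.exp (-(s0 * N / 2)) :=
        mul_le_mul_of_nonneg_right h (Real.exp_pos _).le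
    _ = _ := by
        rw [hSn]
        ring

/-- continuity of the integrand of `second_diff` -/
theorem cent_F_continuous (A : ℝ[X]) (r : ℝ) (j : ℕ) :
    Continuous fun θ : ℝ => (aeval ((r : ℂ) * Complex.exp (θ * Complex.I)) A *
        Complex.exp (-(j * θ * Complex.I))).re * (2 - 2 * Real.cos θ) := by
  have h1 : Continuous fun θ : ℝ => aeval ((r : ℂ) * Complex.exp (θ * Complex.I)) A := by
    have h2 : (fun θ : ℝ => aeval ((r : ℂ) * Complex.exp (θ * Complex.I)) A) =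
        fun θ : ℝ => (A.map (algebraMap ℝ ℂ)).eval ((r : ℂ) * Complex.exp (θ * Complex.I)) := by
      funext θ
      rw [Polynomial.eval_map_algebraMap]
    rw [h2]
    exact (A.map (algebraMap ℝ ℂ)).continuous.comp (by fun_prop)
  exact (Complex.continuous_re.comp (h1.mul (by fun_prop))).mul (by fun_prop)

/-- PROOF. Given `j` put `τ = (N/2 - j)/(N + 2)`, `|τ| ≤ (δ/2)/20`; `exists_tilt` (with `δ/2`) gives `s0`,
`|s0| ≤ δ/2`, `mu s0 = τ`; `r = e^(-s0) ∈ [1/2, 2]`, `M = N + 2`, `E0 = e * e^(-s0 N/2) * Sr s0 ^ M > 0`.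
For `|θ| ≤ δ/2` use `hnear` at `s = s0 - iθ` (`‖s‖ ≤ δ`, `e^(-s) = r e^(iθ)`), `S_eq_psi`:
`‖aeval (r e^(iθ)) A * e^(-ijθ) - E0 ψ^M‖ ≤ (1/16) E0 ‖ψ‖^M`  (the phases `e^(iθN/2) e^(-ijθ)` and
`e^(-iθ M mu)` cancel); at `θ = 0`: `A(r) ≤ (17/16) E0`. Hence by `second_diff`
`(2 p_j - p_(j-1) - p_(j+1)) 2π ≥ E0 [∫_{|θ| ≤ δ/2} (Re ψ^M - ‖ψ‖^M/16)(2 - 2 cos θ)
  - (17/16) 2π 4 e^(-c1 N (1 - cos (δ/2)))] > 0` by `central_integral` (`c = c1 (1 - cos (δ/2))`), `p_k = A_k r^k ≥ 0`.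
So `p_j > 0` and `p_(j-1) p_(j+1) ≤ ((p_(j-1) + p_(j+1))/2)² < p_j²`. -/
theorem cent_abstract (δ c1 : ℝ) (hδ : 0 < δ) (hδ1 : δ ≤ 1 / 10) (hc1 : 0 < c1) :
    ∃ N0 : ℕ, ∀ N ≥ N0, ∀ (A : ℝ[X]) (e : ℝ), 0 < e → (∀ k, 0 ≤ A.coeff k) →
      (∀ s : ℂ, ‖s‖ ≤ δ → ‖aeval (Complex.exp (-s)) A * Complex.exp (s * N / 2) - e * S s ^ (N + 2)‖ ≤
        1 / 16 * (e * ‖S s‖ ^ (N + 2))) →
      (∀ r θ : ℝ, 1 / 2 ≤ r → r ≤ 2 → |θ| ≤ Real.pi →
        ‖aeval ((r : ℂ) * Complex.exp (θ * Complex.I)) A‖ ≤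
          Real.exp (-(c1 * N * (1 - Real.cos θ))) * A.eval r) →
      ∀ j : ℕ, 1 ≤ j → |(N : ℝ) / 2 - j| ≤ δ / 40 * (N + 2) →
        0 < A.coeff j ∧ A.coeff (j - 1) * A.coeff (j + 1) ≤ A.coeff j ^ 2 := by
  have hpi := Real.pi_gt_three
  have hcos : Real.cos (δ / 2) < 1 := by
    have h := Real.cos_lt_cos_of_nonneg_of_le_pi (le_refl 0) (by linarith : δ / 2 ≤ Real.pi)
      (by linarith : (0 : ℝ) < δ / 2)
    rwa [Real.cos_zero] at h
  set c := c1 * (1 - Real.cos (δ / 2)) with hc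
  have hcpos : 0 < c := mul_pos hc1 (by linarith)
  obtain ⟨N0, hN0⟩ := central_integral δ c hδ hδ1 hcpos
  refine ⟨N0, fun N hN A e he hA hnear hdec j hj hjN => ?_⟩
  have hM : (0 : ℝ) < (N : ℝ) + 2 := by positivity
  -- the tilt
  obtain ⟨s0, hs0, hmu⟩ := exists_tilt (δ / 2) (((N : ℝ) / 2 - j) / (N + 2)) (by linarith)
    (by linarith) (by
      rw [abs_div, abs_of_pos hM, div_le_iff₀ hM]
      linarith)
  have hs0' := abs_le.mp hs0
  set r := Real.exp (-s0) with hr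
  have hr0 : 0 < r := Real.exp_pos _
  have hr1 : 1 / 2 ≤ r := by
    have h := Real.add_one_le_exp (-s0)
    linarith
  have hr2 : r ≤ 2 := by
    have h := Real.add_one_le_exp s0
    have h2 : r * Real.exp s0 = 1 := by
      rw [hr, ← Real.exp_add]
      simp
    nlinarith
  set E0 := e * Real.exp (-(s0 * N / 2)) * Sr s0 ^ (N + 2) with hE0
  have hE0pos : 0 < E0 := by
    have := Sr_pos s0
    positivity
  -- the approximation for small angles
  have happ : ∀ θ : ℝ, |θ| ≤ δ / 2 →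
      ‖aeval ((r : ℂ) * Complex.exp (θ * Complex.I)) A * Complex.exp (-(j * θ * Complex.I)) -
        (E0 : ℂ) * psi s0 θ ^ (N + 2)‖ ≤ 1 / 16 * (E0 * ‖psi s0 θ‖ ^ (N + 2)) := by
    intro θ hθ
    refine cent_phase A N j e s0 θ hmu (hnear _ ?_)
    calc ‖(s0 : ℂ) - θ * Complex.I‖ ≤ ‖(s0 : ℂ)‖ + ‖(θ : ℂ) * Complex.I‖ := norm_sub_le _ _
      _ = |s0| + |θ| := by simp
      _ ≤ δ := by linarith
  have hAr : A.eval r ≤ 17 / 16 * E0 := by
    have h := happ 0 (by simp; linarith)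
    rw [cent_psi_zero] at h
    simp only [Complex.ofReal_zero, zero_mul, Complex.exp_zero, mul_one, mul_zero, neg_zero,
      one_pow, norm_one] at h
    have h2 : aeval (r : ℂ) A = ((A.eval r : ℝ) : ℂ) := by
      have h3 := Polynomial.aeval_algebraMap_apply ℂ r A
      rw [Polynomial.coe_aeval_eq_eval] at h3
      exact h3
    rw [h2, ← Complex.ofReal_sub, Complex.norm_real, Real.norm_eq_abs] at h
    have := (abs_le.mp h).2
    linarith
  set F : ℝ → ℝ := fun θ : ℝ => (aeval ((r : ℂ) * Complex.exp (θ * Complex.I)) A *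
        Complex.exp (-(j * θ * Complex.I))).re * (2 - 2 * Real.cos θ) with hF
  have hFc : Continuous F := cent_F_continuous A r j
  have hsd := second_diff A r j hj
  have hsplit : ∫ θ in (-Real.pi)..Real.pi, F θ =
      (∫ θ in (-Real.pi)..(-(δ / 2)), F θ) + (∫ θ in (-(δ / 2))..(δ / 2), F θ) +
        ∫ θ in (δ / 2)..Real.pi, F θ := by
    rw [intervalIntegral.integral_add_adjacent_intervals (hFc.intervalIntegrable _ _)
      (hFc.intervalIntegrable _ _), intervalIntegral.integral_add_adjacent_intervals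
      (hFc.intervalIntegrable _ _) (hFc.intervalIntegrable _ _)]
  -- the middle
  have hmid : E0 * (40 * Real.exp (-(c * N))) < ∫ θ in (-(δ / 2))..(δ / 2), F θ := by
    have h1 := hN0 N hN s0 (by linarith)
    have h2 : E0 * (∫ θ in (-(δ / 2))..(δ / 2),
        ((psi s0 θ ^ (N + 2)).re - 1 / 16 * ‖psi s0 θ‖ ^ (N + 2)) * (2 - 2 * Real.cos θ)) ≤
        ∫ θ in (-(δ / 2))..(δ / 2), F θ := by
      rw [← intervalIntegral.integral_const_mul]
      have hpc := cent_psi_continuous s0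
      refine intervalIntegral.integral_mono_on (by linarith) ?_ (hFc.intervalIntegrable _ _) ?_
      · apply Continuous.intervalIntegrable
        have h3 : Continuous fun θ : ℝ => (psi s0 θ ^ (N + 2)).re :=
          Complex.continuous_re.comp (hpc.pow _)
        have h4 : Continuous fun θ : ℝ => ‖psi s0 θ‖ ^ (N + 2) := hpc.norm.pow _
        fun_prop
      · intro θ hθ
        have hθ' : |θ| ≤ δ / 2 := abs_le.mpr ⟨hθ.1, hθ.2⟩
        have h5 := happ θ hθ'
        have h6 : 0 ≤ 2 - 2 * Real.cos θ := by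
          have := Real.cos_le_one θ
          linarith
        rw [← mul_assoc]
        refine mul_le_mul_of_nonneg_right ?_ h6
        have h7 := (Complex.abs_re_le_norm _).trans h5
        rw [Complex.sub_re, Complex.re_ofReal_mul] at h7
        have h8 := (abs_le.mp h7).1
        linarith
    exact (mul_lt_mul_of_pos_left h1 hE0pos).trans_le h2
  -- the rest
  have hbd : ∀ θ : ℝ, δ / 2 ≤ |θ| → |θ| ≤ Real.pi →
      ‖F θ‖ ≤ 17 / 4 * (E0 * Real.exp (-(c * N))) := by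
    intro θ h1 h2
    have h3 := hdec r θ hr1 hr2 h2
    have h4 : Real.cos θ ≤ Real.cos (δ / 2) := by
      rw [← Real.cos_abs θ]
      exact Real.cos_le_cos_of_nonneg_of_le_pi (by linarith) h2 h1
    have h5 : Real.exp (-(c1 * N * (1 - Real.cos θ))) ≤ Real.exp (-(c * N)) := by
      rw [Real.exp_le_exp, hc]
      have h6 : (0 : ℝ) ≤ c1 * N := by positivity
      nlinarith
    have hA0 : 0 ≤ A.eval r := by
      rw [Polynomial.eval_eq_sum_range]
      exact Finset.sum_nonneg fun i _ => mul_nonneg (hA i) (pow_nonneg hr0.le _)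
    have h7 : ‖aeval ((r : ℂ) * Complex.exp (θ * Complex.I)) A‖ ≤
        Real.exp (-(c * N)) * (17 / 16 * E0) :=
      h3.trans (mul_le_mul h5 hAr hA0 (Real.exp_pos _).le)
    have h8 : |2 - 2 * Real.cos θ| ≤ 4 := by
      have := Real.cos_le_one θ
      have := Real.neg_one_le_cos θ
      rw [abs_le]
      constructor <;> linarith
    have h9 : ‖Complex.exp (-(j * θ * Complex.I))‖ = 1 := by
      have : (-(j * θ * Complex.I) : ℂ) = ((-(j * θ) : ℝ) : ℂ) * Complex.I := by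
        push_cast
        ring
      rw [this, Complex.norm_exp_ofReal_mul_I]
    have h10 : |(aeval ((r : ℂ) * Complex.exp (θ * Complex.I)) A *
        Complex.exp (-(j * θ * Complex.I))).re| ≤ Real.exp (-(c * N)) * (17 / 16 * E0) := by
      refine (Complex.abs_re_le_norm _).trans ?_
      rw [norm_mul, h9, mul_one]
      exact h7
    rw [hF, Real.norm_eq_abs, abs_mul]
    calc _ ≤ Real.exp (-(c * N)) * (17 / 16 * E0) * 4 :=
          mul_le_mul h10 h8 (abs_nonneg _) (by positivity)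
      _ = 17 / 4 * (E0 * Real.exp (-(c * N))) := by ring
  set ex := Real.exp (-(c * N)) with hex
  have hexpos : 0 < ex := Real.exp_pos _
  have hleft : -(17 / 4 * (E0 * ex) * (Real.pi - δ / 2)) ≤ ∫ θ in (-Real.pi)..(-(δ / 2)), F θ := by
    have h := intervalIntegral.norm_integral_le_of_norm_le_const (a := -Real.pi) (b := -(δ / 2))
      (f := F) (C := 17 / 4 * (E0 * ex)) (by
        intro θ hθ
        rw [Set.uIoc_of_le (by linarith)] at hθ
        have h0 : θ < 0 ∨ θ ≤ -(δ / 2) := Or.inr hθ.2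
        have h1 : |θ| = -θ := abs_of_neg (by linarith [hθ.2])
        exact hbd θ (by rw [h1]; linarith [hθ.2]) (by rw [h1]; linarith [hθ.1]))
    rw [Real.norm_eq_abs, abs_of_pos (by linarith : (0 : ℝ) < -(δ / 2) - -Real.pi)] at h
    have := (abs_le.mp h).1
    linarith
  have hright : -(17 / 4 * (E0 * ex) * (Real.pi - δ / 2)) ≤ ∫ θ in (δ / 2)..Real.pi, F θ := by
    have h := intervalIntegral.norm_integral_le_of_norm_le_const (a := δ / 2) (b := Real.pi)
      (f := F) (C := 17 / 4 * (E0 * ex)) (by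
        intro θ hθ
        rw [Set.uIoc_of_le (by linarith)] at hθ
        have h1 : |θ| = θ := abs_of_pos (by linarith [hθ.1])
        exact hbd θ (by rw [h1]; linarith [hθ.1]) (by rw [h1]; linarith [hθ.2]))
    rw [Real.norm_eq_abs, abs_of_pos (by linarith : (0 : ℝ) < Real.pi - δ / 2)] at h
    have := (abs_le.mp h).1
    linarith
  have hpos : 0 < 2 * (A.coeff j * r ^ j) - A.coeff (j - 1) * r ^ (j - 1) -
      A.coeff (j + 1) * r ^ (j + 1) := by
    have h1 : 0 < ∫ θ in (-Real.pi)..Real.pi, F θ := by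
      rw [hsplit]
      have hpi4 := Real.pi_lt_four
      have h2 : 17 / 4 * (E0 * ex) * (Real.pi - δ / 2) ≤ 17 / 4 * (E0 * ex) * 4 :=
        mul_le_mul_of_nonneg_left (by linarith) (by positivity)
      have h3 : 0 < E0 * ex := mul_pos hE0pos hexpos
      linarith
    rw [← hsd] at h1
    exact (mul_pos_iff_of_pos_right (by linarith)).1 h1
  have hp1 : 0 ≤ A.coeff (j - 1) * r ^ (j - 1) := mul_nonneg (hA _) (pow_nonneg hr0.le _)
  have hp2 : 0 ≤ A.coeff (j + 1) * r ^ (j + 1) := mul_nonneg (hA _) (pow_nonneg hr0.le _)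
  have hrj : 0 < r ^ j := pow_pos hr0 _
  constructor
  · have h1 : 0 < A.coeff j * r ^ j := by linarith
    exact (mul_pos_iff_of_pos_right hrj).1 h1
  · have h1 : (A.coeff (j - 1) * r ^ (j - 1)) * (A.coeff (j + 1) * r ^ (j + 1)) ≤
        (A.coeff j * r ^ j) ^ 2 := by
      nlinarith [sq_nonneg (A.coeff (j - 1) * r ^ (j - 1) - A.coeff (j + 1) * r ^ (j + 1))]
    have h2 : (A.coeff (j - 1) * r ^ (j - 1)) * (A.coeff (j + 1) * r ^ (j + 1)) =
        A.coeff (j - 1) * A.coeff (j + 1) * (r ^ j) ^ 2 := by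
      obtain ⟨m, rfl⟩ : ∃ m, j = m + 1 := ⟨j - 1, by omega⟩
      simp only [Nat.add_sub_cancel]
      ring
    rw [h2, mul_pow] at h1
    exact le_of_mul_le_mul_right h1 (by positivity)

end Pool.HB45
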