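import Pool.Agent.HB45.Psi

set_option autoImplicit false

/-!
# HB45/CentA: coefficient formulas
-/

open Polynomial

namespace Pool.HB45

open Complex in
theorem int_exp_int (n : ℤ) : ∫ θ in (-Real.pi)..Real.pi, Complex.exp ((n : ℂ) * θ * I) =
    if n = 0 then 2 * (Real.pi : ℂ) else 0 := by
  by_cases hn : n = 0
  · subst hn
    simp
    ring_nf
  · rw [if_neg hn]
    have hc : (n : ℂ) * I ≠ 0 := mul_ne_zero (by exact_mod_cast hn) I_ne_zero
    have h1 : ∀ θ : ℝ, Complex.exp ((n : ℂ) * θ * I) = Complex.exp (((n : ℂ) * I) * θ) := by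
      intro θ; congr 1; ring
    simp_rw [h1]
    rw [integral_exp_mul_complex hc]
    have h2 : Complex.exp ((n : ℂ) * I * (Real.pi : ℝ)) = Complex.exp ((n : ℂ) * I * ((-Real.pi : ℝ) : ℂ)) := by
      rw [Complex.exp_eq_exp_iff_exists_int]
      exact ⟨n, by push_cast; ring⟩
    rw [h2]; simp

/-- `a_k r^k = (1/2π) ∫ A(r e^(iθ)) e^(-ikθ) dθ` -/
theorem coeff_formula (A : ℝ[X]) (r : ℝ) (k : ℕ) :
    ((A.coeff k * r ^ k : ℝ) : ℂ) * (2 * Real.pi) =
      ∫ θ in (-Real.pi)..Real.pi, aeval ((r : ℂ) * Complex.exp (θ * Complex.I)) A *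
        Complex.exp (-(k * θ * Complex.I)) := by
  have h1 : ∀ θ : ℝ, aeval ((r : ℂ) * Complex.exp (θ * Complex.I)) A *
        Complex.exp (-(k * θ * Complex.I)) =
      ∑ m ∈ Finset.range (A.natDegree + 1), ((A.coeff m * r ^ m : ℝ) : ℂ) *
        Complex.exp (((m : ℤ) - (k : ℤ) : ℤ) * θ * Complex.I) := by
    intro θ
    rw [aeval_eq_sum_range, Finset.sum_mul]
    refine Finset.sum_congr rfl fun m _ => ?_
    rw [mul_pow, ← Complex.exp_nat_mul, Complex.real_smul]
    have h2 : Complex.exp (((m : ℤ) - (k : ℤ) : ℤ) * θ * Complex.I) =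
        Complex.exp ((m : ℂ) * (θ * Complex.I)) * Complex.exp (-(k * θ * Complex.I)) := by
      rw [← Complex.exp_add]; congr 1; push_cast; ring
    rw [h2]; push_cast; ring
  simp_rw [h1]
  rw [intervalIntegral.integral_finsetSum]
  · simp_rw [intervalIntegral.integral_const_mul, int_exp_int]
    by_cases hk : k ∈ Finset.range (A.natDegree + 1)
    · rw [Finset.sum_eq_single_of_mem k hk]
      · simp
      · intro m _ hm
        rw [if_neg (by omega)]; simp
    · rw [Finset.sum_eq_zero]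
      · have : A.coeff k = 0 := coeff_eq_zero_of_natDegree_lt (by
          simp only [Finset.mem_range] at hk; omega)
        rw [this]; simp
      · intro m hm
        rw [if_neg]
        · simp
        · intro h
          have : m = k := by omega
          exact hk (this ▸ hm)
  · intro m _
    exact (by fun_prop : Continuous fun θ : ℝ => ((A.coeff m * r ^ m : ℝ) : ℂ) *
        Complex.exp (((m : ℤ) - (k : ℤ) : ℤ) * θ * Complex.I)).intervalIntegrable _ _

theorem cont_aux (A : ℝ[X]) (r : ℝ) : Continuous fun θ : ℝ =>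
    aeval ((r : ℂ) * Complex.exp (θ * Complex.I)) A := by
  have h : (fun θ : ℝ => aeval ((r : ℂ) * Complex.exp (θ * Complex.I)) A) = fun θ : ℝ =>
      ∑ m ∈ Finset.range (A.natDegree + 1), A.coeff m • ((r : ℂ) * Complex.exp (θ * Complex.I)) ^ m := by
    funext θ; rw [aeval_eq_sum_range]
  rw [h]; fun_prop

theorem re_int (f : ℝ → ℂ) (hf : Continuous f) :
    ∫ θ in (-Real.pi)..Real.pi, (f θ).re = (∫ θ in (-Real.pi)..Real.pi, f θ).re := by
  have := Complex.reCLM.intervalIntegral_comp_comm (μ := MeasureTheory.volume)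
    (hf.intervalIntegrable (-Real.pi) Real.pi)
  simpa using this

/-- second difference after tilting -/
theorem second_diff (A : ℝ[X]) (r : ℝ) (j : ℕ) (hj : 1 ≤ j) :
    (2 * (A.coeff j * r ^ j) - A.coeff (j - 1) * r ^ (j - 1) - A.coeff (j + 1) * r ^ (j + 1)) *
      (2 * Real.pi) =
      ∫ θ in (-Real.pi)..Real.pi, (aeval ((r : ℂ) * Complex.exp (θ * Complex.I)) A *
        Complex.exp (-(j * θ * Complex.I))).re * (2 - 2 * Real.cos θ) := by
  obtain ⟨i, rfl⟩ : ∃ i, j = i + 1 := ⟨j - 1, by omega⟩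
  have hA := cont_aux A r
  have h1 : ∀ θ : ℝ, (aeval ((r : ℂ) * Complex.exp (θ * Complex.I)) A *
        Complex.exp (-(((i + 1 : ℕ) : ℂ) * θ * Complex.I))).re * (2 - 2 * Real.cos θ) =
      (2 * (aeval ((r : ℂ) * Complex.exp (θ * Complex.I)) A *
        Complex.exp (-(((i + 1 : ℕ) : ℂ) * θ * Complex.I))) -
        aeval ((r : ℂ) * Complex.exp (θ * Complex.I)) A * Complex.exp (-((i : ℂ) * θ * Complex.I)) -
        aeval ((r : ℂ) * Complex.exp (θ * Complex.I)) A *
          Complex.exp (-(((i + 1 + 1 : ℕ) : ℂ) * θ * Complex.I))).re := by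
    intro θ
    have e1 : Complex.exp (-((i : ℂ) * θ * Complex.I)) =
        Complex.exp (-(((i + 1 : ℕ) : ℂ) * θ * Complex.I)) * Complex.exp (θ * Complex.I) := by
      rw [← Complex.exp_add]; congr 1; push_cast; ring
    have e2 : Complex.exp (-(((i + 1 + 1 : ℕ) : ℂ) * θ * Complex.I)) =
        Complex.exp (-(((i + 1 : ℕ) : ℂ) * θ * Complex.I)) * Complex.exp (-(θ * Complex.I)) := by
      rw [← Complex.exp_add]; congr 1; push_cast; ring
    have e3 : ((2 - 2 * Real.cos θ : ℝ) : ℂ) = 2 - Complex.exp (θ * Complex.I) -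
        Complex.exp (-(θ * Complex.I)) := by
      push_cast
      rw [Complex.cos]
      ring
    rw [← Complex.re_mul_ofReal, e3, e1, e2]
    congr 1
    ring
  simp_rw [h1]
  rw [re_int _ (by fun_prop)]
  rw [intervalIntegral.integral_sub, intervalIntegral.integral_sub, intervalIntegral.integral_const_mul,
    ← coeff_formula, ← coeff_formula, ← coeff_formula]
  · have : (2 * (((A.coeff (i + 1) * r ^ (i + 1) : ℝ) : ℂ) * (2 * (Real.pi : ℂ))) -
        ((A.coeff i * r ^ i : ℝ) : ℂ) * (2 * (Real.pi : ℂ)) -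
        ((A.coeff (i + 1 + 1) * r ^ (i + 1 + 1) : ℝ) : ℂ) * (2 * (Real.pi : ℂ))) =
        (((2 * (A.coeff (i + 1) * r ^ (i + 1)) - A.coeff i * r ^ i - A.coeff (i + 1 + 1) * r ^ (i + 1 + 1)) *
          (2 * Real.pi) : ℝ) : ℂ) := by
      push_cast; ring
    rw [this, Complex.ofReal_re]
    simp
  all_goals exact Continuous.intervalIntegrable (by fun_prop) _ _

/-- first difference after tilting -/
theorem first_diff (A : ℝ[X]) (r : ℝ) (j : ℕ) :
    (A.coeff (j + 1) - A.coeff j) * r ^ (j + 1) * (2 * Real.pi) =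
      ∫ θ in (-Real.pi)..Real.pi, (aeval ((r : ℂ) * Complex.exp (θ * Complex.I)) A *
        Complex.exp (-(j * θ * Complex.I)) * (Complex.exp (-(θ * Complex.I)) - r)).re := by
  have hA := cont_aux A r
  have h1 : ∀ θ : ℝ, (aeval ((r : ℂ) * Complex.exp (θ * Complex.I)) A *
        Complex.exp (-(j * θ * Complex.I)) * (Complex.exp (-(θ * Complex.I)) - r)) =
      aeval ((r : ℂ) * Complex.exp (θ * Complex.I)) A *
          Complex.exp (-(((j + 1 : ℕ) : ℂ) * θ * Complex.I)) -
        (r : ℂ) * (aeval ((r : ℂ) * Complex.exp (θ * Complex.I)) A *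
        Complex.exp (-(j * θ * Complex.I))) := by
    intro θ
    have e2 : Complex.exp (-(((j + 1 : ℕ) : ℂ) * θ * Complex.I)) =
        Complex.exp (-((j : ℂ) * θ * Complex.I)) * Complex.exp (-(θ * Complex.I)) := by
      rw [← Complex.exp_add]; congr 1; push_cast; ring
    rw [e2]; ring
  simp_rw [h1]
  rw [re_int _ (by fun_prop)]
  rw [intervalIntegral.integral_sub, intervalIntegral.integral_const_mul,
    ← coeff_formula, ← coeff_formula]
  · have : ((A.coeff (j + 1) * r ^ (j + 1) : ℝ) : ℂ) * (2 * (Real.pi : ℂ)) -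
        (r : ℂ) * (((A.coeff j * r ^ j : ℝ) : ℂ) * (2 * (Real.pi : ℂ))) =
        (((A.coeff (j + 1) - A.coeff j) * r ^ (j + 1) * (2 * Real.pi) : ℝ) : ℂ) := by
      push_cast; ring
    rw [this, Complex.ofReal_re]
  all_goals exact Continuous.intervalIntegrable (by fun_prop) _ _

end Pool.HB45
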