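import Pool.Agent.HB45.Avg

set_option autoImplicit false

/-!
# HB45/Class: antichain windows cancel, the others have comparable neighbours
-/

namespace Pool.HB45

/-- an ascending word exists -/
private theorem class_exists_asc {f : ℕ} {Q : Rel f} {lab : Fin f → ℕ} (hn : Nat' Q lab) :
    ∃ g ∈ LE Q, ∀ i j : Fin f, i < j → lab (g i) < lab (g j) := by
  have hm : StrictMono (lab ∘ Tuple.sort lab) :=
    (Tuple.monotone_sort lab).strictMono_of_injective (hn.inj.comp (Tuple.sort lab).injective)
  refine ⟨Tuple.sort lab, mem_LE.mpr fun i j hij => ?_, fun i j hij => hm hij⟩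
  exact hm.lt_iff_lt.mp (hn.mono _ _ hij)

private theorem class_asc_unique {f : ℕ} {lab : Fin f → ℕ} (hinj : Function.Injective lab)
    {g g' : Equiv.Perm (Fin f)} (hg : ∀ i j : Fin f, i < j → lab (g i) < lab (g j))
    (hg' : ∀ i j : Fin f, i < j → lab (g' i) < lab (g' j)) : g = g' := by
  have h1 : StrictMono (lab ∘ g) := fun i j hij => hg i j hij
  have h2 : StrictMono (lab ∘ g') := fun i j hij => hg' i j hij
  have h3 : lab ∘ g = lab ∘ g' := Tuple.unique_monotone h1.monotone h2.monotone
  ext i
  exact congrArg Fin.val (hinj (congrFun h3 i))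

/-- Exactly one rearrangement of `Fin f` in `LE Q` is ascending. -/
theorem card_asc {f : ℕ} {Q : Rel f} {lab : Fin f → ℕ} (hn : Nat' Q lab) :
    Nat.card {g : Equiv.Perm (Fin f) // g ∈ LE Q ∧ ∀ i j : Fin f, i < j → lab (g i) < lab (g j)} = 1 := by
  rw [Nat.card_eq_one_iff_unique]
  refine ⟨⟨fun a b => Subtype.ext (class_asc_unique hn.inj a.2.2 b.2.2)⟩, ?_⟩
  obtain ⟨g, hg, hg'⟩ := class_exists_asc hn
  exact ⟨⟨g, hg, hg'⟩⟩

private theorem class_adj_aux {f : ℕ} {Q : Rel f} : ∀ (d : ℕ) (g : Equiv.Perm (Fin f)), g ∈ LE Q →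
    ∀ i j : Fin f, j.val = i.val + 1 + d → Q (g i) (g j) →
      ∃ g ∈ LE Q, ∃ i j : Fin f, j.val = i.val + 1 ∧ Q (g i) (g j)
  | 0, g, hg, i, j, hij, hq => ⟨g, hg, i, j, hij, hq⟩
  | d + 1, g, hg, i, j, hij, hq => by
      have hj := j.isLt
      let p : Fin f := ⟨i.val + 1 + d, by omega⟩
      have hp : p.val = i.val + 1 + d := rfl
      by_cases hpj : Q (g p) (g j)
      · exact ⟨g, hg, p, j, by omega, hpj⟩
      have hip : i ≠ p := fun h => by have := congrArg Fin.val h; omega
      have hij' : i ≠ j := fun h => by have := congrArg Fin.val h; omega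
      refine class_adj_aux d (g * Equiv.swap p j) ?_ i p hp ?_
      · rw [mem_LE] at hg ⊢
        intro a b hab
        rw [Equiv.Perm.mul_apply, Equiv.Perm.mul_apply] at hab
        have h1 := hg _ _ hab
        -- positions of the letters
        rcases eq_or_ne a p with rfl | ha
        · rw [Equiv.swap_apply_left] at h1 hab
          rcases eq_or_ne b j with rfl | hb
          · rw [Equiv.swap_apply_right] at hab
            have := hg _ _ hab
            rw [Fin.lt_def] at this ⊢
            omega
          · rcases eq_or_ne b p with rfl | hb'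
            · rw [Equiv.swap_apply_left] at h1
              exact absurd h1 (lt_irrefl _)
            · rw [Equiv.swap_apply_of_ne_of_ne hb' hb] at h1
              rw [Fin.lt_def] at h1 ⊢
              omega
        · rcases eq_or_ne a j with rfl | ha'
          · rw [Equiv.swap_apply_right] at h1 hab
            rcases eq_or_ne b p with rfl | hb
            · rw [Equiv.swap_apply_left] at hab
              exact absurd hab hpj
            · rcases eq_or_ne b a with rfl | hb'
              · rw [Equiv.swap_apply_right] at h1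
                exact absurd h1 (lt_irrefl _)
              · rw [Equiv.swap_apply_of_ne_of_ne hb hb'] at h1
                rw [Fin.lt_def] at h1 ⊢
                have : b.val ≠ a.val := fun h => hb' (Fin.ext h)
                omega
          · rw [Equiv.swap_apply_of_ne_of_ne ha ha'] at h1
            rcases eq_or_ne b p with rfl | hb
            · rw [Equiv.swap_apply_left] at h1
              rw [Fin.lt_def] at h1 ⊢
              have : a.val ≠ p.val := fun h => ha (Fin.ext h)
              omega
            · rcases eq_or_ne b j with rfl | hb'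
              · rw [Equiv.swap_apply_right] at h1
                rw [Fin.lt_def] at h1 ⊢
                omega
              · rw [Equiv.swap_apply_of_ne_of_ne hb hb'] at h1
                exact h1
      · rw [Equiv.Perm.mul_apply, Equiv.Perm.mul_apply, Equiv.swap_apply_of_ne_of_ne hip hij',
          Equiv.swap_apply_left]
        exact hq

/-- If `Q` relates some pair then some linear extension has comparable neighbours (choose `g ∈ LE Q` and
`i < j` with `Q (g i) (g j)` and `j - i` minimal; the letters between are incomparable to `g j`; move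
`g j` to the place `i + 1`). `1 ∈ LE Q` need not hold, but `LE Q` is nonempty: sort by labels. -/
theorem exists_adj {f : ℕ} {Q : Rel f} {lab : Fin f → ℕ} (hn : Nat' Q lab) (hQ : ∃ i j, Q i j) :
    ∃ g ∈ LE Q, ∃ i j : Fin f, j.val = i.val + 1 ∧ Q (g i) (g j) := by
  obtain ⟨g, hg, -⟩ := class_exists_asc hn
  obtain ⟨a, b, hab⟩ := hQ
  have hab' : Q (g (g.symm a)) (g (g.symm b)) := by simpa using hab
  have hlt := (mem_LE.mp hg) _ _ hab'
  rw [Fin.lt_def] at hlt
  exact class_adj_aux ((g.symm b).val - (g.symm a).val - 1) g hg _ _ (by omega) hab'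

/-- the number of ascending rearrangements, as a sum -/
private theorem class_sum_asc {n o f : ℕ} {Q : Rel n} {lab : Fin n → ℕ} (hn : Nat' Q lab) (hof : o + f ≤ n)
    (π : Equiv.Perm (Fin n)) [DecidablePred fun g : Equiv.Perm (Fin f) => Asc hof lab (π * emb hof g)] :
    ((LE (winRel hof Q π)).filter fun g => Asc hof lab (π * emb hof g)).card = 1 := by
  classical
  have h1 := card_asc (nat_win hn hof π)
  rw [← h1, Nat.card_eq_fintype_card, Fintype.card_subtype]
  congr 1
  ext g
  rw [Finset.mem_filter, Finset.mem_filter]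
  have h2 : Asc hof lab (π * emb hof g) ↔
      ∀ i j : Fin f, i < j → lab (π (wpos hof (g i))) < lab (π (wpos hof (g j))) := by
    unfold Asc
    refine forall_congr' fun i => forall_congr' fun j => imp_congr_right fun _ => ?_
    rw [Equiv.Perm.mul_apply, Equiv.Perm.mul_apply, emb_wpos, emb_wpos]
  rw [h2]
  simp only [Finset.mem_univ, true_and]

open Classical in
private theorem class_anti_iff {n o f : ℕ} {Q : Rel n} (hof : o + f ≤ n) (π : Equiv.Perm (Fin n))
    (g : Equiv.Perm (Fin f)) : Anti hof Q (π * emb hof g) ↔ Anti hof Q π := by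
  unfold Anti
  constructor
  · intro h i j hij
    have := h (g.symm i) (g.symm j)
    rw [winRel_mul_emb] at this
    simp only [Equiv.apply_symm_apply] at this
    exact this hij
  · intro h i j hij
    rw [winRel_mul_emb] at hij
    exact h _ _ hij

open Classical in
/-- (i) ANTICHAIN WINDOWS. `avg` for `F π = if Anti then (if Asc then H π else 0) - H π / f! else 0`: for an
antichain window `LE (winRel π)` is everything (`f!` elements), `H` is constant on the class, and exactly
one rearrangement is ascending (`card_asc`). -/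
theorem anti_cancel {n o f : ℕ} {Q : Rel n} {lab : Fin n → ℕ} (hn : Nat' Q lab) (hof : o + f ≤ n)
    (H : Equiv.Perm (Fin n) → ℂ)
    (hH : ∀ g : Equiv.Perm (Fin f), ∀ π ∈ LE Q, π * emb hof g ∈ LE Q → H (π * emb hof g) = H π) :
    ∑ π ∈ LE Q, (if Anti hof Q π then
      ((if Asc hof lab π then 1 else 0) - ((f.factorial : ℂ))⁻¹) * H π else 0) = 0 := by
  rw [avg hof]
  refine Finset.sum_eq_zero fun π hπ => ?_
  by_cases hA : Anti hof Q π
  · have hall : LE (winRel hof Q π) = Finset.univ := by
      rw [Finset.eq_univ_iff_forall]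
      intro g
      rw [mem_LE]
      intro i j hij
      exact absurd hij (hA _ _)
    have hsum : ∑ g ∈ LE (winRel hof Q π), (if Anti hof Q (π * emb hof g) then
        ((if Asc hof lab (π * emb hof g) then 1 else 0) - ((f.factorial : ℂ))⁻¹) * H (π * emb hof g) else 0)
        = (∑ g ∈ LE (winRel hof Q π), ((if Asc hof lab (π * emb hof g) then (1 : ℂ) else 0)
          - ((f.factorial : ℂ))⁻¹)) * H π := by
      rw [Finset.sum_mul]
      refine Finset.sum_congr rfl fun g hg => ?_
      rw [if_pos ((class_anti_iff hof π g).mpr hA), hH g π hπ ((mul_emb_mem hof π hπ g).mpr hg)]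
    rw [hsum, Finset.sum_sub_distrib, ← Finset.sum_filter, Finset.sum_const, Finset.sum_const,
      class_sum_asc hn hof π, hall, Finset.card_univ, Fintype.card_perm, Fintype.card_fin]
    have hf : (f.factorial : ℂ) ≠ 0 := by exact_mod_cast f.factorial_ne_zero
    have : (1 • (1 : ℂ) - f.factorial • ((f.factorial : ℂ))⁻¹) = 0 := by
      rw [nsmul_eq_mul, nsmul_eq_mul, mul_inv_cancel₀ hf]; simp
    rw [this, zero_mul, smul_zero]
  · have hsum : ∑ g ∈ LE (winRel hof Q π), (if Anti hof Q (π * emb hof g) then
        ((if Asc hof lab (π * emb hof g) then 1 else 0) - ((f.factorial : ℂ))⁻¹) * H (π * emb hof g) else 0)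
        = 0 := by
      refine Finset.sum_eq_zero fun g _ => ?_
      rw [if_neg (fun h => hA ((class_anti_iff hof π g).mp h))]
    rw [hsum, smul_zero]

open Classical in
/-- (ii) THE OTHER WINDOWS. `avg` on both sides: for a window which is not an antichain the left average is
`≤ (1 + e/f!)/e * H ≤ 2/e * H` (`e = #LE (winRel π) ≤ f!`, one ascending rearrangement), the right
average is `≥ 2 * H / e` (`exists_adj`). -/
theorem nonanti_le {n o f : ℕ} {Q : Rel n} {lab : Fin n → ℕ} (hn : Nat' Q lab) (hof : o + f ≤ n)
    (H : Equiv.Perm (Fin n) → ℝ) (hpos : ∀ π, 0 ≤ H π)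
    (hH : ∀ g : Equiv.Perm (Fin f), ∀ π ∈ LE Q, π * emb hof g ∈ LE Q → H (π * emb hof g) = H π) :
    ∑ π ∈ LE Q, (if Anti hof Q π then 0 else
      |(if Asc hof lab π then 1 else 0) - ((f.factorial : ℝ))⁻¹| * H π) ≤
      2 * ∑ π ∈ LE Q, (if AdjIn hof Q π then H π else 0) := by
  rw [avg hof, avg hof (fun π => if AdjIn hof Q π then H π else 0), Finset.mul_sum]
  refine Finset.sum_le_sum fun π hπ => ?_
  set e := (LE (winRel hof Q π)).card with he
  have hf : (1 : ℝ) ≤ f.factorial := by exact_mod_cast Nat.succ_le_of_lt f.factorial_pos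
  have hinv : ((f.factorial : ℝ))⁻¹ ≤ 1 := inv_le_one_of_one_le₀ hf
  have hinv0 : 0 ≤ ((f.factorial : ℝ))⁻¹ := by positivity
  have hef : (e : ℝ) ≤ f.factorial := by
    have : e ≤ f.factorial := by
      have h1 := Finset.card_le_univ (LE (winRel hof Q π))
      rw [Fintype.card_perm, Fintype.card_fin] at h1
      exact h1
    exact_mod_cast this
  have hright0 : 0 ≤ ∑ g ∈ LE (winRel hof Q π),
      (if AdjIn hof Q (π * emb hof g) then H (π * emb hof g) else 0) :=
    Finset.sum_nonneg fun g _ => by split_ifs; exact hpos _; exact le_rfl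
  by_cases hA : Anti hof Q π
  · have hsum : ∑ g ∈ LE (winRel hof Q π), (if Anti hof Q (π * emb hof g) then 0 else
        |(if Asc hof lab (π * emb hof g) then 1 else 0) - ((f.factorial : ℝ))⁻¹| * H (π * emb hof g)) = 0 := by
      refine Finset.sum_eq_zero fun g _ => ?_
      rw [if_pos ((class_anti_iff hof π g).mpr hA)]
    rw [hsum, smul_zero, smul_eq_mul]
    positivity
  · -- left
    have hsum : ∑ g ∈ LE (winRel hof Q π), (if Anti hof Q (π * emb hof g) then 0 else
        |(if Asc hof lab (π * emb hof g) then 1 else 0) - ((f.factorial : ℝ))⁻¹| * H (π * emb hof g))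
        ≤ 2 * H π := by
      have h1 : ∀ g ∈ LE (winRel hof Q π), (if Anti hof Q (π * emb hof g) then 0 else
        |(if Asc hof lab (π * emb hof g) then 1 else 0) - ((f.factorial : ℝ))⁻¹| * H (π * emb hof g))
        ≤ ((if Asc hof lab (π * emb hof g) then 1 else 0) + ((f.factorial : ℝ))⁻¹) * H π := by
        intro g hg
        rw [if_neg (fun h => hA ((class_anti_iff hof π g).mp h)), hH g π hπ ((mul_emb_mem hof π hπ g).mpr hg)]
        refine mul_le_mul_of_nonneg_right ?_ (hpos π)
        rw [abs_le]
        split_ifs <;> constructor <;> linarith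
      refine (Finset.sum_le_sum h1).trans ?_
      rw [← Finset.sum_mul, Finset.sum_add_distrib, ← Finset.sum_filter, Finset.sum_const, Finset.sum_const,
        class_sum_asc hn hof π]
      refine mul_le_mul_of_nonneg_right ?_ (hpos π)
      rw [nsmul_eq_mul, nsmul_eq_mul, ← he]
      have : (e : ℝ) * ((f.factorial : ℝ))⁻¹ ≤ 1 := by
        rw [← div_eq_mul_inv]
        exact div_le_one_of_le₀ hef (by positivity)
      push_cast
      linarith
    -- right
    have hex : ∃ g ∈ LE (winRel hof Q π), AdjIn hof Q (π * emb hof g) := by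
      have h2 : ∃ i j, winRel hof Q π i j := by
        unfold Anti at hA
        push Not at hA
        exact hA
      obtain ⟨g, hg, i, j, hij, hq⟩ := exists_adj (nat_win hn hof π) h2
      exact ⟨g, hg, i, j, hij, (winRel_mul_emb hof π g i j).mpr hq⟩
    obtain ⟨g0, hg0, hadj⟩ := hex
    have hge : H π ≤ ∑ g ∈ LE (winRel hof Q π),
        (if AdjIn hof Q (π * emb hof g) then H (π * emb hof g) else 0) := by
      have h3 := Finset.single_le_sum (f := fun g => if AdjIn hof Q (π * emb hof g) then H (π * emb hof g) else 0)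
        (fun g _ => by split_ifs; exact hpos _; exact le_rfl) hg0
      rw [if_pos hadj] at h3
      rw [hH g0 π hπ ((mul_emb_mem hof π hπ g0).mpr hg0)] at h3
      exact h3
    rw [smul_eq_mul, smul_eq_mul, ← mul_assoc, mul_comm 2 ((e : ℝ)⁻¹), mul_assoc]
    exact mul_le_mul_of_nonneg_left (hsum.trans (by linarith)) (by positivity)

end Pool.HB45
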