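import Mathlib

set_option autoImplicit false

/-!
# HB45/Combine: increasing start + log-concave middle + decreasing end
-/

namespace Pool.HB45

/-- PROOF. `m` = the least `j ≥ a` with `p (j + 1) ≤ p j` (`≤ b`). For `k ≥ m` induction: if `k + 1 ≤ b`,
`p (k + 2) p (k + 1) ≤ p (k + 2) p k ≤ p (k + 1)²`, `p (k + 1) > 0`. -/
theorem combine (p : ℕ → ℝ) (hp : ∀ k, 0 ≤ p k) (a b : ℕ) (hab : a ≤ b)
    (inc : ∀ j < a, p j ≤ p (j + 1))
    (lc : ∀ j, a ≤ j → j ≤ b → 0 < p j ∧ p (j - 1) * p (j + 1) ≤ p j ^ 2)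
    (dec : ∀ j, b ≤ j → p (j + 1) ≤ p j) :
    ∃ m : ℕ, ∀ k, (k < m → p k ≤ p (k + 1)) ∧ (m ≤ k → p (k + 1) ≤ p k) := by
  classical
  have hex : ∃ j, a ≤ j ∧ p (j + 1) ≤ p j := ⟨b, hab, dec b le_rfl⟩
  have hm := Nat.find_spec hex
  set m := Nat.find hex with hmdef
  refine ⟨m, fun k => ⟨fun hk => ?_, fun hk => ?_⟩⟩
  · rcases lt_or_ge k a with h | h
    · exact inc k h
    · have h1 := Nat.find_min hex hk
      by_contra h2
      exact h1 ⟨h, (not_le.1 h2).le⟩
  · induction k, hk using Nat.le_induction with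
    | base => exact hm.2
    | succ k hk ih =>
      rcases le_total b (k + 1) with h | h
      · exact dec (k + 1) h
      · obtain ⟨hpos, hlc⟩ := lc (k + 1) (hm.1.trans (hk.trans (Nat.le_succ k))) h
        rw [Nat.add_sub_cancel] at hlc
        have h3 : p (k + 1 + 1) * p (k + 1) ≤ p (k + 1) * p (k + 1) := by
          calc p (k + 1 + 1) * p (k + 1) ≤ p (k + 1 + 1) * p k :=
                mul_le_mul_of_nonneg_left ih (hp _)
            _ = p k * p (k + 1 + 1) := mul_comm _ _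
            _ ≤ p (k + 1) ^ 2 := hlc
            _ = p (k + 1) * p (k + 1) := sq _
        exact le_of_mul_le_mul_right h3 hpos

end Pool.HB45
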