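import Mathlib

set_option autoImplicit false

/-!
# HB45/Defs: definitions for the bounded height theorem (MP_dcdbc5_co)

THEOREM. For every `h` all but finitely many posets without a chain of `h + 1` elements have a
unimodal descent sequence for every natural labelling.

A naturally labelled poset with `n` elements is a relation `Q` on `Fin n` together with an injective
label function `lab` with `Q a b → lab a < lab b`; 'no chain of more than `h` elements' is given by a
level function `κ` with values `< h` and `Q a b → κ a < κ b`. Transitivity of `Q` is never used.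
A linear extension is a word `g : Perm (Fin n)`, `g i` = the letter at position `i`.
-/

open Polynomial

namespace Pool.HB45

/-- relations on `Fin n` -/
abbrev Rel (n : ℕ) := Fin n → Fin n → Prop

/-- the linear extensions of `Q` -/
noncomputable def LE {n : ℕ} (Q : Rel n) : Finset (Equiv.Perm (Fin n)) := by
  classical
  exact Finset.univ.filter fun g => ∀ i j : Fin n, Q (g i) (g j) → i < j

lemma mem_LE {n : ℕ} {Q : Rel n} {g : Equiv.Perm (Fin n)} :
    g ∈ LE Q ↔ ∀ i j : Fin n, Q (g i) (g j) → i < j := by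
  classical
  unfold LE
  simp

/-- `κ` is a level function with values in `{0, …, h - 1}` -/
structure Lev {n : ℕ} (h : ℕ) (Q : Rel n) (κ : Fin n → ℕ) : Prop where
  lt : ∀ a, κ a < h
  mono : ∀ a b, Q a b → κ a < κ b

/-- `lab` is a natural labelling -/
structure Nat' {n : ℕ} (Q : Rel n) (lab : Fin n → ℕ) : Prop where
  inj : Function.Injective lab
  mono : ∀ a b, Q a b → lab a < lab b

/-- positions `i` with comparable neighbours `g i`, `g (i + 1)` -/
noncomputable def adjs {N : ℕ} (Q : Rel (N + 1)) (g : Equiv.Perm (Fin (N + 1))) : Finset (Fin N) := by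
  classical
  exact Finset.univ.filter fun i : Fin N => Q (g i.castSucc) (g i.succ)

/-- number of comparable neighbours -/
noncomputable def adj {N : ℕ} (Q : Rel (N + 1)) (g : Equiv.Perm (Fin (N + 1))) : ℕ :=
  (adjs Q g).card

/-- number of descents of the word `lab ∘ g` -/
def des {N : ℕ} (lab : Fin (N + 1) → ℕ) (g : Equiv.Perm (Fin (N + 1))) : ℕ :=
  (Finset.univ.filter fun i : Fin N => lab (g i.succ) < lab (g i.castSucc)).card

/-- number of descents of the word with a letter `c` in front (`c = 0`: nothing in front) and a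
letter `d` behind -/
def desB {N : ℕ} (lab : Fin (N + 1) → ℕ) (c d : ℕ) (g : Equiv.Perm (Fin (N + 1))) : ℕ :=
  des lab g + (if lab (g 0) < c then 1 else 0) + (if d < lab (g (Fin.last N)) then 1 else 0)

/-- generating polynomial of `des` -/
noncomputable def Wp {N : ℕ} (Q : Rel (N + 1)) (lab : Fin (N + 1) → ℕ) : ℝ[X] :=
  ∑ g ∈ LE Q, X ^ des lab g

/-- generating polynomial of `desB` -/
noncomputable def Gp {N : ℕ} (Q : Rel (N + 1)) (lab : Fin (N + 1) → ℕ) (c d : ℕ) : ℝ[X] :=
  ∑ g ∈ LE Q, X ^ desB lab c d g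

/-- `w_j` -/
noncomputable def w {N : ℕ} (Q : Rel (N + 1)) (lab : Fin (N + 1) → ℕ) (j : ℕ) : ℕ := by
  classical
  exact ((LE Q).filter fun g => des lab g = j).card

/-! ### rearranging a window of positions -/

/-- the window `[o, o + f)` of positions as a subtype -/
def winEquiv {n o f : ℕ} (hof : o + f ≤ n) : Fin f ≃ {p : Fin n // o ≤ p.val ∧ p.val < o + f} where
  toFun i := ⟨⟨o + i.val, by have := i.isLt; omega⟩, by have := i.isLt; constructor <;> simp⟩
  invFun p := ⟨p.1.val - o, by have := p.2; omega⟩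
  left_inv i := by ext; simp
  right_inv p := by ext; have := p.2; simp; omega

/-- a permutation of the window `[o, o + f)` of positions -/
def emb {n o f : ℕ} (hof : o + f ≤ n) (g : Equiv.Perm (Fin f)) : Equiv.Perm (Fin n) :=
  g.extendDomain (winEquiv hof)

/-- position `o + i` -/
def wpos {n o f : ℕ} (hof : o + f ≤ n) (i : Fin f) : Fin n := ⟨o + i.val, by have := i.isLt; omega⟩

/-- the relation seen in the window `[o, o + f)` of the word `π` -/
def winRel {n o f : ℕ} (hof : o + f ≤ n) (Q : Rel n) (π : Equiv.Perm (Fin n)) : Rel f :=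
  fun i j => Q (π (wpos hof i)) (π (wpos hof j))

/-- `h` does not change when a window `[o, o + f)` with `i ≤ o` is rearranged inside `LE Q` -/
def Inv {n : ℕ} {β : Type} (Q : Rel n) (i : ℕ) (h : Equiv.Perm (Fin n) → β) : Prop :=
  ∀ (o f : ℕ) (hof : o + f ≤ n), i ≤ o → ∀ g : Equiv.Perm (Fin f), ∀ π ∈ LE Q, π * emb hof g ∈ LE Q →
    h (π * emb hof g) = h π

/-- comparable neighbours at positions `≥ i` -/
noncomputable def adjFrom {N : ℕ} (Q : Rel (N + 1)) (i : ℕ) (g : Equiv.Perm (Fin (N + 1))) : ℕ := by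
  classical
  exact (Finset.univ.filter fun p : Fin N => i ≤ p.val ∧ Q (g p.castSucc) (g p.succ)).card

/-- the letters in the window `[o, o + f)` of `π` are pairwise incomparable -/
def Anti {n o f : ℕ} (hof : o + f ≤ n) (Q : Rel n) (π : Equiv.Perm (Fin n)) : Prop :=
  ∀ i j : Fin f, ¬ winRel hof Q π i j

/-- the word `lab ∘ π` ascends in the window `[o, o + f)` -/
def Asc {n o f : ℕ} (hof : o + f ≤ n) (lab : Fin n → ℕ) (π : Equiv.Perm (Fin n)) : Prop :=
  ∀ i j : Fin f, i < j → lab (π (wpos hof i)) < lab (π (wpos hof j))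

/-- two neighbouring letters of the window `[o, o + f)` are comparable -/
def AdjIn {n o f : ℕ} (hof : o + f ≤ n) (Q : Rel n) (π : Equiv.Perm (Fin n)) : Prop :=
  ∃ i j : Fin f, j.val = i.val + 1 ∧ winRel hof Q π i j

/-! ### the complex side -/

/-- product over the neighbours at positions `p ≥ i` of `1 + z [ascent at p]` -/
noncomputable def R {N : ℕ} (lab : Fin (N + 1) → ℕ) (z : ℂ) (i : ℕ) (g : Equiv.Perm (Fin (N + 1))) : ℂ :=
  ∏ p ∈ Finset.univ.filter (fun p : Fin N => i ≤ p.val),
    (1 + if lab (g p.castSucc) < lab (g p.succ) then z else 0)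

/-- `z = e^s - 1` -/
noncomputable def zz (s : ℂ) : ℂ := Complex.exp s - 1

/-- `S s = sinh (s/2) / (s/2)` as an integral -/
noncomputable def S (s : ℂ) : ℂ := ∫ x in (-(1/2) : ℝ)..(1/2), Complex.exp (s * x)

/-- `Z_a = Σ_{f=1}^{a} z^(f-1)/f! Z_(a-f)`, `Z_0 = 1` -/
noncomputable def Z (z : ℂ) : ℕ → ℂ
  | 0 => 1
  | a + 1 => ∑ f : Fin (a + 1), z ^ f.val / (f.val + 1).factorial * Z z (a - f.val)

end Pool.HB45
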