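import Pool.Agent.HB45.Emb

set_option autoImplicit false

/-!
# HB45/Defs2: more definitions (complex values, windows)
-/

open Polynomial

namespace Pool.HB45

/-- `W t = Σ_g t^(des g)` for complex `t` -/
noncomputable def Wc {N : ℕ} (Q : Rel (N + 1)) (lab : Fin (N + 1) → ℕ) (t : ℂ) : ℂ :=
  ∑ g ∈ LE Q, t ^ des lab g

/-- the same for real `t` -/
noncomputable def Wr {N : ℕ} (Q : Rel (N + 1)) (lab : Fin (N + 1) → ℕ) (t : ℝ) : ℝ :=
  ∑ g ∈ LE Q, t ^ des lab g

/-- `x0 = s / (e^s - 1)` -/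
noncomputable def x0 (s : ℂ) : ℂ := (Complex.exp (s / 2) * S s)⁻¹

/-- the window number `k` of size `B + 1` starts at `k (B + 2)`; it is followed by a separator -/
theorem win_le {N B m : ℕ} (hm : m * (B + 2) ≤ N + 1) (k : Fin m) :
    k.val * (B + 2) + (B + 1) ≤ N + 1 := by
  have h1 : (k.val + 1) * (B + 2) ≤ m * (B + 2) := Nat.mul_le_mul_right _ k.isLt
  nlinarith

/-- label of the letter at position `p` -/
def ltr {N : ℕ} (lab : Fin (N + 1) → ℕ) (π : Equiv.Perm (Fin (N + 1))) (p : ℕ) : ℕ :=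
  if h : p < N + 1 then lab (π ⟨p, h⟩) else 0

/-- the letter before window `k` (`0` if there is none) -/
def cB {N : ℕ} (lab : Fin (N + 1) → ℕ) (B k : ℕ) (π : Equiv.Perm (Fin (N + 1))) : ℕ :=
  if k = 0 then 0 else ltr lab π (k * (B + 2) - 1)

/-- the letter behind window `k` -/
def dB {N : ℕ} (lab : Fin (N + 1) → ℕ) (B k : ℕ) (π : Equiv.Perm (Fin (N + 1))) : ℕ :=
  ltr lab π (k * (B + 2) + B + 1)

/-- generating polynomial of window `k` -/
noncomputable def GW {N B m : ℕ} (hm : m * (B + 2) ≤ N + 1) (Q : Rel (N + 1)) (lab : Fin (N + 1) → ℕ)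
    (π : Equiv.Perm (Fin (N + 1))) (k : Fin m) : ℝ[X] :=
  Gp (winRel (win_le hm k) Q π) (fun i => lab (π (wpos (win_le hm k) i))) (cB lab B k.val π)
    (dB lab B k.val π)

/-- number of descents behind the last window -/
def rest {N : ℕ} (lab : Fin (N + 1) → ℕ) (B m : ℕ) (π : Equiv.Perm (Fin (N + 1))) : ℕ :=
  (Finset.univ.filter fun p : Fin N =>
    m * (B + 2) ≤ p.val + 1 ∧ lab (π p.succ) < lab (π p.castSucc)).card

end Pool.HB45
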