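import Pool.Agent.HB45.Defs

set_option autoImplicit false

/-!
# HB45/Emb: rearranging a window of positions
-/

namespace Pool.HB45

variable {n o f : ℕ}

theorem emb_wpos (hof : o + f ≤ n) (g : Equiv.Perm (Fin f)) (i : Fin f) :
    emb hof g (wpos hof i) = wpos hof (g i) :=
  Equiv.Perm.extendDomain_apply_image g (winEquiv hof) i

theorem emb_of_not (hof : o + f ≤ n) (g : Equiv.Perm (Fin f)) (p : Fin n)
    (hp : ¬ (o ≤ p.val ∧ p.val < o + f)) : emb hof g p = p :=
  Equiv.Perm.extendDomain_apply_not_subtype g (winEquiv hof) hp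

theorem exists_wpos (hof : o + f ≤ n) (p : Fin n) (hp : o ≤ p.val ∧ p.val < o + f) :
    ∃ i : Fin f, p = wpos hof i :=
  ⟨⟨p.val - o, by omega⟩, Fin.ext (by simp [wpos]; omega)⟩

theorem wpos_in (hof : o + f ≤ n) (i : Fin f) :
    o ≤ (wpos hof i).val ∧ (wpos hof i).val < o + f := by
  have := i.isLt
  constructor <;> simp [wpos]

theorem emb_mul (hof : o + f ≤ n) (g g' : Equiv.Perm (Fin f)) :
    emb hof (g * g') = emb hof g * emb hof g' :=
  (Equiv.Perm.extendDomain_mul (winEquiv hof) g g').symm

theorem emb_one (hof : o + f ≤ n) : emb hof (1 : Equiv.Perm (Fin f)) = 1 :=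
  Equiv.Perm.extendDomain_one (winEquiv hof)

/-- disjoint windows commute -/
theorem emb_comm {o' f' : ℕ} (hof : o + f ≤ n) (hof' : o' + f' ≤ n) (hd : o + f ≤ o')
    (g : Equiv.Perm (Fin f)) (g' : Equiv.Perm (Fin f')) :
    emb hof g * emb hof' g' = emb hof' g' * emb hof g := by
  ext p
  simp only [Equiv.Perm.coe_mul, Function.comp_apply]
  by_cases h1 : o ≤ p.val ∧ p.val < o + f
  · obtain ⟨i, rfl⟩ := exists_wpos hof p h1
    have h2 := wpos_in hof (g i)
    rw [emb_wpos, emb_of_not hof' g' (wpos hof i) (by omega),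
      emb_of_not hof' g' (wpos hof (g i)) (by omega), emb_wpos]
  · by_cases h2 : o' ≤ p.val ∧ p.val < o' + f'
    · obtain ⟨i, rfl⟩ := exists_wpos hof' p h2
      have h3 := wpos_in hof' (g' i)
      rw [emb_wpos, emb_of_not hof g (wpos hof' i) (by omega),
        emb_of_not hof g (wpos hof' (g' i)) (by omega), emb_wpos]
    · rw [emb_of_not hof' g' p h2, emb_of_not hof g p h1, emb_of_not hof' g' p h2]

/-- `π` rearranged in a window is a linear extension iff the rearrangement is a linear extension of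
the relation of the window (letters of the window keep their places relative to the others). -/
theorem mul_emb_mem {Q : Rel n} (hof : o + f ≤ n) (π : Equiv.Perm (Fin n)) (hπ : π ∈ LE Q)
    (g : Equiv.Perm (Fin f)) : π * emb hof g ∈ LE Q ↔ g ∈ LE (winRel hof Q π) := by
  rw [mem_LE] at hπ
  rw [mem_LE, mem_LE]
  simp only [Equiv.Perm.coe_mul, Function.comp_apply, winRel]
  constructor
  · intro h i j hij
    have h1 := h (wpos hof i) (wpos hof j) (by rw [emb_wpos, emb_wpos]; exact hij)
    have h2 : o + i.val < o + j.val := h1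
    exact Fin.lt_def.2 (by omega)
  · intro h p q hpq
    by_cases h1 : o ≤ p.val ∧ p.val < o + f
    · obtain ⟨i, rfl⟩ := exists_wpos hof p h1
      rw [emb_wpos] at hpq
      by_cases h2 : o ≤ q.val ∧ q.val < o + f
      · obtain ⟨j, rfl⟩ := exists_wpos hof q h2
        rw [emb_wpos] at hpq
        have h3 : i.val < j.val := Fin.lt_def.1 (h i j hpq)
        refine Fin.lt_def.2 ?_
        change o + i.val < o + j.val
        omega
      · rw [emb_of_not hof g q h2] at hpq
        have h3 := Fin.lt_def.1 (hπ _ _ hpq)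
        have h4 := wpos_in hof (g i)
        exact Fin.lt_def.2 (by omega)
    · rw [emb_of_not hof g p h1] at hpq
      by_cases h2 : o ≤ q.val ∧ q.val < o + f
      · obtain ⟨j, rfl⟩ := exists_wpos hof q h2
        rw [emb_wpos] at hpq
        have h3 := Fin.lt_def.1 (hπ _ _ hpq)
        have h4 := wpos_in hof (g j)
        exact Fin.lt_def.2 (by omega)
      · rw [emb_of_not hof g q h2] at hpq
        exact hπ _ _ hpq

theorem winRel_mul_emb {Q : Rel n} (hof : o + f ≤ n) (π : Equiv.Perm (Fin n)) (g : Equiv.Perm (Fin f))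
    (i j : Fin f) : winRel hof Q (π * emb hof g) i j ↔ winRel hof Q π (g i) (g j) := by
  simp only [winRel, Equiv.Perm.coe_mul, Function.comp_apply]
  rw [emb_wpos, emb_wpos]

/-- a later window does not see the rearrangement of an earlier one, and conversely -/
theorem winRel_mul_emb_of_disj {o' f' : ℕ} {Q : Rel n} (hof : o + f ≤ n) (hof' : o' + f' ≤ n)
    (hd : o + f ≤ o' ∨ o' + f' ≤ o) (π : Equiv.Perm (Fin n)) (g : Equiv.Perm (Fin f')) :
    winRel hof Q (π * emb hof' g) = winRel hof Q π := by
  funext i j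
  have hi := wpos_in hof i
  have hj := wpos_in hof j
  simp only [winRel, Equiv.Perm.coe_mul, Function.comp_apply]
  rw [emb_of_not hof' g (wpos hof i) (by omega), emb_of_not hof' g (wpos hof j) (by omega)]

/-- level function and labels of a window -/
theorem lev_win {h : ℕ} {Q : Rel n} {κ : Fin n → ℕ} (hκ : Lev h Q κ) (hof : o + f ≤ n)
    (π : Equiv.Perm (Fin n)) : Lev h (winRel hof Q π) (fun i => κ (π (wpos hof i))) :=
  ⟨fun _ => hκ.lt _, fun _ _ hab => hκ.mono _ _ hab⟩

theorem nat_win {Q : Rel n} {lab : Fin n → ℕ} (hn : Nat' Q lab) (hof : o + f ≤ n)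
    (π : Equiv.Perm (Fin n)) : Nat' (winRel hof Q π) (fun i => lab (π (wpos hof i))) := by
  refine ⟨fun i j hij => ?_, fun _ _ hab => hn.mono _ _ hab⟩
  have h1 := π.injective (hn.inj hij)
  have h2 : o + i.val = o + j.val := congrArg Fin.val h1
  exact Fin.ext (by omega)

end Pool.HB45
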