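import Pool.Agent.HB45.Defs2

set_option autoImplicit false

/-!
# HB45/Zb: the reference sequence `Z`
-/

namespace Pool.HB45

/-- `S` by its definition as an integral: `s S s = e^(s/2) - e^(-s/2)` -/
theorem mul_S (s : ℂ) : s * S s = Complex.exp (s / 2) - Complex.exp (-(s / 2)) := by
  unfold S
  by_cases hs : s = 0
  · subst hs; simp
  · rw [integral_exp_mul_complex hs]
    rw [mul_div_cancel₀ _ hs]
    push_cast
    congr 2 <;> ring

/-- `e^s - 1 = s e^(s/2) S s` -/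
theorem zz_eq (s : ℂ) : zz s = s * (Complex.exp (s / 2) * S s) := by
  have h : s * (Complex.exp (s / 2) * S s) = Complex.exp (s / 2) * (s * S s) := by ring
  rw [h, mul_S, mul_sub, ← Complex.exp_add, ← Complex.exp_add]
  unfold zz
  rw [add_halves, add_neg_cancel, Complex.exp_zero]

lemma S_zero : S 0 = 1 := by
  unfold S
  simp
  norm_num

/-- `e^(s/2) S s = Σ_{k ≥ 0} s^k / (k+1)!` -/
theorem hasSum_S (s : ℂ) :
    HasSum (fun k : ℕ => s ^ k / ((k + 1).factorial : ℂ)) (Complex.exp (s / 2) * S s) := by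
  by_cases hs : s = 0
  · subst hs
    rw [S_zero]
    have := hasSum_single (f := fun k : ℕ => (0 : ℂ) ^ k / ((k + 1).factorial : ℂ)) 0
      (by intro k hk; simp [zero_pow hk])
    simpa using this
  · have h1 : HasSum (fun k : ℕ => s ^ k / (k.factorial : ℂ)) (Complex.exp s) := by
      have := NormedSpace.expSeries_div_hasSum_exp (𝔸 := ℂ) s
      rwa [← Complex.exp_eq_exp_ℂ] at this
    have h2 : HasSum (fun k : ℕ => s ^ (k + 1) / ((k + 1).factorial : ℂ)) (Complex.exp s - 1) := by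
      have := (hasSum_nat_add_iff' (f := fun k : ℕ => s ^ k / (k.factorial : ℂ)) 1).mpr h1
      simpa using this
    have h3 := h2.div_const s
    have e1 : (Complex.exp s - 1) / s = Complex.exp (s / 2) * S s := by
      have := zz_eq s
      unfold zz at this
      rw [this, mul_div_cancel_left₀ _ hs]
    rw [e1] at h3
    have e2 : (fun k : ℕ => s ^ k / ((k + 1).factorial : ℂ)) =
        fun k : ℕ => s ^ (k + 1) / ((k + 1).factorial : ℂ) / s := by
      funext k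
      rw [pow_succ]
      field_simp
    rw [e2]
    exact h3

/-- partial sums of `hasSum_S` -/
noncomputable def Ps (s : ℂ) (f : ℕ) : ℂ := ∑ k ∈ Finset.range f, s ^ k / ((k + 1).factorial : ℂ)

lemma mul_q_sub_Ps (s : ℂ) (f : ℕ) : s * (Complex.exp (s / 2) * S s - Ps s f) =
    Complex.exp s - ∑ m ∈ Finset.range (f + 1), s ^ m / (m.factorial : ℂ) := by
  rw [Finset.sum_range_succ', mul_sub, ← zz_eq, Ps, Finset.mul_sum]
  have : ∀ k ∈ Finset.range f, s * (s ^ k / ((k + 1).factorial : ℂ)) =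
      s ^ (k + 1) / ((k + 1).factorial : ℂ) := by
    intro k _; rw [pow_succ]; ring
  rw [Finset.sum_congr rfl this]
  unfold zz
  simp
  ring

lemma fac_bound (f : ℕ) (hf : 1 ≤ f) :
    (f : ℝ) * (((f + 1).succ : ℕ) * (((f + 1).factorial : ℝ) * ((f + 1 : ℕ) : ℝ))⁻¹) ≤ 3 / 4 := by
  have h1 : ((f + 1).factorial : ℝ) = (f + 1 : ℝ) * (f.factorial : ℝ) := by
    rw [Nat.factorial_succ]; push_cast; ring
  have h2 : (f : ℝ) ≤ (f.factorial : ℝ) := by exact_mod_cast Nat.self_le_factorial f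
  have hf' : (1 : ℝ) ≤ f := by exact_mod_cast hf
  rw [h1]
  push_cast
  rw [← mul_assoc, ← div_eq_mul_inv, div_le_iff₀ (by positivity)]
  have h3 : (0 : ℝ) ≤ (f.factorial : ℝ) - f := by linarith
  nlinarith [mul_nonneg h3 (by positivity : (0 : ℝ) ≤ ((f : ℝ) + 1) * (f + 1)),
    mul_nonneg (sub_nonneg.mpr hf') (by positivity : (0 : ℝ) ≤ (f : ℝ)),
    mul_nonneg (mul_nonneg (sub_nonneg.mpr hf') (by positivity : (0 : ℝ) ≤ (f : ℝ)))
      (by positivity : (0 : ℝ) ≤ (f : ℝ))]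

lemma q_sub_Ps (s : ℂ) (hs : ‖s‖ ≤ 1 / 20) (f : ℕ) (hf : 1 ≤ f) :
    (f : ℝ) * ‖Complex.exp (s / 2) * S s - Ps s f‖ ≤ 3 / 4 * ‖s‖ ^ f := by
  by_cases h0 : s = 0
  · subst h0
    rw [S_zero]
    have : Ps 0 f = 1 := by
      unfold Ps
      obtain ⟨g, rfl⟩ : ∃ g, f = g + 1 := ⟨f - 1, by omega⟩
      rw [Finset.sum_range_succ']
      simp
    rw [this]
    simp
  · have hp : 0 < ‖s‖ := norm_pos_iff.mpr h0
    have h1 := Complex.exp_bound (x := s) (by linarith) (n := f + 1) (by omega)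
    rw [← mul_q_sub_Ps, norm_mul] at h1
    have h2 := fac_bound f hf
    have h3 : ‖s‖ * ((f : ℝ) * ‖Complex.exp (s / 2) * S s - Ps s f‖) ≤
        ‖s‖ * (3 / 4 * ‖s‖ ^ f) := by
      calc ‖s‖ * ((f : ℝ) * ‖Complex.exp (s / 2) * S s - Ps s f‖)
          = f * (‖s‖ * ‖Complex.exp (s / 2) * S s - Ps s f‖) := by ring
        _ ≤ f * (‖s‖ ^ (f + 1) * (((f + 1).succ : ℕ) *
            (((f + 1).factorial : ℝ) * ((f + 1 : ℕ) : ℝ))⁻¹)) :=
            mul_le_mul_of_nonneg_left h1 (Nat.cast_nonneg f)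
        _ = ‖s‖ ^ (f + 1) * (f * (((f + 1).succ : ℕ) *
            (((f + 1).factorial : ℝ) * ((f + 1 : ℕ) : ℝ))⁻¹)) := by ring
        _ ≤ ‖s‖ ^ (f + 1) * (3 / 4) := mul_le_mul_of_nonneg_left h2 (by positivity)
        _ = ‖s‖ * (3 / 4 * ‖s‖ ^ f) := by ring
    exact le_of_mul_le_mul_left h3 hp

/-- `‖e^(s/2) S s - 1‖ ≤ (6/10) ‖s‖` for `‖s‖ ≤ 1/20` (from `hasSum_S`) -/
theorem norm_S_sub_one (s : ℂ) (hs : ‖s‖ ≤ 1 / 20) :
    ‖Complex.exp (s / 2) * S s - 1‖ ≤ 6 / 10 * ‖s‖ := by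
  have h := q_sub_Ps s hs 2 (by norm_num)
  have e : Ps s 2 = 1 + s / 2 := by
    unfold Ps
    simp [Finset.sum_range_succ, Nat.factorial]
    norm_num
  rw [e] at h
  have h2 : ‖Complex.exp (s / 2) * S s - 1‖ ≤
      ‖Complex.exp (s / 2) * S s - (1 + s / 2)‖ + ‖s / 2‖ := by
    calc ‖Complex.exp (s / 2) * S s - 1‖
        = ‖(Complex.exp (s / 2) * S s - (1 + s / 2)) + s / 2‖ := by congr 1; ring
      _ ≤ _ := norm_add_le _ _
  have h3 : ‖s / 2‖ = ‖s‖ / 2 := by simp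
  rw [h3] at h2
  push_cast at h
  nlinarith [norm_nonneg s]

lemma norm_q_ge (s : ℂ) (hs : ‖s‖ ≤ 1 / 20) : 97 / 100 ≤ ‖Complex.exp (s / 2) * S s‖ := by
  have h := norm_S_sub_one s hs
  have h2 : ‖(1 : ℂ)‖ ≤ ‖Complex.exp (s / 2) * S s‖ + ‖Complex.exp (s / 2) * S s - 1‖ := by
    calc ‖(1 : ℂ)‖ = ‖Complex.exp (s / 2) * S s - (Complex.exp (s / 2) * S s - 1)‖ := by
          congr 1; ring
      _ ≤ _ := norm_sub_le _ _
  rw [norm_one] at h2
  linarith

theorem S_ne_zero (s : ℂ) (hs : ‖s‖ ≤ 1 / 20) : S s ≠ 0 := by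
  intro h
  have := norm_q_ge s hs
  rw [h] at this
  norm_num at this

lemma q_ne_zero (s : ℂ) (hs : ‖s‖ ≤ 1 / 20) : Complex.exp (s / 2) * S s ≠ 0 :=
  mul_ne_zero (Complex.exp_ne_zero _) (S_ne_zero s hs)

theorem zz_mul_x0 (s : ℂ) (hs : ‖s‖ ≤ 1 / 20) : zz s * x0 s = s := by
  rw [zz_eq, x0, mul_assoc, mul_inv_cancel₀ (q_ne_zero s hs), mul_one]

lemma norm_x0 (s : ℂ) (hs : ‖s‖ ≤ 1 / 20) : ‖x0 s‖ ≤ 104 / 100 := by
  rw [x0, norm_inv]
  have := norm_q_ge s hs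
  rw [inv_le_comm₀ (by linarith) (by norm_num)]
  linarith

/-- `y_a` -/
noncomputable def ya (s : ℂ) (a : ℕ) : ℂ := Z (zz s) a * x0 s ^ (a + 1)

/-- the tails `Π_f` -/
noncomputable def Pf (s : ℂ) (f : ℕ) : ℂ := 1 - x0 s * Ps s f

lemma Pf_zero (s : ℂ) : Pf s 0 = 1 := by simp [Pf, Ps]

lemma Pf_succ (s : ℂ) (f : ℕ) : Pf s (f + 1) = Pf s f - x0 s * (s ^ f / ((f + 1).factorial : ℂ)) := by
  unfold Pf Ps
  rw [Finset.sum_range_succ]
  ring

lemma ya_succ (s : ℂ) (hs : ‖s‖ ≤ 1 / 20) (a : ℕ) : ya s (a + 1) =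
    ∑ f ∈ Finset.range (a + 1), x0 s * (s ^ f / ((f + 1).factorial : ℂ)) * ya s (a - f) := by
  unfold ya
  rw [Z, Finset.sum_mul, Finset.sum_range]
  refine Finset.sum_congr rfl fun f _ => ?_
  have hf := f.isLt
  have e : a + 1 + 1 = 1 + f.val + (a - f.val + 1) := by omega
  rw [e, pow_add, pow_add, pow_one]
  have h := zz_mul_x0 s hs
  have h2 : s ^ f.val = zz s ^ f.val * x0 s ^ f.val := by
    rw [← mul_pow, h]
  rw [h2]
  ring

lemma sum_Pf_ya (s : ℂ) (hs : ‖s‖ ≤ 1 / 20) (a : ℕ) :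
    ∑ f ∈ Finset.range (a + 1), Pf s f * ya s (a - f) = x0 s := by
  induction a with
  | zero => simp [Pf_zero, ya, Z]
  | succ a ih =>
    rw [Finset.sum_range_succ']
    have h1 : ∀ f ∈ Finset.range (a + 1), Pf s (f + 1) * ya s (a + 1 - (f + 1)) =
        Pf s f * ya s (a - f) - x0 s * (s ^ f / ((f + 1).factorial : ℂ)) * ya s (a - f) := by
      intro f _
      rw [Nat.add_sub_add_right, Pf_succ]
      ring
    rw [Finset.sum_congr rfl h1, Finset.sum_sub_distrib, ih, ← ya_succ s hs, Pf_zero]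
    simp

lemma sum_Pf (s : ℂ) (a : ℕ) : ∑ f ∈ Finset.range (a + 1), Pf s f =
    x0 s * (∑ k ∈ Finset.range (a + 1), s ^ k / (k.factorial : ℂ)) + (a + 1) * Pf s (a + 1) := by
  induction a with
  | zero => simp [Pf, Ps]
  | succ a ih =>
    rw [Finset.sum_range_succ, ih, Finset.sum_range_succ _ (a + 1), Pf_succ s (a + 1)]
    have h : ((a + 1 + 1).factorial : ℂ) = (a + 1 + 1) * ((a + 1).factorial : ℂ) := by
      rw [Nat.factorial_succ]; push_cast; ring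
    have h0 : ((a + 1).factorial : ℂ) ≠ 0 := by exact_mod_cast Nat.factorial_ne_zero _
    have h1 : ((a : ℂ) + 1 + 1) ≠ 0 := by exact_mod_cast Nat.succ_ne_zero (a + 1)
    rw [h]
    push_cast
    field_simp
    ring

lemma norm_Pf (s : ℂ) (hs : ‖s‖ ≤ 1 / 20) (f : ℕ) (hf : 1 ≤ f) :
    (f : ℝ) * ‖Pf s f‖ ≤ 78 / 100 * ‖s‖ ^ f := by
  have e : Pf s f = x0 s * (Complex.exp (s / 2) * S s - Ps s f) := by
    unfold Pf
    rw [mul_sub, x0, inv_mul_cancel₀ (q_ne_zero s hs)]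
  have h1 := q_sub_Ps s hs f hf
  have h2 := norm_x0 s hs
  rw [e, norm_mul]
  calc (f : ℝ) * (‖x0 s‖ * ‖Complex.exp (s / 2) * S s - Ps s f‖)
      = ‖x0 s‖ * (f * ‖Complex.exp (s / 2) * S s - Ps s f‖) := by ring
    _ ≤ 104 / 100 * (3 / 4 * ‖s‖ ^ f) :=
        mul_le_mul h2 h1 (by positivity) (by norm_num)
    _ = 78 / 100 * ‖s‖ ^ f := by ring

lemma norm_Pf' (s : ℂ) (hs : ‖s‖ ≤ 1 / 20) (f : ℕ) (hf : 1 ≤ f) :
    ‖Pf s f‖ ≤ 78 / 100 * ‖s‖ ^ f := by
  have h := norm_Pf s hs f hf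
  have hf' : (1 : ℝ) ≤ f := by exact_mod_cast hf
  nlinarith [norm_nonneg (Pf s f)]

lemma geo_sum (a : ℕ) : ∑ f ∈ Finset.range a, ((1 : ℝ) / 10) ^ (f + 1) ≤ 1 / 9 := by
  have h : ∑ f ∈ Finset.range a, ((1 : ℝ) / 10) ^ (f + 1) = (1 - (1 / 10) ^ a) / 9 := by
    induction a with
    | zero => simp
    | succ a ih => rw [Finset.sum_range_succ, ih, pow_succ]; ring
  rw [h]
  have : (0 : ℝ) ≤ (1 / 10) ^ a := by positivity
  linarith

/-- THE REFERENCE SEQUENCE. Write `y_a = Z_a x0^(a+1)`, `π_f = x0 s^(f-1) / f!` (`f ≥ 1`, sum `1` by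
`hasSum_S`), `Π_f = Σ_{f' > f} π_f'` (`Π_0 = 1`, `|Π_f| ≤ (61/100) |s|^f` for `f ≥ 1`).
`y_a = Σ_{f=1}^{a} π_f y_(a-f)` gives by induction `Σ_{f=0}^{a} Π_f y_(a-f) = y_0 = x0`; also
`Σ_{f ≥ 0} Π_f = Σ f π_f = x0 e^s`. So `E_a = e^s y_a - 1` satisfies
`E_a = - Σ_{f=1}^{a} Π_f E_(a-f) + Σ_{f > a} Π_f`, and by induction
`|E_a| ≤ |s| 2^(-a) (61/100) Σ_{f≥1} (2|s|)^f + (65/100) |s|^(a+1) ≤ |s| 2^(-a)`. -/
theorem Z_bound (s : ℂ) (hs : ‖s‖ ≤ 1 / 20) (a : ℕ) :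
    ‖Complex.exp s * (Z (zz s) a * x0 s ^ (a + 1)) - 1‖ ≤ ‖s‖ * (1 / 2) ^ a := by
  change ‖Complex.exp s * ya s a - 1‖ ≤ _
  induction a using Nat.strong_induction_on with
  | _ a ih =>
  rcases Nat.eq_zero_or_pos a with rfl | ha
  · have e : Complex.exp s * ya s 0 - 1 = x0 s * (Complex.exp s - Complex.exp (s / 2) * S s) := by
      rw [mul_sub, x0, inv_mul_cancel₀ (q_ne_zero s hs), ya, Z, x0]
      ring
    have h1 := Complex.exp_bound (x := s) (by linarith) (n := 2) (by norm_num)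
    have h2 := q_sub_Ps s hs 2 (by norm_num)
    have e1 : ∑ m ∈ Finset.range 2, s ^ m / (m.factorial : ℂ) = 1 + s := by
      simp [Finset.sum_range_succ, Nat.factorial]
    have e2 : Ps s 2 = 1 + s / 2 := by
      unfold Ps
      simp [Finset.sum_range_succ, Nat.factorial]
      norm_num
    rw [e1] at h1
    rw [e2] at h2
    have h3 : ‖Complex.exp s - Complex.exp (s / 2) * S s‖ ≤
        ‖Complex.exp s - (1 + s)‖ + ‖Complex.exp (s / 2) * S s - (1 + s / 2)‖ + ‖s / 2‖ := by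
      calc ‖Complex.exp s - Complex.exp (s / 2) * S s‖
          = ‖(Complex.exp s - (1 + s)) - (Complex.exp (s / 2) * S s - (1 + s / 2)) + s / 2‖ := by
            congr 1; ring
        _ ≤ ‖(Complex.exp s - (1 + s)) - (Complex.exp (s / 2) * S s - (1 + s / 2))‖ + ‖s / 2‖ :=
            norm_add_le _ _
        _ ≤ _ := by gcongr; exact norm_sub_le _ _
    have h4 : ‖s / 2‖ = ‖s‖ / 2 := by simp
    rw [h4] at h3
    have h5 : ‖Complex.exp s - Complex.exp (s / 2) * S s‖ ≤ 6 / 10 * ‖s‖ := by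
      have n1 : ((Nat.succ 2 : ℕ) : ℝ) * (((Nat.factorial 2 : ℕ) : ℝ) * ((2 : ℕ) : ℝ))⁻¹ = 3 / 4 := by
        norm_num [Nat.factorial]
      rw [n1] at h1
      push_cast at h2
      nlinarith [norm_nonneg s]
    rw [e, norm_mul, pow_zero, mul_one]
    calc ‖x0 s‖ * ‖Complex.exp s - Complex.exp (s / 2) * S s‖
        ≤ 104 / 100 * (6 / 10 * ‖s‖) :=
          mul_le_mul (norm_x0 s hs) h5 (norm_nonneg _) (by norm_num)
      _ ≤ ‖s‖ := by nlinarith [norm_nonneg s]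
  · -- the main step
    have hT := sum_Pf_ya s hs a
    have hS := sum_Pf s a
    have key : Complex.exp s * ya s a - 1 =
        -(∑ f ∈ Finset.range a, Pf s (f + 1) * (Complex.exp s * ya s (a - (f + 1)) - 1)) +
        (x0 s * (Complex.exp s - ∑ k ∈ Finset.range (a + 1), s ^ k / (k.factorial : ℂ)) -
          (a + 1) * Pf s (a + 1)) := by
      rw [Finset.sum_range_succ'] at hT
      rw [Finset.sum_range_succ'] at hS
      rw [Pf_zero, one_mul, Nat.sub_zero] at hT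
      rw [Pf_zero] at hS
      have e3 : ∑ f ∈ Finset.range a, Pf s (f + 1) * (Complex.exp s * ya s (a - (f + 1)) - 1) =
          Complex.exp s * (∑ f ∈ Finset.range a, Pf s (f + 1) * ya s (a - (f + 1))) -
            ∑ f ∈ Finset.range a, Pf s (f + 1) := by
        rw [Finset.mul_sum, ← Finset.sum_sub_distrib]
        refine Finset.sum_congr rfl fun f _ => ?_
        ring
      rw [e3]
      linear_combination Complex.exp s * hT - hS
    have hd : (0 : ℝ) ≤ ‖s‖ := norm_nonneg s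
    -- first sum
    have b1 : ‖∑ f ∈ Finset.range a, Pf s (f + 1) * (Complex.exp s * ya s (a - (f + 1)) - 1)‖ ≤
        ‖s‖ * (1 / 2) ^ a * (78 / 100 * (1 / 9)) := by
      calc ‖∑ f ∈ Finset.range a, Pf s (f + 1) * (Complex.exp s * ya s (a - (f + 1)) - 1)‖
          ≤ ∑ f ∈ Finset.range a, ‖s‖ * (1 / 2) ^ a * (78 / 100) * (1 / 10) ^ (f + 1) := by
            refine norm_sum_le_of_le _ fun f hf => ?_
            have hfa := Finset.mem_range.mp hf
            rw [norm_mul]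
            have i1 := norm_Pf' s hs (f + 1) (by omega)
            have i2 := ih (a - (f + 1)) (by omega)
            have i3 : ((1 : ℝ) / 2) ^ a = (1 / 2) ^ (f + 1) * (1 / 2) ^ (a - (f + 1)) := by
              rw [← pow_add]; congr 1; omega
            have i4 : ‖s‖ ^ (f + 1) ≤ (1 / 2) ^ (f + 1) * (1 / 10) ^ (f + 1) := by
              rw [← mul_pow]
              exact pow_le_pow_left₀ hd (by linarith) _
            calc ‖Pf s (f + 1)‖ * ‖Complex.exp s * ya s (a - (f + 1)) - 1‖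
                ≤ (78 / 100 * ‖s‖ ^ (f + 1)) * (‖s‖ * (1 / 2) ^ (a - (f + 1))) :=
                  mul_le_mul i1 i2 (norm_nonneg _) (by positivity)
              _ ≤ (78 / 100 * ((1 / 2) ^ (f + 1) * (1 / 10) ^ (f + 1))) *
                    (‖s‖ * (1 / 2) ^ (a - (f + 1))) := by gcongr
              _ = ‖s‖ * (1 / 2) ^ a * (78 / 100) * (1 / 10) ^ (f + 1) := by rw [i3]; ring
        _ = ‖s‖ * (1 / 2) ^ a * (78 / 100) * ∑ f ∈ Finset.range a, (1 / 10) ^ (f + 1) := by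
            rw [Finset.mul_sum]
        _ ≤ ‖s‖ * (1 / 2) ^ a * (78 / 100) * (1 / 9) :=
            mul_le_mul_of_nonneg_left (geo_sum a) (by positivity)
        _ = _ := by ring
    -- the tail
    have b2 : ‖x0 s * (Complex.exp s - ∑ k ∈ Finset.range (a + 1), s ^ k / (k.factorial : ℂ))‖ ≤
        78 / 100 * ‖s‖ ^ (a + 1) := by
      rw [norm_mul]
      have j1 := Complex.exp_bound (x := s) (by linarith) (n := a + 1) (by omega)
      have j2 := fac_bound a ha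
      have ha' : (1 : ℝ) ≤ a := by exact_mod_cast ha
      have j3 : (((a + 1).succ : ℕ) : ℝ) * (((a + 1).factorial : ℝ) * ((a + 1 : ℕ) : ℝ))⁻¹ ≤ 3 / 4 := by
        have : (0 : ℝ) ≤ (((a + 1).succ : ℕ) : ℝ) * (((a + 1).factorial : ℝ) * ((a + 1 : ℕ) : ℝ))⁻¹ := by
          positivity
        nlinarith
      calc ‖x0 s‖ * ‖Complex.exp s - ∑ k ∈ Finset.range (a + 1), s ^ k / (k.factorial : ℂ)‖
          ≤ 104 / 100 * (‖s‖ ^ (a + 1) * (3 / 4)) :=
            mul_le_mul (norm_x0 s hs) (j1.trans (mul_le_mul_of_nonneg_left j3 (by positivity)))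
              (norm_nonneg _) (by norm_num)
        _ = _ := by ring
    have b3 : ‖((a : ℂ) + 1) * Pf s (a + 1)‖ ≤ 78 / 100 * ‖s‖ ^ (a + 1) := by
      have := norm_Pf s hs (a + 1) (by omega)
      rw [norm_mul]
      have e4 : ‖((a : ℂ) + 1)‖ = ((a + 1 : ℕ) : ℝ) := by
        have : ((a : ℂ) + 1) = ((a + 1 : ℕ) : ℂ) := by push_cast; ring
        rw [this, Complex.norm_natCast]
      rw [e4]
      exact this
    have b4 : ‖s‖ ^ (a + 1) ≤ ‖s‖ * (1 / 2) ^ a * (1 / 10) := by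
      have k1 : ‖s‖ ^ a ≤ (1 / 2) ^ a * (1 / 10) ^ a := by
        rw [← mul_pow]
        exact pow_le_pow_left₀ hd (by linarith) _
      have k2 : ((1 : ℝ) / 10) ^ a ≤ 1 / 10 := by
        calc ((1 : ℝ) / 10) ^ a ≤ (1 / 10) ^ 1 :=
              pow_le_pow_of_le_one (by norm_num) (by norm_num) ha
          _ = 1 / 10 := pow_one _
      calc ‖s‖ ^ (a + 1) = ‖s‖ * ‖s‖ ^ a := by rw [pow_succ]; ring
        _ ≤ ‖s‖ * ((1 / 2) ^ a * (1 / 10) ^ a) := mul_le_mul_of_nonneg_left k1 hd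
        _ ≤ ‖s‖ * ((1 / 2) ^ a * (1 / 10)) := by gcongr
        _ = _ := by ring
    have hX : 0 ≤ ‖s‖ * (1 / 2) ^ a := by positivity
    rw [key]
    calc _ ≤ ‖-(∑ f ∈ Finset.range a, Pf s (f + 1) * (Complex.exp s * ya s (a - (f + 1)) - 1))‖ +
          ‖x0 s * (Complex.exp s - ∑ k ∈ Finset.range (a + 1), s ^ k / (k.factorial : ℂ)) -
          (a + 1) * Pf s (a + 1)‖ := norm_add_le _ _
      _ ≤ ‖s‖ * (1 / 2) ^ a * (78 / 100 * (1 / 9)) +
          (78 / 100 * ‖s‖ ^ (a + 1) + 78 / 100 * ‖s‖ ^ (a + 1)) := by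
          rw [norm_neg]
          exact add_le_add b1 ((norm_sub_le _ _).trans (add_le_add b2 b3))
      _ ≤ ‖s‖ * (1 / 2) ^ a := by nlinarith

/-- hence `‖y_a‖ ≤ (1 + 1/20) e^(1/20) ≤ 6/5` -/
theorem Z_bound' (s : ℂ) (hs : ‖s‖ ≤ 1 / 20) (a : ℕ) : ‖Z (zz s) a * x0 s ^ (a + 1)‖ ≤ 6 / 5 := by
  have h := Z_bound s hs a
  set y := Z (zz s) a * x0 s ^ (a + 1) with hy
  have h1 : ‖Complex.exp s * y‖ ≤ 105 / 100 := by
    have hp : ((1 : ℝ) / 2) ^ a ≤ 1 := pow_le_one₀ (by norm_num) (by norm_num)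
    calc ‖Complex.exp s * y‖ = ‖(Complex.exp s * y - 1) + 1‖ := by congr 1; ring
      _ ≤ ‖Complex.exp s * y - 1‖ + ‖(1 : ℂ)‖ := norm_add_le _ _
      _ ≤ ‖s‖ * (1 / 2) ^ a + 1 := by rw [norm_one]; linarith
      _ ≤ 105 / 100 := by nlinarith [norm_nonneg s]
  have h2 : 1 - ‖s‖ ≤ ‖Complex.exp s‖ := by
    rw [Complex.norm_exp]
    have h3 : -‖s‖ ≤ s.re := by
      have := Complex.abs_re_le_norm s
      linarith [neg_abs_le s.re]
    have h4 := Real.add_one_le_exp s.re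
    linarith
  rw [norm_mul] at h1
  nlinarith [norm_nonneg y, norm_nonneg s]

end Pool.HB45
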