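import Pool.Agent.HB45.Maj
import Pool.Agent.HB45.Zb
import Pool.Agent.HB45.Exp

set_option autoImplicit false

/-!
# HB45/Near: `W` near `t = 1`
-/

namespace Pool.HB45

/-- ascents and descents of a word with different labels -/
theorem near_asc_des {N : ℕ} {lab : Fin (N + 1) → ℕ} (hinj : Function.Injective lab)
    (g : Equiv.Perm (Fin (N + 1))) :
    (Finset.univ.filter fun p : Fin N => lab (g p.castSucc) < lab (g p.succ)).card +
      des lab g = N := by
  classical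
  have h1 : (Finset.univ.filter fun p : Fin N => lab (g p.succ) < lab (g p.castSucc)) =
      Finset.univ.filter fun p : Fin N => ¬ lab (g p.castSucc) < lab (g p.succ) := by
    apply Finset.filter_congr
    intro p _
    constructor
    · intro h
      exact not_lt.2 h.le
    · intro h
      rcases lt_trichotomy (lab (g p.castSucc)) (lab (g p.succ)) with h' | h' | h'
      · exact absurd h' h
      · exfalso
        have h3 := g.injective (hinj h')
        have h4 := congrArg Fin.val h3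
        simp at h4
      · exact h'
  unfold des
  rw [h1]
  have h2 := Finset.card_filter_add_card_filter_not (s := (Finset.univ : Finset (Fin N)))
    (fun p : Fin N => lab (g p.castSucc) < lab (g p.succ))
  rw [h2]
  simp

theorem near_R_zero {N : ℕ} (lab : Fin (N + 1) → ℕ) (s : ℂ) (g : Equiv.Perm (Fin (N + 1))) :
    R lab (zz s) 0 g = Complex.exp s ^
      (Finset.univ.filter fun p : Fin N => lab (g p.castSucc) < lab (g p.succ)).card := by
  classical
  unfold R
  have h1 : (Finset.univ.filter fun p : Fin N => 0 ≤ p.val) = Finset.univ := by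
    apply Finset.filter_true_of_mem
    intro p _
    exact Nat.zero_le _
  rw [h1]
  have h2 : ∀ p : Fin N, (1 + if lab (g p.castSucc) < lab (g p.succ) then zz s else 0) =
      if lab (g p.castSucc) < lab (g p.succ) then Complex.exp s else 1 := by
    intro p
    split_ifs
    · unfold zz; ring
    · ring
  rw [Finset.prod_congr rfl (fun p _ => h2 p), Finset.prod_ite, Finset.prod_const,
    Finset.prod_const_one, mul_one]

/-- `t^(des g) = t^N (1/t)^(asc g)`, `t = e^(-s)`, `1/t = 1 + z`; `des + asc = N` (`lab` injective). -/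
theorem Wc_eq_R {N : ℕ} {Q : Rel (N + 1)} {lab : Fin (N + 1) → ℕ} (hn : Nat' Q lab) (s : ℂ) :
    Wc Q lab (Complex.exp (-s)) = Complex.exp (-(s * N)) * ∑ π ∈ LE Q, R lab (zz s) 0 π := by
  unfold Wc
  rw [Finset.mul_sum]
  apply Finset.sum_congr rfl
  intro g _
  have h1 := near_asc_des hn.inj g
  rw [near_R_zero, ← Complex.exp_nat_mul, ← Complex.exp_nat_mul, ← Complex.exp_add]
  congr 1
  have h2 : ((Finset.univ.filter fun p : Fin N => lab (g p.castSucc) < lab (g p.succ)).card : ℂ) +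
      (des lab g : ℂ) = (N : ℂ) := by exact_mod_cast h1
  rw [← h2]
  ring

/-- `W` NEAR 1. PROOF. `maj_close` with `z = zz s`, `x = x0 s`, `K = 6/5`, `y = 3 ‖s‖`
(`2 K ‖s‖ / (1 - ‖s‖)^2 ≤ 3 ‖s‖`), `exp_adj` with `u = y` (`4 h y ≤ 1`): the difference is at most
`(6/5) 4 h 3 ‖s‖ #LE`. Multiply by `e^s`, use `Z_bound` for `a = N + 1`:
`‖e^s (Σ R) x0^(N+2) - #LE‖ ≤ (16 h ‖s‖ + ‖s‖) #LE`, and
`e^s x0^(N+2) Σ R = Wc e^(sN) e^s e^(-s(N+2)/2) S^(-(N+2)) = Wc e^(sN/2) S^(-(N+2))`. -/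
theorem near_one {N h : ℕ} (hh : 1 ≤ h) {Q : Rel (N + 1)} {κ lab : Fin (N + 1) → ℕ} (hκ : Lev h Q κ)
    (hn : Nat' Q lab) (s : ℂ) (hs : ‖s‖ ≤ 1 / (400 * h)) :
    ‖Wc Q lab (Complex.exp (-s)) * Complex.exp (s * N / 2) - (LE Q).card * S s ^ (N + 2)‖ ≤
      1 / 16 * ((LE Q).card * ‖S s‖ ^ (N + 2)) := by
  have hh1 : (1 : ℝ) ≤ (h : ℝ) := by exact_mod_cast hh
  have hh0 : (0 : ℝ) < (h : ℝ) := lt_of_lt_of_le one_pos hh1
  set r : ℝ := ‖s‖ with hr
  have hr0 : 0 ≤ r := norm_nonneg s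
  have hhr : (h : ℝ) * r ≤ 1 / 400 := by
    have h1 : (h : ℝ) * r ≤ h * (1 / (400 * h)) := mul_le_mul_of_nonneg_left hs hh0.le
    have h2 : (h : ℝ) * (1 / (400 * h)) = 1 / 400 := by
      field_simp
    linarith
  have hr400 : r ≤ 1 / 400 := by nlinarith
  have hr20 : ‖s‖ ≤ 1 / 20 := by rw [← hr]; linarith
  have hr1 : ‖s‖ < 1 := by rw [← hr]; linarith
  set c : ℝ := ((LE Q).card : ℝ) with hc
  have hc0 : 0 ≤ c := Nat.cast_nonneg _
  set A : ℂ := (∑ π ∈ LE Q, R lab (zz s) 0 π) with hA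
  set x : ℂ := x0 s with hx
  have hy : 2 * (6 / 5) * (‖s‖ / (1 - ‖s‖) ^ 2) ≤ 3 * r := by
    rw [← hr]
    have h1 : (0.99 : ℝ) ≤ (1 - r) ^ 2 := by nlinarith
    have h2 : r / (1 - r) ^ 2 ≤ r / 0.99 := by
      apply div_le_div_of_nonneg_left hr0 (by norm_num) h1
    have h3 : r / 0.99 = r * (100 / 99) := by norm_num; ring
    nlinarith
  have hmc := maj_close hn (zz s) x s (zz_mul_x0 s hr20) hr1 (6 / 5) (3 * r)
    (fun a => Z_bound' s hr20 a) (by linarith) hy
  have hexp := exp_adj hκ (3 * r) (by linarith) (by nlinarith)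
  rw [← hA] at hmc
  rw [← hc] at hexp
  have hdiff : ‖A * x ^ (N + 2) - Z (zz s) (N + 1) * x ^ (N + 2) * (c : ℂ)‖ ≤
      144 / 10 * (h * r) * c := by
    have hcc : ((LE Q).card : ℂ) = (c : ℂ) := by rw [hc]; simp
    rw [hcc] at hmc
    refine le_trans hmc ?_
    have h1 : (∑ π ∈ LE Q, (1 + 3 * r) ^ adj Q π) - c ≤ 12 * (h * r) * c := by
      have : (1 + 4 * (h : ℝ) * (3 * r)) * c = c + 12 * (h * r) * c := by ring
      rw [this] at hexp
      linarith
    calc 6 / 5 * ((∑ π ∈ LE Q, (1 + 3 * r) ^ adj Q π) - c) ≤ 6 / 5 * (12 * (h * r) * c) :=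
          mul_le_mul_of_nonneg_left h1 (by norm_num)
      _ = 144 / 10 * (h * r) * c := by ring
  have hE : ‖Complex.exp s‖ ≤ 101 / 100 := by
    rw [Complex.norm_exp]
    have h1 : s.re ≤ r := (Complex.abs_re_le_norm s).trans' (le_abs_self _)
    have h2 : Real.exp s.re ≤ Real.exp (1 / 400) := Real.exp_le_exp.2 (by linarith)
    have h3 : Real.exp (1 / 400) ≤ 1 + 1 / 400 + (1 / 400) ^ 2 := by
      have := Real.abs_exp_sub_one_sub_id_le (x := 1 / 400) (by norm_num)
      have h4 := (abs_le.1 this).2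
      linarith
    have h5 : (1 : ℝ) + 1 / 400 + (1 / 400) ^ 2 ≤ 101 / 100 := by norm_num
    linarith
  have hZ : ‖Complex.exp s * (Z (zz s) (N + 1) * x ^ (N + 2)) - 1‖ ≤ r := by
    have h1 := Z_bound s hr20 (N + 1)
    rw [← hx] at h1
    refine le_trans h1 ?_
    have h2 : ((1 : ℝ) / 2) ^ (N + 1) ≤ 1 := pow_le_one₀ (by norm_num) (by norm_num)
    rw [← hr]
    nlinarith
  have hmain : ‖Complex.exp s * (A * x ^ (N + 2)) - (c : ℂ)‖ ≤ 1 / 16 * c := by
    have h1 : Complex.exp s * (A * x ^ (N + 2)) - (c : ℂ) =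
        Complex.exp s * (A * x ^ (N + 2) - Z (zz s) (N + 1) * x ^ (N + 2) * (c : ℂ)) +
        (Complex.exp s * (Z (zz s) (N + 1) * x ^ (N + 2)) - 1) * (c : ℂ) := by ring
    rw [h1]
    refine le_trans (norm_add_le _ _) ?_
    rw [norm_mul, norm_mul, Complex.norm_real, Real.norm_of_nonneg hc0]
    have h2 : ‖Complex.exp s‖ * ‖A * x ^ (N + 2) - Z (zz s) (N + 1) * x ^ (N + 2) * (c : ℂ)‖ ≤
        101 / 100 * (144 / 10 * (h * r) * c) :=
      mul_le_mul hE hdiff (norm_nonneg _) (by norm_num)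
    have h3 : ‖Complex.exp s * (Z (zz s) (N + 1) * x ^ (N + 2)) - 1‖ * c ≤ r * c :=
      mul_le_mul_of_nonneg_right hZ hc0
    have h4 : (h : ℝ) * r * c ≤ 1 / 400 * c := mul_le_mul_of_nonneg_right hhr hc0
    have h5 : r * c ≤ 1 / 400 * c := mul_le_mul_of_nonneg_right hr400 hc0
    nlinarith
  have hS : S s ≠ 0 := S_ne_zero s hr20
  have hid : Wc Q lab (Complex.exp (-s)) * Complex.exp (s * N / 2) =
      Complex.exp s * (A * x ^ (N + 2)) * S s ^ (N + 2) := by
    rw [Wc_eq_R hn s, ← hA]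
    have h1 : x ^ (N + 2) * S s ^ (N + 2) = Complex.exp (-(((N : ℂ) + 2) * (s / 2))) := by
      rw [hx]
      unfold x0
      rw [← mul_pow, mul_inv, mul_assoc, inv_mul_cancel₀ hS, mul_one, ← Complex.exp_neg,
        ← Complex.exp_nat_mul]
      congr 1
      push_cast
      ring
    calc Complex.exp (-(s * N)) * A * Complex.exp (s * N / 2)
        = A * (Complex.exp (-(s * N)) * Complex.exp (s * N / 2)) := by ring
      _ = A * (Complex.exp s * Complex.exp (-(((N : ℂ) + 2) * (s / 2)))) := by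
          rw [← Complex.exp_add, ← Complex.exp_add]
          congr 2
          ring
      _ = A * (Complex.exp s * (x ^ (N + 2) * S s ^ (N + 2))) := by rw [h1]
      _ = Complex.exp s * (A * x ^ (N + 2)) * S s ^ (N + 2) := by ring
  have hcc : ((LE Q).card : ℂ) = (c : ℂ) := by rw [hc]; simp
  rw [hid, hcc, ← sub_mul, norm_mul, norm_pow]
  calc ‖Complex.exp s * (A * x ^ (N + 2)) - (c : ℂ)‖ * ‖S s‖ ^ (N + 2)
      ≤ 1 / 16 * c * ‖S s‖ ^ (N + 2) :=
        mul_le_mul_of_nonneg_right hmain (pow_nonneg (norm_nonneg _) _)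
    _ = 1 / 16 * (c * ‖S s‖ ^ (N + 2)) := by ring

end Pool.HB45
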