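import Pool.Agent.HB45.Swap

set_option autoImplicit false

/-!
# HB45/Mean: the mean number of descents
-/

namespace Pool.HB45

private theorem mn_left {N : ℕ} (p : Fin N) (g : Equiv.Perm (Fin (N + 1))) :
    (g * Equiv.swap p.castSucc p.succ) p.castSucc = g p.succ := by
  rw [Equiv.Perm.mul_apply, Equiv.swap_apply_left]

private theorem mn_right {N : ℕ} (p : Fin N) (g : Equiv.Perm (Fin (N + 1))) :
    (g * Equiv.swap p.castSucc p.succ) p.succ = g p.castSucc := by
  rw [Equiv.Perm.mul_apply, Equiv.swap_apply_right]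

private theorem mn_lt {N : ℕ} (p : Fin N) {x y : Fin (N + 1)} (hxy : x < y)
    (hne : ¬ (x = p.castSucc ∧ y = p.succ)) :
    Equiv.swap p.castSucc p.succ x < Equiv.swap p.castSucc p.succ y := by
  rw [Equiv.swap_apply_def, Equiv.swap_apply_def]
  have hc : p.castSucc.val = p.val := rfl
  have hs : p.succ.val = p.val + 1 := rfl
  have hxy' : x.val < y.val := hxy
  by_cases hx1 : x = p.castSucc
  · rw [if_pos hx1]
    have hx1' : x.val = p.val := by rw [hx1]; rfl
    have hy1 : y ≠ p.castSucc := fun h => by rw [h] at hxy'; omega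
    have hy2 : y ≠ p.succ := fun h => hne ⟨hx1, h⟩
    rw [if_neg hy1, if_neg hy2]
    have hy3 : y.val ≠ p.val + 1 := fun h => hy2 (Fin.ext (by rw [hs]; exact h))
    show p.succ.val < y.val
    omega
  · rw [if_neg hx1]
    have hx1' : x.val ≠ p.val := fun h => hx1 (Fin.ext h)
    by_cases hx2 : x = p.succ
    · rw [if_pos hx2]
      have hx2' : x.val = p.val + 1 := by rw [hx2]; rfl
      have hy1 : y ≠ p.castSucc := fun h => by rw [h] at hxy'; omega
      have hy2 : y ≠ p.succ := fun h => by rw [h] at hxy'; omega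
      rw [if_neg hy1, if_neg hy2]
      show p.castSucc.val < y.val
      omega
    · rw [if_neg hx2]
      have hx2' : x.val ≠ p.val + 1 := fun h => hx2 (Fin.ext (by rw [hs]; exact h))
      by_cases hy1 : y = p.castSucc
      · rw [if_pos hy1]
        have : y.val = p.val := by rw [hy1]; rfl
        show x.val < p.succ.val
        omega
      · rw [if_neg hy1]
        by_cases hy2 : y = p.succ
        · rw [if_pos hy2]
          have : y.val = p.val + 1 := by rw [hy2]; rfl
          show x.val < p.castSucc.val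
          omega
        · rw [if_neg hy2]
          exact hxy

private theorem mn_mem {N : ℕ} {Q : Rel (N + 1)} {p : Fin N} {g : Equiv.Perm (Fin (N + 1))}
    (hg : g ∈ LE Q) (hp : ¬ Q (g p.castSucc) (g p.succ)) :
    g * Equiv.swap p.castSucc p.succ ∈ LE Q := by
  rw [mem_LE] at hg ⊢
  intro i j hij
  rw [Equiv.Perm.mul_apply, Equiv.Perm.mul_apply] at hij
  have h1 := hg _ _ hij
  have h2 := mn_lt p h1 (by
    rintro ⟨h3, h4⟩
    rw [h3, h4] at hij
    exact hp hij)
  rwa [Equiv.swap_apply_self, Equiv.swap_apply_self] at h2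

/-- PROOF. For each position `p : Fin N` the involution `g ↦ g * swap p.castSucc p.succ` of
`{g ∈ LE Q | ¬ Q (g p.castSucc) (g p.succ)}` interchanges descents and ascents at `p` (`lab` is
injective), so `#{g | descent at p} = ½ #{g | not comparable at p}` (comparable neighbours are ascents,
`hn.mono`). Sum over `p`: `Σ des = ½ Σ_g (N - adj Q g) ≥ ½ (N - h) card` by `sum_adj_le`. -/
theorem mean_des {N h : ℕ} {Q : Rel (N + 1)} {κ lab : Fin (N + 1) → ℕ} (hκ : Lev h Q κ)
    (hn : Nat' Q lab) :
    ((N : ℝ) - h) / 2 * (LE Q).card ≤ ∑ g ∈ LE Q, (des lab g : ℝ) := by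
  classical
  -- ascents without comparability are at most as many as descents, position by position
  have hpos : ∀ p : Fin N, ((LE Q).filter fun g => ¬ Q (g p.castSucc) (g p.succ) ∧
      lab (g p.castSucc) < lab (g p.succ)).card ≤
      ((LE Q).filter fun g => lab (g p.succ) < lab (g p.castSucc)).card := by
    intro p
    refine Finset.card_le_card_of_injOn (fun g => g * Equiv.swap p.castSucc p.succ) ?_ ?_
    · intro g hg
      obtain ⟨h1, h2, h3⟩ := Finset.mem_filter.mp hg
      refine Finset.mem_coe.mpr (Finset.mem_filter.mpr ⟨mn_mem h1 h2, ?_⟩)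
      rw [mn_left, mn_right]
      exact h3
    · intro g _ g' _ hgg
      exact mul_right_cancel hgg
  have hone : ∀ g ∈ LE Q, N ≤ adj Q g + (Finset.univ.filter fun p : Fin N =>
      ¬ Q (g p.castSucc) (g p.succ) ∧ lab (g p.castSucc) < lab (g p.succ)).card + des lab g := by
    intro g _
    have hsub : (Finset.univ : Finset (Fin N)) ⊆ (adjs Q g ∪ (Finset.univ.filter fun p : Fin N =>
      ¬ Q (g p.castSucc) (g p.succ) ∧ lab (g p.castSucc) < lab (g p.succ))) ∪
      (Finset.univ.filter fun p : Fin N => lab (g p.succ) < lab (g p.castSucc)) := by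
      intro p _
      have hne : lab (g p.castSucc) ≠ lab (g p.succ) := by
        intro h
        have h1 := g.injective (hn.inj h)
        have h2 := congrArg Fin.val h1
        have hc : p.castSucc.val = p.val := rfl
        have hs : p.succ.val = p.val + 1 := rfl
        omega
      by_cases hq : Q (g p.castSucc) (g p.succ)
      · refine Finset.mem_union_left _ (Finset.mem_union_left _ ?_)
        unfold adjs
        exact Finset.mem_filter.mpr ⟨Finset.mem_univ _, hq⟩
      · rcases lt_or_gt_of_ne hne with h3 | h3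
        · exact Finset.mem_union_left _ (Finset.mem_union_right _ (Finset.mem_filter.mpr
            ⟨Finset.mem_univ _, hq, h3⟩))
        · exact Finset.mem_union_right _ (Finset.mem_filter.mpr ⟨Finset.mem_univ _, h3⟩)
    have h4 := Finset.card_le_card hsub
    rw [Finset.card_univ, Fintype.card_fin] at h4
    refine h4.trans ((Finset.card_union_le _ _).trans ?_)
    have h5 := Finset.card_union_le (adjs Q g) (Finset.univ.filter fun p : Fin N =>
      ¬ Q (g p.castSucc) (g p.succ) ∧ lab (g p.castSucc) < lab (g p.succ))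
    unfold adj des
    omega
  have hswap1 : ∑ g ∈ LE Q, (Finset.univ.filter fun p : Fin N =>
      ¬ Q (g p.castSucc) (g p.succ) ∧ lab (g p.castSucc) < lab (g p.succ)).card =
      ∑ p : Fin N, ((LE Q).filter fun g => ¬ Q (g p.castSucc) (g p.succ) ∧
      lab (g p.castSucc) < lab (g p.succ)).card := by
    simp only [Finset.card_filter]
    rw [Finset.sum_comm]
  have hswap2 : ∑ g ∈ LE Q, des lab g =
      ∑ p : Fin N, ((LE Q).filter fun g => lab (g p.succ) < lab (g p.castSucc)).card := by
    unfold des
    simp only [Finset.card_filter]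
    rw [Finset.sum_comm]
  have hsum : (LE Q).card * N ≤ ∑ g ∈ LE Q, adj Q g + 2 * ∑ g ∈ LE Q, des lab g := by
    have h6 := Finset.sum_le_sum hone
    rw [Finset.sum_const, smul_eq_mul, Finset.sum_add_distrib, Finset.sum_add_distrib, hswap1] at h6
    have h7 := Finset.sum_le_sum (s := (Finset.univ : Finset (Fin N))) (fun p _ => hpos p)
    rw [← hswap2] at h7
    omega
  have h8 := sum_adj_le hκ
  have h9 : ((LE Q).card : ℝ) * N ≤ ∑ g ∈ LE Q, (adj Q g : ℝ) + 2 * ∑ g ∈ LE Q, (des lab g : ℝ) := by
    exact_mod_cast hsum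
  linarith

/-- hence also for `desB` -/
theorem mean_desB {N h : ℕ} {Q : Rel (N + 1)} {κ lab : Fin (N + 1) → ℕ} (hκ : Lev h Q κ)
    (hn : Nat' Q lab) (c d : ℕ) :
    ((N : ℝ) - h) / 2 * (LE Q).card ≤ ∑ g ∈ LE Q, (desB lab c d g : ℝ) := by
  refine (mean_des hκ hn).trans (Finset.sum_le_sum fun g _ => ?_)
  exact_mod_cast (by unfold desB; omega)

end Pool.HB45
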