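import Mathlib

set_option autoImplicit false

/-!
# HB45/TDefs: products of many bounded polynomials (tail), definitions
-/

open Polynomial

namespace Pool.HB45

/-- a bounded factor -/
structure Fac (b : ℕ) (B : ℝ) (g : ℝ[X]) : Prop where
  nonneg : ∀ k, 0 ≤ g.coeff k
  deg : g.natDegree ≤ b
  c0 : 1 ≤ g.coeff 0
  c1 : 1 ≤ g.coeff 1
  le : g.eval 1 ≤ B

/-- mean exponent of `g` at `r` -/
noncomputable def Fm (g : ℝ[X]) (r : ℝ) : ℝ := r * g.derivative.eval r / g.eval r

/-- centred characteristic function of the exponent of `g` at `r` -/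
noncomputable def phi (g : ℝ[X]) (r θ : ℝ) : ℂ :=
  aeval ((r : ℂ) * Complex.exp (θ * Complex.I)) g * Complex.exp (-(θ * Fm g r * Complex.I)) / ((g.eval r : ℝ) : ℂ)

end Pool.HB45
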