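import Pool.Agent.HB45.DecG
import Pool.Agent.HB45.Mean
import Pool.Agent.HB45.TDefs

set_option autoImplicit false

/-!
# HB45/GpFac: the polynomial of a window is `X^v` times a bounded factor
-/

open Polynomial

namespace Pool.HB45

/-- the polynomial of a window is `X^v g` with `g` a bounded factor; `v + Fm g 1` is its mean, which is
`≥ (B - h)/2` (`mean_desB` with `N := B`; `Fm`: `Σ_g desB / card = v + Fm g 1`) -/
theorem Gp_factor {B h : ℕ} {Q : Rel (B + 1)} {κ lab : Fin (B + 1) → ℕ} (hκ : Lev h Q κ)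
    (hn : Nat' Q lab) (hB : h + 2 ≤ B) (c d : ℕ) :
    ∃ (v : ℕ) (g : ℝ[X]), Gp Q lab c d = X ^ v * g ∧ Fac (B + 2) ((B + 1).factorial) g ∧
      ((B : ℝ) - h) / 2 ≤ v + Fm g 1 := by
  obtain ⟨_, _, hcard, hfact, hpos, _⟩ := Gp_facts hκ hn hB c d
  obtain ⟨v, h1, ⟨a, ha, ha'⟩, ⟨b, hb, hb'⟩⟩ := win_values hκ hn hB c d
  obtain ⟨g, hg⟩ : ∃ g : ℝ[X], g = ∑ π ∈ LE Q, X ^ (desB lab c d π - v) := ⟨_, rfl⟩
  have hcoeff : ∀ k, g.coeff k = (Gp Q lab c d).coeff (k + v) := by
    intro k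
    rw [hg, coeff_Gp, finsetSum_coeff]
    refine Finset.sum_congr rfl fun π hπ => ?_
    rw [coeff_X_pow]
    have h2 := h1 π hπ
    by_cases h3 : k = desB lab c d π - v
    · rw [if_pos h3, if_pos (by omega)]
    · rw [if_neg h3, if_neg (by omega)]
  have hmul : Gp Q lab c d = X ^ v * g := by
    rw [hg, Finset.mul_sum]
    unfold Gp
    refine Finset.sum_congr rfl fun π hπ => ?_
    have h2 := h1 π hπ
    rw [← pow_add]
    congr 1
    omega
  have heval : g.eval 1 = (LE Q).card := by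
    rw [hg, eval_finsetSum]
    simp
  refine ⟨v, g, hmul, ⟨?_, ?_, ?_, ?_, ?_⟩, ?_⟩
  · intro k
    rw [hcoeff]
    exact coeff_Gp_nonneg Q lab c d _
  · rw [hg]
    refine natDegree_sum_le_of_forall_le _ _ fun π _ => ?_
    refine le_trans (natDegree_X_pow_le _) ?_
    have := desB_le lab c d π
    omega
  · rw [hcoeff, zero_add, ← ha']
    exact one_le_coeff_Gp Q lab c d a ha
  · rw [hcoeff, add_comm, ← hb']
    exact one_le_coeff_Gp Q lab c d b hb
  · rw [heval]
    exact hfact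
  · have hc0 : (0 : ℝ) < (LE Q).card := lt_of_lt_of_le one_pos hpos
    have hder : g.derivative.eval 1 = ∑ π ∈ LE Q, ((desB lab c d π : ℝ) - v) := by
      rw [hg, derivative_sum, eval_finsetSum]
      refine Finset.sum_congr rfl fun π hπ => ?_
      have h2 := h1 π hπ
      rw [derivative_X_pow, eval_mul, eval_pow, eval_X, one_pow, mul_one, eval_C, Nat.cast_sub h2]
    have hm := mean_desB hκ hn c d
    unfold Fm
    rw [hder, heval, Finset.sum_sub_distrib, Finset.sum_const, nsmul_eq_mul, one_mul]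
    have h3 : (v : ℝ) + (∑ x ∈ LE Q, (desB lab c d x : ℝ) - (LE Q).card * v) / (LE Q).card =
        (∑ x ∈ LE Q, (desB lab c d x : ℝ)) / (LE Q).card := by
      field_simp
      ring
    rw [h3, le_div_iff₀ hc0]
    exact hm

end Pool.HB45
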