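import Pool.Agent.HB45.Win1
import Pool.Agent.HB45.Avg

set_option autoImplicit false

/-!
# HB45/Win: `W` is a positive combination of products of window polynomials
-/

open Polynomial

namespace Pool.HB45

theorem ltr_mul_emb {N o f : ℕ} (hof : o + f ≤ N + 1) (lab : Fin (N + 1) → ℕ)
    (π : Equiv.Perm (Fin (N + 1))) (g : Equiv.Perm (Fin f)) (p : ℕ) (hp : ¬ (o ≤ p ∧ p < o + f)) :
    ltr lab (π * emb hof g) p = ltr lab π p := by
  unfold ltr
  split_ifs with h
  · rw [Equiv.Perm.mul_apply, emb_of_not hof g ⟨p, h⟩ hp]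
  · rfl

/-- separators lie in no window -/
theorem sep_not (B k l : ℕ) :
    ¬ (k * (B + 2) ≤ l * (B + 2) + B + 1 ∧ l * (B + 2) + B + 1 < k * (B + 2) + (B + 1)) := by
  rintro ⟨h1, h2⟩
  rcases Nat.lt_or_ge l k with h | h
  · have h3 : (l + 1) * (B + 2) ≤ k * (B + 2) := Nat.mul_le_mul_right _ h
    rw [Nat.add_mul] at h3
    omega
  · have h3 : k * (B + 2) ≤ l * (B + 2) := Nat.mul_le_mul_right _ h
    omega

/-- different windows are disjoint -/
theorem win_disj (B : ℕ) {k l : ℕ} (h : k ≠ l) :
    k * (B + 2) + (B + 1) ≤ l * (B + 2) ∨ l * (B + 2) + (B + 1) ≤ k * (B + 2) := by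
  rcases Nat.lt_or_gt_of_ne h with h | h
  · have h3 : (k + 1) * (B + 2) ≤ l * (B + 2) := Nat.mul_le_mul_right _ h
    rw [Nat.add_mul] at h3
    omega
  · have h3 : (l + 1) * (B + 2) ≤ k * (B + 2) := Nat.mul_le_mul_right _ h
    rw [Nat.add_mul] at h3
    omega

theorem cB_mul_emb {N B m : ℕ} (hm : m * (B + 2) ≤ N + 1) (lab : Fin (N + 1) → ℕ)
    (π : Equiv.Perm (Fin (N + 1))) (k : Fin m) (l : ℕ) (g : Equiv.Perm (Fin (B + 1))) :
    cB lab B l (π * emb (win_le hm k) g) = cB lab B l π := by
  unfold cB
  split_ifs with h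
  · rfl
  · obtain ⟨j, rfl⟩ : ∃ j, l = j + 1 := ⟨l - 1, by omega⟩
    have h1 : (j + 1) * (B + 2) - 1 = j * (B + 2) + B + 1 := by
      rw [Nat.add_mul]
      omega
    rw [h1]
    exact ltr_mul_emb (win_le hm k) lab π g _ (sep_not B k.val j)

theorem dB_mul_emb {N B m : ℕ} (hm : m * (B + 2) ≤ N + 1) (lab : Fin (N + 1) → ℕ)
    (π : Equiv.Perm (Fin (N + 1))) (k : Fin m) (l : ℕ) (g : Equiv.Perm (Fin (B + 1))) :
    dB lab B l (π * emb (win_le hm k) g) = dB lab B l π :=
  ltr_mul_emb (win_le hm k) lab π g _ (sep_not B k.val l)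

/-- rearranging window `k` changes the summand of `k` as expected and no other data -/
theorem desB_win {N B m : ℕ} (hm : m * (B + 2) ≤ N + 1) (lab : Fin (N + 1) → ℕ)
    (π : Equiv.Perm (Fin (N + 1))) (k : Fin m) (g : Equiv.Perm (Fin (B + 1))) :
    desB (fun i => lab ((π * emb (win_le hm k) g) (wpos (win_le hm k) i)))
      (cB lab B k.val (π * emb (win_le hm k) g)) (dB lab B k.val (π * emb (win_le hm k) g)) 1 =
    desB (fun i => lab (π (wpos (win_le hm k) i))) (cB lab B k.val π) (dB lab B k.val π) g := by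
  have h1 : (fun i => lab ((π * emb (win_le hm k) g) (wpos (win_le hm k) i))) =
      fun i => lab (π (wpos (win_le hm k) (g i))) := by
    funext i
    rw [Equiv.Perm.mul_apply, emb_wpos]
  rw [h1, cB_mul_emb hm, dB_mul_emb hm]
  rfl

/-- the polynomial of window `l` and `rest` do not see a rearrangement of window `k ≠ l` -/
theorem GW_win {N B m : ℕ} (hm : m * (B + 2) ≤ N + 1) (Q : Rel (N + 1)) (lab : Fin (N + 1) → ℕ)
    (π : Equiv.Perm (Fin (N + 1))) (k l : Fin m) (hkl : k ≠ l) (g : Equiv.Perm (Fin (B + 1))) :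
    GW hm Q lab (π * emb (win_le hm k) g) l = GW hm Q lab π l ∧
    winRel (win_le hm l) Q (π * emb (win_le hm k) g) = winRel (win_le hm l) Q π ∧
    desB (fun i => lab ((π * emb (win_le hm k) g) (wpos (win_le hm l) i)))
      (cB lab B l.val (π * emb (win_le hm k) g)) (dB lab B l.val (π * emb (win_le hm k) g)) 1 =
    desB (fun i => lab (π (wpos (win_le hm l) i))) (cB lab B l.val π) (dB lab B l.val π) 1 ∧
    rest lab B m (π * emb (win_le hm k) g) = rest lab B m π := by
  have hkl' : l.val ≠ k.val := fun h => hkl (Fin.ext h.symm)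
  have h1 : winRel (win_le hm l) Q (π * emb (win_le hm k) g) = winRel (win_le hm l) Q π :=
    winRel_mul_emb_of_disj (win_le hm l) (win_le hm k) (win_disj B hkl') π g
  have h2 : (fun i => lab ((π * emb (win_le hm k) g) (wpos (win_le hm l) i))) =
      fun i => lab (π (wpos (win_le hm l) i)) := by
    funext i
    have hi := wpos_in (win_le hm l) i
    have hd := win_disj B hkl'
    rw [Equiv.Perm.mul_apply, emb_of_not (win_le hm k) g (wpos (win_le hm l) i) (by omega)]
  refine ⟨?_, h1, ?_, ?_⟩
  · unfold GW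
    rw [h1, h2, cB_mul_emb hm, dB_mul_emb hm]
  · rw [h2, cB_mul_emb hm, dB_mul_emb hm]
  · unfold rest
    congr 1
    refine Finset.filter_congr fun p _ => ?_
    refine and_congr_right fun hp => ?_
    have hk : (k.val + 1) * (B + 2) ≤ m * (B + 2) := Nat.mul_le_mul_right _ k.isLt
    rw [Nat.add_mul] at hk
    rw [Equiv.Perm.mul_apply, Equiv.Perm.mul_apply,
      emb_of_not (win_le hm k) g p.succ (by rw [Fin.val_succ]; omega),
      emb_of_not (win_le hm k) g p.castSucc (by rw [Fin.val_castSucc]; omega)]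

/-- WINDOW DECOMPOSITION. PROOF. Induction over the set `K` of windows already averaged:
`Wp = Σ_π C (Π_{k ∈ K} e_k)⁻¹ * X^(rest + Σ_{k ∉ K} desB_k(π)) * Π_{k ∈ K} GW k`; the step is `avg` for
the window `k ∉ K` (`desB_win`, `GW_win`). -/
theorem win_decomp {N B m : ℕ} (hm : m * (B + 2) ≤ N + 1) (Q : Rel (N + 1)) (lab : Fin (N + 1) → ℕ) :
    Wp Q lab = ∑ π ∈ LE Q,
      C ((∏ k : Fin m, ((LE (winRel (win_le hm k) Q π)).card : ℝ))⁻¹) * X ^ rest lab B m π *
        ∏ k : Fin m, GW hm Q lab π k := by
  classical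
  have key : ∀ K : Finset (Fin m), Wp Q lab = ∑ π ∈ LE Q,
      C ((∏ k ∈ K, ((LE (winRel (win_le hm k) Q π)).card : ℝ))⁻¹) *
        X ^ (rest lab B m π + ∑ k ∈ Kᶜ, desB (fun i => lab (π (wpos (win_le hm k) i)))
          (cB lab B k.val π) (dB lab B k.val π) 1) * ∏ k ∈ K, GW hm Q lab π k := by
    intro K
    induction K using Finset.induction_on with
    | empty =>
      refine Finset.sum_congr rfl fun π _ => ?_
      rw [Finset.prod_empty, Finset.prod_empty, inv_one, map_one, one_mul, mul_one,
        Finset.compl_empty, des_eq_sum hm lab π, add_comm]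
    | insert k K hk ih =>
      rw [ih, avg (win_le hm k)]
      refine Finset.sum_congr rfl fun π hπ => ?_
      have hKc : Kᶜ = insert k (insert k K)ᶜ := by
        ext l
        simp only [Finset.mem_compl, Finset.mem_insert]
        constructor
        · intro hl
          by_cases h : l = k
          · exact Or.inl h
          · exact Or.inr fun h' => h'.elim h hl
        · rintro (rfl | h)
          · exact hk
          · exact fun h' => h (Or.inr h')
      have hkc : k ∉ (insert k K)ᶜ := by
        simp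
      have hF : ∀ g ∈ LE (winRel (win_le hm k) Q π),
          C ((∏ l ∈ K, ((LE (winRel (win_le hm l) Q (π * emb (win_le hm k) g))).card : ℝ))⁻¹) *
            X ^ (rest lab B m (π * emb (win_le hm k) g) + ∑ l ∈ Kᶜ,
              desB (fun i => lab ((π * emb (win_le hm k) g) (wpos (win_le hm l) i)))
                (cB lab B l.val (π * emb (win_le hm k) g))
                (dB lab B l.val (π * emb (win_le hm k) g)) 1) *
            ∏ l ∈ K, GW hm Q lab (π * emb (win_le hm k) g) l =
          C ((∏ l ∈ K, ((LE (winRel (win_le hm l) Q π)).card : ℝ))⁻¹) *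
            X ^ (rest lab B m π + ∑ l ∈ (insert k K)ᶜ,
              desB (fun i => lab (π (wpos (win_le hm l) i))) (cB lab B l.val π)
                (dB lab B l.val π) 1) * (∏ l ∈ K, GW hm Q lab π l) *
            X ^ desB (fun i => lab (π (wpos (win_le hm k) i))) (cB lab B k.val π)
              (dB lab B k.val π) g := by
        intro g _
        have h1 : ∏ l ∈ K, ((LE (winRel (win_le hm l) Q (π * emb (win_le hm k) g))).card : ℝ) =
            ∏ l ∈ K, ((LE (winRel (win_le hm l) Q π)).card : ℝ) :=
          Finset.prod_congr rfl fun l hl => by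
            rw [(GW_win hm Q lab π k l (fun h => hk (h ▸ hl)) g).2.1]
        have h2 : ∏ l ∈ K, GW hm Q lab (π * emb (win_le hm k) g) l = ∏ l ∈ K, GW hm Q lab π l :=
          Finset.prod_congr rfl fun l hl => (GW_win hm Q lab π k l (fun h => hk (h ▸ hl)) g).1
        have h3 : ∑ l ∈ (insert k K)ᶜ,
              desB (fun i => lab ((π * emb (win_le hm k) g) (wpos (win_le hm l) i)))
                (cB lab B l.val (π * emb (win_le hm k) g))
                (dB lab B l.val (π * emb (win_le hm k) g)) 1 =
            ∑ l ∈ (insert k K)ᶜ, desB (fun i => lab (π (wpos (win_le hm l) i)))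
                (cB lab B l.val π) (dB lab B l.val π) 1 :=
          Finset.sum_congr rfl fun l hl =>
            (GW_win hm Q lab π k l (fun h => hkc (h ▸ hl)) g).2.2.1
        have h4 : rest lab B m (π * emb (win_le hm k) g) = rest lab B m π := by
          unfold rest
          congr 1
          refine Finset.filter_congr fun p _ => ?_
          refine and_congr_right fun hp => ?_
          have hk : (k.val + 1) * (B + 2) ≤ m * (B + 2) := Nat.mul_le_mul_right _ k.isLt
          rw [Nat.add_mul] at hk
          rw [Equiv.Perm.mul_apply, Equiv.Perm.mul_apply,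
            emb_of_not (win_le hm k) g p.succ (by rw [Fin.val_succ]; omega),
            emb_of_not (win_le hm k) g p.castSucc (by rw [Fin.val_castSucc]; omega)]
        rw [h1, h2, h4, hKc, Finset.sum_insert hkc, h3, desB_win hm lab π k g]
        ring
      rw [Finset.sum_congr rfl hF, ← Finset.mul_sum]
      have hG : ∑ g ∈ LE (winRel (win_le hm k) Q π),
          (X : ℝ[X]) ^ desB (fun i => lab (π (wpos (win_le hm k) i))) (cB lab B k.val π)
              (dB lab B k.val π) g = GW hm Q lab π k := rfl
      rw [hG, Finset.prod_insert hk, Finset.prod_insert hk, mul_inv, map_mul,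
        Polynomial.smul_eq_C_mul]
      ring
  have h := key Finset.univ
  rw [h]
  refine Finset.sum_congr rfl fun π _ => ?_
  rw [Finset.compl_univ, Finset.sum_empty, add_zero]

end Pool.HB45
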