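import Pool.Agent.HB45.TE
import Pool.Agent.HB45.Win
import Pool.Agent.HB45.Mean

set_option autoImplicit false

/-!
# HB45/TailA: `tail` from the statement of `Gp_factor`
-/

open Polynomial

namespace Pool.HB45

private theorem tailA_lev {h n f o : ℕ} {Q : Rel n} {κ : Fin n → ℕ} (hof : o + f ≤ n) (hκ : Lev h Q κ)
    (π : Equiv.Perm (Fin n)) : Lev h (winRel hof Q π) (fun i => κ (π (wpos hof i))) :=
  ⟨fun a => hκ.lt _, fun a b hab => hκ.mono _ _ hab⟩

private theorem tailA_nat {n f o : ℕ} {Q : Rel n} {lab : Fin n → ℕ} (hof : o + f ≤ n) (hn : Nat' Q lab)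
    (π : Equiv.Perm (Fin n)) : Nat' (winRel hof Q π) (fun i => lab (π (wpos hof i))) := by
  refine ⟨fun a b hab => ?_, fun a b hab => hn.mono _ _ hab⟩
  have h1 := π.injective (hn.inj hab)
  simp only [wpos, Fin.mk.injEq] at h1
  exact Fin.ext (by omega)

/-- coefficients of a product of bounded factors are nonnegative -/
private theorem tailA_nonneg {ι : Type*} (s : Finset ι) (g : ι → ℝ[X]) (hg : ∀ i ∈ s, ∀ k, 0 ≤ (g i).coeff k) :
    ∀ k, 0 ≤ (∏ i ∈ s, g i).coeff k := by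
  classical
  induction s using Finset.induction_on with
  | empty =>
    intro k
    rw [Finset.prod_empty, coeff_one]
    split_ifs <;> norm_num
  | insert a s ha ih =>
    intro k
    rw [Finset.prod_insert ha, coeff_mul]
    refine Finset.sum_nonneg fun x _ => mul_nonneg (hg a (Finset.mem_insert_self a s) _) ?_
    exact ih (fun i hi => hg i (Finset.mem_insert_of_mem hi)) _

theorem tail_of
    (hG : ∀ {B h : ℕ} {Q : Rel (B + 1)} {κ lab : Fin (B + 1) → ℕ}, Lev h Q κ → Nat' Q lab → h + 2 ≤ B →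
      ∀ (c d : ℕ), ∃ (v : ℕ) (g : ℝ[X]), Gp Q lab c d = X ^ v * g ∧ Fac (B + 2) ((B + 1).factorial) g ∧
        ((B : ℝ) - h) / 2 ≤ v + Fm g 1)
    (h : ℕ) (c : ℝ) (hc : 0 < c) : ∃ N0 : ℕ, ∀ N ≥ N0, ∀ (Q : Rel (N + 1))
    (κ lab : Fin (N + 1) → ℕ), Lev h Q κ → Nat' Q lab → ∀ j : ℕ, (j : ℝ) ≤ N / 2 - c * N →
      (Wp Q lab).coeff j ≤ (Wp Q lab).coeff (j + 1) := by
  classical
  obtain ⟨B, hB⟩ : ∃ B : ℕ, h + 2 ≤ B ∧ ((h : ℝ) + 4) ≤ c * (B + 2) := by
    obtain ⟨n, hn⟩ := exists_nat_ge (((h : ℝ) + 4) / c)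
    refine ⟨max (h + 2) n, le_max_left _ _, ?_⟩
    have h1 : ((h : ℝ) + 4) ≤ n * c := (div_le_iff₀ hc).mp hn
    have h2 : (n : ℝ) ≤ ((max (h + 2) n : ℕ) : ℝ) := by exact_mod_cast le_max_right _ _
    nlinarith
  obtain ⟨hB1, hB2⟩ := hB
  obtain ⟨m0, hm0⟩ := tail_prod (B + 2) ((B + 1).factorial : ℝ) 1 one_pos
  obtain ⟨n1, hn1⟩ := exists_nat_ge ((B : ℝ) / c + 1)
  refine ⟨max n1 ((m0 + 1) * (B + 2)), fun N hN Q κ lab hκ hn j hj => ?_⟩
  have hNn1 : (n1 : ℝ) ≤ N := by exact_mod_cast (le_max_left _ _).trans hN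
  have hNm : (m0 + 1) * (B + 2) ≤ N := (le_max_right _ _).trans hN
  set m := (N + 1) / (B + 2) with hm
  have hmle : m * (B + 2) ≤ N + 1 := Nat.div_mul_le_self _ _
  have hmge : m0 ≤ m := by
    have : m0 + 1 ≤ m := by
      rw [hm, Nat.le_div_iff_mul_le (by omega)]
      omega
    omega
  have hmlt : N + 1 < (m + 1) * (B + 2) := by
    have := Nat.lt_div_mul_add (a := N + 1) (b := B + 2) (by omega)
    rw [← hm] at this
    nlinarith
  -- the main inequality
  have hmain : (j : ℝ) + 1 * m ≤ m * (((B : ℝ) - h) / 2) := by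
    have e1 : (m : ℝ) * (B + 2) ≤ N + 1 := by exact_mod_cast hmle
    have e2 : (N : ℝ) - B ≤ m * (B + 2) := by
      have : (N : ℝ) + 1 + 1 ≤ (m + 1) * (B + 2) := by exact_mod_cast hmlt
      nlinarith
    have e3 : (m : ℝ) * (h + 4) ≤ c * (N + 1) := by
      have h1 : (m : ℝ) * (h + 4) ≤ m * (c * (B + 2)) := mul_le_mul_of_nonneg_left hB2 (Nat.cast_nonneg m)
      have h2 : (m : ℝ) * (c * (B + 2)) = c * (m * (B + 2)) := by ring
      have h3 : c * (m * (B + 2)) ≤ c * ((N : ℝ) + 1) := mul_le_mul_of_nonneg_left e1 hc.le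
      linarith
    have e4 : (B : ℝ) + c ≤ c * N := by
      have h1 : (B : ℝ) / c + 1 ≤ N := hn1.trans hNn1
      have h2 : c * ((B : ℝ) / c + 1) ≤ c * N := mul_le_mul_of_nonneg_left h1 hc.le
      have h3 : c * ((B : ℝ) / c + 1) = B + c := by field_simp
      linarith
    nlinarith
  rw [win_decomp hmle Q lab, finset_sum_coeff, finset_sum_coeff]
  refine Finset.sum_le_sum fun π _ => ?_
  choose v g hg hf hv using fun k : Fin m => hG (tailA_lev (win_le hmle k) hκ π)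
    (tailA_nat (win_le hmle k) hn π) hB1 (cB lab B k.val π) (dB lab B k.val π)
  have hprod : ∏ k : Fin m, GW hmle Q lab π k = X ^ (∑ k, v k) * ∏ k, g k := by
    rw [← Finset.prod_pow_eq_pow_sum, ← Finset.prod_mul_distrib]
    exact Finset.prod_congr rfl fun k _ => hg k
  have hcoef : ∀ i : ℕ, (C ((∏ k : Fin m, ((LE (winRel (win_le hmle k) Q π)).card : ℝ))⁻¹) *
      X ^ rest lab B m π * ∏ k : Fin m, GW hmle Q lab π k).coeff i =
      (∏ k : Fin m, ((LE (winRel (win_le hmle k) Q π)).card : ℝ))⁻¹ *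
        if rest lab B m π + ∑ k, v k ≤ i then (∏ k, g k).coeff (i - (rest lab B m π + ∑ k, v k)) else 0 := by
    intro i
    rw [hprod, mul_assoc, coeff_C_mul, ← mul_assoc, ← pow_add, coeff_X_pow_mul']
  rw [hcoef, hcoef]
  have hnn := tailA_nonneg Finset.univ g (fun i _ k => (hf i).nonneg k)
  refine mul_le_mul_of_nonneg_left ?_ (inv_nonneg.mpr (Finset.prod_nonneg fun k _ => Nat.cast_nonneg _))
  set R := rest lab B m π + ∑ k, v k with hR
  by_cases h1 : R ≤ j
  · rw [if_pos h1, if_pos (by omega), show j + 1 - R = (j - R) + 1 by omega]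
    refine hm0 m hmge g hf (j - R) ?_
    rw [Nat.cast_sub h1]
    have h2 : (m : ℝ) * (((B : ℝ) - h) / 2) ≤ ∑ k, ((v k : ℝ) + Fm (g k) 1) := by
      have := Finset.sum_le_sum fun k (_ : k ∈ (Finset.univ : Finset (Fin m))) => hv k
      rw [Finset.sum_const, Finset.card_univ, Fintype.card_fin, nsmul_eq_mul] at this
      exact this
    rw [Finset.sum_add_distrib] at h2
    have h3 : (∑ k, (v k : ℝ)) ≤ (R : ℝ) := by
      rw [hR]; push_cast
      have : (0 : ℝ) ≤ (rest lab B m π : ℝ) := Nat.cast_nonneg _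
      linarith
    linarith
  · rw [if_neg h1]
    split_ifs
    · exact hnn _
    · exact le_rfl

end Pool.HB45
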