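import Pool.Agent.HB45.TE
import Pool.Agent.HB45.TailA
import Pool.Agent.HB45.Dec
import Pool.Agent.HB45.GpFac

set_option autoImplicit false

/-!
# HB45/Tail: `w` increases up to `N/2 - cN`
-/

open Polynomial

namespace Pool.HB45

/-- PROOF. `δ = 1`; choose `B ≥ h + 2` with `(h + 4)/(B + 2) ≤ c`, `m = (N + 1)/(B + 2)`. By `win_decomp` it is
enough to compare the coefficients of `C e⁻¹ X^rest ∏ GW k = C e⁻¹ X^(rest + Σ v_k) ∏ g_k`. If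
`j < rest + Σ v_k` the coefficient at `j` is `0`; otherwise `tail_prod` at `j' = j - rest - Σ v_k`:
`j' + m ≤ Σ Fm (g_k) 1` follows from `j + m ≤ Σ (v_k + Fm (g_k) 1)`, which is `≥ m (B - h)/2` and
`m (B - h)/2 - m ≥ (N + 1 - (B + 2))/2 - m (h + 4)/2 ≥ N/2 - (B + 1)/2 - (N + 1) (h + 4)/(2 (B + 2)) ≥ N/2 - cN`
for large `N`. -/
theorem tail (h : ℕ) (c : ℝ) (hc : 0 < c) : ∃ N0 : ℕ, ∀ N ≥ N0, ∀ (Q : Rel (N + 1))
    (κ lab : Fin (N + 1) → ℕ), Lev h Q κ → Nat' Q lab → ∀ j : ℕ, (j : ℝ) ≤ N / 2 - c * N →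
      (Wp Q lab).coeff j ≤ (Wp Q lab).coeff (j + 1) :=
  tail_of (fun hκ hn hB c d => Gp_factor hκ hn hB c d) h c hc

end Pool.HB45
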