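import Pool.Agent.HB45.Uni
import Pool.Agent.HB45.Tail
import Pool.Agent.HB45.Cent
import Pool.Agent.HB45.Near

set_option autoImplicit false

/-!
# HB45/Final: bounded height, all but finitely many posets are unimodal
-/

open Polynomial

namespace Pool.HB45

/-- The lower half of the sequence: increasing up to `a`, then log-concave up to `N / 2`. -/
theorem lower (h : ℕ) (hh : 1 ≤ h) : ∃ c : ℝ, 0 < c ∧ ∃ N0 : ℕ, ∀ N ≥ N0, ∀ (Q : Rel (N + 1))
    (κ lab : Fin (N + 1) → ℕ), Lev h Q κ → Nat' Q lab →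
      (∀ j : ℕ, (j : ℝ) ≤ N / 2 - c * N → w Q lab j ≤ w Q lab (j + 1)) ∧
      (∀ j : ℕ, N / 2 - c * N < (j : ℝ) → (j : ℝ) < N / 2 →
        0 < w Q lab j ∧ w Q lab (j - 1) * w Q lab (j + 1) ≤ w Q lab j ^ 2) := by
  have hh1 : (1 : ℝ) ≤ h := by exact_mod_cast hh
  obtain ⟨δ, hδ⟩ : ∃ δ : ℝ, δ = 1 / (400 * h) := ⟨_, rfl⟩
  have hδ0 : 0 < δ := by rw [hδ]; positivity
  have hδ1 : δ ≤ 1 / 10 := by
    rw [hδ, div_le_div_iff₀ (by positivity) (by norm_num)]
    linarith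
  obtain ⟨c1, hc1, N1, hdec⟩ := decay h
  obtain ⟨N2, hcent⟩ := cent_abstract δ c1 hδ0 hδ1 hc1
  obtain ⟨N3, htail⟩ := tail h (δ / 40) (by positivity)
  refine ⟨δ / 40, by positivity, max (max N1 N2) (max N3 4), fun N hN Q κ lab hκ hn => ?_⟩
  have g1 : N1 ≤ N := (le_max_left _ _).trans ((le_max_left _ _).trans hN)
  have g2 : N2 ≤ N := (le_max_right _ _).trans ((le_max_left _ _).trans hN)
  have g3 : N3 ≤ N := (le_max_left _ _).trans ((le_max_right _ _).trans hN)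
  have g4 : 4 ≤ N := (le_max_right _ _).trans ((le_max_right _ _).trans hN)
  have g4' : (4 : ℝ) ≤ N := by exact_mod_cast g4
  refine ⟨fun j hj => ?_, fun j hj hj' => ?_⟩
  · have h1 := htail N g3 Q κ lab hκ hn j hj
    rw [coeff_Wp, coeff_Wp] at h1
    exact_mod_cast h1
  · have hne : (LE Q).Nonempty := by
      obtain ⟨g, hg, -⟩ := exists_sorted hn
      exact ⟨g, hg⟩
    have hj1 : 1 ≤ j := by
      by_contra h0
      have h1 : j = 0 := by omega
      rw [h1] at hj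
      push_cast at hj
      nlinarith
    have h1 := hcent N g2 (Wp Q lab) ((LE Q).card : ℝ)
      (by exact_mod_cast Finset.card_pos.2 hne)
      (fun k => by rw [coeff_Wp]; exact Nat.cast_nonneg _)
      (fun s hs => by
        rw [aeval_Wp]
        have h2 := near_one hh hκ hn s (by rw [← hδ]; exact hs)
        exact_mod_cast h2)
      (fun r θ hr hr' _ => hdec N g1 Q κ lab hκ hn r θ hr hr') j hj1 (by
        rw [abs_of_pos (by linarith)]
        nlinarith)
    rw [coeff_Wp, coeff_Wp, coeff_Wp] at h1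
    exact ⟨by exact_mod_cast h1.1, by exact_mod_cast h1.2⟩

/-- BOUNDED HEIGHT. -/
theorem bounded_height (h : ℕ) : ∃ N0 : ℕ, ∀ n ≥ N0, ∀ (α : Type) [Fintype α] [PartialOrder α]
    (f : α ≃ Fin n), (∀ x y : α, x < y → f x < f y) →
      (∀ s : Finset α, IsChain (· ≤ ·) (s : Set α) → s.card ≤ h) →
      ∃ m : ℕ, ∀ k : ℕ, (k < m → dn f k ≤ dn f (k + 1)) ∧ (m ≤ k → dn f (k + 1) ≤ dn f k) := by
  obtain ⟨c, hc, N0, hN0⟩ := lower (h + 1) (by omega)
  refine ⟨N0 + 1, fun n hn α _ _ f hf hs => ?_⟩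
  obtain ⟨N, rfl⟩ : ∃ N, n = N + 1 := ⟨n - 1, by omega⟩
  obtain ⟨κ, hκ⟩ := exists_lev (h := h + 1) f fun s hs' => (hs s hs').trans (Nat.le_succ h)
  obtain ⟨h1, h2⟩ := hN0 N (by omega) (rel f) κ (fun a => a.val) hκ (nat_rel f hf)
  have hne : Nonempty α := ⟨f.symm 0⟩
  have hcard : Fintype.card α = N + 1 := by rw [Fintype.card_congr f, Fintype.card_fin]
  refine combine (dn f) (fun j => (j : ℝ) ≤ N / 2 - c * N) (fun j => N ≤ 2 * j) ?_ ?_ ?_ ?_ ?_ ?_
  · intro j hj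
    rw [dn_eq, dn_eq]
    exact h1 j hj
  · intro j hj hj'
    rw [dn_eq, dn_eq, dn_eq]
    refine h2 j (not_le.1 hj) ?_
    have h3 : (2 * j : ℕ) < N := not_le.1 hj'
    have h4 : ((2 * j : ℕ) : ℝ) < N := by exact_mod_cast h3
    push_cast at h4
    linarith
  · intro j hj
    push_cast at hj
    linarith
  · intro j hj
    omega
  · intro j hj
    exact upper (N + 1) hcard f hf j (by omega)
  · exact ⟨N, by omega⟩

end Pool.HB45
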