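import Pool.Agent.HB45.Defs

set_option autoImplicit false

/-!
# HB45/Maj2: two sums over one word

`window_sum`: a window `(j, f)` with comparable neighbours contains a comparable position `p`
(`j ≤ p`, `p + 1 < j + f`), and `adjFrom (j + f) ≤ adjFrom (p + 1)`; sum over all these `p`.
-/

namespace Pool.HB45

open Finset

private theorem geo1 {t : ℝ} (ht : 0 ≤ t) (ht1 : t < 1) (k M : ℕ) :
    ∑ f ∈ range M, (if k < f then t ^ f else 0) ≤ t ^ (k + 1) / (1 - t) := by
  have h0 : 0 < 1 - t := by linarith
  rw [le_div_iff₀ h0]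
  have key : (∑ f ∈ range M, (if k < f then t ^ f else 0)) * (1 - t) =
      t ^ (k + 1) - t ^ (max M (k + 1)) := by
    induction M with
    | zero => simp
    | succ M ih =>
      rw [sum_range_succ, add_mul, ih]
      split_ifs with h
      · rw [max_eq_left (by omega : k + 1 ≤ M), max_eq_left (by omega : k + 1 ≤ M + 1)]
        ring
      · rw [max_eq_right (by omega : M ≤ k + 1), max_eq_right (by omega : M + 1 ≤ k + 1)]
        ring
  rw [key]
  have := pow_nonneg ht (max M (k + 1))
  linarith

private theorem geo2 {t : ℝ} (ht : 0 ≤ t) (ht1 : t < 1) (p N : ℕ) (hp : p ≤ N) :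
    ∑ j ∈ range (N + 1), (if j ≤ p then t ^ (p - j + 1) else 0) ≤ t / (1 - t) := by
  have h0 : 0 < 1 - t := by linarith
  rw [← sum_filter]
  have e : (range (N + 1)).filter (fun j => j ≤ p) = range (p + 1) := by
    ext j
    simp only [mem_filter, mem_range]
    omega
  rw [e]
  have e2 : ∑ j ∈ range (p + 1), t ^ (p - j + 1) = ∑ k ∈ range (p + 1), t ^ (k + 1) := by
    rw [← sum_range_reflect (fun k => t ^ (k + 1))]
    refine sum_congr rfl fun j hj => ?_
    congr 2
  rw [e2, le_div_iff₀ h0]
  have key : ∀ M : ℕ, (∑ k ∈ range M, t ^ (k + 1)) * (1 - t) = t - t ^ (M + 1) := by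
    intro M
    induction M with
    | zero => simp
    | succ M ih => rw [sum_range_succ, add_mul, ih]; ring
  rw [key]
  have := pow_nonneg ht (p + 1 + 1)
  linarith

/-- the weights of the windows through the position `p` -/
private theorem geo {t : ℝ} (ht : 0 ≤ t) (ht1 : t < 1) {N : ℕ} (i p : ℕ) (hp : p ≤ N) :
    (∑ j : Fin (N + 1), ∑ f : Fin (N + 1 - j.val),
      if i ≤ j.val ∧ j.val ≤ p ∧ p < j.val + f.val then t ^ f.val else 0) ≤ t / (1 - t) ^ 2 := by
  have h0 : 0 < 1 - t := by linarith
  have h1 : ∀ j : Fin (N + 1), (∑ f : Fin (N + 1 - j.val),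
      if i ≤ j.val ∧ j.val ≤ p ∧ p < j.val + f.val then t ^ f.val else 0) ≤
      (if j.val ≤ p then t ^ (p - j.val + 1) else 0) / (1 - t) := by
    intro j
    by_cases hj : i ≤ j.val ∧ j.val ≤ p
    · rw [if_pos hj.2]
      refine le_trans (le_of_eq ?_) (geo1 ht ht1 (p - j.val) (N + 1 - j.val))
      rw [← Fin.sum_univ_eq_sum_range (fun f => if p - j.val < f then t ^ f else 0)]
      refine sum_congr rfl fun f _ => ?_
      by_cases hf : p < j.val + f.val
      · rw [if_pos ⟨hj.1, hj.2, hf⟩, if_pos (by omega)]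
      · rw [if_neg (fun h => hf h.2.2), if_neg (by omega)]
    · have e : (∑ f : Fin (N + 1 - j.val),
          if i ≤ j.val ∧ j.val ≤ p ∧ p < j.val + f.val then t ^ f.val else 0) = 0 := by
        refine sum_eq_zero fun f _ => ?_
        rw [if_neg (fun h => hj ⟨h.1, h.2.1⟩)]
      rw [e]
      refine div_nonneg ?_ h0.le
      split_ifs
      · positivity
      · exact le_rfl
  refine (sum_le_sum fun j _ => h1 j).trans ?_
  rw [← sum_div, div_le_div_iff₀ h0 (by positivity)]
  rw [Fin.sum_univ_eq_sum_range (fun j => if j ≤ p then t ^ (p - j + 1) else 0)]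
  have h2 := geo2 ht ht1 p N hp
  rw [le_div_iff₀ h0] at h2
  nlinarith

open Classical in
/-- For one word `π`: every window `(j, f)` with comparable neighbours is charged to its
comparable positions `p` (`j ≤ p ≤ j + f - 2`, then `adjFrom (j + f) ≤ adjFrom (p + 1)`); a position `p` is
charged by at most `f - 1` windows of size `f`, and `Σ_{f ≥ 2} (f - 1) t^(f-1) = t / (1 - t)^2`. -/
theorem window_sum {N : ℕ} (Q : Rel (N + 1)) (π : Equiv.Perm (Fin (N + 1))) (i : ℕ) (y t : ℝ)
    (hy : 0 ≤ y) (ht : 0 ≤ t) (ht1 : t < 1) :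
    (∑ j : Fin (N + 1), if i ≤ j.val then ∑ f : Fin (N + 1 - j.val), t ^ f.val *
      (if AdjIn (n := N + 1) (o := j.val) (f := f.val + 1) (by have := f.isLt; omega) Q π then
        (1 + y) ^ adjFrom Q (j.val + f.val + 1) π else 0) else 0) ≤
      t / (1 - t) ^ 2 * ∑ p ∈ Finset.univ.filter
        (fun p : Fin N => i ≤ p.val ∧ Q (π p.castSucc) (π p.succ)),
        (1 + y) ^ adjFrom Q (p.val + 1) π := by
  set A : Finset (Fin N) := univ.filter
    (fun p : Fin N => i ≤ p.val ∧ Q (π p.castSucc) (π p.succ)) with hA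
  have hmono : ∀ a b : ℕ, a ≤ b → adjFrom Q b π ≤ adjFrom Q a π := by
    intro a b hab
    unfold adjFrom
    refine card_le_card ?_
    intro p hp
    rw [mem_filter] at hp ⊢
    exact ⟨hp.1, hab.trans hp.2.1, hp.2.2⟩
  have hpos : ∀ k : ℕ, 0 ≤ (1 + y) ^ k := fun k => by positivity
  -- one window
  have h1 : ∀ (j : Fin (N + 1)) (f : Fin (N + 1 - j.val)), i ≤ j.val →
      t ^ f.val *
      (if AdjIn (n := N + 1) (o := j.val) (f := f.val + 1) (by have := f.isLt; omega) Q π then
        (1 + y) ^ adjFrom Q (j.val + f.val + 1) π else 0) ≤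
      ∑ p ∈ A, (if i ≤ j.val ∧ j.val ≤ p.val ∧ p.val < j.val + f.val then t ^ f.val else 0) *
        (1 + y) ^ adjFrom Q (p.val + 1) π := by
    intro j f hij
    have hnn : ∀ p ∈ A, 0 ≤ (if i ≤ j.val ∧ j.val ≤ p.val ∧ p.val < j.val + f.val then
        t ^ f.val else 0) * (1 + y) ^ adjFrom Q (p.val + 1) π := by
      intro p _
      refine mul_nonneg ?_ (hpos _)
      split_ifs
      · positivity
      · exact le_rfl
    split_ifs with h
    · obtain ⟨a, b, hab, hQ⟩ := h
      have hb := b.isLt
      have hf := f.isLt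
      have hlt : j.val + a.val < N := by omega
      have hQ' : Q (π (⟨j.val + a.val, hlt⟩ : Fin N).castSucc)
          (π (⟨j.val + a.val, hlt⟩ : Fin N).succ) := by
        unfold winRel wpos at hQ
        have e1 : (⟨j.val + a.val, hlt⟩ : Fin N).castSucc =
            (⟨j.val + a.val, by omega⟩ : Fin (N + 1)) := rfl
        have e2 : (⟨j.val + a.val, hlt⟩ : Fin N).succ =
            (⟨j.val + b.val, by omega⟩ : Fin (N + 1)) := by
          apply Fin.ext
          simp only [Fin.val_succ]
          omega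
        rw [e1, e2]
        exact hQ
      have hmem : (⟨j.val + a.val, hlt⟩ : Fin N) ∈ A := by
        rw [hA, mem_filter]
        exact ⟨mem_univ _, by simp only []; omega, hQ'⟩
      refine le_trans ?_ (single_le_sum hnn hmem)
      rw [if_pos ⟨hij, by simp only []; omega, by simp only []; omega⟩]
      refine mul_le_mul_of_nonneg_left ?_ (by positivity)
      exact pow_le_pow_right₀ (by linarith) (hmono _ _ (by simp only []; omega))
    · rw [mul_zero]
      exact sum_nonneg hnn
  calc (∑ j : Fin (N + 1), if i ≤ j.val then ∑ f : Fin (N + 1 - j.val), t ^ f.val *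
      (if AdjIn (n := N + 1) (o := j.val) (f := f.val + 1) (by have := f.isLt; omega) Q π then
        (1 + y) ^ adjFrom Q (j.val + f.val + 1) π else 0) else 0)
      ≤ ∑ j : Fin (N + 1), ∑ f : Fin (N + 1 - j.val), ∑ p ∈ A,
        (if i ≤ j.val ∧ j.val ≤ p.val ∧ p.val < j.val + f.val then t ^ f.val else 0) *
        (1 + y) ^ adjFrom Q (p.val + 1) π := by
        refine sum_le_sum fun j _ => ?_
        split_ifs with hij
        · exact sum_le_sum fun f _ => h1 j f hij
        · refine sum_nonneg fun f _ => sum_nonneg fun p _ => mul_nonneg ?_ (hpos _)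
          split_ifs
          · positivity
          · exact le_rfl
    _ = ∑ p ∈ A, (∑ j : Fin (N + 1), ∑ f : Fin (N + 1 - j.val),
        (if i ≤ j.val ∧ j.val ≤ p.val ∧ p.val < j.val + f.val then t ^ f.val else 0)) *
        (1 + y) ^ adjFrom Q (p.val + 1) π := by
        have e : ∀ j : Fin (N + 1), (∑ f : Fin (N + 1 - j.val), ∑ p ∈ A,
            (if i ≤ j.val ∧ j.val ≤ p.val ∧ p.val < j.val + f.val then t ^ f.val else 0) *
            (1 + y) ^ adjFrom Q (p.val + 1) π) = ∑ p ∈ A, (∑ f : Fin (N + 1 - j.val),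
            (if i ≤ j.val ∧ j.val ≤ p.val ∧ p.val < j.val + f.val then t ^ f.val else 0)) *
            (1 + y) ^ adjFrom Q (p.val + 1) π := by
          intro j
          rw [sum_comm]
          exact sum_congr rfl fun p _ => (sum_mul _ _ _).symm
        rw [sum_congr rfl fun j _ => e j, sum_comm]
        exact sum_congr rfl fun p _ => (sum_mul _ _ _).symm
    _ ≤ ∑ p ∈ A, t / (1 - t) ^ 2 * (1 + y) ^ adjFrom Q (p.val + 1) π := by
        refine sum_le_sum fun p _ => ?_
        refine mul_le_mul_of_nonneg_right ?_ (hpos _)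
        exact geo ht ht1 i p.val (by have := p.isLt; omega)
    _ = _ := by rw [mul_sum]

private theorem tele {N : ℕ} (P : Fin N → Prop) [DecidablePred P] (y : ℝ) (d : ℕ) : ∀ i : ℕ,
    N - i = d → y * ∑ p ∈ univ.filter (fun p : Fin N => i ≤ p.val ∧ P p),
      (1 + y) ^ (univ.filter (fun q : Fin N => p.val + 1 ≤ q.val ∧ P q)).card =
      (1 + y) ^ (univ.filter (fun q : Fin N => i ≤ q.val ∧ P q)).card - 1 := by
  induction d with
  | zero =>
    intro i hi
    have e : univ.filter (fun p : Fin N => i ≤ p.val ∧ P p) = ∅ := by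
      apply filter_eq_empty_iff.2
      intro p _ hp
      have := p.isLt
      omega
    rw [e]
    simp
  | succ d ih =>
    intro i hi
    have hiN : i < N := by omega
    have h := ih (i + 1) (by omega)
    by_cases hP : P ⟨i, hiN⟩
    · have e : univ.filter (fun p : Fin N => i ≤ p.val ∧ P p) =
          insert ⟨i, hiN⟩ (univ.filter (fun p : Fin N => i + 1 ≤ p.val ∧ P p)) := by
        ext p
        simp only [mem_filter, mem_univ, true_and, mem_insert]
        constructor
        · rintro ⟨h1, h2⟩
          by_cases hp : p.val = i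
          · left; exact Fin.ext hp
          · right; exact ⟨by omega, h2⟩
        · rintro (rfl | ⟨h1, h2⟩)
          · exact ⟨le_rfl, hP⟩
          · exact ⟨by omega, h2⟩
      have hn : (⟨i, hiN⟩ : Fin N) ∉ univ.filter (fun p : Fin N => i + 1 ≤ p.val ∧ P p) := by
        simp
      rw [e, sum_insert hn, card_insert_of_notMem hn, mul_add, h, pow_succ]
      ring
    · have e : univ.filter (fun p : Fin N => i ≤ p.val ∧ P p) =
          univ.filter (fun p : Fin N => i + 1 ≤ p.val ∧ P p) := by
        ext p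
        simp only [mem_filter, mem_univ, true_and]
        constructor
        · rintro ⟨h1, h2⟩
          by_cases hp : p.val = i
          · exfalso
            apply hP
            have : p = ⟨i, hiN⟩ := Fin.ext hp
            rwa [this] at h2
          · exact ⟨by omega, h2⟩
        · rintro ⟨h1, h2⟩
          exact ⟨by omega, h2⟩
      rw [e, h]

open Classical in
/-- `(1+y)^A - 1 = Σ_k y (1+y)^(A-k)` -/
theorem adjFrom_telescope {N : ℕ} (Q : Rel (N + 1)) (π : Equiv.Perm (Fin (N + 1))) (i : ℕ) (y : ℝ) :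
    y * ∑ p ∈ Finset.univ.filter (fun p : Fin N => i ≤ p.val ∧ Q (π p.castSucc) (π p.succ)),
        (1 + y) ^ adjFrom Q (p.val + 1) π = (1 + y) ^ adjFrom Q i π - 1 :=
  tele (fun p : Fin N => Q (π p.castSucc) (π p.succ)) y (N - i) i rfl

end Pool.HB45
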