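import Pool.Agent.HB45.Defs

set_option autoImplicit false

/-!
# HB45/Rec: the suffix weights `R` and Green's formula
-/

namespace Pool.HB45

open Finset

/-- the labels of the word as a function on `ℕ` -/
def recA {N : ℕ} (lab : Fin (N + 1) → ℕ) (π : Equiv.Perm (Fin (N + 1))) (p : ℕ) : ℕ :=
  if h : p < N + 1 then lab (π ⟨p, h⟩) else 0

/-- ascending on `[o, o + f)` -/
def recAsc (a : ℕ → ℕ) (o f : ℕ) : Prop := ∀ p q, o ≤ p → p < q → q < o + f → a p < a q

theorem rec_asc_iff {N : ℕ} (lab : Fin (N + 1) → ℕ) (π : Equiv.Perm (Fin (N + 1))) (o f : ℕ)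
    (hof : o + f ≤ N + 1) : Asc hof lab π ↔ recAsc (recA lab π) o f := by
  constructor
  · intro h p q h1 h2 h3
    have h4 := h ⟨p - o, by omega⟩ ⟨q - o, by omega⟩ (by simp only [Fin.mk_lt_mk]; omega)
    have e1 : wpos hof ⟨p - o, by omega⟩ = ⟨p, by omega⟩ := by
      ext
      simp only [wpos]
      omega
    have e2 : wpos hof ⟨q - o, by omega⟩ = ⟨q, by omega⟩ := by
      ext
      simp only [wpos]
      omega
    rw [e1, e2] at h4
    unfold recA
    rw [dif_pos (by omega : p < N + 1), dif_pos (by omega : q < N + 1)]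
    exact h4
  · intro h i j hij
    have h1 := i.isLt
    have h2 := j.isLt
    have hij' : i.val < j.val := hij
    have h3 := h (o + i.val) (o + j.val) (by omega) (by omega) (by omega)
    unfold recA at h3
    rw [dif_pos (by omega : o + i.val < N + 1), dif_pos (by omega : o + j.val < N + 1)] at h3
    exact h3

theorem recAsc_one (a : ℕ → ℕ) (o : ℕ) : recAsc a o 1 := fun p q h1 h2 h3 => by omega

theorem recAsc_succ (a : ℕ → ℕ) (o f : ℕ) :
    recAsc a o (f + 2) ↔ (a o < a (o + 1) ∧ recAsc a (o + 1) (f + 1)) := by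
  constructor
  · intro h
    exact ⟨h o (o + 1) le_rfl (by omega) (by omega),
      fun p q h1 h2 h3 => h p q (by omega) h2 (by omega)⟩
  · rintro ⟨h0, h⟩ p q h1 h2 h3
    rcases Nat.lt_or_ge o p with hp | hp
    · exact h p q hp h2 (by omega)
    · have e : p = o := by omega
      subst e
      rcases Nat.lt_or_ge (p + 1) q with hq | hq
      · exact lt_trans h0 (h (p + 1) q le_rfl hq (by omega))
      · have e : q = p + 1 := by omega
        rw [e]
        exact h0

theorem rec_R_last {N : ℕ} (lab : Fin (N + 1) → ℕ) (z : ℂ) (π : Equiv.Perm (Fin (N + 1))) (i : ℕ)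
    (hi : N ≤ i) : R lab z i π = 1 := by
  unfold R
  rw [filter_false_of_mem (fun p _ => by have := p.isLt; omega), prod_empty]

open Classical in
theorem rec_R_step {N : ℕ} (lab : Fin (N + 1) → ℕ) (z : ℂ) (π : Equiv.Perm (Fin (N + 1))) (i : ℕ)
    (hi : i < N) : R lab z i π =
      (1 + if recA lab π i < recA lab π (i + 1) then z else 0) * R lab z (i + 1) π := by
  unfold R
  have e : univ.filter (fun p : Fin N => i ≤ p.val) =
      insert ⟨i, hi⟩ (univ.filter (fun p : Fin N => i + 1 ≤ p.val)) := by
    ext p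
    simp only [mem_filter, mem_univ, true_and, mem_insert, Fin.ext_iff]
    omega
  rw [e, prod_insert (by simp)]
  congr 2
  unfold recA
  rw [dif_pos (by omega : i < N + 1), dif_pos (by omega : i + 1 < N + 1)]
  rfl

open Classical in
theorem R_rec_range {N : ℕ} (lab : Fin (N + 1) → ℕ) (z : ℂ) (π : Equiv.Perm (Fin (N + 1))) :
    ∀ a i : ℕ, i + a = N → R lab z i π = ∑ f ∈ range (a + 1), z ^ f *
      (if recAsc (recA lab π) i (f + 1) then 1 else 0) * R lab z (i + f + 1) π := by
  intro a
  induction a with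
  | zero =>
    intro i hi
    rw [sum_range_one, pow_zero, one_mul, if_pos (recAsc_one _ _), one_mul,
      rec_R_last lab z π i (by omega), rec_R_last lab z π (i + 0 + 1) (by omega)]
  | succ a ih =>
    intro i hi
    rw [sum_range_succ', pow_zero, one_mul, if_pos (recAsc_one _ _), one_mul,
      rec_R_step lab z π i (by omega), add_zero]
    have h := ih (i + 1) (by omega)
    have e : ∀ f ∈ range (a + 1), z ^ (f + 1) *
        (if recAsc (recA lab π) i (f + 1 + 1) then (1 : ℂ) else 0) * R lab z (i + (f + 1) + 1) π =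
        (if recA lab π i < recA lab π (i + 1) then z else 0) * (z ^ f *
        (if recAsc (recA lab π) (i + 1) (f + 1) then 1 else 0) * R lab z (i + 1 + f + 1) π) := by
      intro f _
      have e1 : i + (f + 1) + 1 = i + 1 + f + 1 := by omega
      rw [e1]
      by_cases h1 : recA lab π i < recA lab π (i + 1)
      · by_cases h2 : recAsc (recA lab π) (i + 1) (f + 1)
        · rw [if_pos ((recAsc_succ _ _ _).2 ⟨h1, h2⟩), if_pos h1, if_pos h2]
          ring
        · rw [if_neg (fun h => h2 ((recAsc_succ _ _ _).1 h).2), if_neg h2]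
          ring
      · rw [if_neg (fun h => h1 ((recAsc_succ _ _ _).1 h).1), if_neg h1]
        ring
    rw [sum_congr rfl e, ← mul_sum, ← h]
    ring

open Classical in
/-- FIRST PART DECOMPOSITION. Expand the product `R lab z i π` over the set `T` of positions `p ≥ i`
where `z [ascent]` is taken; the part of `i` is `[i, i + f)` when `i, …, i + f - 2 ∈ T`,
`i + f - 1 ∉ T`. (Downward induction: `R i = (1 + z [i asc]) R (i+1)` also works.) -/
theorem R_rec {N : ℕ} (lab : Fin (N + 1) → ℕ) (z : ℂ) (π : Equiv.Perm (Fin (N + 1))) (i : ℕ)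
    (hi : i < N + 1) :
    R lab z i π = ∑ f : Fin (N + 1 - i), z ^ f.val *
      (if Asc (n := N + 1) (o := i) (f := f.val + 1) (by have := f.isLt; omega) lab π then 1 else 0) *
      R lab z (i + f.val + 1) π := by
  have h := R_rec_range lab z π (N - i) i (by omega)
  have e : N - i + 1 = N + 1 - i := by omega
  rw [e] at h
  rw [h, ← Fin.sum_univ_eq_sum_range (fun f => z ^ f *
      (if recAsc (recA lab π) i (f + 1) then (1 : ℂ) else 0) * R lab z (i + f + 1) π)]
  refine sum_congr rfl fun f _ => ?_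
  have h1 := rec_asc_iff lab π i (f.val + 1) (by have := f.isLt; omega)
  by_cases h2 : recAsc (recA lab π) i (f.val + 1)
  · rw [if_pos h2, if_pos (h1.2 h2)]
  · rw [if_neg h2, if_neg (fun h => h2 (h1.1 h))]

theorem rec_Z_succ (z : ℂ) (a : ℕ) : Z z (a + 1) =
    ∑ f ∈ range (a + 1), z ^ f / (f + 1).factorial * Z z (a - f) := by
  rw [Z, ← Fin.sum_univ_eq_sum_range (fun f => z ^ f / ((f + 1).factorial : ℂ) * Z z (a - f))]

theorem rec_Z_zero (z : ℂ) : Z z 0 = 1 := by rw [Z]

theorem rec_green (n : ℕ) (z : ℂ) (R D : ℕ → ℂ) (hn : R n = 1)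
    (hr : ∀ i < n, R i = ∑ f ∈ range (n - i), z ^ f / (f + 1).factorial * R (i + f + 1) + D i) :
    ∀ a i : ℕ, i + a = n → R i = Z z a + ∑ j ∈ Ico i n, Z z (j - i) * D j := by
  intro a
  induction a using Nat.strong_induction_on with
  | _ a ih =>
  intro i hi
  rcases Nat.eq_zero_or_pos a with rfl | ha
  · have e : i = n := by omega
    subst e
    rw [hn, rec_Z_zero, Ico_self, sum_empty, add_zero]
  · obtain ⟨b, rfl⟩ : ∃ b, a = b + 1 := ⟨a - 1, by omega⟩
    have hin : i < n := by omega
    have e1 : n - i = b + 1 := by omega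
    rw [hr i hin, e1]
    have e2 : ∀ f ∈ range (b + 1), z ^ f / ((f + 1).factorial : ℂ) * R (i + f + 1) =
        z ^ f / (f + 1).factorial * Z z (b - f) +
        ∑ j ∈ Ico (i + f + 1) n, z ^ f / (f + 1).factorial * (Z z (j - (i + f + 1)) * D j) := by
      intro f hf
      rw [mem_range] at hf
      rw [ih (b - f) (by omega) (i + f + 1) (by omega), mul_add, mul_sum]
    rw [sum_congr rfl e2, sum_add_distrib, ← rec_Z_succ, add_assoc]
    congr 1
    rw [sum_comm' (s := range (b + 1)) (t := fun f => Ico (i + f + 1) n) (t' := Ico (i + 1) n)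
      (s' := fun j => range (j - i))
      (h := fun f j => by simp only [mem_range, mem_Ico]; omega)]
    rw [sum_eq_sum_Ico_succ_bot hin, Nat.sub_self, rec_Z_zero, one_mul, add_comm]
    congr 1
    refine sum_congr rfl fun j hj => ?_
    rw [mem_Ico] at hj
    obtain ⟨c, hc⟩ : ∃ c, j - i = c + 1 := ⟨j - i - 1, by omega⟩
    rw [hc, rec_Z_succ, sum_mul]
    refine sum_congr rfl fun f hf => ?_
    rw [mem_range] at hf
    have e3 : j - (i + f + 1) = c - f := by omega
    rw [e3]
    ring

open Classical in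
/-- GREEN'S FORMULA (downward induction on `i`, or: the sequence `u_j = R j` satisfies
`u_j = Σ_f z^(f-1)/f! u_(j+f) + v_j` and `u_(N+1) = 1`; `Z` is the Green function). -/
theorem R_green {N : ℕ} (lab : Fin (N + 1) → ℕ) (z : ℂ) (π : Equiv.Perm (Fin (N + 1))) (i : ℕ)
    (hi : i ≤ N + 1) :
    R lab z i π = Z z (N + 1 - i) + ∑ j : Fin (N + 1), if i ≤ j.val then
      Z z (j.val - i) * ∑ f : Fin (N + 1 - j.val), z ^ f.val *
        ((if Asc (n := N + 1) (o := j.val) (f := f.val + 1) (by have := f.isLt; omega) lab π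
            then 1 else 0) - (((f.val + 1).factorial : ℂ))⁻¹) *
        R lab z (j.val + f.val + 1) π else 0 := by
  set D : ℕ → ℂ := fun j => ∑ f ∈ range (N + 1 - j), z ^ f *
    ((if recAsc (recA lab π) j (f + 1) then (1 : ℂ) else 0) - (((f + 1).factorial : ℂ))⁻¹) *
      R lab z (j + f + 1) π with hD
  have h := rec_green (N + 1) z (fun i => R lab z i π) D (rec_R_last lab z π (N + 1) (by omega))
    (by
      intro i hi
      have h1 := R_rec_range lab z π (N - i) i (by omega)
      have e : N - i + 1 = N + 1 - i := by omega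
      rw [e] at h1
      simp only [hD]
      rw [← sum_add_distrib, h1]
      refine sum_congr rfl fun f _ => ?_
      ring) (N + 1 - i) i (by omega)
  rw [h]
  congr 1
  have e1 : ∑ j ∈ Ico i (N + 1), Z z (j - i) * D j =
      ∑ j ∈ range (N + 1), if i ≤ j then Z z (j - i) * D j else 0 := by
    rw [← sum_filter]
    refine sum_congr ?_ fun _ _ => rfl
    ext j
    simp only [mem_Ico, mem_filter, mem_range]
    omega
  rw [e1, ← Fin.sum_univ_eq_sum_range (fun j => if i ≤ j then Z z (j - i) * D j else 0)]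
  refine sum_congr rfl fun j _ => ?_
  by_cases hij : i ≤ j.val
  · rw [if_pos hij, if_pos hij]
    congr 1
    simp only [hD]
    rw [← Fin.sum_univ_eq_sum_range (fun f => z ^ f *
      ((if recAsc (recA lab π) j.val (f + 1) then (1 : ℂ) else 0) -
        (((f + 1).factorial : ℂ))⁻¹) * R lab z (j.val + f + 1) π)]
    refine sum_congr rfl fun f _ => ?_
    have h1 := rec_asc_iff lab π j.val (f.val + 1) (by have := f.isLt; omega)
    by_cases h2 : recAsc (recA lab π) j.val (f.val + 1)
    · rw [if_pos h2, if_pos (h1.2 h2)]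
    · rw [if_neg h2, if_neg (fun h => h2 (h1.1 h))]
  · rw [if_neg hij, if_neg hij]

end Pool.HB45
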