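import Pool.Agent.HB45.Class
import Pool.Agent.HB45.Rec
import Pool.Agent.HB45.Maj2

set_option autoImplicit false

/-!
# HB45/Maj: the majorant induction

Proved by helper22.
-/

namespace Pool.HB45

/-! ### invariance -/

theorem mul_emb_ge {n o f : ℕ} (hof : o + f ≤ n) (π : Equiv.Perm (Fin n)) (g : Equiv.Perm (Fin f))
    (p : Fin n) (hp : o + f ≤ p.val) : (π * emb hof g) p = π p := by
  rw [Equiv.Perm.mul_apply, emb_of_not hof g p (by omega)]

theorem mul_emb_lt {n o f : ℕ} (hof : o + f ≤ n) (π : Equiv.Perm (Fin n)) (g : Equiv.Perm (Fin f))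
    (p : Fin n) (hp : p.val < o) : (π * emb hof g) p = π p := by
  rw [Equiv.Perm.mul_apply, emb_of_not hof g p (by omega)]

theorem R_mul_emb {N o f : ℕ} (lab : Fin (N + 1) → ℕ) (z : ℂ) (hof : o + f ≤ N + 1)
    (π : Equiv.Perm (Fin (N + 1))) (g : Equiv.Perm (Fin f)) (i : ℕ) (hi : o + f ≤ i) :
    R lab z i (π * emb hof g) = R lab z i π := by
  unfold R
  apply Finset.prod_congr rfl
  intro p hp
  rw [Finset.mem_filter] at hp
  have h1 : (π * emb hof g) p.castSucc = π p.castSucc :=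
    mul_emb_ge hof π g _ (by rw [Fin.val_castSucc]; omega)
  have h2 : (π * emb hof g) p.succ = π p.succ :=
    mul_emb_ge hof π g _ (by rw [Fin.val_succ]; omega)
  rw [h1, h2]

theorem adjFrom_mul_emb {N o f : ℕ} (Q : Rel (N + 1)) (hof : o + f ≤ N + 1)
    (π : Equiv.Perm (Fin (N + 1))) (g : Equiv.Perm (Fin f)) (i : ℕ) (hi : o + f ≤ i) :
    adjFrom Q i (π * emb hof g) = adjFrom Q i π := by
  classical
  unfold adjFrom
  apply congrArg Finset.card
  apply Finset.filter_congr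
  intro p _
  constructor
  · rintro ⟨h0, h⟩
    rw [mul_emb_ge hof π g p.castSucc (by rw [Fin.val_castSucc]; omega),
      mul_emb_ge hof π g p.succ (by rw [Fin.val_succ]; omega)] at h
    exact ⟨h0, h⟩
  · rintro ⟨h0, h⟩
    refine ⟨h0, ?_⟩
    rw [mul_emb_ge hof π g p.castSucc (by rw [Fin.val_castSucc]; omega),
      mul_emb_ge hof π g p.succ (by rw [Fin.val_succ]; omega)]
    exact h

theorem Asc_mul_emb {n o f o' f' : ℕ} (hof : o + f ≤ n) (hof' : o' + f' ≤ n) (hd : o + f ≤ o')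
    (lab : Fin n → ℕ) (π : Equiv.Perm (Fin n)) (g : Equiv.Perm (Fin f')) :
    Asc hof lab (π * emb hof' g) ↔ Asc hof lab π := by
  unfold Asc
  have h : ∀ i : Fin f, (π * emb hof' g) (wpos hof i) = π (wpos hof i) := by
    intro i
    have := wpos_in hof i
    exact mul_emb_lt hof' π g _ (by omega)
  simp only [h]

theorem Anti_mul_emb {n o f o' f' : ℕ} (hof : o + f ≤ n) (hof' : o' + f' ≤ n) (hd : o + f ≤ o')
    (Q : Rel n) (π : Equiv.Perm (Fin n)) (g : Equiv.Perm (Fin f')) :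
    Anti hof Q (π * emb hof' g) ↔ Anti hof Q π := by
  unfold Anti
  rw [winRel_mul_emb_of_disj hof hof' (Or.inl hd)]

theorem adjFrom_zero {N : ℕ} (Q : Rel (N + 1)) (π : Equiv.Perm (Fin (N + 1))) :
    adjFrom Q 0 π = adj Q π := by
  classical
  unfold adjFrom adj adjs
  apply congrArg Finset.card
  apply Finset.filter_congr
  intro p _
  exact ⟨fun h => h.2, fun h => ⟨Nat.zero_le _, h⟩⟩

open Classical in
/-- the correction `[Asc] - 1/f!` outside the antichain windows, times `H` -/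
noncomputable def Hc {n : ℕ} (Q : Rel n) (lab : Fin n → ℕ) (H : Equiv.Perm (Fin n) → ℂ) {o f : ℕ}
    (hof : o + f ≤ n) (π : Equiv.Perm (Fin n)) : ℂ :=
  if Anti hof Q π then 0 else ((if Asc hof lab π then 1 else 0) - ((f.factorial : ℂ))⁻¹) * H π

theorem Hc_inv {n : ℕ} {Q : Rel n} {lab : Fin n → ℕ} {H : Equiv.Perm (Fin n) → ℂ} {i o f : ℕ}
    (hH : Inv Q i H) (hof : o + f ≤ n) (hi : i ≤ o) : Inv Q (o + f) (Hc Q lab H hof) := by
  intro o' f' hof' ho g π hπ hπ'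
  unfold Hc
  rw [hH o' f' hof' (by omega) g π hπ hπ']
  have h1 := Anti_mul_emb hof hof' ho Q π g
  have h2 := Asc_mul_emb hof hof' ho lab π g
  by_cases c1 : Anti hof Q π
  · rw [if_pos c1, if_pos (h1.2 c1)]
  · rw [if_neg c1, if_neg (fun h => c1 (h1.1 h))]
    by_cases c2 : Asc hof lab π
    · rw [if_pos c2, if_pos (h2.2 c2)]
    · rw [if_neg c2, if_neg (fun h => c2 (h2.1 h))]

open Classical in
/-- cancellation of the antichain windows -/
theorem sum_Hc {N : ℕ} {Q : Rel (N + 1)} {lab : Fin (N + 1) → ℕ} (hn : Nat' Q lab) (z : ℂ) {i o f : ℕ}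
    (hof : o + f ≤ N + 1) (hi : i ≤ o) {H : Equiv.Perm (Fin (N + 1)) → ℂ} (hH : Inv Q i H) :
    ∑ π ∈ LE Q, ((if Asc hof lab π then 1 else 0) - ((f.factorial : ℂ))⁻¹) *
      (H π * R lab z (o + f) π) = ∑ π ∈ LE Q, Hc Q lab H hof π * R lab z (o + f) π := by
  have h1 := anti_cancel (Q := Q) (lab := lab) hn hof (fun π => H π * R lab z (o + f) π) (by
    intro g π hπ hπ'
    show H (π * emb hof g) * R lab z (o + f) (π * emb hof g) = H π * R lab z (o + f) π
    rw [hH o f hof hi g π hπ hπ', R_mul_emb lab z hof π g (o + f) le_rfl])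
  rw [← sub_eq_zero, ← Finset.sum_sub_distrib]
  refine Eq.trans ?_ h1
  apply Finset.sum_congr rfl
  intro π _
  unfold Hc
  by_cases c : Anti hof Q π
  · rw [if_pos c, if_pos c]; ring
  · rw [if_neg c, if_neg c]; ring

open Classical in
/-- the norms -/
theorem norm_Hc {N : ℕ} {Q : Rel (N + 1)} {lab : Fin (N + 1) → ℕ} (hn : Nat' Q lab) {y : ℝ}
    (hy0 : 0 ≤ y) {i o f : ℕ}
    (hof : o + f ≤ N + 1) (hi : i ≤ o) {H : Equiv.Perm (Fin (N + 1)) → ℂ} (hH : Inv Q i H) :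
    ∑ π ∈ LE Q, ‖Hc Q lab H hof π‖ * (1 + y) ^ adjFrom Q (o + f) π ≤
      2 * ∑ π ∈ LE Q, ‖H π‖ * (if AdjIn hof Q π then (1 + y) ^ adjFrom Q (o + f) π else 0) := by
  have h1 := nonanti_le (Q := Q) (lab := lab) hn hof
    (fun π => ‖H π‖ * (1 + y) ^ adjFrom Q (o + f) π) (fun π => by positivity) (by
    intro g π hπ hπ'
    show ‖H (π * emb hof g)‖ * (1 + y) ^ adjFrom Q (o + f) (π * emb hof g) =
      ‖H π‖ * (1 + y) ^ adjFrom Q (o + f) π
    rw [hH o f hof hi g π hπ hπ', adjFrom_mul_emb Q hof π g (o + f) le_rfl])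
  have h2 : ∑ π ∈ LE Q, ‖Hc Q lab H hof π‖ * (1 + y) ^ adjFrom Q (o + f) π =
      ∑ π ∈ LE Q, (if Anti hof Q π then 0 else
        |(if Asc hof lab π then 1 else 0) - ((f.factorial : ℝ))⁻¹| *
          (‖H π‖ * (1 + y) ^ adjFrom Q (o + f) π)) := by
    apply Finset.sum_congr rfl
    intro π _
    unfold Hc
    by_cases c : Anti hof Q π
    · rw [if_pos c, if_pos c, norm_zero, zero_mul]
    · rw [if_neg c, if_neg c, norm_mul]
      have h3 : ‖((if Asc hof lab π then (1 : ℂ) else 0) - ((f.factorial : ℂ))⁻¹)‖ =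
          |(if Asc hof lab π then (1 : ℝ) else 0) - ((f.factorial : ℝ))⁻¹| := by
        have h4 : ((if Asc hof lab π then (1 : ℂ) else 0) - ((f.factorial : ℂ))⁻¹) =
            (((if Asc hof lab π then (1 : ℝ) else 0) - ((f.factorial : ℝ))⁻¹ : ℝ) : ℂ) := by
          split_ifs <;> push_cast <;> rfl
        rw [h4, Complex.norm_real, Real.norm_eq_abs]
      rw [h3]
      ring
  rw [h2]
  refine h1.trans (le_of_eq ?_)
  congr 1
  apply Finset.sum_congr rfl
  intro π _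
  by_cases c : AdjIn hof Q π
  · rw [if_pos c, if_pos c]
  · rw [if_neg c, if_neg c, mul_zero]

/-- the statement of the majorant induction for one `i` -/
def MajAt {N : ℕ} (Q : Rel (N + 1)) (lab : Fin (N + 1) → ℕ) (z x : ℂ) (K y : ℝ) (i : ℕ) : Prop :=
  ∀ H : Equiv.Perm (Fin (N + 1)) → ℂ, Inv Q i H →
      ‖∑ π ∈ LE Q, H π * R lab z i π‖ * ‖x‖ ^ (N + 2 - i) ≤
        K * ∑ π ∈ LE Q, ‖H π‖ * (1 + y) ^ adjFrom Q i π

open Classical in
theorem core {N : ℕ} {Q : Rel (N + 1)} {lab : Fin (N + 1) → ℕ} (hn : Nat' Q lab) (z x s : ℂ)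
    (hzx : z * x = s) (hs : ‖s‖ < 1) (K y : ℝ) (hK : ∀ a, ‖Z z a * x ^ (a + 1)‖ ≤ K)
    (hy0 : 0 ≤ y) (hy : 2 * K * (‖s‖ / (1 - ‖s‖) ^ 2) ≤ y) (i : ℕ) (hi : i ≤ N + 1)
    (IH : ∀ i', i < i' → i' ≤ N + 1 → MajAt Q lab z x K y i')
    (H : Equiv.Perm (Fin (N + 1)) → ℂ) (hH : Inv Q i H) :
    ‖∑ π ∈ LE Q, H π * (R lab z i π - Z z (N + 1 - i))‖ * ‖x‖ ^ (N + 2 - i) ≤
      K * ∑ π ∈ LE Q, ‖H π‖ * ((1 + y) ^ adjFrom Q i π - 1) := by
  have hK0 : 0 ≤ K := (norm_nonneg _).trans (hK 0)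
  have hs0 : 0 ≤ ‖s‖ := norm_nonneg s
  -- expansion
  have e1 : ∑ π ∈ LE Q, H π * (R lab z i π - Z z (N + 1 - i)) =
      ∑ j : Fin (N + 1), if i ≤ j.val then Z z (j.val - i) * ∑ f : Fin (N + 1 - j.val), z ^ f.val *
        ∑ π ∈ LE Q, Hc Q lab H (o := j.val) (f := f.val + 1) (by have := f.isLt; omega) π *
          R lab z (j.val + (f.val + 1)) π else 0 := by
    have e2 : ∀ π ∈ LE Q, H π * (R lab z i π - Z z (N + 1 - i)) =
        ∑ j : Fin (N + 1), H π * (if i ≤ j.val then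
      Z z (j.val - i) * ∑ f : Fin (N + 1 - j.val), z ^ f.val *
        ((if Asc (n := N + 1) (o := j.val) (f := f.val + 1) (by have := f.isLt; omega) lab π
            then 1 else 0) - (((f.val + 1).factorial : ℂ))⁻¹) *
        R lab z (j.val + f.val + 1) π else 0) := by
      intro π _
      rw [← Finset.mul_sum, R_green lab z π i hi, add_sub_cancel_left]
    rw [Finset.sum_congr rfl e2, Finset.sum_comm]
    apply Finset.sum_congr rfl
    intro j _
    by_cases hj : i ≤ j.val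
    · simp only [if_pos hj]
      have e3 : ∀ f : Fin (N + 1 - j.val), ∑ π ∈ LE Q,
          Hc Q lab H (o := j.val) (f := f.val + 1) (by have := f.isLt; omega) π *
          R lab z (j.val + (f.val + 1)) π = ∑ π ∈ LE Q, ((if Asc (n := N + 1) (o := j.val)
            (f := f.val + 1) (by have := f.isLt; omega) lab π
            then 1 else 0) - (((f.val + 1).factorial : ℂ))⁻¹) * (H π *
            R lab z (j.val + (f.val + 1)) π) := by
        intro f
        exact (sum_Hc hn z (by have := f.isLt; omega) hj hH).symm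
      simp only [e3]
      simp only [Finset.mul_sum]
      rw [Finset.sum_comm]
      apply Finset.sum_congr rfl
      intro f _
      apply Finset.sum_congr rfl
      intro π _
      have e4 : j.val + f.val + 1 = j.val + (f.val + 1) := by omega
      rw [e4]
      ring
    · simp only [if_neg hj, mul_zero, Finset.sum_const_zero]
  -- the bound of one term
  have b1 : ∀ j : Fin (N + 1), i ≤ j.val → ∀ f : Fin (N + 1 - j.val),
      (‖Z z (j.val - i)‖ * (‖z‖ ^ f.val * ‖∑ π ∈ LE Q,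
        Hc Q lab H (o := j.val) (f := f.val + 1) (by have := f.isLt; omega) π *
          R lab z (j.val + (f.val + 1)) π‖)) * ‖x‖ ^ (N + 2 - i) ≤
      K * (‖s‖ ^ f.val * (K * (2 * ∑ π ∈ LE Q, ‖H π‖ * (if AdjIn (n := N + 1) (o := j.val)
        (f := f.val + 1) (by have := f.isLt; omega) Q π then
        (1 + y) ^ adjFrom Q (j.val + (f.val + 1)) π else 0)))) := by
    intro j hj f
    have hf := f.isLt
    have hof : j.val + (f.val + 1) ≤ N + 1 := by omega
    have h1 := IH (j.val + (f.val + 1)) (by omega) hof (Hc Q lab H hof) (Hc_inv hH hof hj)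
    have h2 := norm_Hc (y := y) hn hy0 hof hj hH
    have h3 := hK (j.val - i)
    rw [norm_mul, norm_pow] at h3
    have e5 : N + 2 - i = (j.val - i + 1) + (f.val + (N + 2 - (j.val + (f.val + 1)))) := by omega
    rw [e5, pow_add ‖x‖ (j.val - i + 1), pow_add ‖x‖ f.val]
    have h4 : ‖z‖ ^ f.val * ‖x‖ ^ f.val = ‖s‖ ^ f.val := by
      rw [← mul_pow, ← norm_mul, hzx]
    have h5 : ‖∑ π ∈ LE Q, Hc Q lab H hof π * R lab z (j.val + (f.val + 1)) π‖ *
        ‖x‖ ^ (N + 2 - (j.val + (f.val + 1))) ≤ K * (2 * ∑ π ∈ LE Q, ‖H π‖ * (if AdjIn hof Q π then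
        (1 + y) ^ adjFrom Q (j.val + (f.val + 1)) π else 0)) :=
      h1.trans (mul_le_mul_of_nonneg_left h2 hK0)
    calc (‖Z z (j.val - i)‖ * (‖z‖ ^ f.val * ‖∑ π ∈ LE Q, Hc Q lab H hof π *
          R lab z (j.val + (f.val + 1)) π‖)) *
          (‖x‖ ^ (j.val - i + 1) * (‖x‖ ^ f.val * ‖x‖ ^ (N + 2 - (j.val + (f.val + 1)))))
        = (‖Z z (j.val - i)‖ * ‖x‖ ^ (j.val - i + 1)) * ((‖z‖ ^ f.val * ‖x‖ ^ f.val) *
          (‖∑ π ∈ LE Q, Hc Q lab H hof π * R lab z (j.val + (f.val + 1)) π‖ *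
          ‖x‖ ^ (N + 2 - (j.val + (f.val + 1))))) := by ring
      _ ≤ K * (‖s‖ ^ f.val * (K * (2 * ∑ π ∈ LE Q, ‖H π‖ * (if AdjIn hof Q π then
        (1 + y) ^ adjFrom Q (j.val + (f.val + 1)) π else 0)))) := by
        rw [h4]
        apply mul_le_mul h3 _ (by positivity) hK0
        exact mul_le_mul_of_nonneg_left h5 (by positivity)
  -- sum over all terms
  have b2 : ‖∑ π ∈ LE Q, H π * (R lab z i π - Z z (N + 1 - i))‖ * ‖x‖ ^ (N + 2 - i) ≤
      ∑ j : Fin (N + 1), if i ≤ j.val then ∑ f : Fin (N + 1 - j.val),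
        K * (‖s‖ ^ f.val * (K * (2 * ∑ π ∈ LE Q, ‖H π‖ * (if AdjIn (n := N + 1) (o := j.val)
        (f := f.val + 1) (by have := f.isLt; omega) Q π then
        (1 + y) ^ adjFrom Q (j.val + (f.val + 1)) π else 0)))) else 0 := by
    rw [e1]
    refine (mul_le_mul_of_nonneg_right (norm_sum_le _ _) (by positivity)).trans ?_
    rw [Finset.sum_mul]
    apply Finset.sum_le_sum
    intro j _
    by_cases hj : i ≤ j.val
    · rw [if_pos hj, if_pos hj, norm_mul]
      refine (mul_le_mul_of_nonneg_right (mul_le_mul_of_nonneg_left (norm_sum_le _ _)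
        (norm_nonneg _)) (by positivity)).trans ?_
      rw [Finset.mul_sum, Finset.sum_mul]
      apply Finset.sum_le_sum
      intro f _
      rw [norm_mul, norm_pow]
      exact b1 j hj f
    · rw [if_neg hj, if_neg hj, norm_zero, zero_mul]
  refine b2.trans ?_
  -- exchange the sums
  have b3 : (∑ j : Fin (N + 1), if i ≤ j.val then ∑ f : Fin (N + 1 - j.val),
        K * (‖s‖ ^ f.val * (K * (2 * ∑ π ∈ LE Q, ‖H π‖ * (if AdjIn (n := N + 1) (o := j.val)
        (f := f.val + 1) (by have := f.isLt; omega) Q π then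
        (1 + y) ^ adjFrom Q (j.val + (f.val + 1)) π else 0)))) else 0) =
      K * ∑ π ∈ LE Q, ‖H π‖ * (2 * K * ∑ j : Fin (N + 1), if i ≤ j.val then
        ∑ f : Fin (N + 1 - j.val), ‖s‖ ^ f.val *
      (if AdjIn (n := N + 1) (o := j.val) (f := f.val + 1) (by have := f.isLt; omega) Q π then
        (1 + y) ^ adjFrom Q (j.val + f.val + 1) π else 0) else 0) := by
    have c1 : ∀ π ∈ LE Q, ‖H π‖ * (2 * K * ∑ j : Fin (N + 1), if i ≤ j.val then
        ∑ f : Fin (N + 1 - j.val), ‖s‖ ^ f.val *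
      (if AdjIn (n := N + 1) (o := j.val) (f := f.val + 1) (by have := f.isLt; omega) Q π then
        (1 + y) ^ adjFrom Q (j.val + f.val + 1) π else 0) else 0) =
        ∑ j : Fin (N + 1), ‖H π‖ * (2 * K * (if i ≤ j.val then
        ∑ f : Fin (N + 1 - j.val), ‖s‖ ^ f.val *
      (if AdjIn (n := N + 1) (o := j.val) (f := f.val + 1) (by have := f.isLt; omega) Q π then
        (1 + y) ^ adjFrom Q (j.val + f.val + 1) π else 0) else 0)) := by
      intro π _
      rw [Finset.mul_sum, Finset.mul_sum]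
    rw [Finset.sum_congr rfl c1, Finset.sum_comm, Finset.mul_sum]
    apply Finset.sum_congr rfl
    intro j _
    by_cases hj : i ≤ j.val
    · simp only [if_pos hj, Finset.mul_sum]
      rw [Finset.sum_comm]
      apply Finset.sum_congr rfl
      intro π _
      apply Finset.sum_congr rfl
      intro f _
      have e4 : j.val + f.val + 1 = j.val + (f.val + 1) := by omega
      rw [e4]
      ring
    · simp only [if_neg hj, mul_zero, Finset.sum_const_zero]
  rw [b3]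
  apply mul_le_mul_of_nonneg_left _ hK0
  apply Finset.sum_le_sum
  intro π _
  apply mul_le_mul_of_nonneg_left _ (norm_nonneg _)
  have w1 := window_sum Q π i y ‖s‖ hy0 hs0 hs
  have w2 := adjFrom_telescope Q π i y
  have w3 : 0 ≤ ∑ p ∈ Finset.univ.filter (fun p : Fin N => i ≤ p.val ∧ Q (π p.castSucc) (π p.succ)),
        (1 + y) ^ adjFrom Q (p.val + 1) π :=
    Finset.sum_nonneg (fun p _ => by positivity)
  rw [← w2]
  refine (mul_le_mul_of_nonneg_left w1 (by positivity)).trans ?_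
  rw [← mul_assoc]
  exact mul_le_mul_of_nonneg_right hy w3

/-- MAJORANT INDUCTION (downward on `i`; strong). -/
theorem maj {N : ℕ} {Q : Rel (N + 1)} {lab : Fin (N + 1) → ℕ} (hn : Nat' Q lab) (z x s : ℂ)
    (hzx : z * x = s) (hs : ‖s‖ < 1) (K y : ℝ) (hK : ∀ a, ‖Z z a * x ^ (a + 1)‖ ≤ K)
    (hy0 : 0 ≤ y) (hy : 2 * K * (‖s‖ / (1 - ‖s‖) ^ 2) ≤ y) :
    ∀ i ≤ N + 1, ∀ H : Equiv.Perm (Fin (N + 1)) → ℂ, Inv Q i H →
      ‖∑ π ∈ LE Q, H π * R lab z i π‖ * ‖x‖ ^ (N + 2 - i) ≤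
        K * ∑ π ∈ LE Q, ‖H π‖ * (1 + y) ^ adjFrom Q i π := by
  have hK0 : 0 ≤ K := (norm_nonneg _).trans (hK 0)
  have key : ∀ d i, i + d = N + 1 → MajAt Q lab z x K y i := by
    intro d
    induction d using Nat.strong_induction_on with
    | _ d ih =>
      intro i hid H hH
      have IH : ∀ i', i < i' → i' ≤ N + 1 → MajAt Q lab z x K y i' := by
        intro i' h1 h2
        exact ih (N + 1 - i') (by omega) i' (by omega)
      have h1 := core hn z x s hzx hs K y hK hy0 hy i (by omega) IH H hH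
      have h2 : ∑ π ∈ LE Q, H π * R lab z i π =
          ∑ π ∈ LE Q, H π * (R lab z i π - Z z (N + 1 - i)) + Z z (N + 1 - i) * ∑ π ∈ LE Q, H π := by
        rw [Finset.mul_sum, ← Finset.sum_add_distrib]
        apply Finset.sum_congr rfl
        intro π _
        ring
      have h3 : ‖Z z (N + 1 - i) * ∑ π ∈ LE Q, H π‖ * ‖x‖ ^ (N + 2 - i) ≤
          K * ∑ π ∈ LE Q, ‖H π‖ := by
        have h4 := hK (N + 1 - i)
        have e : N + 1 - i + 1 = N + 2 - i := by omega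
        rw [e, norm_mul, norm_pow] at h4
        rw [norm_mul]
        calc ‖Z z (N + 1 - i)‖ * ‖∑ π ∈ LE Q, H π‖ * ‖x‖ ^ (N + 2 - i)
            = (‖Z z (N + 1 - i)‖ * ‖x‖ ^ (N + 2 - i)) * ‖∑ π ∈ LE Q, H π‖ := by ring
          _ ≤ K * ∑ π ∈ LE Q, ‖H π‖ :=
            mul_le_mul h4 (norm_sum_le _ _) (norm_nonneg _) hK0
      rw [h2]
      calc ‖∑ π ∈ LE Q, H π * (R lab z i π - Z z (N + 1 - i)) + Z z (N + 1 - i) * ∑ π ∈ LE Q, H π‖ *
            ‖x‖ ^ (N + 2 - i)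
          ≤ (‖∑ π ∈ LE Q, H π * (R lab z i π - Z z (N + 1 - i))‖ +
            ‖Z z (N + 1 - i) * ∑ π ∈ LE Q, H π‖) * ‖x‖ ^ (N + 2 - i) :=
            mul_le_mul_of_nonneg_right (norm_add_le _ _) (by positivity)
        _ = ‖∑ π ∈ LE Q, H π * (R lab z i π - Z z (N + 1 - i))‖ * ‖x‖ ^ (N + 2 - i) +
            ‖Z z (N + 1 - i) * ∑ π ∈ LE Q, H π‖ * ‖x‖ ^ (N + 2 - i) := by ring
        _ ≤ K * ∑ π ∈ LE Q, ‖H π‖ * ((1 + y) ^ adjFrom Q i π - 1) + K * ∑ π ∈ LE Q, ‖H π‖ :=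
            add_le_add h1 h3
        _ = K * ∑ π ∈ LE Q, ‖H π‖ * (1 + y) ^ adjFrom Q i π := by
            rw [← mul_add, ← Finset.sum_add_distrib]
            congr 1
            apply Finset.sum_congr rfl
            intro π _
            ring
  intro i hi H hH
  exact key (N + 1 - i) i (by omega) H hH

/-- The same computation for `i = 0`, `H = 1`, keeping the main term. -/
theorem maj_close {N : ℕ} {Q : Rel (N + 1)} {lab : Fin (N + 1) → ℕ} (hn : Nat' Q lab) (z x s : ℂ)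
    (hzx : z * x = s) (hs : ‖s‖ < 1) (K y : ℝ) (hK : ∀ a, ‖Z z a * x ^ (a + 1)‖ ≤ K)
    (hy0 : 0 ≤ y) (hy : 2 * K * (‖s‖ / (1 - ‖s‖) ^ 2) ≤ y) :
    ‖(∑ π ∈ LE Q, R lab z 0 π) * x ^ (N + 2) - Z z (N + 1) * x ^ (N + 2) * (LE Q).card‖ ≤
      K * (∑ π ∈ LE Q, (1 + y) ^ adj Q π - (LE Q).card) := by
  have h1 := core hn z x s hzx hs K y hK hy0 hy 0 (Nat.zero_le _)
    (fun i' _ h => maj hn z x s hzx hs K y hK hy0 hy i' h) (fun _ => 1)
    (fun _ _ _ _ _ _ _ _ => rfl)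
  have h2 : ∑ π ∈ LE Q, (1 : ℂ) * (R lab z 0 π - Z z (N + 1 - 0)) =
      (∑ π ∈ LE Q, R lab z 0 π) - Z z (N + 1) * (LE Q).card := by
    simp only [one_mul, Nat.sub_zero, Finset.sum_sub_distrib, Finset.sum_const, nsmul_eq_mul]
    ring
  have h3 : ∑ π ∈ LE Q, ‖(1 : ℂ)‖ * ((1 + y) ^ adjFrom Q 0 π - 1) =
      ∑ π ∈ LE Q, (1 + y) ^ adj Q π - (LE Q).card := by
    simp only [norm_one, one_mul, adjFrom_zero, Finset.sum_sub_distrib, Finset.sum_const,
      nsmul_eq_mul, mul_one]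
  rw [h2, h3] at h1
  have h4 : (∑ π ∈ LE Q, R lab z 0 π) * x ^ (N + 2) - Z z (N + 1) * x ^ (N + 2) * (LE Q).card =
      ((∑ π ∈ LE Q, R lab z 0 π) - Z z (N + 1) * (LE Q).card) * x ^ (N + 2) := by ring
  rw [h4, norm_mul, norm_pow]
  exact h1

end Pool.HB45
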