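import Mathlib

set_option autoImplicit false

/-!
# HB45/Numbers: the choice of the two radii for the tail integral
-/

namespace Pool.HB45

/-- `(1 - 1/m)^m ≥ 1/4` for `m ≥ 2` -/
theorem numbers_quarter (m : ℕ) (hm : 2 ≤ m) : (1 : ℝ) / 4 ≤ (1 - 1 / m) ^ m := by
  have hm0 : (2 : ℝ) ≤ (m : ℝ) := by exact_mod_cast hm
  have hmp : (0 : ℝ) < (m : ℝ) := by linarith
  have h1 : (1 : ℝ) / m ≤ 1 / 2 := by
    apply one_div_le_one_div_of_le (by norm_num) hm0
  have h0 : (0 : ℝ) ≤ 1 - 1 / m := by linarith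
  have hb := one_add_mul_self_le_rpow_one_add (s := -(1 / (m : ℝ))) (by linarith)
    (p := (m : ℝ) / 2) (by linarith)
  have h2 : 1 + (m : ℝ) / 2 * -(1 / (m : ℝ)) = 1 / 2 := by
    field_simp
    ring
  have h3 : (1 : ℝ) + -(1 / (m : ℝ)) = 1 - 1 / m := by ring
  rw [h2, h3] at hb
  have h4 : ((1 - 1 / (m : ℝ)) ^ ((m : ℝ) / 2)) ^ 2 = (1 - 1 / (m : ℝ)) ^ m := by
    rw [← Real.rpow_natCast ((1 - 1 / (m : ℝ)) ^ ((m : ℝ) / 2)) 2, ← Real.rpow_mul h0]
    have : (m : ℝ) / 2 * ((2 : ℕ) : ℝ) = (m : ℝ) := by push_cast; ring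
    rw [this, Real.rpow_natCast]
  rw [← h4]
  nlinarith

/-- numbers: `t = (2 m)^(-1/3) / b` and `a = m^(-1/2) / b` for large `m` -/
theorem numbers (b : ℕ) (c ρ : ℝ) (hb : 1 ≤ b) (hc : 0 < c) (hρ : 0 < ρ) :
    ∃ m0 : ℕ, ∀ m ≥ m0, ∃ t a : ℝ, 0 < a ∧ a ≤ t ∧ t ≤ 1 ∧ b * t ≤ 1 / 2 ∧
      (m : ℝ) * (b * t) ^ 3 ≤ 1 / 2 ∧ t ≤ ρ / 8 ∧ 1 / 4 ≤ (1 - (b * a) ^ 2) ^ m ∧ (b * a) ^ 2 ≤ 1 ∧
      2 * (2 * Real.pi) * Real.exp (-(c * m * (1 - Real.cos t))) < 2 * a * (1 / 4 * (ρ / 2)) := by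
  have hb1 : (1 : ℝ) ≤ (b : ℝ) := by exact_mod_cast hb
  have hb0 : (0 : ℝ) < (b : ℝ) := by linarith
  set k : ℝ := c / (10 * b ^ 2) with hk
  have hk0 : 0 < k := by positivity
  set U : ℝ := 96 * Real.pi * b / (ρ * k ^ 3) + 8 / ρ + 2 with hU
  have hpi := Real.pi_pos
  have hU1 : 0 < 96 * Real.pi * b / (ρ * k ^ 3) := by positivity
  have hU2 : 0 < 8 / ρ := by positivity
  have hU0 : 2 < U := by rw [hU]; linarith
  refine ⟨⌈U ^ 3⌉₊ + 4, ?_⟩
  intro m hm
  have hm4 : 4 ≤ m := by omega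
  have hm4' : (4 : ℝ) ≤ (m : ℝ) := by exact_mod_cast hm4
  have hmU : U ^ 3 ≤ 2 * (m : ℝ) := by
    have h1 : U ^ 3 ≤ (⌈U ^ 3⌉₊ : ℝ) := Nat.le_ceil _
    have h2 : (⌈U ^ 3⌉₊ : ℝ) ≤ (m : ℝ) := by
      have : ⌈U ^ 3⌉₊ ≤ m := by omega
      exact_mod_cast this
    linarith
  obtain ⟨u, hu0, hu3⟩ : ∃ u : ℝ, 0 < u ∧ u ^ 3 = 2 * (m : ℝ) := by
    refine ⟨(2 * (m : ℝ)) ^ (((3 : ℕ) : ℝ)⁻¹), Real.rpow_pos_of_pos (by linarith) _, ?_⟩
    exact Real.rpow_inv_natCast_pow (by linarith) (by norm_num)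
  have huU : U ≤ u := by
    by_contra hlt
    push Not at hlt
    have h1 : u ^ 3 < U ^ 3 := pow_lt_pow_left₀ hlt hu0.le (by norm_num)
    linarith
  have hu2 : 2 < u := by linarith
  set v : ℝ := Real.sqrt m with hv
  have hv2 : v ^ 2 = (m : ℝ) := Real.sq_sqrt (by linarith)
  have hv0 : 0 < v := Real.sqrt_pos.2 (by linarith)
  have hv2' : 2 ≤ v := by
    by_contra hlt
    push Not at hlt
    nlinarith
  -- `u ≤ v`
  have huv : u ≤ v := by
    by_contra hlt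
    push Not at hlt
    -- u^3 = 2 v^2 < 2 u^2, so u < 2
    nlinarith [mul_pos hu0 hu0]
  -- `v ≤ u ^ 2`
  have hvu : v ≤ u ^ 2 := by
    by_contra hlt
    push Not at hlt
    -- v^2 > u^4, but v^2 = u^3/2
    have h1 : v ^ 2 = u ^ 3 / 2 := by rw [hv2, hu3]; ring
    have h2 : (u ^ 2) ^ 2 < v ^ 2 := by
      apply pow_lt_pow_left₀ hlt (by positivity) (by norm_num)
    have h3 : u ^ 3 ≤ u ^ 4 := by
      apply pow_le_pow_right₀ (by linarith) (by norm_num)
    have h4 : 0 < u ^ 3 := by positivity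
    nlinarith
  refine ⟨1 / (b * u), 1 / (b * v), by positivity, ?_, ?_, ?_, ?_, ?_, ?_, ?_, ?_⟩
  · apply one_div_le_one_div_of_le (by positivity)
    exact mul_le_mul_of_nonneg_left huv hb0.le
  · rw [div_le_one (by positivity)]
    nlinarith
  · have h1 : (b : ℝ) * (1 / (b * u)) = 1 / u := by field_simp
    rw [h1]
    apply one_div_le_one_div_of_le (by norm_num) hu2.le
  · have h1 : (b : ℝ) * (1 / (b * u)) = 1 / u := by field_simp
    rw [h1, div_pow, one_pow, hu3]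
    have : (m : ℝ) * (1 / (2 * m)) = 1 / 2 := by field_simp
    rw [this]
  · have h1 : (1 : ℝ) / (b * u) ≤ 1 / u := by
      apply one_div_le_one_div_of_le hu0
      nlinarith
    have h2 : 8 / ρ ≤ u := by rw [hU] at huU; linarith
    have h3 : 1 / u ≤ ρ / 8 := by
      rw [div_le_div_iff₀ hu0 (by norm_num)]
      rw [div_le_iff₀ hρ] at h2
      linarith
    linarith
  · have h1 : (b : ℝ) * (1 / (b * v)) = 1 / v := by field_simp
    rw [h1, div_pow, one_pow, hv2]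
    exact numbers_quarter m (by omega)
  · have h1 : (b : ℝ) * (1 / (b * v)) = 1 / v := by field_simp
    rw [h1, div_pow, one_pow, hv2, div_le_one (by linarith)]
    linarith
  · -- the last inequality
    have ht0 : 0 < 1 / ((b : ℝ) * u) := by positivity
    have ht1 : 1 / ((b : ℝ) * u) ≤ 1 := by
      rw [div_le_one (by positivity)]
      nlinarith
    have hcos := Real.cos_le_one_sub_mul_cos_sq (x := 1 / ((b : ℝ) * u)) (by
      rw [abs_of_pos ht0]
      linarith [Real.pi_gt_three])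
    have hpi10 : Real.pi ^ 2 ≤ 10 := by nlinarith [Real.pi_lt_d2, Real.pi_pos]
    have h5 : (1 : ℝ) / 5 ≤ 2 / Real.pi ^ 2 := by
      rw [div_le_div_iff₀ (by norm_num) (by positivity)]
      linarith
    have h6 : (1 : ℝ) / 5 * (1 / ((b : ℝ) * u)) ^ 2 ≤ 1 - Real.cos (1 / ((b : ℝ) * u)) := by
      have := mul_le_mul_of_nonneg_right h5 (sq_nonneg (1 / ((b : ℝ) * u)))
      linarith
    have h7 : k * u ≤ c * m * (1 - Real.cos (1 / ((b : ℝ) * u))) := by
      have h8 : k * u = c * m * ((1 : ℝ) / 5 * (1 / ((b : ℝ) * u)) ^ 2) := by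
        have hm' : (m : ℝ) = u ^ 3 / 2 := by rw [hu3]; ring
        rw [hm', hk]
        field_simp
        ring
      rw [h8]
      apply mul_le_mul_of_nonneg_left h6
      positivity
    have h9 : Real.exp (-(c * m * (1 - Real.cos (1 / ((b : ℝ) * u))))) ≤ Real.exp (-(k * u)) :=
      Real.exp_le_exp.2 (by linarith)
    have h10 : (k * u) ^ 3 / (Nat.factorial 3 : ℝ) ≤ Real.exp (k * u) :=
      Real.pow_div_factorial_le_exp (k * u) (by positivity) 3
    have h11 : ((Nat.factorial 3 : ℕ) : ℝ) = 6 := by norm_num [Nat.factorial]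
    rw [h11] at h10
    have h12 : 96 * Real.pi * b < u * (ρ * k ^ 3) := by
      have h13 : 96 * Real.pi * b / (ρ * k ^ 3) < u := by rw [hU] at huU; linarith
      rwa [div_lt_iff₀ (by positivity)] at h13
    have h14 : 16 * Real.pi * b * u ^ 2 < ρ * Real.exp (k * u) := by
      have h15 : 16 * Real.pi * b * u ^ 2 < ρ * ((k * u) ^ 3 / 6) := by
        have h16 : 0 < u ^ 2 / 6 := by positivity
        have h17 := mul_lt_mul_of_pos_right h12 h16
        calc 16 * Real.pi * b * u ^ 2 = 96 * Real.pi * b * (u ^ 2 / 6) := by ring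
          _ < u * (ρ * k ^ 3) * (u ^ 2 / 6) := h17
          _ = ρ * ((k * u) ^ 3 / 6) := by ring
      have h18 := mul_le_mul_of_nonneg_left h10 hρ.le
      linarith
    have h19 : 16 * Real.pi * b * v < ρ * Real.exp (k * u) := by
      have : 16 * Real.pi * b * v ≤ 16 * Real.pi * b * u ^ 2 :=
        mul_le_mul_of_nonneg_left hvu (by positivity)
      linarith
    have h20 : 2 * (2 * Real.pi) * Real.exp (-(k * u)) < 2 * (1 / (b * v)) * (1 / 4 * (ρ / 2)) := by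
      rw [Real.exp_neg]
      have hE := Real.exp_pos (k * u)
      have h21 : 2 * (1 / (b * v)) * (1 / 4 * (ρ / 2)) = ρ / (4 * (b * v)) := by
        field_simp
      rw [h21, ← div_eq_mul_inv, div_lt_div_iff₀ hE (by positivity)]
      nlinarith
    have h22 : 2 * (2 * Real.pi) * Real.exp (-(c * m * (1 - Real.cos (1 / ((b : ℝ) * u))))) ≤
        2 * (2 * Real.pi) * Real.exp (-(k * u)) :=
      mul_le_mul_of_nonneg_left h9 (by positivity)
    linarith

end Pool.HB45
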