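import Pool.Agent.HB45.TDefs

set_option autoImplicit false

/-!
# HB45/PhiNorm: decay of one factor on a circle

The two terms `0`, `1` alone give `‖g(re^(iθ))‖ ≤ g(r) - g_0 g_1 r (1 - cos θ) / (g_0 + g_1 r)`.
-/

open Polynomial

namespace Pool.HB45

private theorem phiNorm_two {x y : ℝ} (hx : 0 < x) (hy : 0 < y) (θ : ℝ) :
    ‖(x : ℂ) + (y : ℂ) * Complex.exp (θ * Complex.I)‖ ≤ (x + y) - x * y * (1 - Real.cos θ) / (x + y) := by
  have hS : 0 < x + y := by linarith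
  have hc1 := Real.cos_le_one θ
  have hc2 := Real.neg_one_le_cos θ
  have hnorm : ‖(x : ℂ) + (y : ℂ) * Complex.exp (θ * Complex.I)‖ ^ 2 =
      (x + y) ^ 2 - 2 * (x * y * (1 - Real.cos θ)) := by
    rw [Complex.sq_norm, Complex.normSq_apply]
    simp only [Complex.add_re, Complex.add_im, Complex.ofReal_re, Complex.ofReal_im, Complex.mul_re,
      Complex.mul_im, Complex.exp_ofReal_mul_I_re, Complex.exp_ofReal_mul_I_im]
    linear_combination y ^ 2 * Real.sin_sq_add_cos_sq θ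
  have hp : 0 ≤ x * y * (1 - Real.cos θ) := by
    have := mul_pos hx hy
    exact mul_nonneg this.le (by linarith)
  have hle : x * y * (1 - Real.cos θ) ≤ (x + y) ^ 2 := by
    have := mul_pos hx hy
    nlinarith [sq_nonneg (x - y)]
  have hnn : 0 ≤ (x + y) - x * y * (1 - Real.cos θ) / (x + y) := by
    rw [sub_nonneg, div_le_iff₀ hS]
    nlinarith
  rw [← pow_le_pow_iff_left₀ (norm_nonneg _) hnn two_ne_zero, hnorm]
  have e1 : ((x + y) - x * y * (1 - Real.cos θ) / (x + y)) ^ 2 =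
      (x + y) ^ 2 - 2 * (x * y * (1 - Real.cos θ)) + (x * y * (1 - Real.cos θ) / (x + y)) ^ 2 := by
    field_simp
    ring
  rw [e1]
  have := sq_nonneg (x * y * (1 - Real.cos θ) / (x + y))
  linarith

/-- `|g(re^(iθ))/g(r)|² = 1 - Σ_{d<d'} 2 p_d p_d' (1 - cos ((d'-d)θ)) ≤ 1 - 2 p_0 p_1 (1 - cos θ)
≤ exp (-2 p_0 p_1 (1 - cos θ))`, `p_0 p_1 ≥ r / B²` -/
theorem phi_norm_le {b : ℕ} {B : ℝ} {g : ℝ[X]} (hg : Fac b B g) {r0 r : ℝ} (hr0 : 0 < r0) (hr : r0 ≤ r)
    (hr1 : r ≤ 1) (θ : ℝ) : ‖phi g r θ‖ ≤ Real.exp (-(r0 / B ^ 2 * (1 - Real.cos θ))) := by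
  have hrp : 0 < r := by linarith
  have hc1 := Real.cos_le_one θ
  obtain ⟨d, hd⟩ : ∃ d, d = max b 1 := ⟨_, rfl⟩
  have hd1 : 1 ≤ d := by omega
  have hlt : g.natDegree < d + 1 := by have := hg.deg; omega
  set f : ℕ → ℝ := fun i => g.coeff i * r ^ i with hf
  have hf0 : ∀ i, 0 ≤ f i := fun i => mul_nonneg (hg.nonneg i) (by positivity)
  have hA : g.eval r = ∑ i ∈ Finset.range (d + 1), f i := eval_eq_sum_range' hlt r
  have hvm : 0 ∈ Finset.range (d + 1) := Finset.mem_range.mpr (by omega)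
  have hvm' : 1 ∈ (Finset.range (d + 1)).erase 0 :=
    Finset.mem_erase.mpr ⟨by omega, Finset.mem_range.mpr (by omega)⟩
  have hA2 : g.eval r = f 0 + (f 1 + ∑ i ∈ ((Finset.range (d + 1)).erase 0).erase 1, f i) := by
    rw [hA, ← Finset.add_sum_erase _ _ hvm, ← Finset.add_sum_erase _ _ hvm']
  have hrest : 0 ≤ ∑ i ∈ ((Finset.range (d + 1)).erase 0).erase 1, f i :=
    Finset.sum_nonneg fun i _ => hf0 i
  have hf0' : 1 ≤ f 0 := by
    show 1 ≤ g.coeff 0 * r ^ 0
    rw [pow_zero, mul_one]; exact hg.c0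
  have hf1' : r0 ≤ f 1 := by
    show r0 ≤ g.coeff 1 * r ^ 1
    have := hg.c1
    nlinarith
  have hfp0 : 0 < f 0 := by linarith
  have hfp1 : 0 < f 1 := by linarith
  have hApos : 0 < g.eval r := by rw [hA2]; linarith
  have hAle : g.eval r ≤ B := by
    refine le_trans ?_ hg.le
    rw [hA, eval_eq_sum_range' hlt 1]
    refine Finset.sum_le_sum fun i _ => ?_
    show g.coeff i * r ^ i ≤ g.coeff i * 1 ^ i
    exact mul_le_mul_of_nonneg_left (pow_le_pow_left₀ hrp.le hr1 i) (hg.nonneg i)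
  have hterm : ∀ i, ‖g.coeff i • ((r : ℂ) * Complex.exp (θ * Complex.I)) ^ i‖ = f i := by
    intro i
    rw [norm_smul, norm_pow, norm_mul, Complex.norm_exp_ofReal_mul_I, mul_one, Complex.norm_real,
      Real.norm_of_nonneg (hg.nonneg i), Real.norm_of_nonneg hrp.le]
  have htwo : g.coeff 0 • ((r : ℂ) * Complex.exp (θ * Complex.I)) ^ 0 +
      g.coeff 1 • ((r : ℂ) * Complex.exp (θ * Complex.I)) ^ 1 =
      (((f 0 : ℝ) : ℂ) + ((f 1 : ℝ) : ℂ) * Complex.exp (θ * Complex.I)) := by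
    rw [Complex.real_smul, Complex.real_smul, hf]
    push_cast
    ring
  have hmain : ‖aeval ((r : ℂ) * Complex.exp (θ * Complex.I)) g‖ ≤
      g.eval r - f 0 * f 1 * (1 - Real.cos θ) / (f 0 + f 1) := by
    rw [aeval_eq_sum_range' hlt, ← Finset.add_sum_erase _ _ hvm, ← Finset.add_sum_erase _ _ hvm', ← add_assoc, htwo]
    refine (norm_add_le _ _).trans ?_
    rw [hA2]
    have h1 := phiNorm_two hfp0 hfp1 θ
    have h2 : ‖∑ i ∈ ((Finset.range (d + 1)).erase 0).erase 1,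
        g.coeff i • ((r : ℂ) * Complex.exp (θ * Complex.I)) ^ i‖ ≤
        ∑ i ∈ ((Finset.range (d + 1)).erase 0).erase 1, f i := by
      refine (norm_sum_le _ _).trans (le_of_eq ?_)
      exact Finset.sum_congr rfl fun i _ => hterm i
    linarith
  have hB : 0 < B := lt_of_lt_of_le hApos hAle
  have hS : 0 < f 0 + f 1 := by linarith
  have hSA : f 0 + f 1 ≤ g.eval r := by rw [hA2]; linarith
  have hnorm : ‖phi g r θ‖ = ‖aeval ((r : ℂ) * Complex.exp (θ * Complex.I)) g‖ / g.eval r := by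
    unfold phi
    rw [norm_div, norm_mul, Complex.norm_real, Real.norm_of_nonneg hApos.le]
    have : ‖Complex.exp (-(θ * Fm g r * Complex.I))‖ = 1 := by
      have e : -(θ * Fm g r * Complex.I) = ((-(θ * Fm g r) : ℝ) : ℂ) * Complex.I := by push_cast; ring
      rw [e, Complex.norm_exp_ofReal_mul_I]
    rw [this, mul_one]
  rw [hnorm, div_le_iff₀ hApos]
  refine hmain.trans ?_
  have hquot : r0 / B ^ 2 * (1 - Real.cos θ) * g.eval r ≤ f 0 * f 1 * (1 - Real.cos θ) / (f 0 + f 1) := by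
    rw [le_div_iff₀ hS]
    have h1 : r0 ≤ f 0 * f 1 := by nlinarith
    have h2 : g.eval r * (f 0 + f 1) ≤ B * B := mul_le_mul hAle (hSA.trans hAle) hS.le hB.le
    have h4 : r0 / B ^ 2 * (g.eval r * (f 0 + f 1)) ≤ f 0 * f 1 := by
      refine le_trans (mul_le_mul_of_nonneg_left h2 (by positivity)) ?_
      have : r0 / B ^ 2 * (B * B) = r0 := by field_simp
      rw [this]
      exact h1
    calc r0 / B ^ 2 * (1 - Real.cos θ) * g.eval r * (f 0 + f 1)
        = (r0 / B ^ 2 * (g.eval r * (f 0 + f 1))) * (1 - Real.cos θ) := by ring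
      _ ≤ (f 0 * f 1) * (1 - Real.cos θ) := mul_le_mul_of_nonneg_right h4 (by linarith)
  have hexp := Real.add_one_le_exp (-(r0 / B ^ 2 * (1 - Real.cos θ)))
  have h5 := mul_le_mul_of_nonneg_right hexp hApos.le
  refine le_trans ?_ h5
  have : (-(r0 / B ^ 2 * (1 - Real.cos θ)) + 1) * g.eval r =
      g.eval r - r0 / B ^ 2 * (1 - Real.cos θ) * g.eval r := by ring
  rw [this]
  linarith

end Pool.HB45
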