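import Pool.Agent.HB45.Zb

set_option autoImplicit false

/-!
# HB45/Psi: the tilted uniform variable on `[-1/2, 1/2]`
-/

open Complex

namespace Pool.HB45

/-- `S` on the real line -/
noncomputable def Sr (s : ℝ) : ℝ := ∫ x in (-(1/2) : ℝ)..(1/2), Real.exp (s * x)

/-- mean of the variable with density `e^(s x) / Sr s` on `[-1/2, 1/2]` -/
noncomputable def mu (s : ℝ) : ℝ := (∫ x in (-(1/2) : ℝ)..(1/2), x * Real.exp (s * x)) / Sr s

/-- its centred characteristic function at `-θ` -/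
noncomputable def psi (s θ : ℝ) : ℂ := S ((s : ℂ) - θ * I) * Complex.exp (θ * mu s * I) / S (s : ℂ)

theorem S_ofReal (s : ℝ) : S (s : ℂ) = (Sr s : ℂ) := by
  unfold S Sr
  rw [← intervalIntegral.integral_ofReal]
  congr 1
  funext x
  push_cast
  rfl

theorem ps_ii {f : ℝ → ℝ} (hf : Continuous f) (a b : ℝ) :
    IntervalIntegrable f MeasureTheory.volume a b :=
  hf.intervalIntegrable a b

theorem Sr_pos (s : ℝ) : 0 < Sr s :=
  intervalIntegral.intervalIntegral_pos_of_pos (ps_ii (by fun_prop) _ _) (fun _ => Real.exp_pos _)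
    (by norm_num)

/-- `psi` as an integral -/
theorem ps_eq (s θ : ℝ) : psi s θ = (∫ x in (-(1/2) : ℝ)..(1/2),
    Complex.exp (((-(θ * (x - mu s)) : ℝ) : ℂ) * I) * (Real.exp (s * x) : ℝ)) / (Sr s : ℂ) := by
  unfold psi
  rw [S_ofReal]
  congr 1
  unfold S
  rw [← intervalIntegral.integral_mul_const]
  congr 1
  funext x
  push_cast
  rw [← Complex.exp_add, ← Complex.exp_add]
  congr 1
  ring

/-- by definition -/
theorem S_eq_psi (s θ : ℝ) :
    S ((s : ℂ) - θ * I) = Sr s * Complex.exp (-(θ * mu s * I)) * psi s θ := by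
  unfold psi
  rw [S_ofReal]
  have h1 : (Sr s : ℂ) ≠ 0 := by exact_mod_cast (Sr_pos s).ne'
  have h2 : Complex.exp (-(θ * mu s * I)) * Complex.exp (θ * mu s * I) = 1 := by
    rw [← Complex.exp_add, neg_add_cancel, Complex.exp_zero]
  generalize Complex.exp (-(θ * mu s * I)) = e1 at h2 ⊢
  generalize Complex.exp (θ * mu s * I) = e2 at h2 ⊢
  generalize S ((s : ℂ) - θ * I) = A
  have h3 : (Sr s : ℂ) * e1 * (A * e2 / Sr s) = A * (e1 * e2) := by
    field_simp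
  rw [h3, h2, mul_one]

theorem ps_exp_le {s x : ℝ} (hx : x ∈ Set.Icc (-(1/2) : ℝ) (1/2)) :
    Real.exp (s * x) ≤ Real.exp (|s| / 2) := by
  apply Real.exp_le_exp.2
  have h1 : s * x ≤ |s * x| := le_abs_self _
  rw [abs_mul] at h1
  have h2 : |x| ≤ 1 / 2 := abs_le.2 ⟨by linarith [hx.1], hx.2⟩
  have h3 := mul_le_mul_of_nonneg_left h2 (abs_nonneg s)
  linarith

theorem ps_le_exp {s x : ℝ} (hx : x ∈ Set.Icc (-(1/2) : ℝ) (1/2)) :
    Real.exp (-(|s| / 2)) ≤ Real.exp (s * x) := by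
  apply Real.exp_le_exp.2
  have h1 : -|s * x| ≤ s * x := neg_abs_le _
  rw [abs_mul] at h1
  have h2 : |x| ≤ 1 / 2 := abs_le.2 ⟨by linarith [hx.1], hx.2⟩
  have h3 := mul_le_mul_of_nonneg_left h2 (abs_nonneg s)
  linarith

theorem ps_Sr_le (s : ℝ) : Sr s ≤ Real.exp (|s| / 2) := by
  have h := intervalIntegral.integral_mono_on (a := (-(1/2) : ℝ)) (b := 1/2) (by norm_num)
    (ps_ii (f := fun x => Real.exp (s * x)) (by fun_prop) _ _)
    (ps_ii (f := fun _ => Real.exp (|s| / 2)) (by fun_prop) _ _) (fun x hx => ps_exp_le hx)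
  rw [intervalIntegral.integral_const] at h
  unfold Sr
  norm_num at h ⊢
  linarith

theorem ps_le_Sr (s : ℝ) : Real.exp (-(|s| / 2)) ≤ Sr s := by
  have h := intervalIntegral.integral_mono_on (a := (-(1/2) : ℝ)) (b := 1/2) (by norm_num)
    (ps_ii (f := fun _ => Real.exp (-(|s| / 2))) (by fun_prop) _ _)
    (ps_ii (f := fun x => Real.exp (s * x)) (by fun_prop) _ _) (fun x hx => ps_le_exp hx)
  rw [intervalIntegral.integral_const] at h
  unfold Sr
  norm_num at h ⊢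
  linarith

theorem ps_tilt_ge {g : ℝ → ℝ} (hg : Continuous g) (hpos : ∀ x, 0 ≤ g x) (s : ℝ) :
    Real.exp (-(|s| / 2)) * ∫ x in (-(1/2) : ℝ)..(1/2), g x ≤
      ∫ x in (-(1/2) : ℝ)..(1/2), g x * Real.exp (s * x) := by
  rw [← intervalIntegral.integral_const_mul]
  refine intervalIntegral.integral_mono_on (by norm_num) (ps_ii (by fun_prop) _ _)
    (ps_ii (by fun_prop) _ _) fun x hx => ?_
  rw [mul_comm]
  exact mul_le_mul_of_nonneg_left (ps_le_exp hx) (hpos x)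

theorem ps_abs_mu_le (s : ℝ) : |mu s| ≤ 1 / 2 := by
  unfold mu
  rw [abs_div, abs_of_pos (Sr_pos s), div_le_iff₀ (Sr_pos s)]
  unfold Sr
  rw [← intervalIntegral.integral_const_mul]
  refine (intervalIntegral.abs_integral_le_integral_abs (by norm_num)).trans ?_
  refine intervalIntegral.integral_mono_on (by norm_num) (ps_ii (by fun_prop) _ _)
    (ps_ii (by fun_prop) _ _) fun x hx => ?_
  rw [abs_mul, abs_of_pos (Real.exp_pos _)]
  refine mul_le_mul_of_nonneg_right ?_ (Real.exp_pos _).le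
  exact abs_le.2 ⟨by linarith [hx.1], hx.2⟩

theorem ps_centred (s : ℝ) :
    ∫ x in (-(1/2) : ℝ)..(1/2), (x - mu s) * Real.exp (s * x) = 0 := by
  have h : ∀ x : ℝ, (x - mu s) * Real.exp (s * x) = x * Real.exp (s * x) - mu s * Real.exp (s * x) :=
    fun x => by ring
  simp only [h]
  rw [intervalIntegral.integral_sub (ps_ii (by fun_prop) _ _) (ps_ii (by fun_prop) _ _),
    intervalIntegral.integral_const_mul]
  change _ - mu s * Sr s = 0
  unfold mu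
  rw [div_mul_cancel₀ _ (Sr_pos s).ne', sub_self]

theorem ps_int_sq (m : ℝ) : ∫ x in (-(1/2) : ℝ)..(1/2), (x - m) ^ 2 = 1 / 12 + m ^ 2 := by
  rw [intervalIntegral.integral_comp_sub_right (fun x => x ^ 2) m, integral_pow]
  ring

/-- the variance -/
noncomputable def ps_v (s : ℝ) : ℝ :=
  (∫ x in (-(1/2) : ℝ)..(1/2), (x - mu s) ^ 2 * Real.exp (s * x)) / Sr s

theorem ps_abs_le {s x : ℝ} (hx : x ∈ Set.Icc (-(1/2) : ℝ) (1/2)) : |x - mu s| ≤ 1 := by
  have h1 := ps_abs_mu_le s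
  rw [abs_le] at h1 ⊢
  constructor <;> linarith [hx.1, hx.2, h1.1, h1.2]

theorem ps_v_le (s : ℝ) : ps_v s ≤ 1 := by
  unfold ps_v
  rw [div_le_iff₀ (Sr_pos s), one_mul]
  unfold Sr
  refine intervalIntegral.integral_mono_on (by norm_num) (ps_ii (by fun_prop) _ _)
    (ps_ii (by fun_prop) _ _) fun x hx => ?_
  have h1 : (x - mu s) ^ 2 ≤ 1 := by
    rw [← sq_abs]
    have := ps_abs_le (s := s) hx
    nlinarith [abs_nonneg (x - mu s)]
  calc (x - mu s) ^ 2 * Real.exp (s * x) ≤ 1 * Real.exp (s * x) :=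
        mul_le_mul_of_nonneg_right h1 (Real.exp_pos _).le
    _ = _ := one_mul _

theorem ps_le_v (s : ℝ) (hs : |s| ≤ 1 / 10) : 1 / 20 ≤ ps_v s := by
  have h0 : Real.exp (-|s|) / 12 ≤ ps_v s := by
    unfold ps_v
    rw [le_div_iff₀ (Sr_pos s)]
    have h1 := ps_tilt_ge (g := fun x => (x - mu s) ^ 2) (by fun_prop) (fun x => sq_nonneg _) s
    rw [ps_int_sq] at h1
    have h2 := ps_Sr_le s
    have h3 : Real.exp (-|s|) * Real.exp (|s| / 2) = Real.exp (-(|s| / 2)) := by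
      rw [← Real.exp_add]; congr 1; ring
    have h4 : (0 : ℝ) < Real.exp (-|s|) := Real.exp_pos _
    have h5 : (0 : ℝ) < Real.exp (-(|s| / 2)) := Real.exp_pos _
    have h6 := mul_le_mul_of_nonneg_left h2 h4.le
    rw [h3] at h6
    nlinarith [mul_nonneg h5.le (sq_nonneg (mu s))]
  have h7 : 1 + -|s| ≤ Real.exp (-|s|) := by
    have := Real.add_one_le_exp (-|s|)
    linarith
  linarith

/-! ### Taylor's formula for `e^(iy)` -/

theorem ps_t2 (y : ℝ) (hy : 0 ≤ y) : ‖Complex.exp (y * I) - 1 - y * I‖ ≤ y ^ 2 / 2 := by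
  have hd : ∀ t : ℝ, HasDerivAt (fun t : ℝ => Complex.exp (t * I) - 1 - t * I)
      (I * (Complex.exp (I * t) - 1)) t := by
    intro t
    have h1 : HasDerivAt (fun t : ℝ => (t : ℂ) * I) I t := by
      simpa using (Complex.ofRealCLM.hasDerivAt (x := t)).mul_const I
    have h2 := ((h1.cexp).sub_const 1).sub h1
    refine h2.congr_deriv ?_
    rw [mul_comm (t : ℂ) I]
    ring
  have hi : ∫ t in (0 : ℝ)..y, I * (Complex.exp (I * t) - 1) =
      (Complex.exp (y * I) - 1 - y * I) - (Complex.exp ((0 : ℝ) * I) - 1 - (0 : ℝ) * I) :=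
    intervalIntegral.integral_eq_sub_of_hasDerivAt (fun t _ => hd t)
      (Continuous.intervalIntegrable (by fun_prop) _ _)
  have h0 : Complex.exp ((0 : ℝ) * I) - 1 - (0 : ℝ) * I = 0 := by simp
  rw [h0, sub_zero] at hi
  rw [← hi]
  refine (intervalIntegral.norm_integral_le_integral_norm hy).trans ?_
  have h3 : ∫ t in (0 : ℝ)..y, t = y ^ 2 / 2 := by
    rw [integral_id]; ring
  rw [← h3]
  refine intervalIntegral.integral_mono_on hy (Continuous.intervalIntegrable (by fun_prop) _ _)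
    (Continuous.intervalIntegrable (by fun_prop) _ _) fun t ht => ?_
  rw [norm_mul, Complex.norm_I, one_mul]
  refine (Real.norm_exp_I_mul_ofReal_sub_one_le).trans ?_
  rw [Real.norm_eq_abs, abs_of_nonneg ht.1]

theorem ps_t3 (y : ℝ) (hy : 0 ≤ y) :
    ‖Complex.exp (y * I) - 1 - y * I + y ^ 2 / 2‖ ≤ y ^ 3 / 6 := by
  have hd : ∀ t : ℝ, HasDerivAt (fun t : ℝ => Complex.exp (t * I) - 1 - t * I + (t : ℂ) ^ 2 / 2)
      (I * (Complex.exp (t * I) - 1 - t * I)) t := by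
    intro t
    have h0 : HasDerivAt (fun t : ℝ => (t : ℂ)) 1 t := Complex.ofRealCLM.hasDerivAt (x := t)
    have h1 : HasDerivAt (fun t : ℝ => (t : ℂ) * I) I t := by
      simpa using h0.mul_const I
    have h2 := (((h1.cexp).sub_const 1).sub h1).add ((h0.pow 2).div_const 2)
    refine h2.congr_deriv ?_
    have h3 : I * I = -1 := Complex.I_mul_I
    push_cast
    linear_combination (t : ℂ) * h3
  have hi : ∫ t in (0 : ℝ)..y, I * (Complex.exp (t * I) - 1 - t * I) =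
      (Complex.exp (y * I) - 1 - y * I + (y : ℂ) ^ 2 / 2) -
        (Complex.exp ((0 : ℝ) * I) - 1 - (0 : ℝ) * I + ((0 : ℝ) : ℂ) ^ 2 / 2) :=
    intervalIntegral.integral_eq_sub_of_hasDerivAt (fun t _ => hd t)
      (Continuous.intervalIntegrable (by fun_prop) _ _)
  have h0 : Complex.exp ((0 : ℝ) * I) - 1 - (0 : ℝ) * I + ((0 : ℝ) : ℂ) ^ 2 / 2 = 0 := by simp
  rw [h0, sub_zero] at hi
  rw [← hi]
  refine (intervalIntegral.norm_integral_le_integral_norm hy).trans ?_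
  have h3 : ∫ t in (0 : ℝ)..y, t ^ 2 / 2 = y ^ 3 / 6 := by
    rw [intervalIntegral.integral_div, integral_pow]; ring
  rw [← h3]
  refine intervalIntegral.integral_mono_on hy (Continuous.intervalIntegrable (by fun_prop) _ _)
    (Continuous.intervalIntegrable (by fun_prop) _ _) fun t ht => ?_
  rw [norm_mul, Complex.norm_I, one_mul]
  exact ps_t2 t ht.1

theorem ps_t3' (y : ℝ) : ‖Complex.exp (y * I) - 1 - y * I + y ^ 2 / 2‖ ≤ |y| ^ 3 / 6 := by
  rcases le_total 0 y with hy | hy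
  · rw [abs_of_nonneg hy]
    exact ps_t3 y hy
  · rw [abs_of_nonpos hy]
    have h1 := ps_t3 (-y) (by linarith)
    rw [← Complex.norm_conj] at h1
    have h2 : (starRingEnd ℂ) (Complex.exp (((-y : ℝ) : ℂ) * I) - 1 - ((-y : ℝ) : ℂ) * I +
        ((-y : ℝ) : ℂ) ^ 2 / 2) = Complex.exp (y * I) - 1 - y * I + y ^ 2 / 2 := by
      simp only [map_add, map_sub, map_mul, map_one, map_div₀, map_pow, ← Complex.exp_conj,
        Complex.conj_ofReal, Complex.conj_I]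
      have h3 : (starRingEnd ℂ) 2 = 2 := Complex.conj_ofNat 2
      rw [h3]
      push_cast
      ring_nf
    rw [h2] at h1
    exact h1

/-- `psi = E e^(-iθY)`, `Y = U - mu`, `|Y| ≤ 1`, `E Y = 0`, `v = E Y²`: Taylor to third order.
`v ≥ (min density) min_c ∫ (x - c)² dx ≥ e^(-|s|) / 12 ≥ 1/20` for `|s| ≤ 1/10`. -/
theorem psi_approx (s : ℝ) (hs : |s| ≤ 1 / 10) :
    ∃ v : ℝ, 1 / 20 ≤ v ∧ v ≤ 1 ∧ ∀ θ : ℝ, ‖psi s θ - (1 - v * θ ^ 2 / 2 : ℝ)‖ ≤ |θ| ^ 3 / 6 := by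
  refine ⟨ps_v s, ps_le_v s hs, ps_v_le s, fun θ => ?_⟩
  have hS : (Sr s : ℂ) ≠ 0 := by exact_mod_cast (Sr_pos s).ne'
  have hI : psi s θ - (1 - ps_v s * θ ^ 2 / 2 : ℝ) = (∫ x in (-(1/2) : ℝ)..(1/2),
      (Complex.exp (((-(θ * (x - mu s)) : ℝ) : ℂ) * I) - 1 - ((-(θ * (x - mu s)) : ℝ) : ℂ) * I +
        ((-(θ * (x - mu s)) : ℝ) : ℂ) ^ 2 / 2) * (Real.exp (s * x) : ℝ)) / (Sr s : ℂ) := by
    have h1 : ∀ x : ℝ, (Complex.exp (((-(θ * (x - mu s)) : ℝ) : ℂ) * I) - 1 -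
        ((-(θ * (x - mu s)) : ℝ) : ℂ) * I + ((-(θ * (x - mu s)) : ℝ) : ℂ) ^ 2 / 2) *
        (Real.exp (s * x) : ℝ) =
        Complex.exp (((-(θ * (x - mu s)) : ℝ) : ℂ) * I) * (Real.exp (s * x) : ℝ) -
          ((Real.exp (s * x) : ℝ) : ℂ) + (θ * I) * (((x - mu s) * Real.exp (s * x) : ℝ) : ℂ) +
          ((θ : ℂ) ^ 2 / 2) * (((x - mu s) ^ 2 * Real.exp (s * x) : ℝ) : ℂ) := by
      intro x
      push_cast
      ring
    simp only [h1]
    rw [intervalIntegral.integral_add (Continuous.intervalIntegrable (by fun_prop) _ _)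
        (Continuous.intervalIntegrable (by fun_prop) _ _),
      intervalIntegral.integral_add (Continuous.intervalIntegrable (by fun_prop) _ _)
        (Continuous.intervalIntegrable (by fun_prop) _ _),
      intervalIntegral.integral_sub (Continuous.intervalIntegrable (by fun_prop) _ _)
        (Continuous.intervalIntegrable (by fun_prop) _ _),
      intervalIntegral.integral_const_mul, intervalIntegral.integral_const_mul,
      intervalIntegral.integral_ofReal, intervalIntegral.integral_ofReal,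
      intervalIntegral.integral_ofReal, ps_centred]
    rw [ps_eq]
    change _ = (_ - ((Sr s : ℝ) : ℂ) + _ + _) / _
    unfold ps_v
    generalize (∫ x in (-(1/2) : ℝ)..(1/2), Complex.exp (((-(θ * (x - mu s)) : ℝ) : ℂ) * I) *
      ((Real.exp (s * x) : ℝ) : ℂ)) = A
    generalize (∫ x in (-(1/2) : ℝ)..(1/2), (x - mu s) ^ 2 * Real.exp (s * x)) = B
    rw [Complex.ofReal_sub, Complex.ofReal_div, Complex.ofReal_mul, Complex.ofReal_div,
      Complex.ofReal_pow, Complex.ofReal_one, Complex.ofReal_ofNat, Complex.ofReal_zero]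
    generalize (Sr s : ℂ) = Z at hS ⊢
    field_simp
    ring
  rw [hI, norm_div, Complex.norm_real, Real.norm_eq_abs, abs_of_pos (Sr_pos s),
    div_le_iff₀ (Sr_pos s)]
  refine (intervalIntegral.norm_integral_le_integral_norm (by norm_num)).trans ?_
  unfold Sr
  rw [← intervalIntegral.integral_const_mul]
  refine intervalIntegral.integral_mono_on (by norm_num)
    (Continuous.intervalIntegrable (by fun_prop) _ _)
    (Continuous.intervalIntegrable (by fun_prop) _ _) fun x hx => ?_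
  rw [norm_mul, Complex.norm_real, Real.norm_eq_abs, abs_of_pos (Real.exp_pos _)]
  refine mul_le_mul_of_nonneg_right ?_ (Real.exp_pos _).le
  refine (ps_t3' _).trans ?_
  rw [abs_neg, abs_mul, mul_pow]
  have h2 : |x - mu s| ^ 3 ≤ 1 := pow_le_one₀ (abs_nonneg _) (ps_abs_le hx)
  have h3 : 0 ≤ |θ| ^ 3 := pow_nonneg (abs_nonneg _) 3
  nlinarith

theorem ps_cube (θ : ℝ) (hθ : |θ| ≤ 1 / 10) : |θ| ^ 3 ≤ θ ^ 2 / 10 := by
  have h1 : |θ| ^ 3 = |θ| * θ ^ 2 := by rw [← sq_abs θ]; ring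
  rw [h1]
  nlinarith [sq_nonneg θ]

theorem ps_sq (θ : ℝ) (hθ : |θ| ≤ 1 / 10) : θ ^ 2 ≤ 1 / 100 := by
  rw [← sq_abs]
  nlinarith [abs_nonneg θ]

/-- `1 - θ²/40 + |θ|³/6 ≤ 1 - θ²/120` -/
theorem psi_norm_le (s θ : ℝ) (hs : |s| ≤ 1 / 10) (hθ : |θ| ≤ 1 / 10) :
    ‖psi s θ‖ ≤ Real.exp (-(θ ^ 2 / 120)) := by
  obtain ⟨v, hv1, hv2, hv⟩ := psi_approx s hs
  have h1 := hv θ
  have h2 := ps_cube θ hθ
  have h3 := ps_sq θ hθ
  have h4 : ‖psi s θ‖ ≤ ‖psi s θ - (1 - v * θ ^ 2 / 2 : ℝ)‖ + ‖((1 - v * θ ^ 2 / 2 : ℝ) : ℂ)‖ := by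
    have := norm_add_le (psi s θ - (1 - v * θ ^ 2 / 2 : ℝ)) ((1 - v * θ ^ 2 / 2 : ℝ) : ℂ)
    rwa [sub_add_cancel] at this
  rw [Complex.norm_real, Real.norm_eq_abs, abs_of_nonneg (by nlinarith [sq_nonneg θ])] at h4
  have h5 := Real.add_one_le_exp (-(θ ^ 2 / 120))
  nlinarith [sq_nonneg θ]

/-- `1 - θ²/2 - |θ|³/6 ≥ 1 - θ²` -/
theorem le_psi_norm (s θ : ℝ) (hs : |s| ≤ 1 / 10) (hθ : |θ| ≤ 1 / 10) :
    1 - θ ^ 2 ≤ ‖psi s θ‖ := by
  obtain ⟨v, hv1, hv2, hv⟩ := psi_approx s hs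
  have h1 := hv θ
  have h2 := ps_cube θ hθ
  have h3 := ps_sq θ hθ
  have h4 : ‖((1 - v * θ ^ 2 / 2 : ℝ) : ℂ)‖ ≤ ‖psi s θ - (1 - v * θ ^ 2 / 2 : ℝ)‖ + ‖psi s θ‖ := by
    have := norm_sub_le (psi s θ) (psi s θ - (1 - v * θ ^ 2 / 2 : ℝ))
    rw [sub_sub_cancel] at this
    linarith
  rw [Complex.norm_real, Real.norm_eq_abs, abs_of_nonneg (by nlinarith [sq_nonneg θ])] at h4
  nlinarith [sq_nonneg θ]

theorem ps_pow_sub_one {u : ℂ} (hu : ‖u‖ = 1) (M : ℕ) : ‖u ^ M - 1‖ ≤ M * ‖u - 1‖ := by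
  induction M with
  | zero => simp
  | succ M ih =>
    have h1 : u ^ (M + 1) - 1 = u * (u ^ M - 1) + (u - 1) := by ring
    rw [h1]
    refine (norm_add_le _ _).trans ?_
    rw [norm_mul, hu, one_mul]
    push_cast
    linarith

/-- phase: `u = ψ/|ψ|` has `|u - 1| ≤ √2 |Im ψ|/|ψ| ≤ (2/3) |θ|³` (`Re ψ ≥ 1/2`), so
`|u^M - 1| ≤ M (2/3) |θ|³ ≤ 1/12`. -/
theorem psi_pow_re (s θ : ℝ) (hs : |s| ≤ 1 / 10) (hθ : |θ| ≤ 1 / 10) (M : ℕ)
    (hM : (M : ℝ) * |θ| ^ 3 ≤ 1 / 8) : 11 / 12 * ‖psi s θ‖ ^ M ≤ (psi s θ ^ M).re := by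
  obtain ⟨v, hv1, hv2, hv⟩ := psi_approx s hs
  have h1 := hv θ
  have h3 := ps_sq θ hθ
  set a : ℝ := 1 - v * θ ^ 2 / 2 with ha
  have ha0 : 0 ≤ a := by rw [ha]; nlinarith [sq_nonneg θ]
  set ψ := psi s θ with hψ
  have hn := le_psi_norm s θ hs hθ
  rw [← hψ] at hn
  have hn2 : 1 / 2 ≤ ‖ψ‖ := by linarith
  have hn0 : ‖ψ‖ ≠ 0 := by positivity
  have hnC : (‖ψ‖ : ℂ) ≠ 0 := by exact_mod_cast hn0
  have h5 : ‖ψ - (‖ψ‖ : ℂ)‖ ≤ |θ| ^ 3 / 3 := by
    have h6 : |a - ‖ψ‖| ≤ |θ| ^ 3 / 6 := by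
      have h7 : |‖(a : ℂ)‖ - ‖ψ‖| ≤ ‖(a : ℂ) - ψ‖ := abs_norm_sub_norm_le _ _
      rw [Complex.norm_real, Real.norm_eq_abs, abs_of_nonneg ha0, norm_sub_rev] at h7
      exact h7.trans h1
    calc ‖ψ - (‖ψ‖ : ℂ)‖ = ‖(ψ - (a : ℂ)) + ((a - ‖ψ‖ : ℝ) : ℂ)‖ := by
          congr 1; push_cast; ring
      _ ≤ ‖ψ - (a : ℂ)‖ + ‖((a - ‖ψ‖ : ℝ) : ℂ)‖ := norm_add_le _ _
      _ ≤ |θ| ^ 3 / 6 + |θ| ^ 3 / 6 := by
          rw [Complex.norm_real, Real.norm_eq_abs]
          exact add_le_add h1 h6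
      _ = _ := by ring
  set u : ℂ := ψ / (‖ψ‖ : ℂ) with hu
  have hun : ‖u‖ = 1 := by
    rw [hu, norm_div, Complex.norm_real, norm_norm, div_self hn0]
  have hu1 : ‖u - 1‖ ≤ 2 / 3 * |θ| ^ 3 := by
    have h8 : u - 1 = (ψ - (‖ψ‖ : ℂ)) / (‖ψ‖ : ℂ) := by
      rw [hu, sub_div, div_self hnC]
    rw [h8, norm_div, Complex.norm_real, norm_norm, div_le_iff₀ (by positivity)]
    have h9 : 0 ≤ |θ| ^ 3 := pow_nonneg (abs_nonneg _) 3
    nlinarith
  have h10 := ps_pow_sub_one hun M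
  have h11 : ‖u ^ M - 1‖ ≤ 1 / 12 := by
    have hM0 : (0 : ℝ) ≤ M := Nat.cast_nonneg M
    have := mul_le_mul_of_nonneg_left hu1 hM0
    linarith
  have h12 : 11 / 12 ≤ (u ^ M).re := by
    have h13 := Complex.abs_re_le_norm (u ^ M - 1)
    rw [Complex.sub_re, Complex.one_re] at h13
    have := (abs_le.1 (h13.trans h11)).1
    linarith
  have h14 : ψ ^ M = ((‖ψ‖ ^ M : ℝ) : ℂ) * u ^ M := by
    rw [hu, div_pow]
    push_cast
    field_simp
  rw [h14, Complex.re_ofReal_mul]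
  have h15 : 0 ≤ ‖ψ‖ ^ M := pow_nonneg (norm_nonneg _) M
  nlinarith


theorem ps63_num_bound (s : ℝ) (hs : |s| ≤ 1 / 10) :
    |(∫ x in (-(1/2) : ℝ)..(1/2), x * Real.exp (s * x)) - s / 12| ≤ s ^ 2 / 8 := by
  have hc : Continuous fun x : ℝ => x * Real.exp (s * x) := by fun_prop
  have hc2 : Continuous fun x : ℝ => x + s * x ^ 2 := by fun_prop
  have h1 : ∫ x in (-(1/2) : ℝ)..(1/2), (x + s * x ^ 2) = s / 12 := by
    rw [intervalIntegral.integral_add (by apply Continuous.intervalIntegrable; fun_prop)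
      (by apply Continuous.intervalIntegrable; fun_prop), integral_id,
      intervalIntegral.integral_const_mul, integral_pow]
    ring
  rw [← h1, ← intervalIntegral.integral_sub (hc.intervalIntegrable _ _)
    (hc2.intervalIntegrable _ _), ← Real.norm_eq_abs]
  have h2 : ∀ x ∈ Set.uIoc (-(1/2) : ℝ) (1/2),
      ‖x * Real.exp (s * x) - (x + s * x ^ 2)‖ ≤ s ^ 2 / 8 := by
    intro x hx
    rw [Set.uIoc_of_le (by norm_num)] at hx
    have hx2 : |x| ≤ 1 / 2 := abs_le.mpr ⟨hx.1.le, hx.2⟩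
    have hsx : |s * x| ≤ 1 := by
      rw [abs_mul]
      calc |s| * |x| ≤ 1 / 10 * (1 / 2) :=
            mul_le_mul hs hx2 (abs_nonneg _) (by norm_num)
        _ ≤ 1 := by norm_num
    have h3 := Real.abs_exp_sub_one_sub_id_le hsx
    have h4 : x * Real.exp (s * x) - (x + s * x ^ 2) = x * (Real.exp (s * x) - 1 - s * x) := by
      ring
    rw [h4, Real.norm_eq_abs, abs_mul]
    have h5 : (s * x) ^ 2 ≤ s ^ 2 * (1 / 4) := by
      rw [mul_pow]
      refine mul_le_mul_of_nonneg_left ?_ (sq_nonneg s)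
      rw [← sq_abs x]
      calc |x| ^ 2 ≤ (1 / 2) ^ 2 := pow_le_pow_left₀ (abs_nonneg _) hx2 2
        _ = 1 / 4 := by norm_num
    calc |x| * |Real.exp (s * x) - 1 - s * x| ≤ 1 / 2 * (s ^ 2 * (1 / 4)) :=
          mul_le_mul hx2 (h3.trans h5) (abs_nonneg _) (by norm_num)
      _ = s ^ 2 / 8 := by ring
  have h6 := intervalIntegral.norm_integral_le_of_norm_le_const h2
  refine h6.trans (le_of_eq ?_)
  norm_num

theorem ps63_Sr_pos (s : ℝ) : 0 < Sr s := by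
  unfold Sr
  refine intervalIntegral.intervalIntegral_pos_of_pos ?_ (fun x => Real.exp_pos _) (by norm_num)
  apply Continuous.intervalIntegrable
  fun_prop

theorem ps63_Sr_le (s : ℝ) (hs : |s| ≤ 1 / 10) : Sr s ≤ 11 / 10 := by
  have h2 : ∀ x ∈ Set.uIoc (-(1/2) : ℝ) (1/2), ‖Real.exp (s * x)‖ ≤ 11 / 10 := by
    intro x hx
    rw [Set.uIoc_of_le (by norm_num)] at hx
    have hx2 : |x| ≤ 1 / 2 := abs_le.mpr ⟨hx.1.le, hx.2⟩
    have hsx : |s * x| ≤ 1 / 20 := by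
      rw [abs_mul]
      calc |s| * |x| ≤ 1 / 10 * (1 / 2) :=
            mul_le_mul hs hx2 (abs_nonneg _) (by norm_num)
        _ = 1 / 20 := by norm_num
    have h3 := Real.abs_exp_sub_one_sub_id_le (hsx.trans (by norm_num : (1 : ℝ) / 20 ≤ 1))
    have h4 : (s * x) ^ 2 ≤ (1 / 20) ^ 2 := by
      rw [← sq_abs (s * x)]
      exact pow_le_pow_left₀ (abs_nonneg _) hsx 2
    rw [Real.norm_eq_abs, abs_of_pos (Real.exp_pos _)]
    have h5 := (abs_le.mp h3).2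
    have h6 := (abs_le.mp hsx).2
    norm_num at h4
    linarith
  have h6 := intervalIntegral.norm_integral_le_of_norm_le_const h2
  have h7 : Sr s ≤ ‖∫ x in (-(1/2) : ℝ)..(1/2), Real.exp (s * x)‖ := le_abs_self _
  refine h7.trans (h6.trans (le_of_eq ?_))
  norm_num

theorem ps63_continuous_mu : Continuous mu := by
  unfold mu
  refine Continuous.div ?_ ?_ fun s => (ps63_Sr_pos s).ne'
  · refine intervalIntegral.continuous_parametric_intervalIntegral_of_continuous' ?_ _ _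
    fun_prop
  · unfold Sr
    refine intervalIntegral.continuous_parametric_intervalIntegral_of_continuous' ?_ _ _
    fun_prop

/-- the derivative of `mu` is the variance `≥ 1/20`, `mu 0 = 0`; intermediate value theorem -/
theorem exists_tilt (δ τ : ℝ) (hδ : 0 < δ) (hδ1 : δ ≤ 1 / 10) (hτ : |τ| ≤ δ / 20) :
    ∃ s : ℝ, |s| ≤ δ ∧ mu s = τ := by
  obtain ⟨hτ1, hτ2⟩ := abs_le.mp hτ
  have hδs : |δ| ≤ 1 / 10 := by rw [abs_of_pos hδ]; exact hδ1
  have hδs' : |(-δ)| ≤ 1 / 10 := by rw [abs_neg]; exact hδs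
  have hsq : δ ^ 2 ≤ δ * (1 / 10) := by
    rw [pow_two]
    exact mul_le_mul_of_nonneg_left hδ1 hδ.le
  have hup : δ / 20 ≤ mu δ := by
    unfold mu
    rw [le_div_iff₀ (ps63_Sr_pos δ)]
    have h1 := (abs_le.mp (ps63_num_bound δ hδs)).1
    have h2 := ps63_Sr_le δ hδs
    have h3 : δ / 20 * Sr δ ≤ δ / 20 * (11 / 10) := mul_le_mul_of_nonneg_left h2 (by positivity)
    linarith
  have hlo : mu (-δ) ≤ -(δ / 20) := by
    unfold mu
    rw [div_le_iff₀ (ps63_Sr_pos (-δ))]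
    have h1 := (abs_le.mp (ps63_num_bound (-δ) hδs')).2
    have h2 := ps63_Sr_le (-δ) hδs'
    have h3 : δ / 20 * Sr (-δ) ≤ δ / 20 * (11 / 10) := mul_le_mul_of_nonneg_left h2 (by positivity)
    rw [neg_sq] at h1
    linarith
  have hle : -δ ≤ δ := by linarith
  have hmem : τ ∈ Set.Icc (mu (-δ)) (mu δ) := ⟨hlo.trans hτ1, hτ2.trans hup⟩
  obtain ⟨s, hs, hms⟩ := intermediate_value_Icc hle ps63_continuous_mu.continuousOn hmem
  exact ⟨s, abs_le.mpr hs, hms⟩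

end Pool.HB45
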