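import Pool.Agent.HB45.Psi

set_option autoImplicit false

namespace Pool.HB45

theorem num_bound (s : ℝ) (hs : |s| ≤ 1 / 10) :
    |(∫ x in (-(1/2) : ℝ)..(1/2), x * Real.exp (s * x)) - s / 12| ≤ s ^ 2 / 8 := by
  have hc : Continuous fun x : ℝ => x * Real.exp (s * x) := by fun_prop
  have hc2 : Continuous fun x : ℝ => x + s * x ^ 2 := by fun_prop
  have h1 : ∫ x in (-(1/2) : ℝ)..(1/2), (x + s * x ^ 2) = s / 12 := by
    rw [intervalIntegral.integral_add (by apply Continuous.intervalIntegrable; fun_prop)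
      (by apply Continuous.intervalIntegrable; fun_prop), integral_id,
      intervalIntegral.integral_const_mul, integral_pow]
    ring
  rw [← h1, ← intervalIntegral.integral_sub (hc.intervalIntegrable _ _)
    (hc2.intervalIntegrable _ _), ← Real.norm_eq_abs]
  have h2 : ∀ x ∈ Set.uIoc (-(1/2) : ℝ) (1/2),
      ‖x * Real.exp (s * x) - (x + s * x ^ 2)‖ ≤ s ^ 2 / 8 := by
    intro x hx
    rw [Set.uIoc_of_le (by norm_num)] at hx
    have hx2 : |x| ≤ 1 / 2 := abs_le.mpr ⟨hx.1.le, hx.2⟩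
    have hsx : |s * x| ≤ 1 := by
      rw [abs_mul]
      calc |s| * |x| ≤ 1 / 10 * (1 / 2) :=
            mul_le_mul hs hx2 (abs_nonneg _) (by norm_num)
        _ ≤ 1 := by norm_num
    have h3 := Real.abs_exp_sub_one_sub_id_le hsx
    have h4 : x * Real.exp (s * x) - (x + s * x ^ 2) = x * (Real.exp (s * x) - 1 - s * x) := by
      ring
    rw [h4, Real.norm_eq_abs, abs_mul]
    have h5 : (s * x) ^ 2 ≤ s ^ 2 * (1 / 4) := by
      rw [mul_pow]
      refine mul_le_mul_of_nonneg_left ?_ (sq_nonneg s)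
      rw [← sq_abs x]
      calc |x| ^ 2 ≤ (1 / 2) ^ 2 := pow_le_pow_left₀ (abs_nonneg _) hx2 2
        _ = 1 / 4 := by norm_num
    calc |x| * |Real.exp (s * x) - 1 - s * x| ≤ 1 / 2 * (s ^ 2 * (1 / 4)) :=
          mul_le_mul hx2 (h3.trans h5) (abs_nonneg _) (by norm_num)
      _ = s ^ 2 / 8 := by ring
  have h6 := intervalIntegral.norm_integral_le_of_norm_le_const h2
  refine h6.trans (le_of_eq ?_)
  norm_num

theorem Sr_pos' (s : ℝ) : 0 < Sr s := by
  unfold Sr
  refine intervalIntegral.intervalIntegral_pos_of_pos ?_ (fun x => Real.exp_pos _) (by norm_num)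
  apply Continuous.intervalIntegrable
  fun_prop

theorem Sr_le (s : ℝ) (hs : |s| ≤ 1 / 10) : Sr s ≤ 11 / 10 := by
  have h2 : ∀ x ∈ Set.uIoc (-(1/2) : ℝ) (1/2), ‖Real.exp (s * x)‖ ≤ 11 / 10 := by
    intro x hx
    rw [Set.uIoc_of_le (by norm_num)] at hx
    have hx2 : |x| ≤ 1 / 2 := abs_le.mpr ⟨hx.1.le, hx.2⟩
    have hsx : |s * x| ≤ 1 / 20 := by
      rw [abs_mul]
      calc |s| * |x| ≤ 1 / 10 * (1 / 2) :=
            mul_le_mul hs hx2 (abs_nonneg _) (by norm_num)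
        _ = 1 / 20 := by norm_num
    have h3 := Real.abs_exp_sub_one_sub_id_le (hsx.trans (by norm_num : (1 : ℝ) / 20 ≤ 1))
    have h4 : (s * x) ^ 2 ≤ (1 / 20) ^ 2 := by
      rw [← sq_abs (s * x)]
      exact pow_le_pow_left₀ (abs_nonneg _) hsx 2
    rw [Real.norm_eq_abs, abs_of_pos (Real.exp_pos _)]
    have h5 := (abs_le.mp h3).2
    have h6 := (abs_le.mp hsx).2
    norm_num at h4
    linarith
  have h6 := intervalIntegral.norm_integral_le_of_norm_le_const h2
  have h7 : Sr s ≤ ‖∫ x in (-(1/2) : ℝ)..(1/2), Real.exp (s * x)‖ := le_abs_self _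
  refine h7.trans (h6.trans (le_of_eq ?_))
  norm_num

theorem continuous_mu : Continuous mu := by
  unfold mu
  refine Continuous.div ?_ ?_ fun s => (Sr_pos' s).ne'
  · refine intervalIntegral.continuous_parametric_intervalIntegral_of_continuous' ?_ _ _
    fun_prop
  · unfold Sr
    refine intervalIntegral.continuous_parametric_intervalIntegral_of_continuous' ?_ _ _
    fun_prop

/-- the derivative of `mu` is the variance `≥ 1/20`, `mu 0 = 0`; intermediate value theorem -/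
theorem exists_tilt' (δ τ : ℝ) (hδ : 0 < δ) (hδ1 : δ ≤ 1 / 10) (hτ : |τ| ≤ δ / 20) :
    ∃ s : ℝ, |s| ≤ δ ∧ mu s = τ := by
  obtain ⟨hτ1, hτ2⟩ := abs_le.mp hτ
  have hδs : |δ| ≤ 1 / 10 := by rw [abs_of_pos hδ]; exact hδ1
  have hδs' : |(-δ)| ≤ 1 / 10 := by rw [abs_neg]; exact hδs
  have hsq : δ ^ 2 ≤ δ * (1 / 10) := by
    rw [pow_two]
    exact mul_le_mul_of_nonneg_left hδ1 hδ.le
  have hup : δ / 20 ≤ mu δ := by
    unfold mu
    rw [le_div_iff₀ (Sr_pos' δ)]
    have h1 := (abs_le.mp (num_bound δ hδs)).1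
    have h2 := Sr_le δ hδs
    have h3 : δ / 20 * Sr δ ≤ δ / 20 * (11 / 10) := mul_le_mul_of_nonneg_left h2 (by positivity)
    linarith
  have hlo : mu (-δ) ≤ -(δ / 20) := by
    unfold mu
    rw [div_le_iff₀ (Sr_pos' (-δ))]
    have h1 := (abs_le.mp (num_bound (-δ) hδs')).2
    have h2 := Sr_le (-δ) hδs'
    have h3 : δ / 20 * Sr (-δ) ≤ δ / 20 * (11 / 10) := mul_le_mul_of_nonneg_left h2 (by positivity)
    rw [neg_sq] at h1
    linarith
  have hle : -δ ≤ δ := by linarith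
  have hmem : τ ∈ Set.Icc (mu (-δ)) (mu δ) := ⟨hlo.trans hτ1, hτ2.trans hup⟩
  obtain ⟨s, hs, hms⟩ := intermediate_value_Icc hle continuous_mu.continuousOn hmem
  exact ⟨s, abs_le.mpr hs, hms⟩

end Pool.HB45
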