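import Pool.Agent.HB45.Psi

set_option autoImplicit false

open Complex

namespace Pool.HB45

theorem psi_norm_le' (s θ : ℝ) (hs : |s| ≤ 1 / 10) (hθ : |θ| ≤ 1 / 10) :
    ‖psi s θ‖ ≤ Real.exp (-(θ ^ 2 / 120)) := by
  obtain ⟨v, hv, hv1, h⟩ := psi_approx s hs
  have h1 := h θ
  have h2 : ‖psi s θ‖ ≤ ‖psi s θ - (1 - v * θ ^ 2 / 2 : ℝ)‖ + ‖((1 - v * θ ^ 2 / 2 : ℝ) : ℂ)‖ := by
    have := norm_add_le (psi s θ - (1 - v * θ ^ 2 / 2 : ℝ)) ((1 - v * θ ^ 2 / 2 : ℝ) : ℂ)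
    rwa [sub_add_cancel] at this
  have h0 : 0 ≤ |θ| := abs_nonneg θ
  have hsq : θ ^ 2 = |θ| ^ 2 := (sq_abs θ).symm
  have hpos : 0 ≤ 1 - v * θ ^ 2 / 2 := by
    rw [hsq]; nlinarith
  rw [Complex.norm_real, Real.norm_of_nonneg hpos] at h2
  have h3 : |θ| ^ 3 / 6 ≤ |θ| ^ 2 / 60 := by
    have : |θ| ^ 3 = |θ| ^ 2 * |θ| := by ring
    rw [this]
    nlinarith [sq_nonneg |θ|]
  have h4 := Real.add_one_le_exp (-(θ ^ 2 / 120))
  have h5 : v * θ ^ 2 / 2 ≥ θ ^ 2 / 40 := by nlinarith [sq_nonneg θ]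
  rw [← hsq] at h3
  linarith

theorem le_psi_norm' (s θ : ℝ) (hs : |s| ≤ 1 / 10) (hθ : |θ| ≤ 1 / 10) :
    1 - θ ^ 2 ≤ ‖psi s θ‖ := by
  obtain ⟨v, hv, hv1, h⟩ := psi_approx s hs
  have h1 := h θ
  have h0 : 0 ≤ |θ| := abs_nonneg θ
  have hsq : θ ^ 2 = |θ| ^ 2 := (sq_abs θ).symm
  have hpos : 0 ≤ 1 - v * θ ^ 2 / 2 := by
    rw [hsq]; nlinarith
  have h2 : ‖((1 - v * θ ^ 2 / 2 : ℝ) : ℂ)‖ ≤ ‖psi s θ‖ + ‖psi s θ - (1 - v * θ ^ 2 / 2 : ℝ)‖ := by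
    have := norm_sub_le (psi s θ) (psi s θ - (1 - v * θ ^ 2 / 2 : ℝ))
    rwa [sub_sub_cancel] at this
  rw [Complex.norm_real, Real.norm_of_nonneg hpos] at h2
  have h3 : |θ| ^ 3 / 6 ≤ |θ| ^ 2 / 60 := by
    have : |θ| ^ 3 = |θ| ^ 2 * |θ| := by ring
    rw [this]
    nlinarith [sq_nonneg |θ|]
  have h5 : v * θ ^ 2 / 2 ≤ θ ^ 2 / 2 := by nlinarith [sq_nonneg θ]
  rw [← hsq] at h3
  nlinarith [sq_nonneg θ]

/-- powers of a number of norm one near `1` -/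
private theorem pow_sub_one_le {u : ℂ} (hu : ‖u‖ = 1) (M : ℕ) : ‖u ^ M - 1‖ ≤ M * ‖u - 1‖ := by
  induction M with
  | zero => simp
  | succ M ih =>
    have : u ^ (M + 1) - 1 = u ^ M * (u - 1) + (u ^ M - 1) := by ring
    rw [this]
    refine (norm_add_le _ _).trans ?_
    rw [norm_mul, norm_pow, hu, one_pow, one_mul]
    push_cast
    linarith

theorem psi_pow_re' (s θ : ℝ) (hs : |s| ≤ 1 / 10) (hθ : |θ| ≤ 1 / 10) (M : ℕ)
    (hM : (M : ℝ) * |θ| ^ 3 ≤ 1 / 8) : 11 / 12 * ‖psi s θ‖ ^ M ≤ (psi s θ ^ M).re := by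
  obtain ⟨v, hv, hv1, h⟩ := psi_approx s hs
  have h1 := h θ
  have h0 : 0 ≤ |θ| := abs_nonneg θ
  have hsq : θ ^ 2 = |θ| ^ 2 := (sq_abs θ).symm
  -- a lower bound for the norm and the norm of the difference of `ψ` and `|ψ|`
  set p := psi s θ with hp
  set x : ℝ := 1 - v * θ ^ 2 / 2 with hx
  have hx1 : 1 - |θ| ^ 2 / 2 ≤ x := by rw [hx, hsq]; nlinarith [sq_nonneg |θ|]
  have hx0 : 0 < x := by nlinarith
  have h3 : |θ| ^ 3 / 6 ≤ |θ| ^ 2 / 60 := by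
    have : |θ| ^ 3 = |θ| ^ 2 * |θ| := by ring
    rw [this]
    nlinarith [sq_nonneg |θ|]
  have hn1 : |‖p‖ - x| ≤ |θ| ^ 3 / 6 := by
    have := abs_norm_sub_norm_le p (x : ℂ)
    rw [Complex.norm_real, Real.norm_of_nonneg hx0.le] at this
    exact this.trans h1
  have hn2 := (abs_le.mp hn1).1
  have hnorm : 1 - θ ^ 2 ≤ ‖p‖ := le_psi_norm' s θ hs hθ
  have hn99 : 99 / 100 ≤ ‖p‖ := by
    rw [hsq] at hnorm; nlinarith
  have hnpos : 0 < ‖p‖ := by linarith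
  have hne : (‖p‖ : ℂ) ≠ 0 := by exact_mod_cast hnpos.ne'
  set u : ℂ := p / ‖p‖ with hu
  have hunorm : ‖u‖ = 1 := by
    rw [hu, norm_div, Complex.norm_real, norm_norm, div_self hnpos.ne']
  have hpu : p = ‖p‖ * u := by rw [hu]; field_simp
  have hdist : ‖u - 1‖ ≤ 2 / 3 * |θ| ^ 3 := by
    have e1 : u - 1 = (p - ‖p‖) / ‖p‖ := by rw [hu]; field_simp
    rw [e1, norm_div, Complex.norm_real, norm_norm, div_le_iff₀ hnpos]
    have e2 : ‖p - (‖p‖ : ℂ)‖ ≤ ‖p - (x : ℂ)‖ + ‖((x - ‖p‖ : ℝ) : ℂ)‖ := by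
      have := norm_add_le (p - (x : ℂ)) ((x - ‖p‖ : ℝ) : ℂ)
      refine le_trans (le_of_eq ?_) this
      congr 1
      push_cast
      ring
    rw [Complex.norm_real, Real.norm_eq_abs, abs_sub_comm] at e2
    have h30 : 0 ≤ |θ| ^ 3 := by positivity
    nlinarith
  have hpow : ‖u ^ M - 1‖ ≤ 1 / 12 := by
    refine (pow_sub_one_le hunorm M).trans ?_
    have : (M : ℝ) * ‖u - 1‖ ≤ M * (2 / 3 * |θ| ^ 3) := mul_le_mul_of_nonneg_left hdist (Nat.cast_nonneg _)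
    linarith
  have hre : 11 / 12 ≤ (u ^ M).re := by
    have h6 := (abs_le.mp ((Complex.abs_re_le_norm (u ^ M - 1)).trans hpow)).1
    rw [Complex.sub_re, Complex.one_re] at h6
    linarith
  have e3 : (p ^ M).re = ‖p‖ ^ M * (u ^ M).re := by
    conv_lhs => rw [hpu, mul_pow, ← Complex.ofReal_pow, Complex.re_ofReal_mul]
  rw [e3, mul_comm]
  exact mul_le_mul_of_nonneg_left hre (by positivity)

end Pool.HB45
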