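import Pool.Agent.HB45.TDefs

set_option autoImplicit false

/-!
# HB45/TA: the extreme tail of a product
-/

open Polynomial

namespace Pool.HB45

private theorem nn_mul {p q : ℝ[X]} (hp : ∀ k, 0 ≤ p.coeff k) (hq : ∀ k, 0 ≤ q.coeff k) (k : ℕ) :
    0 ≤ (p * q).coeff k := by
  rw [coeff_mul]
  exact Finset.sum_nonneg fun x _ => mul_nonneg (hp _) (hq _)

private theorem nn_prod {ι : Type*} (s : Finset ι) (g : ι → ℝ[X])
    (hg : ∀ i ∈ s, ∀ k, 0 ≤ (g i).coeff k) : ∀ k, 0 ≤ (∏ i ∈ s, g i).coeff k := by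
  classical
  induction s using Finset.induction_on with
  | empty =>
    intro k
    rw [Finset.prod_empty, coeff_one]
    split_ifs <;> norm_num
  | insert a s ha ih =>
    rw [Finset.prod_insert ha]
    exact nn_mul (hg a (Finset.mem_insert_self a s))
      (ih fun i hi => hg i (Finset.mem_insert_of_mem hi))

theorem Fac.zero_le {b : ℕ} {B : ℝ} {g : ℝ[X]} (h : Fac b B g) : g.coeff 0 ≤ B := by
  refine le_trans ?_ h.le
  rw [eval_eq_sum_range]
  have h1 : g.coeff 0 * 1 ^ 0 ≤ ∑ i ∈ Finset.range (g.natDegree + 1), g.coeff i * 1 ^ i :=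
    Finset.single_le_sum (f := fun i => g.coeff i * (1 : ℝ) ^ i)
      (fun i _ => by rw [one_pow, mul_one]; exact h.nonneg i)
      (Finset.mem_range.2 (Nat.succ_pos _))
  simpa using h1

/-- PROOF. `c_i := coeff j (∏_{k ≠ i} g_k)`. `j p_j = coeff j (X p') = Σ_i coeff j (X g_i' ∏_{k≠i} g_k)` and
`X g_i' ≥ g_i - C (g_i)_0` coefficientwise, so `j p_j ≥ m p_j - Σ_i (g_i)_0 c_i ≥ m p_j - B Σ c_i`;
`(j+1) p_(j+1) = coeff j (p') = Σ_i coeff j (g_i' ∏_{k≠i} g_k) ≥ Σ_i (g_i)_1 c_i ≥ Σ_i c_i`. -/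
theorem extreme_mul {b : ℕ} {B : ℝ} {m : ℕ} (g : Fin m → ℝ[X]) (hg : ∀ i, Fac b B (g i)) (j : ℕ) :
    ((m : ℝ) - j) * (∏ i, g i).coeff j ≤ B * ((j : ℝ) + 1) * (∏ i, g i).coeff (j + 1) := by
  classical
  set p := ∏ i, g i with hp
  set q : Fin m → ℝ[X] := fun i => ∏ k ∈ Finset.univ.erase i, g k with hq
  have hpq : ∀ i, p = g i * q i := fun i => (Finset.mul_prod_erase _ g (Finset.mem_univ i)).symm
  have hqn : ∀ i k, 0 ≤ (q i).coeff k := fun i => nn_prod _ g fun k _ => (hg k).nonneg
  have hder : derivative p = ∑ i, derivative (g i) * q i := by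
    rw [hp, derivative_prod_finset]
    exact Finset.sum_congr rfl fun i _ => mul_comm _ _
  -- first inequality
  have hA : (m : ℝ) * p.coeff j - B * ∑ i, (q i).coeff j ≤ j * p.coeff j := by
    have e1 : (j : ℝ) * p.coeff j = ∑ i, (X * derivative (g i) * q i).coeff j := by
      have e2 : (j : ℝ) * p.coeff j = (X * derivative p).coeff j := by
        cases j with
        | zero => simp
        | succ j =>
          rw [coeff_X_mul, coeff_derivative]
          push_cast
          ring
      rw [e2, hder, Finset.mul_sum, finsetSum_coeff]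
      refine Finset.sum_congr rfl fun i _ => ?_
      rw [mul_assoc]
    have e3 : ∀ i, p.coeff j - B * (q i).coeff j ≤ (X * derivative (g i) * q i).coeff j := by
      intro i
      have h1 : ∀ k, 0 ≤ (X * derivative (g i) - g i + C ((g i).coeff 0)).coeff k := by
        intro k
        rw [coeff_add, coeff_sub]
        cases k with
        | zero => simp
        | succ k =>
          rw [coeff_X_mul, coeff_derivative, coeff_C, if_neg (Nat.succ_ne_zero k), add_zero]
          have := (hg i).nonneg (k + 1)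
          have hk : (0 : ℝ) ≤ k := Nat.cast_nonneg k
          nlinarith
      have h2 := nn_mul h1 (hqn i) j
      rw [add_mul, sub_mul, coeff_add, coeff_sub, ← hpq i, coeff_C_mul] at h2
      have h3 : (g i).coeff 0 * (q i).coeff j ≤ B * (q i).coeff j :=
        mul_le_mul_of_nonneg_right (hg i).zero_le (hqn i j)
      linarith
    have h4 := Finset.sum_le_sum fun i (_ : i ∈ Finset.univ) => e3 i
    rw [← e1, Finset.sum_sub_distrib, Finset.sum_const, Finset.card_univ, Fintype.card_fin,
      nsmul_eq_mul, ← Finset.mul_sum] at h4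
    exact h4
  -- second inequality
  have hB : ∑ i, (q i).coeff j ≤ ((j : ℝ) + 1) * p.coeff (j + 1) := by
    have e1 : ((j : ℝ) + 1) * p.coeff (j + 1) = ∑ i, (derivative (g i) * q i).coeff j := by
      rw [← finsetSum_coeff, ← hder, coeff_derivative]
      ring
    rw [e1]
    refine Finset.sum_le_sum fun i _ => ?_
    have h1 : ∀ k, 0 ≤ (derivative (g i) - C ((g i).coeff 1)).coeff k := by
      intro k
      rw [coeff_sub, coeff_derivative, coeff_C]
      cases k with
      | zero => simp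
      | succ k =>
        rw [if_neg (Nat.succ_ne_zero k), sub_zero]
        have := (hg i).nonneg (k + 1 + 1)
        positivity
    have h2 := nn_mul h1 (hqn i) j
    rw [sub_mul, coeff_sub, coeff_C_mul] at h2
    have h3 : 1 * (q i).coeff j ≤ (g i).coeff 1 * (q i).coeff j :=
      mul_le_mul_of_nonneg_right (hg i).c1 (hqn i j)
    linarith
  rcases Nat.eq_zero_or_pos m with hm | hm
  · subst hm
    have hp1 : p = 1 := by rw [hp]; simp
    rw [hp1, coeff_one, coeff_one, if_neg (Nat.succ_ne_zero j)]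
    cases j with
    | zero => simp
    | succ j =>
      rw [if_neg (Nat.succ_ne_zero j)]
      simp
  · have hB0 : 0 ≤ B := by
      have h1 := (hg ⟨0, hm⟩).zero_le
      have h2 := (hg ⟨0, hm⟩).c0
      linarith
    have h5 := mul_le_mul_of_nonneg_left hB hB0
    nlinarith

theorem extreme {b : ℕ} {B : ℝ} {m : ℕ} (g : Fin m → ℝ[X]) (hg : ∀ i, Fac b B (g i)) (j : ℕ)
    (hm : 0 < m) (hj : B * ((j : ℝ) + 1) + j ≤ m) : (∏ i, g i).coeff j ≤ (∏ i, g i).coeff (j + 1) := by
  have h := extreme_mul g hg j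
  have hn := nn_prod Finset.univ g (fun i _ => (hg i).nonneg) (j + 1)
  have hB1 : 1 ≤ B := (hg ⟨0, hm⟩).c0.trans (hg ⟨0, hm⟩).zero_le
  have hj0 : (0 : ℝ) ≤ j := Nat.cast_nonneg j
  have h1 : 0 < (m : ℝ) - j := by nlinarith
  have h2 : B * ((j : ℝ) + 1) * (∏ i, g i).coeff (j + 1) ≤
      ((m : ℝ) - j) * (∏ i, g i).coeff (j + 1) :=
    mul_le_mul_of_nonneg_right (by linarith) hn
  exact le_of_mul_le_mul_left (h.trans h2) h1

end Pool.HB45
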