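import Pool.Agent.HB45.TDefs

set_option autoImplicit false

/-!
# HB45/TB: tilting a product
-/

open Polynomial

namespace Pool.HB45

theorem Fac.eval_eq {b : ℕ} {B : ℝ} {g : ℝ[X]} (hg : Fac b B g) (r : ℝ) :
    g.eval r = ∑ k ∈ Finset.range (b + 1), g.coeff k * r ^ k :=
  eval_eq_sum_range' (Nat.lt_succ_of_le hg.deg) r

theorem Fac.mul_deriv_eq {b : ℕ} {B : ℝ} {g : ℝ[X]} (hg : Fac b B g) (r : ℝ) :
    r * g.derivative.eval r = ∑ k ∈ Finset.range (b + 1), (k : ℝ) * g.coeff k * r ^ k := by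
  have h1 : g.derivative.natDegree < b + 1 :=
    Nat.lt_succ_of_le ((natDegree_derivative_le g).trans ((Nat.sub_le _ _).trans hg.deg))
  have h2 : g.coeff (b + 1) = 0 := coeff_eq_zero_of_natDegree_lt (Nat.lt_succ_of_le hg.deg)
  rw [eval_eq_sum_range' h1, Finset.mul_sum, Finset.sum_range_succ, Finset.sum_range_succ',
    coeff_derivative, h2]
  simp only [Nat.cast_zero, zero_mul, mul_zero, add_zero]
  refine Finset.sum_congr rfl fun k _ => ?_
  rw [coeff_derivative]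
  push_cast
  ring

theorem Fac.eval_pos {b : ℕ} {B : ℝ} {g : ℝ[X]} (hg : Fac b B g) {r : ℝ} (hr : 0 ≤ r) :
    1 ≤ g.eval r := by
  rw [hg.eval_eq]
  refine hg.c0.trans ?_
  have h1 := Finset.single_le_sum (f := fun k => g.coeff k * r ^ k)
    (fun k _ => mul_nonneg (hg.nonneg k) (pow_nonneg hr k))
    (Finset.mem_range.2 (Nat.succ_pos b))
  simpa using h1

theorem Fac.sum_le {b : ℕ} {B : ℝ} {g : ℝ[X]} (hg : Fac b B g) :
    ∑ k ∈ Finset.range (b + 1), g.coeff k ≤ B := by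
  have h1 := hg.le
  rw [hg.eval_eq] at h1
  simpa using h1

theorem Fac.eval_le {b : ℕ} {B : ℝ} {g : ℝ[X]} (hg : Fac b B g) {r : ℝ} (hr : 0 ≤ r) (hr1 : r ≤ 1) :
    g.eval r ≤ B := by
  rw [hg.eval_eq]
  refine le_trans (Finset.sum_le_sum fun k _ => ?_) hg.sum_le
  exact mul_le_of_le_one_right (hg.nonneg k) (pow_le_one₀ hr hr1)

theorem Fm_continuous {b : ℕ} {B : ℝ} {g : ℝ[X]} (hg : Fac b B g) :
    ContinuousOn (Fm g) (Set.Icc 0 1) := by
  unfold Fm
  refine ContinuousOn.div ?_ ?_ ?_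
  · exact (continuous_id.mul g.derivative.continuous).continuousOn
  · exact g.continuous.continuousOn
  · intro r hr
    have := hg.eval_pos hr.1
    linarith

theorem Fac.deriv_one_le {b : ℕ} {B : ℝ} {g : ℝ[X]} (hg : Fac b B g) :
    ∑ k ∈ Finset.range (b + 1), (k : ℝ) * g.coeff k ≤ b * B := by
  calc ∑ k ∈ Finset.range (b + 1), (k : ℝ) * g.coeff k
      ≤ ∑ k ∈ Finset.range (b + 1), (b : ℝ) * g.coeff k := by
        refine Finset.sum_le_sum fun k hk => ?_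
        have hk' : k ≤ b := Nat.lt_succ_iff.1 (Finset.mem_range.1 hk)
        exact mul_le_mul_of_nonneg_right (by exact_mod_cast hk') (hg.nonneg k)
    _ = b * ∑ k ∈ Finset.range (b + 1), g.coeff k := by rw [Finset.mul_sum]
    _ ≤ b * B := mul_le_mul_of_nonneg_left hg.sum_le (Nat.cast_nonneg b)

/-- `g'(r) ≤ g'(1) ≤ b g(1) ≤ b B`, `g(r) ≥ 1` -/
theorem Fm_le {b : ℕ} {B : ℝ} {g : ℝ[X]} (hg : Fac b B g) {r : ℝ} (hr : 0 ≤ r) (hr1 : r ≤ 1) :
    Fm g r ≤ r * (b * B) := by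
  have h0 := hg.eval_pos hr
  have hnum : r * g.derivative.eval r ≤ r * (b * B) := by
    rw [hg.mul_deriv_eq]
    refine le_trans ?_ (mul_le_mul_of_nonneg_left hg.deriv_one_le hr)
    rw [Finset.mul_sum]
    refine Finset.sum_le_sum fun k _ => ?_
    rcases Nat.eq_zero_or_pos k with rfl | hk
    · simp
    · obtain ⟨k, rfl⟩ := Nat.exists_eq_succ_of_ne_zero hk.ne'
      have h1 : r ^ k ≤ 1 := pow_le_one₀ hr hr1
      have h2 : 0 ≤ ((k.succ : ℕ) : ℝ) * g.coeff k.succ :=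
        mul_nonneg (Nat.cast_nonneg _) (hg.nonneg _)
      calc ((k.succ : ℕ) : ℝ) * g.coeff k.succ * r ^ k.succ
          = (r * (((k.succ : ℕ) : ℝ) * g.coeff k.succ)) * r ^ k := by rw [pow_succ]; ring
        _ ≤ (r * (((k.succ : ℕ) : ℝ) * g.coeff k.succ)) * 1 :=
            mul_le_mul_of_nonneg_left h1 (mul_nonneg hr h2)
        _ = _ := by ring
  have hnn : 0 ≤ r * g.derivative.eval r := by
    rw [hg.mul_deriv_eq]
    exact Finset.sum_nonneg fun k _ =>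
      mul_nonneg (mul_nonneg (Nat.cast_nonneg k) (hg.nonneg k)) (pow_nonneg hr k)
  unfold Fm
  exact (div_le_self hnn h0).trans hnum

/-- `Fm g 1 - Fm g r = Σ k (g_k / g(1) - g_k r^k / g(r)) ≤ Σ k g_k (1 - r^k) / g(r) ≤ Σ k² g_k (1 - r)`
(`g(r) ≤ g(1)`, Bernoulli, `g(r) ≥ 1`) -/
theorem Fm_diff {b : ℕ} {B : ℝ} {g : ℝ[X]} (hg : Fac b B g) {r : ℝ} (hr : 0 ≤ r) (hr1 : r ≤ 1) :
    Fm g 1 - Fm g r ≤ (b : ℝ) ^ 2 * B * (1 - r) := by
  have h0 := hg.eval_pos hr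
  have h0' : (0 : ℝ) < g.eval r := by linarith
  have hle : g.eval r ≤ g.eval 1 := by
    rw [hg.eval_eq, hg.eval_eq]
    refine Finset.sum_le_sum fun k _ => ?_
    rw [one_pow]
    exact mul_le_mul_of_nonneg_left (pow_le_one₀ hr hr1) (hg.nonneg k)
  have hD1 : 0 ≤ (1 : ℝ) * g.derivative.eval 1 := by
    rw [hg.mul_deriv_eq]
    exact Finset.sum_nonneg fun k _ =>
      mul_nonneg (mul_nonneg (Nat.cast_nonneg k) (hg.nonneg k)) (pow_nonneg zero_le_one k)
  have h1 : Fm g 1 ≤ (1 * g.derivative.eval 1) / g.eval r := by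
    unfold Fm
    exact div_le_div_of_nonneg_left hD1 h0' hle
  have h2 : 1 * g.derivative.eval 1 - r * g.derivative.eval r =
      ∑ k ∈ Finset.range (b + 1), (k : ℝ) * g.coeff k * (1 - r ^ k) := by
    rw [hg.mul_deriv_eq, hg.mul_deriv_eq, ← Finset.sum_sub_distrib]
    refine Finset.sum_congr rfl fun k _ => ?_
    rw [one_pow]
    ring
  have hr' : 0 ≤ 1 - r := by linarith
  have h3 : ∑ k ∈ Finset.range (b + 1), (k : ℝ) * g.coeff k * (1 - r ^ k) ≤
      (b : ℝ) ^ 2 * B * (1 - r) := by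
    calc ∑ k ∈ Finset.range (b + 1), (k : ℝ) * g.coeff k * (1 - r ^ k)
        ≤ ∑ k ∈ Finset.range (b + 1), ((b : ℝ) ^ 2 * (1 - r)) * g.coeff k := by
          refine Finset.sum_le_sum fun k hk => ?_
          have hk' : k ≤ b := Nat.lt_succ_iff.1 (Finset.mem_range.1 hk)
          have hkb : (k : ℝ) ≤ b := by exact_mod_cast hk'
          have hk0 : (0 : ℝ) ≤ k := Nat.cast_nonneg k
          have hb : 1 - r ^ k ≤ k * (1 - r) := by
            have := one_add_mul_le_pow (a := r - 1) (by linarith) k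
            have h5 : (1 : ℝ) + (r - 1) = r := by ring
            rw [h5] at this
            linarith
          have h6 : (k : ℝ) * (1 - r ^ k) ≤ (b : ℝ) ^ 2 * (1 - r) := by
            calc (k : ℝ) * (1 - r ^ k) ≤ k * (k * (1 - r)) := mul_le_mul_of_nonneg_left hb hk0
              _ = (k : ℝ) ^ 2 * (1 - r) := by ring
              _ ≤ (b : ℝ) ^ 2 * (1 - r) :=
                  mul_le_mul_of_nonneg_right (pow_le_pow_left₀ hk0 hkb 2) hr'
          calc (k : ℝ) * g.coeff k * (1 - r ^ k) = (k : ℝ) * (1 - r ^ k) * g.coeff k := by ring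
            _ ≤ _ := mul_le_mul_of_nonneg_right h6 (hg.nonneg k)
      _ = ((b : ℝ) ^ 2 * (1 - r)) * ∑ k ∈ Finset.range (b + 1), g.coeff k := by
          rw [Finset.mul_sum]
      _ ≤ ((b : ℝ) ^ 2 * (1 - r)) * B :=
          mul_le_mul_of_nonneg_left hg.sum_le (mul_nonneg (sq_nonneg _) hr')
      _ = _ := by ring
  have h4 : 0 ≤ ∑ k ∈ Finset.range (b + 1), (k : ℝ) * g.coeff k * (1 - r ^ k) := by
    refine Finset.sum_nonneg fun k _ => ?_
    exact mul_nonneg (mul_nonneg (Nat.cast_nonneg k) (hg.nonneg k))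
      (by linarith [pow_le_one₀ hr hr1 (n := k)])
  calc Fm g 1 - Fm g r ≤ (1 * g.derivative.eval 1) / g.eval r - (r * g.derivative.eval r) / g.eval r :=
        sub_le_sub_right h1 _
    _ = (1 * g.derivative.eval 1 - r * g.derivative.eval r) / g.eval r := (sub_div _ _ _).symm
    _ ≤ 1 * g.derivative.eval 1 - r * g.derivative.eval r := by
        rw [h2]
        exact div_le_self h4 h0
    _ ≤ _ := by rw [h2]; exact h3

theorem Fac.one_le_b {b : ℕ} {B : ℝ} {g : ℝ[X]} (hg : Fac b B g) : 1 ≤ b := by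
  by_contra h
  have hb : b = 0 := by omega
  have h1 : g.coeff 1 = 0 := by
    refine coeff_eq_zero_of_natDegree_lt ?_
    have := hg.deg
    omega
  have := hg.c1
  rw [h1] at this
  norm_num at this

theorem Fac.one_le_B {b : ℕ} {B : ℝ} {g : ℝ[X]} (hg : Fac b B g) : 1 ≤ B :=
  (hg.eval_pos zero_le_one).trans hg.le

/-- intermediate value theorem for `Σ Fm (g i)` on `[0, 1]`, then `Fm_le` and `Fm_diff`
(`b ≥ 1` because `coeff 1 ≥ 1`, `B ≥ 2`) -/
theorem tilt_exists {b : ℕ} {B : ℝ} {η δ : ℝ} (hη : 0 < η) (hδ : 0 < δ) {m : ℕ} (hm : 0 < m)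
    (g : Fin m → ℝ[X]) (hg : ∀ i, Fac b B (g i)) (j : ℕ) (hj : η * m ≤ j)
    (hj' : (j : ℝ) + δ * m ≤ ∑ i, Fm (g i) 1) :
    ∃ r : ℝ, η / (b * B) ≤ r ∧ r ≤ 1 - δ / ((b : ℝ) ^ 2 * B) ∧ ∑ i, Fm (g i) r = j := by
  have hmr : (0 : ℝ) < m := by exact_mod_cast hm
  have hb : (1 : ℝ) ≤ b := by exact_mod_cast (hg ⟨0, hm⟩).one_le_b
  have hB : (1 : ℝ) ≤ B := (hg ⟨0, hm⟩).one_le_B
  have hb0 : (0 : ℝ) < b := by linarith
  have hB0 : (0 : ℝ) < B := by linarith
  have hcont : ContinuousOn (fun r => ∑ i, Fm (g i) r) (Set.Icc 0 1) :=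
    continuousOn_finset_sum _ fun i _ => Fm_continuous (hg i)
  have hivt := intermediate_value_Icc (zero_le_one (α := ℝ)) hcont
  have h0 : ∑ i, Fm (g i) 0 = 0 := by
    refine Finset.sum_eq_zero fun i _ => ?_
    unfold Fm
    simp
  have hmem : (j : ℝ) ∈ Set.Icc (∑ i, Fm (g i) 0) (∑ i, Fm (g i) 1) := by
    rw [h0]
    refine ⟨Nat.cast_nonneg j, ?_⟩
    have : 0 ≤ δ * m := by positivity
    linarith
  obtain ⟨r, ⟨hr0, hr1⟩, hr⟩ := hivt hmem
  have hr' : ∑ i, Fm (g i) r = j := hr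
  refine ⟨r, ?_, ?_, hr'⟩
  · have h1 : (j : ℝ) ≤ m * (r * (b * B)) := by
      rw [← hr']
      calc ∑ i, Fm (g i) r ≤ ∑ _i : Fin m, r * (b * B) :=
            Finset.sum_le_sum fun i _ => Fm_le (hg i) hr0 hr1
        _ = m * (r * (b * B)) := by simp
    have h2 : η ≤ r * (b * B) := by
      have h3 : η * m ≤ (r * (b * B)) * m := by linarith
      exact le_of_mul_le_mul_right h3 hmr
    rw [div_le_iff₀ (by positivity)]
    exact h2
  · have h1 : ∑ i, Fm (g i) 1 - ∑ i, Fm (g i) r ≤ m * ((b : ℝ) ^ 2 * B * (1 - r)) := by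
      rw [← Finset.sum_sub_distrib]
      calc ∑ i, (Fm (g i) 1 - Fm (g i) r) ≤ ∑ _i : Fin m, (b : ℝ) ^ 2 * B * (1 - r) :=
            Finset.sum_le_sum fun i _ => Fm_diff (hg i) hr0 hr1
        _ = m * ((b : ℝ) ^ 2 * B * (1 - r)) := by simp
    rw [hr'] at h1
    have h2 : δ ≤ (b : ℝ) ^ 2 * B * (1 - r) := by
      have h3 : δ * m ≤ ((b : ℝ) ^ 2 * B * (1 - r)) * m := by linarith
      exact le_of_mul_le_mul_right h3 hmr
    have h3 : δ / ((b : ℝ) ^ 2 * B) ≤ 1 - r := by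
      rw [div_le_iff₀ (by positivity)]
      linarith
    linarith

end Pool.HB45
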