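import Pool.Agent.HB45.TDefs

set_option autoImplicit false

/-!
# HB45/TC1: one factor on a circle, Taylor expansion
-/

open Polynomial

namespace Pool.HB45

private theorem tc_der (s t : ℝ) : HasDerivAt (fun t : ℝ => Complex.exp ((s : ℂ) * (t : ℂ) * Complex.I))
    (Complex.exp ((s : ℂ) * (t : ℂ) * Complex.I) * ((s : ℂ) * Complex.I)) t := by
  have h1 : HasDerivAt (fun t : ℝ => ((t : ℝ) : ℂ)) 1 t := by
    simpa using (hasDerivAt_id t).ofReal_comp
  have h2 : HasDerivAt (fun t : ℝ => (s : ℂ) * (t : ℂ) * Complex.I) ((s : ℂ) * 1 * Complex.I) t :=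
    (h1.const_mul (s : ℂ)).mul_const Complex.I
  have h3 := h2.cexp
  rwa [mul_one] at h3

private theorem tc_s {s : ℝ} (hs : s ^ 2 = 1) : ‖(s : ℂ) * Complex.I‖ = 1 := by
  rw [norm_mul, Complex.norm_I, mul_one, Complex.norm_real, Real.norm_eq_abs]
  have h1 : |s| ^ 2 = 1 := by rw [sq_abs]; exact hs
  have h2 := abs_nonneg s
  nlinarith

private theorem tc_one {s : ℝ} (hs : s ^ 2 = 1) {t : ℝ} (ht : 0 ≤ t) :
    ‖Complex.exp ((s : ℂ) * (t : ℂ) * Complex.I) - 1‖ ≤ t := by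
  have h1 := Real.norm_exp_I_mul_ofReal_sub_one_le (x := s * t)
  have h2 : |s| = 1 := by
    have h1 : |s| ^ 2 = 1 := by rw [sq_abs]; exact hs
    have h2 := abs_nonneg s
    nlinarith
  rw [Real.norm_eq_abs, abs_mul, h2, one_mul, abs_of_nonneg ht] at h1
  have h3 : (s : ℂ) * (t : ℂ) * Complex.I = Complex.I * ((s * t : ℝ) : ℂ) := by
    push_cast; ring
  rw [h3]
  exact h1

private theorem tc_two {s : ℝ} (hs : s ^ 2 = 1) {t : ℝ} (ht : 0 ≤ t) :
    ‖Complex.exp ((s : ℂ) * (t : ℂ) * Complex.I) - 1 - (s : ℂ) * (t : ℂ) * Complex.I‖ ≤ t ^ 2 / 2 := by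
  have hd : ∀ x : ℝ, HasDerivAt
      (fun t : ℝ => Complex.exp ((s : ℂ) * (t : ℂ) * Complex.I) - 1 - (s : ℂ) * (t : ℂ) * Complex.I)
      ((Complex.exp ((s : ℂ) * (x : ℂ) * Complex.I) - 1) * ((s : ℂ) * Complex.I)) x := by
    intro x
    have h1 : HasDerivAt (fun t : ℝ => ((t : ℝ) : ℂ)) 1 x := by
      simpa using (hasDerivAt_id x).ofReal_comp
    have h2 : HasDerivAt (fun t : ℝ => (s : ℂ) * (t : ℂ) * Complex.I) ((s : ℂ) * 1 * Complex.I) x :=
      (h1.const_mul (s : ℂ)).mul_const Complex.I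
    have h3 := ((tc_der s x).sub_const 1).sub h2
    refine h3.congr_deriv ?_
    ring
  refine image_norm_le_of_norm_deriv_right_le_deriv_boundary
    (f := fun t : ℝ => Complex.exp ((s : ℂ) * (t : ℂ) * Complex.I) - 1 - (s : ℂ) * (t : ℂ) * Complex.I)
    (f' := fun x : ℝ => (Complex.exp ((s : ℂ) * (x : ℂ) * Complex.I) - 1) * ((s : ℂ) * Complex.I))
    (B := fun t : ℝ => t ^ 2 / 2) (B' := fun t : ℝ => t) (a := 0) (b := t)
    (fun x _ => (hd x).continuousAt.continuousWithinAt) (fun x _ => (hd x).hasDerivWithinAt) ?_ ?_ ?_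
    (Set.right_mem_Icc.mpr ht)
  · simp
  · intro x
    have := (hasDerivAt_pow 2 x).div_const 2
    refine this.congr_deriv ?_
    norm_num
  · intro x hx
    rw [norm_mul, tc_s hs, mul_one]
    exact tc_one hs hx.1

private theorem tc_three {s : ℝ} (hs : s ^ 2 = 1) {t : ℝ} (ht : 0 ≤ t) :
    ‖Complex.exp ((s : ℂ) * (t : ℂ) * Complex.I) - 1 - (s : ℂ) * (t : ℂ) * Complex.I +
      (t : ℂ) ^ 2 / 2‖ ≤ t ^ 3 / 6 := by
  have hsc : (s : ℂ) ^ 2 = 1 := by exact_mod_cast hs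
  have hd : ∀ x : ℝ, HasDerivAt
      (fun t : ℝ => Complex.exp ((s : ℂ) * (t : ℂ) * Complex.I) - 1 - (s : ℂ) * (t : ℂ) * Complex.I +
        (t : ℂ) ^ 2 / 2)
      ((Complex.exp ((s : ℂ) * (x : ℂ) * Complex.I) - 1 - (s : ℂ) * (x : ℂ) * Complex.I) *
        ((s : ℂ) * Complex.I)) x := by
    intro x
    have h1 : HasDerivAt (fun t : ℝ => ((t : ℝ) : ℂ)) 1 x := by
      simpa using (hasDerivAt_id x).ofReal_comp
    have h2 : HasDerivAt (fun t : ℝ => (s : ℂ) * (t : ℂ) * Complex.I) ((s : ℂ) * 1 * Complex.I) x :=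
      (h1.const_mul (s : ℂ)).mul_const Complex.I
    have h4 : HasDerivAt (fun t : ℝ => (t : ℂ) ^ 2 / 2) ((x : ℂ)) x := by
      have h5 := (h1.pow 2).div_const 2
      refine h5.congr_deriv ?_
      norm_num
    have h3 := (((tc_der s x).sub_const 1).sub h2).add h4
    refine h3.congr_deriv ?_
    have hI : Complex.I ^ 2 = -1 := Complex.I_sq
    linear_combination ((x : ℂ) * Complex.I ^ 2) * hsc + (x : ℂ) * hI
  refine image_norm_le_of_norm_deriv_right_le_deriv_boundary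
    (f := fun t : ℝ => Complex.exp ((s : ℂ) * (t : ℂ) * Complex.I) - 1 - (s : ℂ) * (t : ℂ) * Complex.I +
        (t : ℂ) ^ 2 / 2)
    (f' := fun x : ℝ => (Complex.exp ((s : ℂ) * (x : ℂ) * Complex.I) - 1 - (s : ℂ) * (x : ℂ) * Complex.I) *
        ((s : ℂ) * Complex.I))
    (B := fun t : ℝ => t ^ 3 / 6) (B' := fun t : ℝ => t ^ 2 / 2) (a := 0) (b := t)
    (fun x _ => (hd x).continuousAt.continuousWithinAt) (fun x _ => (hd x).hasDerivWithinAt) ?_ ?_ ?_
    (Set.right_mem_Icc.mpr ht)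
  · simp
  · intro x
    have := (hasDerivAt_pow 3 x).div_const 6
    refine this.congr_deriv ?_
    norm_num
    ring
  · intro x hx
    rw [norm_mul, tc_s hs, mul_one]
    exact tc_two hs hx.1

/-- third order Taylor expansion of `e^(ix)` -/
theorem tc_taylor (x : ℝ) :
    ‖Complex.exp ((x : ℂ) * Complex.I) - (1 + (x : ℂ) * Complex.I - (x : ℂ) ^ 2 / 2)‖ ≤ |x| ^ 3 / 6 := by
  rcases le_or_gt 0 x with hx | hx
  · have h1 := tc_three (s := 1) (by norm_num) hx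
    rw [abs_of_nonneg hx]
    refine le_trans (le_of_eq ?_) h1
    congr 1
    push_cast
    rw [one_mul]
    ring
  · have h1 := tc_three (s := -1) (by norm_num) (t := -x) (by linarith)
    rw [abs_of_neg hx]
    refine le_trans (le_of_eq ?_) h1
    congr 1
    push_cast
    rw [show (-1 : ℂ) * -(x : ℂ) * Complex.I = (x : ℂ) * Complex.I by ring]
    ring

section
variable {b : ℕ} {B : ℝ} {g : ℝ[X]}

private noncomputable def pr (g : ℝ[X]) (r : ℝ) (k : ℕ) : ℝ := g.coeff k * r ^ k / g.eval r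

private theorem eval_sum (hg : Fac b B g) (r : ℝ) :
    g.eval r = ∑ k ∈ Finset.range (b + 1), g.coeff k * r ^ k :=
  eval_eq_sum_range' (Nat.lt_succ_of_le hg.deg) r

private theorem eval_ge (hg : Fac b B g) {r : ℝ} (hr : 0 < r) : 1 ≤ g.eval r := by
  rw [eval_sum hg]
  have h1 : g.coeff 0 * r ^ 0 ≤ ∑ k ∈ Finset.range (b + 1), g.coeff k * r ^ k :=
    Finset.single_le_sum (f := fun k => g.coeff k * r ^ k)
      (fun k _ => mul_nonneg (hg.nonneg k) (by positivity)) (Finset.mem_range.mpr (by omega))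
  rw [pow_zero, mul_one] at h1
  exact hg.c0.trans h1

private theorem pr_nonneg (hg : Fac b B g) {r : ℝ} (hr : 0 < r) (k : ℕ) : 0 ≤ pr g r k :=
  div_nonneg (mul_nonneg (hg.nonneg k) (by positivity)) (by linarith [eval_ge hg hr])

private theorem pr_sum (hg : Fac b B g) {r : ℝ} (hr : 0 < r) :
    ∑ k ∈ Finset.range (b + 1), pr g r k = 1 := by
  unfold pr
  rw [← Finset.sum_div, ← eval_sum hg, div_self (by linarith [eval_ge hg hr])]

private theorem pr_mean (hg : Fac b B g) (r : ℝ) :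
    ∑ k ∈ Finset.range (b + 1), pr g r k * k = Fm g r := by
  unfold pr Fm
  rw [Polynomial.derivative_eval, Polynomial.sum_over_range' _ _ (b + 1) (Nat.lt_succ_of_le hg.deg),
    Finset.mul_sum, Finset.sum_div]
  · refine Finset.sum_congr rfl fun k _ => ?_
    rcases k with _ | k
    · simp
    · rw [Nat.add_sub_cancel, pow_succ]
      ring
  · intro n
    simp

private theorem mean_bounds (hg : Fac b B g) {r : ℝ} (hr : 0 < r) : 0 ≤ Fm g r ∧ Fm g r ≤ b := by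
  rw [← pr_mean hg r]
  constructor
  · exact Finset.sum_nonneg fun k _ => mul_nonneg (pr_nonneg hg hr k) (by positivity)
  · calc ∑ k ∈ Finset.range (b + 1), pr g r k * (k : ℝ)
        ≤ ∑ k ∈ Finset.range (b + 1), pr g r k * (b : ℝ) := by
          refine Finset.sum_le_sum fun k hk => mul_le_mul_of_nonneg_left ?_ (pr_nonneg hg hr k)
          have := Finset.mem_range.mp hk
          exact_mod_cast Nat.lt_succ_iff.mp this
      _ = b := by rw [← Finset.sum_mul, pr_sum hg hr, one_mul]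

private theorem dev_le (hg : Fac b B g) {r : ℝ} (hr : 0 < r) {k : ℕ} (hk : k ∈ Finset.range (b + 1)) :
    |(k : ℝ) - Fm g r| ≤ b := by
  obtain ⟨h1, h2⟩ := mean_bounds hg hr
  have h3 : (k : ℝ) ≤ b := by
    have := Finset.mem_range.mp hk
    exact_mod_cast Nat.lt_succ_iff.mp this
  have h4 : (0 : ℝ) ≤ k := by positivity
  rw [abs_le]
  constructor <;> linarith

private theorem phi_sum (hg : Fac b B g) (r θ : ℝ) :
    phi g r θ = ∑ k ∈ Finset.range (b + 1), ((pr g r k : ℝ) : ℂ) *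
      Complex.exp (((θ * ((k : ℝ) - Fm g r) : ℝ) : ℂ) * Complex.I) := by
  unfold phi
  rw [aeval_eq_sum_range' (Nat.lt_succ_of_le hg.deg), Finset.sum_mul, Finset.sum_div]
  refine Finset.sum_congr rfl fun k _ => ?_
  unfold pr
  rw [mul_pow, ← Complex.exp_nat_mul, Complex.real_smul]
  have h1 : Complex.exp (((θ * ((k : ℝ) - Fm g r) : ℝ) : ℂ) * Complex.I) =
      Complex.exp ((k : ℂ) * ((θ : ℂ) * Complex.I)) *
        Complex.exp (-((θ : ℂ) * (Fm g r : ℂ) * Complex.I)) := by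
    rw [← Complex.exp_add]
    congr 1
    push_cast
    ring
  rw [h1]
  push_cast
  ring

/-- `phi = Σ_k p_k e^(iθ(k - F))`, `p_k = g_k r^k / g(r)`, `|k - F| ≤ b`, mean `0`, `v = Σ p_k (k - F)²`;
Taylor to third order -/
theorem phi_approx {b : ℕ} {B : ℝ} {g : ℝ[X]} (hg : Fac b B g) {r : ℝ} (hr : 0 < r) :
    ∃ v : ℝ, 0 ≤ v ∧ v ≤ (b : ℝ) ^ 2 ∧
      ∀ θ : ℝ, ‖phi g r θ - (1 - v * θ ^ 2 / 2 : ℝ)‖ ≤ (b * |θ|) ^ 3 / 6 := by
  obtain ⟨F, hF⟩ : ∃ F, F = Fm g r := ⟨_, rfl⟩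
  refine ⟨∑ k ∈ Finset.range (b + 1), pr g r k * ((k : ℝ) - F) ^ 2, ?_, ?_, ?_⟩
  · exact Finset.sum_nonneg fun k _ => mul_nonneg (pr_nonneg hg hr k) (by positivity)
  · calc ∑ k ∈ Finset.range (b + 1), pr g r k * ((k : ℝ) - F) ^ 2
        ≤ ∑ k ∈ Finset.range (b + 1), pr g r k * (b : ℝ) ^ 2 := by
          refine Finset.sum_le_sum fun k hk => mul_le_mul_of_nonneg_left ?_ (pr_nonneg hg hr k)
          have := dev_le hg hr hk
          rw [← hF] at this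
          rw [← sq_abs]
          exact pow_le_pow_left₀ (abs_nonneg _) this 2
      _ = (b : ℝ) ^ 2 := by rw [← Finset.sum_mul, pr_sum hg hr, one_mul]
  · intro θ
    have hmean : ∑ k ∈ Finset.range (b + 1), pr g r k * (θ * ((k : ℝ) - F)) = 0 := by
      have h1 : ∑ k ∈ Finset.range (b + 1), pr g r k * (θ * ((k : ℝ) - F)) =
          θ * (∑ k ∈ Finset.range (b + 1), pr g r k * (k : ℝ) -
            (∑ k ∈ Finset.range (b + 1), pr g r k) * F) := by
        rw [Finset.sum_mul, ← Finset.sum_sub_distrib, Finset.mul_sum]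
        refine Finset.sum_congr rfl fun k _ => ?_
        ring
      rw [h1, pr_mean hg, pr_sum hg hr, hF]
      ring
    have hreal : (1 - (∑ k ∈ Finset.range (b + 1), pr g r k * ((k : ℝ) - F) ^ 2) * θ ^ 2 / 2 : ℝ) =
        ∑ k ∈ Finset.range (b + 1), pr g r k * (1 - (θ * ((k : ℝ) - F)) ^ 2 / 2) := by
      have h1 : ∑ k ∈ Finset.range (b + 1), pr g r k * (1 - (θ * ((k : ℝ) - F)) ^ 2 / 2) =
          ∑ k ∈ Finset.range (b + 1), pr g r k -
            ∑ k ∈ Finset.range (b + 1), pr g r k * ((k : ℝ) - F) ^ 2 * (θ ^ 2 / 2) := by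
        rw [← Finset.sum_sub_distrib]
        refine Finset.sum_congr rfl fun k _ => ?_
        ring
      rw [h1, pr_sum hg hr, ← Finset.sum_mul]
      ring
    have hc : ((1 - (∑ k ∈ Finset.range (b + 1), pr g r k * ((k : ℝ) - F) ^ 2) * θ ^ 2 / 2 : ℝ) : ℂ) =
        ∑ k ∈ Finset.range (b + 1), ((pr g r k : ℝ) : ℂ) *
          (1 + ((θ * ((k : ℝ) - F) : ℝ) : ℂ) * Complex.I - ((θ * ((k : ℝ) - F) : ℝ) : ℂ) ^ 2 / 2) := by
      rw [hreal]
      have h2 : ∑ k ∈ Finset.range (b + 1), ((pr g r k : ℝ) : ℂ) *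
          (1 + ((θ * ((k : ℝ) - F) : ℝ) : ℂ) * Complex.I - ((θ * ((k : ℝ) - F) : ℝ) : ℂ) ^ 2 / 2) =
          ((∑ k ∈ Finset.range (b + 1), pr g r k * (1 - (θ * ((k : ℝ) - F)) ^ 2 / 2) : ℝ) : ℂ) +
          ((∑ k ∈ Finset.range (b + 1), pr g r k * (θ * ((k : ℝ) - F)) : ℝ) : ℂ) * Complex.I := by
        rw [Complex.ofReal_sum, Complex.ofReal_sum, Finset.sum_mul, ← Finset.sum_add_distrib]
        refine Finset.sum_congr rfl fun k _ => ?_
        push_cast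
        ring
      rw [h2, hmean]
      simp
    rw [hc, phi_sum hg r θ, ← hF, ← Finset.sum_sub_distrib]
    refine (norm_sum_le _ _).trans ?_
    calc ∑ k ∈ Finset.range (b + 1), ‖((pr g r k : ℝ) : ℂ) *
          Complex.exp (((θ * ((k : ℝ) - F) : ℝ) : ℂ) * Complex.I) - ((pr g r k : ℝ) : ℂ) *
          (1 + ((θ * ((k : ℝ) - F) : ℝ) : ℂ) * Complex.I - ((θ * ((k : ℝ) - F) : ℝ) : ℂ) ^ 2 / 2)‖
        ≤ ∑ k ∈ Finset.range (b + 1), pr g r k * ((b * |θ|) ^ 3 / 6) := by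
          refine Finset.sum_le_sum fun k hk => ?_
          rw [← mul_sub, norm_mul, Complex.norm_real, Real.norm_of_nonneg (pr_nonneg hg hr k)]
          refine mul_le_mul_of_nonneg_left ?_ (pr_nonneg hg hr k)
          refine (tc_taylor _).trans ?_
          have h1 := dev_le hg hr hk
          rw [← hF] at h1
          have h2 : |θ * ((k : ℝ) - F)| ≤ b * |θ| := by
            rw [abs_mul, mul_comm]
            exact mul_le_mul_of_nonneg_right h1 (abs_nonneg θ)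
          have h3 := pow_le_pow_left₀ (abs_nonneg _) h2 3
          linarith
      _ = (b * |θ|) ^ 3 / 6 := by rw [← Finset.sum_mul, pr_sum hg hr, one_mul]

/-- `1 - (bθ)²/2 - (b|θ|)³/6 ≥ 1 - (bθ)²` for `b|θ| ≤ 1` -/
theorem le_phi_norm {b : ℕ} {B : ℝ} {g : ℝ[X]} (hg : Fac b B g) {r : ℝ} (hr : 0 < r) {θ : ℝ}
    (hθ : b * |θ| ≤ 1) : 1 - (b * |θ|) ^ 2 ≤ ‖phi g r θ‖ := by
  obtain ⟨v, hv0, hv1, hv2⟩ := phi_approx hg hr
  have h1 := hv2 θ
  have h2 : ‖((1 - v * θ ^ 2 / 2 : ℝ) : ℂ)‖ ≤ ‖phi g r θ‖ + (b * |θ|) ^ 3 / 6 := by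
    have h3 : ((1 - v * θ ^ 2 / 2 : ℝ) : ℂ) = phi g r θ - (phi g r θ - (1 - v * θ ^ 2 / 2 : ℝ)) := by ring
    calc ‖((1 - v * θ ^ 2 / 2 : ℝ) : ℂ)‖ = ‖phi g r θ - (phi g r θ - (1 - v * θ ^ 2 / 2 : ℝ))‖ := by
          rw [← h3]
      _ ≤ ‖phi g r θ‖ + ‖phi g r θ - (1 - v * θ ^ 2 / 2 : ℝ)‖ := norm_sub_le _ _
      _ ≤ _ := by linarith
  have h3 : (1 - v * θ ^ 2 / 2 : ℝ) ≤ ‖((1 - v * θ ^ 2 / 2 : ℝ) : ℂ)‖ := by
    rw [Complex.norm_real]
    exact le_abs_self _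
  obtain ⟨y, hy⟩ : ∃ y, y = (b : ℝ) * |θ| := ⟨_, rfl⟩
  have hy0 : 0 ≤ y := by rw [hy]; positivity
  have h4 : v * θ ^ 2 ≤ y ^ 2 := by
    rw [hy, mul_pow, sq_abs]
    exact mul_le_mul_of_nonneg_right hv1 (sq_nonneg θ)
  rw [← hy] at h1 h2 hθ ⊢
  have h5 : y ^ 3 ≤ y ^ 2 := by
    have : y ^ 3 = y ^ 2 * y := by ring
    rw [this]
    exact mul_le_of_le_one_right (sq_nonneg y) hθ
  have h6 : 0 ≤ y ^ 2 := sq_nonneg y
  linarith

end

end Pool.HB45
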