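import Pool.Agent.HB45.TB
import Pool.Agent.HB45.TC1
import Pool.Agent.HB45.PhiNorm

set_option autoImplicit false

/-!
# HB45/TC: one factor on a circle (`phi_approx`, `le_phi_norm` are in `TC1`, `phi_norm_le` in `PhiNorm`)
-/

open Polynomial

namespace Pool.HB45

/-- distance of `z` to `|z|` in the right half plane -/
theorem norm_sub_norm_sq_le {z : ℂ} (hz : 0 ≤ z.re) : ‖z - ‖z‖‖ ^ 2 ≤ 2 * z.im ^ 2 := by
  have h1 : ‖z‖ ^ 2 = z.re ^ 2 + z.im ^ 2 := by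
    rw [Complex.sq_norm, Complex.normSq_apply]
    ring
  have h2 : ‖z - ‖z‖‖ ^ 2 = (z.re - ‖z‖) ^ 2 + z.im ^ 2 := by
    rw [Complex.sq_norm, Complex.normSq_apply]
    simp
    ring
  have h3 : z.re ≤ ‖z‖ := Complex.re_le_norm z
  rw [h2]
  nlinarith [mul_nonneg hz (sub_nonneg.2 h3)]

/-- phase of one factor: `Re phi ≥ 1/2`, `|Im phi| ≤ (b|θ|)³/6` for `b|θ| ≤ 1/2`;
`|u - 1| ≤ √2 |Im u|` for a unit vector `u` with `Re u ≥ 0` -/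
theorem phi_phase {b : ℕ} {B : ℝ} {g : ℝ[X]} (hg : Fac b B g) {r : ℝ} (hr : 0 < r) {θ : ℝ}
    (hθ : b * |θ| ≤ 1 / 2) : ‖phi g r θ - ‖phi g r θ‖‖ ≤ (b * |θ|) ^ 3 / 2 * ‖phi g r θ‖ := by
  obtain ⟨v, hv0, hv1, hv2⟩ := phi_approx hg hr
  have h1 := hv2 θ
  obtain ⟨y, hy⟩ : ∃ y, y = (b : ℝ) * |θ| := ⟨_, rfl⟩
  have hy0 : 0 ≤ y := by rw [hy]; positivity
  have h4 : v * θ ^ 2 ≤ y ^ 2 := by
    rw [hy, mul_pow, sq_abs]
    exact mul_le_mul_of_nonneg_right hv1 (sq_nonneg θ)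
  rw [← hy] at h1 hθ ⊢
  generalize phi g r θ = z at h1 ⊢
  have him : |z.im| ≤ y ^ 3 / 6 := by
    have h2 := Complex.abs_im_le_norm (z - (1 - v * θ ^ 2 / 2 : ℝ))
    rw [Complex.sub_im, Complex.ofReal_im, sub_zero] at h2
    exact h2.trans h1
  have hre : 1 - v * θ ^ 2 / 2 - y ^ 3 / 6 ≤ z.re := by
    have h2 := Complex.abs_re_le_norm (z - (1 - v * θ ^ 2 / 2 : ℝ))
    rw [Complex.sub_re, Complex.ofReal_re] at h2
    have h3 := (abs_le.1 (h2.trans h1)).1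
    linarith
  have hy2 : y ^ 2 ≤ 1 / 4 := by nlinarith
  have hy3 : y ^ 3 ≤ 1 / 8 := by
    have : y ^ 3 = y * y ^ 2 := by ring
    rw [this]
    nlinarith
  have hy30 : 0 ≤ y ^ 3 := by positivity
  have hre2 : 3 / 4 ≤ z.re := by linarith
  have hzn : 3 / 4 ≤ ‖z‖ := hre2.trans (Complex.re_le_norm z)
  have h5 := norm_sub_norm_sq_le (z := z) (by linarith)
  have h6 : z.im ^ 2 ≤ (y ^ 3 / 6) ^ 2 := by
    rw [← sq_abs]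
    exact pow_le_pow_left₀ (abs_nonneg _) him 2
  have h7 : ‖z - ‖z‖‖ ^ 2 ≤ (y ^ 3 / 2 * ‖z‖) ^ 2 := by
    have h8 : (9 / 16 : ℝ) ≤ ‖z‖ ^ 2 := by nlinarith
    have h9 : (y ^ 3 / 2 * ‖z‖) ^ 2 = (y ^ 3) ^ 2 / 4 * ‖z‖ ^ 2 := by ring
    have h10 : (y ^ 3) ^ 2 / 4 * (9 / 16) ≤ (y ^ 3) ^ 2 / 4 * ‖z‖ ^ 2 :=
      mul_le_mul_of_nonneg_left h8 (by positivity)
    rw [h9]
    have h11 : (y ^ 3 / 6) ^ 2 = (y ^ 3) ^ 2 / 36 := by ring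
    have h12 : 0 ≤ (y ^ 3) ^ 2 := by positivity
    linarith
  exact (pow_le_pow_iff_left₀ (norm_nonneg _) (by positivity) (two_ne_zero)).1 h7

end Pool.HB45
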