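import Pool.Agent.HB45.TDnear
import Pool.Agent.HB45.Numbers

set_option autoImplicit false

/-!
# HB45/TD: positivity of the tail integral
-/

open Polynomial

namespace Pool.HB45

private theorem phi_cont (g : ℝ[X]) (r : ℝ) : Continuous (phi g r) := by
  unfold phi
  have h1 : Continuous fun θ : ℝ => aeval ((r : ℂ) * Complex.exp (θ * Complex.I)) g :=
    (Polynomial.continuous_aeval g).comp (by fun_prop)
  fun_prop

/-- TAIL INTEGRAL. On `|θ| ≤ t` the integrand is `≥ (1-r)/2 ∏ ‖phi‖ ≥ 0`, on `|θ| ≤ a` it is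
`≥ (ρ/2)(1/4)`, on `t ≤ |θ| ≤ π` it is `≥ -2 exp (-(c m (1 - cos t)))`, `c = r0/B²`. -/
theorem tail_integral (b : ℕ) (B r0 ρ : ℝ) (hb : 1 ≤ b) (hB : 1 ≤ B) (hr0 : 0 < r0) (hρ : 0 < ρ) :
    ∃ m0 : ℕ, ∀ m ≥ m0, ∀ (g : Fin m → ℝ[X]), (∀ i, Fac b B (g i)) → ∀ r, r0 ≤ r → r ≤ 1 - ρ →
      0 < ∫ θ in (-Real.pi)..Real.pi,
        ((∏ i, phi (g i) r θ) * (Complex.exp (-(θ * Complex.I)) - r)).re := by
  have hc : 0 < r0 / B ^ 2 := by positivity
  obtain ⟨m0, hm0⟩ := numbers b (r0 / B ^ 2) ρ hb hc hρ
  refine ⟨m0, fun m hm g hg r hr hr1 => ?_⟩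
  obtain ⟨t, a, ha, hat, ht1, hbt, hmt, htρ, hquart, hba, hfin⟩ := hm0 m hm
  set c : ℝ := r0 / B ^ 2 with hcdef
  have hrpos : 0 < r := lt_of_lt_of_le hr0 hr
  have hr1' : r ≤ 1 := by linarith
  have ht0 : 0 < t := lt_of_lt_of_le ha hat
  have hpi := Real.pi_gt_three
  have hbR : (0 : ℝ) ≤ (b : ℝ) := Nat.cast_nonneg b
  set f : ℝ → ℝ := fun θ => ((∏ i, phi (g i) r θ) * (Complex.exp (-(θ * Complex.I)) - r)).re with hf
  set E : ℝ := Real.exp (-(c * m * (1 - Real.cos t))) with hE
  have hE0 : 0 < E := Real.exp_pos _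
  have hcont : Continuous f := by
    apply Complex.continuous_re.comp
    apply Continuous.mul
    · exact continuous_finsetProd _ fun i _ => phi_cont (g i) r
    · fun_prop
  -- near
  have near : ∀ θ : ℝ, |θ| ≤ t → (1 - r) / 2 * ∏ i, ‖phi (g i) r θ‖ ≤ f θ := by
    intro θ hθ
    have hx : b * |θ| ≤ b * t := mul_le_mul_of_nonneg_left hθ hbR
    have hx0 : 0 ≤ b * |θ| := by positivity
    refine near_re g hg hrpos hr1' (hx.trans hbt) ?_ ?_
    · refine le_trans ?_ hmt
      apply mul_le_mul_of_nonneg_left _ (Nat.cast_nonneg m)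
      exact pow_le_pow_left₀ hx0 hx 3
    · linarith
  have near0 : ∀ θ : ℝ, |θ| ≤ t → 0 ≤ f θ := by
    intro θ hθ
    refine le_trans ?_ (near θ hθ)
    apply mul_nonneg (by linarith)
    exact Finset.prod_nonneg fun i _ => norm_nonneg _
  -- on the small interval
  have small : ∀ θ : ℝ, |θ| ≤ a → 1 / 4 * (ρ / 2) ≤ f θ := by
    intro θ hθ
    refine le_trans ?_ (near θ (hθ.trans hat))
    have hx : b * |θ| ≤ b * a := mul_le_mul_of_nonneg_left hθ hbR
    have hx0 : 0 ≤ b * |θ| := by positivity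
    have hx1 : (b * |θ|) ^ 2 ≤ (b * a) ^ 2 := pow_le_pow_left₀ hx0 hx 2
    have hle1 : b * |θ| ≤ 1 := by
      have : (b : ℝ) * a ≤ b * t := mul_le_mul_of_nonneg_left hat hbR
      linarith
    have hprod : 1 / 4 ≤ ∏ i, ‖phi (g i) r θ‖ := by
      refine hquart.trans ?_
      calc (1 - (b * a) ^ 2) ^ m = ∏ _i : Fin m, (1 - (b * a) ^ 2) := by simp
        _ ≤ ∏ i : Fin m, ‖phi (g i) r θ‖ := by
          apply Finset.prod_le_prod
          · intro i _
            linarith
          · intro i _
            have := le_phi_norm (hg i) hrpos hle1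
            linarith
    have h2 : ρ / 2 ≤ (1 - r) / 2 := by linarith
    calc 1 / 4 * (ρ / 2) = ρ / 2 * (1 / 4) := by ring
      _ ≤ (1 - r) / 2 * ∏ i, ‖phi (g i) r θ‖ := by
        apply mul_le_mul h2 hprod (by norm_num) (by linarith)
  -- far
  have far : ∀ θ : ℝ, |θ| ≤ Real.pi → -(2 * E) ≤ f θ := by
    intro θ hθ
    rcases le_or_gt |θ| t with h | h
    · have := near0 θ h
      linarith
    · have hprod : ∏ i, ‖phi (g i) r θ‖ ≤ E := by
        calc ∏ i, ‖phi (g i) r θ‖ ≤ ∏ _i : Fin m, Real.exp (-(c * (1 - Real.cos θ))) := by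
              apply Finset.prod_le_prod
              · intro i _
                exact norm_nonneg _
              · intro i _
                exact phi_norm_le (hg i) hr0 hr hr1' θ
          _ = Real.exp (-(c * m * (1 - Real.cos θ))) := by
              rw [Finset.prod_const, Finset.card_univ, Fintype.card_fin, ← Real.exp_nat_mul]
              congr 1
              ring
          _ ≤ E := by
              rw [hE]
              apply Real.exp_le_exp.2
              have hcos : Real.cos θ ≤ Real.cos t := by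
                rw [← Real.cos_abs θ]
                exact Real.cos_le_cos_of_nonneg_of_le_pi ht0.le hθ h.le
              have : 0 ≤ c * m := by positivity
              nlinarith
      have hnorm : ‖(∏ i, phi (g i) r θ) * (Complex.exp (-(θ * Complex.I)) - r)‖ ≤ 2 * E := by
        rw [norm_mul, norm_prod]
        have h2 : ‖Complex.exp (-(θ * Complex.I)) - r‖ ≤ 2 := by
          refine (norm_sub_le _ _).trans ?_
          have e : -(θ * Complex.I) = ((-θ : ℝ) : ℂ) * Complex.I := by push_cast; ring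
          rw [e, Complex.norm_exp_ofReal_mul_I, Complex.norm_real, Real.norm_of_nonneg hrpos.le]
          linarith
        calc (∏ i, ‖phi (g i) r θ‖) * ‖Complex.exp (-(θ * Complex.I)) - r‖ ≤ E * 2 := by
              apply mul_le_mul hprod h2 (norm_nonneg _) hE0.le
          _ = 2 * E := by ring
      have := (abs_le.mp ((Complex.abs_re_le_norm _).trans hnorm)).1
      exact this
  -- the three integrals
  have hint : ∀ u v : ℝ, IntervalIntegrable f MeasureTheory.volume u v := fun u v =>
    hcont.intervalIntegrable u v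
  have hap : a ≤ Real.pi := by linarith
  have i1 : (Real.pi - a) * (-(2 * E)) ≤ ∫ θ in (-Real.pi)..(-a), f θ := by
    have h := intervalIntegral.integral_mono_on (a := -Real.pi) (b := -a)
      (f := fun _ => -(2 * E)) (g := f) (μ := MeasureTheory.volume) (by linarith)
      intervalIntegrable_const (hint _ _) (fun θ hθ => far θ (by
        rw [abs_le]; exact ⟨hθ.1, by linarith [hθ.2]⟩))
    rw [intervalIntegral.integral_const, smul_eq_mul] at h
    have e : (-a - -Real.pi) * (-(2 * E)) = (Real.pi - a) * (-(2 * E)) := by ring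
    rw [e] at h
    exact h
  have i2 : (2 * a) * (1 / 4 * (ρ / 2)) ≤ ∫ θ in (-a)..a, f θ := by
    have h := intervalIntegral.integral_mono_on (a := -a) (b := a)
      (f := fun _ => 1 / 4 * (ρ / 2)) (g := f) (μ := MeasureTheory.volume) (by linarith)
      intervalIntegrable_const (hint _ _) (fun θ hθ => small θ (by
        rw [abs_le]; exact ⟨hθ.1, hθ.2⟩))
    rw [intervalIntegral.integral_const, smul_eq_mul] at h
    have e : (a - -a) * (1 / 4 * (ρ / 2)) = (2 * a) * (1 / 4 * (ρ / 2)) := by ring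
    rw [e] at h
    exact h
  have i3 : (Real.pi - a) * (-(2 * E)) ≤ ∫ θ in a..Real.pi, f θ := by
    have h := intervalIntegral.integral_mono_on (a := a) (b := Real.pi)
      (f := fun _ => -(2 * E)) (g := f) (μ := MeasureTheory.volume) hap
      intervalIntegrable_const (hint _ _) (fun θ hθ => far θ (by
        rw [abs_le]; exact ⟨by linarith [hθ.1], hθ.2⟩))
    rw [intervalIntegral.integral_const, smul_eq_mul] at h
    exact h
  have hsplit : ∫ θ in (-Real.pi)..Real.pi, f θ =
      (∫ θ in (-Real.pi)..(-a), f θ) + (∫ θ in (-a)..a, f θ) + ∫ θ in a..Real.pi, f θ := by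
    rw [intervalIntegral.integral_add_adjacent_intervals (hint _ _) (hint _ _),
      intervalIntegral.integral_add_adjacent_intervals (hint _ _) (hint _ _)]
  rw [hsplit]
  have haE : 0 < a * E := mul_pos ha hE0
  nlinarith

end Pool.HB45
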