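import Pool.Agent.HB45.TC

set_option autoImplicit false

/-!
# HB45/TDnear: the integrand near `θ = 0`
-/

open Polynomial

namespace Pool.HB45

/-- a product of complex numbers close to their norms is close to the product of the norms -/
lemma prod_sub_norm_le {ι : Type} (s : Finset ι) (f : ι → ℂ) {x : ℝ}
    (h : ∀ i, ‖f i - ‖f i‖‖ ≤ x * ‖f i‖) :
    ‖(∏ i ∈ s, f i) - (∏ i ∈ s, ‖f i‖ : ℝ)‖ ≤ s.card * x * ∏ i ∈ s, ‖f i‖ := by
  classical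
  induction s using Finset.induction_on with
  | empty => simp
  | insert a s ha ih =>
    rw [Finset.prod_insert ha, Finset.prod_insert ha, Finset.card_insert_of_notMem ha]
    have hP : 0 ≤ ∏ i ∈ s, ‖f i‖ := Finset.prod_nonneg fun i _ => norm_nonneg _
    have e : f a * ∏ i ∈ s, f i - ((‖f a‖ * ∏ i ∈ s, ‖f i‖ : ℝ) : ℂ) =
        f a * (∏ i ∈ s, f i - ((∏ i ∈ s, ‖f i‖ : ℝ) : ℂ)) +
          (f a - ‖f a‖) * ((∏ i ∈ s, ‖f i‖ : ℝ) : ℂ) := by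
      push_cast
      ring
    rw [e]
    calc _ ≤ ‖f a * (∏ i ∈ s, f i - ((∏ i ∈ s, ‖f i‖ : ℝ) : ℂ))‖ +
          ‖(f a - ‖f a‖) * ((∏ i ∈ s, ‖f i‖ : ℝ) : ℂ)‖ := norm_add_le _ _
      _ ≤ ‖f a‖ * (s.card * x * ∏ i ∈ s, ‖f i‖) + x * ‖f a‖ * ∏ i ∈ s, ‖f i‖ := by
          rw [norm_mul, norm_mul, Complex.norm_real, Real.norm_of_nonneg hP]
          exact add_le_add (mul_le_mul_of_nonneg_left ih (norm_nonneg _))
            (mul_le_mul_of_nonneg_right (h a) hP)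
      _ = _ := by push_cast; ring

/-- `∏ phi = (1 + ε) ∏ ‖phi‖` with `|ε| ≤ m (b|θ|)³ / 2 ≤ 1/4`, `e^(-iθ) - r = (1 - r) + ε'`,
`|ε'| ≤ |θ| ≤ (1 - r)/8`; `1 - 1/8 - (1/4)(9/8) ≥ 1/2` -/
theorem near_re {b : ℕ} {B : ℝ} {m : ℕ} (g : Fin m → ℝ[X]) (hg : ∀ i, Fac b B (g i)) {r : ℝ}
    (hr : 0 < r) (hr1 : r ≤ 1) {θ : ℝ} (hθ : b * |θ| ≤ 1 / 2) (hm : (m : ℝ) * (b * |θ|) ^ 3 ≤ 1 / 2)
    (h8 : |θ| ≤ (1 - r) / 8) :
    (1 - r) / 2 * ∏ i, ‖phi (g i) r θ‖ ≤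
      ((∏ i, phi (g i) r θ) * (Complex.exp (-(θ * Complex.I)) - r)).re := by
  have hb : 0 ≤ (b : ℝ) * |θ| := by positivity
  have h1 := prod_sub_norm_le Finset.univ (fun i => phi (g i) r θ)
    (fun i => phi_phase (hg i) hr hθ)
  rw [Finset.card_univ, Fintype.card_fin] at h1
  set P : ℝ := ∏ i, ‖phi (g i) r θ‖ with hP
  set F : ℂ := ∏ i, phi (g i) r θ with hF
  have hP0 : 0 ≤ P := Finset.prod_nonneg fun i _ => norm_nonneg _
  have h2 : ‖F - (P : ℂ)‖ ≤ 1 / 4 * P := by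
    refine h1.trans (mul_le_mul_of_nonneg_right ?_ hP0)
    linarith
  have h3 : ‖Complex.exp (-(θ * Complex.I)) - 1‖ ≤ |θ| := by
    have := @Real.norm_exp_I_mul_ofReal_sub_one_le (-θ)
    have e : Complex.I * ((-θ : ℝ) : ℂ) = -(θ * Complex.I) := by push_cast; ring
    rw [e, Real.norm_eq_abs, abs_neg] at this
    exact this
  set w : ℂ := Complex.exp (-(θ * Complex.I)) - 1 with hw
  have e1 : F * (Complex.exp (-(θ * Complex.I)) - r) =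
      ((P * (1 - r) : ℝ) : ℂ) + ((P : ℂ) * w + (F - P) * (((1 - r : ℝ) : ℂ) + w)) := by
    rw [hw]
    push_cast
    ring
  have h4 : ‖(P : ℂ) * w + (F - P) * (((1 - r : ℝ) : ℂ) + w)‖ ≤
      P * |θ| + 1 / 4 * P * ((1 - r) + |θ|) := by
    refine (norm_add_le _ _).trans ?_
    rw [norm_mul, norm_mul, Complex.norm_real, Real.norm_of_nonneg hP0]
    refine add_le_add (mul_le_mul_of_nonneg_left h3 hP0) ?_
    refine mul_le_mul h2 ?_ (norm_nonneg _) (by positivity)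
    refine (norm_add_le _ _).trans ?_
    rw [Complex.norm_real, Real.norm_of_nonneg (by linarith : (0 : ℝ) ≤ 1 - r)]
    linarith
  have h5 : -(P * |θ| + 1 / 4 * P * ((1 - r) + |θ|)) ≤
      ((P : ℂ) * w + (F - P) * (((1 - r : ℝ) : ℂ) + w)).re := by
    have := (abs_le.mp (Complex.abs_re_le_norm
      ((P : ℂ) * w + (F - P) * (((1 - r : ℝ) : ℂ) + w)))).1
    linarith
  rw [e1, Complex.add_re, Complex.ofReal_re]
  have h6 : P * |θ| ≤ P * ((1 - r) / 8) := mul_le_mul_of_nonneg_left h8 hP0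
  have h7 : 0 ≤ P * (1 - r) := mul_nonneg hP0 (by linarith)
  nlinarith

end Pool.HB45
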