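import Pool.Agent.HB45.TA
import Pool.Agent.HB45.TD
import Pool.Agent.HB45.CentA

set_option autoImplicit false

/-!
# HB45/TE: the tail of a product of many bounded polynomials
-/

open Polynomial

namespace Pool.HB45

/-- a factor has degree at least `1` and value at `1` at least `2` -/
theorem fac_bounds {b : ℕ} {B : ℝ} {g : ℝ[X]} (hg : Fac b B g) : 1 ≤ b ∧ 2 ≤ B := by
  have h1 : g.coeff 1 ≠ 0 := by
    have := hg.c1
    intro h
    rw [h] at this
    linarith
  have h2 : 1 ≤ g.natDegree := le_natDegree_of_ne_zero h1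
  refine ⟨h2.trans hg.deg, le_trans ?_ hg.le⟩
  rw [eval_eq_sum_range]
  have h3 : ∑ i ∈ Finset.range 2, g.coeff i * 1 ^ i ≤
      ∑ i ∈ Finset.range (g.natDegree + 1), g.coeff i * 1 ^ i :=
    Finset.sum_le_sum_of_subset_of_nonneg (Finset.range_mono (by omega))
      fun i _ _ => by rw [one_pow, mul_one]; exact hg.nonneg i
  rw [Finset.sum_range_succ, Finset.sum_range_one] at h3
  have := hg.c0
  have := hg.c1
  linarith

/-- PROOF. `η = 1/(2(B+1))`, `r0 = η/(bB)`, `ρ = δ/(b²B)`. If `j ≤ η m` use `extreme`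
(`(B+1) j + B ≤ m/2 + B ≤ m`). Otherwise `tilt_exists` gives `r` with `Σ Fm (g i) r = j`; by `first_diff`
(`A = ∏ g i`) `(p_(j+1) - p_j) r^(j+1) 2π = (∏ g i)(r) ∫ Re (∏ phi (e^(-iθ) - r)) > 0`. -/
theorem tail_prod (b : ℕ) (B δ : ℝ) (hδ : 0 < δ) :
    ∃ m0 : ℕ, ∀ m ≥ m0, ∀ (g : Fin m → ℝ[X]), (∀ i, Fac b B (g i)) → ∀ j : ℕ,
      (j : ℝ) + δ * m ≤ ∑ i, Fm (g i) 1 → (∏ i, g i).coeff j ≤ (∏ i, g i).coeff (j + 1) := by
  by_cases hbB : 1 ≤ b ∧ 2 ≤ B
  swap
  · refine ⟨1, fun m hm g hg => ?_⟩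
    exact absurd (fac_bounds (hg ⟨0, by omega⟩)) hbB
  obtain ⟨hb, hB⟩ := hbB
  have hb0 : (0 : ℝ) < b := by exact_mod_cast hb
  have hη : (0 : ℝ) < 1 / (2 * (B + 1)) := by positivity
  have hr0 : 0 < 1 / (2 * (B + 1)) / ((b : ℝ) * B) := by positivity
  have hρ : 0 < δ / ((b : ℝ) ^ 2 * B) := by positivity
  obtain ⟨m1, hm1⟩ := tail_integral b B _ _ hb (by linarith) hr0 hρ
  obtain ⟨m2, hm2⟩ := exists_nat_ge (2 * B)
  refine ⟨m1 + m2 + 1, fun m hm g hg j hj => ?_⟩
  have hmpos : 0 < m := by omega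
  have hmB : 2 * B ≤ m := hm2.trans (by exact_mod_cast (by omega : m2 ≤ m))
  rcases le_or_gt (j : ℝ) (1 / (2 * (B + 1)) * m) with hjm | hjm
  · refine extreme g hg j hmpos ?_
    have h1 : (B + 1) * (j : ℝ) ≤ m / 2 := by
      calc (B + 1) * (j : ℝ) ≤ (B + 1) * (1 / (2 * (B + 1)) * m) :=
            mul_le_mul_of_nonneg_left hjm (by linarith)
        _ = m / 2 := by
            field_simp
    nlinarith
  · obtain ⟨r, hr1, hr2, hr3⟩ := tilt_exists hη hδ hmpos g hg j hjm.le hj
    have hr : 0 < r := hr0.trans_le hr1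
    have hint := hm1 m (by omega) g hg r hr1 hr2
    have hA : 0 < (∏ i, g i).eval r := by
      rw [eval_prod]
      exact Finset.prod_pos fun i _ => lt_of_lt_of_le one_pos ((hg i).eval_pos hr.le)
    have hfd := first_diff (∏ i, g i) r j
    have hEq : ∀ θ : ℝ, (aeval ((r : ℂ) * Complex.exp (θ * Complex.I)) (∏ i, g i) *
        Complex.exp (-(j * θ * Complex.I)) * (Complex.exp (-(θ * Complex.I)) - r)).re =
        (∏ i, g i).eval r * ((∏ i, phi (g i) r θ) * (Complex.exp (-(θ * Complex.I)) - r)).re := by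
      intro θ
      have h1 : ∏ i, phi (g i) r θ = aeval ((r : ℂ) * Complex.exp (θ * Complex.I)) (∏ i, g i) *
          Complex.exp (-(j * θ * Complex.I)) / (((∏ i, g i).eval r : ℝ) : ℂ) := by
        unfold phi
        rw [Finset.prod_div_distrib, Finset.prod_mul_distrib, map_prod, eval_prod,
          Complex.ofReal_prod, ← Complex.exp_sum, Finset.sum_neg_distrib, ← Finset.sum_mul,
          ← Finset.mul_sum, ← Complex.ofReal_sum, hr3]
        congr 4
        push_cast
        ring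
      have hne : (((∏ i, g i).eval r : ℝ) : ℂ) ≠ 0 := by
        exact_mod_cast hA.ne'
      have h2 : aeval ((r : ℂ) * Complex.exp (θ * Complex.I)) (∏ i, g i) *
          Complex.exp (-(j * θ * Complex.I)) * (Complex.exp (-(θ * Complex.I)) - r) =
          (((∏ i, g i).eval r : ℝ) : ℂ) *
            ((∏ i, phi (g i) r θ) * (Complex.exp (-(θ * Complex.I)) - r)) := by
        rw [h1]
        field_simp
      rw [h2, Complex.re_ofReal_mul]
    rw [intervalIntegral.integral_congr (fun θ _ => hEq θ), intervalIntegral.integral_const_mul]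
      at hfd
    have hpos : 0 < ((∏ i, g i).coeff (j + 1) - (∏ i, g i).coeff j) * r ^ (j + 1) *
        (2 * Real.pi) := by
      rw [hfd]
      exact mul_pos hA hint
    have h3 : 0 < (∏ i, g i).coeff (j + 1) - (∏ i, g i).coeff j := by
      by_contra hcon
      push Not at hcon
      have h4 : ((∏ i, g i).coeff (j + 1) - (∏ i, g i).coeff j) * r ^ (j + 1) *
          (2 * Real.pi) ≤ 0 :=
        mul_nonpos_of_nonpos_of_nonneg (mul_nonpos_of_nonpos_of_nonneg hcon (by positivity))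
          (by positivity)
      linarith
    linarith

end Pool.HB45
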