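import Pool.Agent.HB45.Defs

set_option autoImplicit false

/-!
# HB45/WnEq: the number of linear extensions with `k` descents as a coefficient
-/

open Polynomial

namespace Pool.HB45.WnEq

theorem card_desc {N : ℕ} (g : Equiv.Perm (Fin (N + 1))) :
    Nat.card {i : Fin (N + 1) // ∃ h : i.val + 1 < N + 1, g ⟨i.val + 1, h⟩ < g i} =
      des (fun a : Fin (N + 1) => a.val) g := by
  unfold des
  rw [← Fintype.card_subtype, ← Nat.card_eq_fintype_card]
  apply Nat.card_congr
  refine ⟨fun i => ⟨⟨i.1.val, ?_⟩, ?_⟩, fun i => ⟨i.1.castSucc, ?_⟩, ?_, ?_⟩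
  · obtain ⟨h, _⟩ := i.2
    omega
  · obtain ⟨h, hi⟩ := i.2
    exact hi
  · have hi := i.2
    exact ⟨by simp, hi⟩
  · rintro ⟨i, hi⟩
    rfl
  · rintro ⟨i, hi⟩
    rfl

theorem main {α : Type} [PartialOrder α] {N : ℕ} (f : α ≃ Fin (N + 1)) (k : ℕ) :
    ((Nat.card {σ : Fin (N + 1) ≃ α // (∀ i j : Fin (N + 1), σ i < σ j → i < j) ∧
      Nat.card {i : Fin (N + 1) // ∃ h : i.val + 1 < N + 1, f (σ ⟨i.val + 1, h⟩) < f (σ i)} = k} :
        ℕ) : ℝ) =
      (Wp (fun a b => f.symm a < f.symm b) (fun a : Fin (N + 1) => a.val)).coeff k := by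
  classical
  have h1 : (Wp (fun a b => f.symm a < f.symm b) (fun a : Fin (N + 1) => a.val)).coeff k =
      (((LE (fun a b : Fin (N + 1) => f.symm a < f.symm b)).filter
        fun g => des (fun a : Fin (N + 1) => a.val) g = k).card : ℝ) := by
    unfold Wp
    rw [finsetSum_coeff, Finset.card_filter]
    push_cast
    apply Finset.sum_congr rfl
    intro g _
    rw [coeff_X_pow]
    by_cases h : des (fun a : Fin (N + 1) => a.val) g = k
    · rw [if_pos h, if_pos h.symm]
    · rw [if_neg h, if_neg (fun h' => h h'.symm)]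
  rw [h1, Nat.cast_inj, ← Nat.card_eq_finsetCard]
  refine Nat.card_congr ⟨fun σ => ⟨σ.1.trans f, ?_⟩, fun g => ⟨g.1.trans f.symm, ?_⟩, ?_, ?_⟩
  · obtain ⟨hσ, hk⟩ := σ.2
    rw [Finset.mem_filter, mem_LE]
    refine ⟨fun i j hij => hσ i j ?_, ?_⟩
    · simpa using hij
    · rw [← card_desc]
      exact hk
  · have hg := g.2
    rw [Finset.mem_filter, mem_LE] at hg
    refine ⟨fun i j hij => hg.1 i j ?_, ?_⟩
    · simpa using hij
    · refine Eq.trans ?_ hg.2
      rw [← card_desc]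
      simp only [Equiv.trans_apply, Equiv.apply_symm_apply]
  · rintro ⟨σ, hσ⟩
    apply Subtype.ext
    ext i
    simp
  · rintro ⟨g, hg⟩
    apply Subtype.ext
    ext i
    simp

end Pool.HB45.WnEq
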