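import Pool.Agent.HB45.Defs
import Pool.Agent.HB45.WnEq

set_option autoImplicit false

/-!
# HB45/Transport: from posets on a type to relations on `Fin (N + 1)`
-/

open Polynomial

namespace Pool.HB45

/-- number of linear extensions with `k` descents -/
noncomputable def wn {α : Type} [PartialOrder α] {n : ℕ} (f : α ≃ Fin n) (k : ℕ) : ℕ :=
  Nat.card {σ : Fin n ≃ α // (∀ i j : Fin n, σ i < σ j → i < j) ∧
    Nat.card {i : Fin n // ∃ h : i.val + 1 < n, f (σ ⟨i.val + 1, h⟩) < f (σ i)} = k}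

/-- the poset on `Fin n` -/
def relOf {α : Type} [PartialOrder α] {n : ℕ} (f : α ≃ Fin n) : Rel n := fun a b => f.symm a < f.symm b

/-- the labels are the numbers themselves -/
def labOf (n : ℕ) : Fin n → ℕ := fun a => a.val

theorem nat_of {α : Type} [PartialOrder α] {n : ℕ} (f : α ≃ Fin n) (hf : ∀ x y : α, x < y → f x < f y) :
    Nat' (relOf f) (labOf n) := by
  refine ⟨fun a b hab => Fin.ext hab, fun a b hab => ?_⟩
  have := hf _ _ hab
  simpa [labOf] using this

/-- `κ a` = largest number of elements of a chain of elements `< f.symm a` -/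
theorem exists_lev {α : Type} [PartialOrder α] {n h : ℕ} (f : α ≃ Fin n)
    (hh : ∀ s : Finset α, IsChain (· ≤ ·) (s : Set α) → s.card ≤ h) :
    ∃ κ : Fin n → ℕ, Lev h (relOf f) κ := by
  classical
  have : Fintype α := Fintype.ofEquiv _ f.symm
  have hex : ∀ a : α, ∃ s : Finset α, (IsChain (· ≤ ·) (s : Set α) ∧ ∀ x ∈ s, x < a) ∧
      ∀ t : Finset α, (IsChain (· ≤ ·) (t : Set α) ∧ ∀ x ∈ t, x < a) → t.card ≤ s.card := by
    intro a
    obtain ⟨s, hs, hmax⟩ := Finset.exists_max_image
      (Finset.univ.filter fun s : Finset α => IsChain (· ≤ ·) (s : Set α) ∧ ∀ x ∈ s, x < a)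
      Finset.card ⟨∅, by simp⟩
    exact ⟨s, (Finset.mem_filter.mp hs).2, fun t ht =>
      hmax t (Finset.mem_filter.mpr ⟨Finset.mem_univ _, ht⟩)⟩
  choose S hS hmax using hex
  have hins : ∀ a : α, IsChain (· ≤ ·) ((insert a (S a) : Finset α) : Set α) ∧
      (insert a (S a) : Finset α).card = (S a).card + 1 := by
    intro a
    have h2 : a ∉ S a := fun h => lt_irrefl _ ((hS a).2 _ h)
    refine ⟨?_, Finset.card_insert_of_notMem h2⟩
    rw [Finset.coe_insert]
    exact (hS a).1.insert fun x hx _ => Or.inr ((hS a).2 x hx).le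
  refine ⟨fun a => (S (f.symm a)).card, ⟨fun a => ?_, fun a b hab => ?_⟩⟩
  · have h3 := hh _ (hins (f.symm a)).1
    rw [(hins (f.symm a)).2] at h3
    exact h3
  · have hab' : f.symm a < f.symm b := hab
    have h4 := hmax (f.symm b) (insert (f.symm a) (S (f.symm a))) ⟨(hins _).1, fun x hx => by
      rcases Finset.mem_insert.mp hx with rfl | hx
      · exact hab'
      · exact lt_trans ((hS _).2 x hx) hab'⟩
    rw [(hins (f.symm a)).2] at h4
    exact h4

/-- `σ ↦ g = σ.trans f` -/
theorem wn_eq {α : Type} [PartialOrder α] {N : ℕ} (f : α ≃ Fin (N + 1)) (k : ℕ) :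
    (wn f k : ℝ) = (Wp (relOf f) (labOf (N + 1))).coeff k :=
  WnEq.main f k

end Pool.HB45
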