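import Pool.Agent.HB45.Defs
import Pool.Agent.GT34.Cor

set_option autoImplicit false

/-!
# HB45/Uni: combination of the three ranges, the upper half, and the translation of the models
-/

open Polynomial

namespace Pool.HB45

/-- Increasing, then log-concave, then decreasing: unimodal. -/
theorem combine (w : ℕ → ℕ) (p q : ℕ → Prop)
    (h1 : ∀ j, p j → w j ≤ w (j + 1))
    (h2 : ∀ j, ¬ p j → ¬ q j → 0 < w j ∧ w (j - 1) * w (j + 1) ≤ w j ^ 2)
    (hp : ∀ j, p (j + 1) → p j) (hq : ∀ j, q j → q (j + 1))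
    (h3 : ∀ j, q j → w (j + 1) ≤ w j) (hex : ∃ j, q j) :
    ∃ m : ℕ, ∀ k : ℕ, (k < m → w k ≤ w (k + 1)) ∧ (m ≤ k → w (k + 1) ≤ w k) := by
  classical
  by_cases hd : ∃ k, w (k + 1) < w k
  · refine ⟨Nat.find hd, fun k => ⟨fun hk => not_lt.1 (Nat.find_min hd hk), ?_⟩⟩
    have hm := Nat.find_spec hd
    set m := Nat.find hd with hmd
    have hpm : ¬ p m := fun h => absurd (h1 m h) (not_le.2 hm)
    have hpk : ∀ k, m ≤ k → ¬ p k := by
      intro k hk
      induction k, hk using Nat.le_induction with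
      | base => exact hpm
      | succ k _ ih => exact fun h => ih (hp k h)
    intro hk
    induction k, hk using Nat.le_induction with
    | base => exact hm.le
    | succ k hk ih =>
      by_cases hqk : q (k + 1)
      · exact h3 _ hqk
      · obtain ⟨h4, h5⟩ := h2 (k + 1) (hpk _ (by omega)) hqk
        rw [Nat.add_sub_cancel] at h5
        have h6 : w k * w (k + 1 + 1) ≤ w k * w (k + 1) := by
          refine h5.trans ?_
          rw [pow_two]
          exact Nat.mul_le_mul_right _ ih
        exact Nat.le_of_mul_le_mul_left h6 (lt_of_lt_of_le h4 ih)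
  · push Not at hd
    obtain ⟨j, hj⟩ := hex
    refine ⟨j, fun k => ⟨fun _ => hd k, fun hk => ?_⟩⟩
    have hqk : ∀ k, j ≤ k → q k := by
      intro k hk
      induction k, hk using Nat.le_induction with
      | base => exact hj
      | succ k _ ih => exact hq k ih
    exact h3 k (hqk k hk)

/-- The number of linear extensions of `α` with `k` descents for the labelling `f`. -/
noncomputable def dn {α : Type} [PartialOrder α] {n : ℕ} (f : α ≃ Fin n) (k : ℕ) : ℕ :=
  Nat.card {σ : Fin n ≃ α // (∀ i j : Fin n, σ i < σ j → i < j) ∧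
    Nat.card {i : Fin n // ∃ h : i.val + 1 < n, f (σ ⟨i.val + 1, h⟩) < f (σ i)} = k}

/-- The upper half (landed gauge theorem, constant gauge). -/
theorem upper {α : Type} [Fintype α] [PartialOrder α] [Nonempty α] (n : ℕ)
    (hn : Fintype.card α = n) (f : α ≃ Fin n) (hf : ∀ x y : α, x < y → f x < f y) (k : ℕ)
    (hk : n ≤ 2 * k + 1) : dn f (k + 1) ≤ dn f k := by
  subst hn
  have h1 := Pool.GT34.second_half α f hf (fun _ => 1) 2 Pool.GT34.gaugeD_const
  have h2 := Pool.GT34.Lo_step h1 (k := k) (by push_cast; omega)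
  have e : ∀ k, dn f k = (Pool.GT34.W (Pool.GT34.Dl (fun x => ((f x : ℕ) : ℤ)))
      (Finset.univ : Finset α)).coeff k := fun k => Pool.GT34.link f k
  rw [e, e]
  exact h2

/-- The relation on `Fin n` of a poset with a labelling. -/
def rel {α : Type} [PartialOrder α] {n : ℕ} (f : α ≃ Fin n) : Rel n :=
  fun a b => f.symm a < f.symm b

theorem nat_rel {α : Type} [PartialOrder α] {n : ℕ} (f : α ≃ Fin n)
    (hf : ∀ x y : α, x < y → f x < f y) : Nat' (rel f) (fun a => a.val) :=
  ⟨Fin.val_injective, fun a b h => by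
    have := hf _ _ h
    rw [Equiv.apply_symm_apply, Equiv.apply_symm_apply] at this
    exact this⟩

/-- A level function. -/
theorem exists_lev {α : Type} [Fintype α] [PartialOrder α] {n h : ℕ} (f : α ≃ Fin n)
    (hc : ∀ s : Finset α, IsChain (· ≤ ·) (s : Set α) → s.card ≤ h) :
    ∃ κ : Fin n → ℕ, Lev h (rel f) κ := by
  classical
  let S : α → Finset (Finset α) := fun x =>
    Finset.univ.filter (fun s => IsChain (· ≤ ·) (s : Set α) ∧ ∀ z ∈ s, z < x)
  have hS : ∀ x s, s ∈ S x ↔ IsChain (· ≤ ·) (s : Set α) ∧ ∀ z ∈ s, z < x := by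
    intro x s
    simp [S]
  have hins : ∀ x s, s ∈ S x → IsChain (· ≤ ·) ((insert x s : Finset α) : Set α) ∧ x ∉ s := by
    intro x s hs
    rw [hS] at hs
    refine ⟨?_, fun h => lt_irrefl _ (hs.2 x h)⟩
    rw [Finset.coe_insert]
    exact hs.1.insert fun b hb _ => Or.inr (hs.2 b hb).le
  refine ⟨fun a => (S (f.symm a)).sup Finset.card, ⟨fun a => ?_, fun a b hab => ?_⟩⟩
  · have h0 : 0 < h := by
      have := hc {f.symm a} (by simp)
      rw [Finset.card_singleton] at this
      omega
    rw [Finset.sup_lt_iff (by exact h0)]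
    intro s hs
    obtain ⟨h1, h2⟩ := hins _ _ hs
    have h3 := hc _ h1
    rw [Finset.card_insert_of_notMem h2] at h3
    omega
  · change (S (f.symm a)).sup Finset.card < (S (f.symm b)).sup Finset.card
    have hne : (S (f.symm a)).Nonempty := ⟨∅, by rw [hS]; simp⟩
    obtain ⟨s, hs, he⟩ := Finset.exists_mem_eq_sup _ hne Finset.card
    rw [he]
    obtain ⟨h1, h2⟩ := hins _ _ hs
    have h3 : insert (f.symm a) s ∈ S (f.symm b) := by
      rw [hS]
      refine ⟨h1, fun z hz => ?_⟩
      rw [Finset.mem_insert] at hz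
      rcases hz with rfl | hz
      · exact hab
      · exact (((hS _ _).1 hs).2 z hz).trans hab
    have h4 := Finset.le_sup (f := Finset.card) h3
    rw [Finset.card_insert_of_notMem h2] at h4
    omega

theorem card_desc {α : Type} {N : ℕ} (f : α ≃ Fin (N + 1)) (σ : Fin (N + 1) ≃ α) :
    Nat.card {i : Fin (N + 1) // ∃ h : i.val + 1 < N + 1, f (σ ⟨i.val + 1, h⟩) < f (σ i)} =
      des (fun a : Fin (N + 1) => a.val) (σ.trans f) := by
  classical
  have h1 : Nat.card {i : Fin (N + 1) // ∃ h : i.val + 1 < N + 1, f (σ ⟨i.val + 1, h⟩) < f (σ i)} =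
      Nat.card {i : Fin N // ((σ.trans f) i.succ).val < ((σ.trans f) i.castSucc).val} := by
    refine Nat.card_congr
      { toFun := fun i => ⟨⟨i.1.val, by obtain ⟨h, _⟩ := i.2; omega⟩, ?_⟩
        invFun := fun i => ⟨i.1.castSucc, ?_⟩
        left_inv := fun i => ?_
        right_inv := fun i => ?_ }
    · obtain ⟨h, h2⟩ := i.2
      exact h2
    · exact ⟨by have := i.1.isLt; simp, i.2⟩
    · exact Subtype.ext (Fin.ext rfl)
    · exact Subtype.ext (Fin.ext rfl)
  rw [h1, Nat.card_eq_fintype_card, Fintype.card_subtype]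
  rfl

/-- The two models count the same. -/
theorem dn_eq {α : Type} [PartialOrder α] {N : ℕ} (f : α ≃ Fin (N + 1)) (k : ℕ) :
    dn f k = w (rel f) (fun a => a.val) k := by
  classical
  have h1 : dn f k = Nat.card {g : Equiv.Perm (Fin (N + 1)) //
      g ∈ LE (rel f) ∧ des (fun a : Fin (N + 1) => a.val) g = k} := by
    unfold dn
    refine Nat.card_congr (Equiv.subtypeEquiv (Equiv.equivCongr (Equiv.refl _) f) fun σ => ?_)
    have e : (Equiv.equivCongr (Equiv.refl (Fin (N + 1))) f) σ = σ.trans f := by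
      ext i
      simp
    rw [e, mem_LE, card_desc]
    refine and_congr_left fun _ => ?_
    unfold rel
    simp
  rw [h1, Nat.card_eq_fintype_card, Fintype.card_subtype]
  unfold w
  congr 1
  ext g
  simp

/-- Coefficients of `Wp`. -/
theorem coeff_Wp {N : ℕ} (Q : Rel (N + 1)) (lab : Fin (N + 1) → ℕ) (k : ℕ) :
    (Wp Q lab).coeff k = w Q lab k := by
  classical
  unfold Wp w
  rw [finsetSum_coeff, Finset.card_filter]
  push_cast
  refine Finset.sum_congr rfl fun g _ => ?_
  rw [coeff_X_pow]
  by_cases h : des lab g = k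
  · simp [h]
  · rw [if_neg (fun h' => h h'.symm), if_neg h]

end Pool.HB45
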