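import Pool.Agent.HB45.Defs2

set_option autoImplicit false

/-!
# HB45/Win1: descents split over the windows
-/

open Polynomial

namespace Pool.HB45

/-- descent indicator at position `p` -/
private def dsc {N : ℕ} (lab : Fin (N + 1) → ℕ) (π : Equiv.Perm (Fin (N + 1))) (p : ℕ) : ℕ :=
  if ltr lab π (p + 1) < ltr lab π p then 1 else 0

private theorem ltr_fin {N : ℕ} (lab : Fin (N + 1) → ℕ) (π : Equiv.Perm (Fin (N + 1)))
    (q : Fin (N + 1)) : ltr lab π q.val = lab (π q) := by
  unfold ltr
  rw [dif_pos q.isLt]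

private theorem ltr_wpos {N o f : ℕ} (hof : o + f ≤ N + 1) (lab : Fin (N + 1) → ℕ)
    (π : Equiv.Perm (Fin (N + 1))) (i : Fin f) : lab (π (wpos hof i)) = ltr lab π (o + i.val) := by
  rw [show o + i.val = (wpos hof i).val from rfl, ltr_fin]

private theorem dsc_fin {N : ℕ} (lab : Fin (N + 1) → ℕ) (π : Equiv.Perm (Fin (N + 1)))
    (i : Fin N) : dsc lab π i.val = if lab (π i.succ) < lab (π i.castSucc) then 1 else 0 := by
  unfold dsc
  rw [show i.val + 1 = i.succ.val from rfl, ltr_fin, show i.val = i.castSucc.val from rfl, ltr_fin]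

private theorem des_range {N : ℕ} (lab : Fin (N + 1) → ℕ) (π : Equiv.Perm (Fin (N + 1))) :
    des lab π = ∑ p ∈ Finset.range N, dsc lab π p := by
  rw [← Fin.sum_univ_eq_sum_range]
  unfold des
  rw [Finset.card_filter]
  exact Finset.sum_congr rfl fun i _ => (dsc_fin lab π i).symm

private theorem rest_range {N : ℕ} (lab : Fin (N + 1) → ℕ) (B m : ℕ) (π : Equiv.Perm (Fin (N + 1))) :
    rest lab B m π = ∑ p ∈ Finset.range N, if m * (B + 2) ≤ p + 1 then dsc lab π p else 0 := by
  rw [← Fin.sum_univ_eq_sum_range (fun p => if m * (B + 2) ≤ p + 1 then dsc lab π p else 0)]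
  unfold rest
  rw [Finset.card_filter]
  refine Finset.sum_congr rfl fun i _ => ?_
  rw [dsc_fin]
  by_cases h : m * (B + 2) ≤ i.val + 1
  · simp only [h, true_and, if_true]
  · simp only [h, false_and, if_false]

private theorem desB_range {N B m : ℕ} (hm : m * (B + 2) ≤ N + 1) (lab : Fin (N + 1) → ℕ)
    (π : Equiv.Perm (Fin (N + 1))) (k : Fin m) :
    desB (fun i => lab (π (wpos (win_le hm k) i))) (cB lab B k.val π) (dB lab B k.val π) 1 =
    (∑ i ∈ Finset.range B, dsc lab π (k.val * (B + 2) + i)) +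
      (if k.val = 0 then 0 else dsc lab π (k.val * (B + 2) - 1)) + dsc lab π (k.val * (B + 2) + B) := by
  have h1 : des (fun i : Fin (B + 1) => lab (π (wpos (win_le hm k) i))) 1 =
      ∑ i ∈ Finset.range B, dsc lab π (k.val * (B + 2) + i) := by
    rw [← Fin.sum_univ_eq_sum_range (fun i => dsc lab π (k.val * (B + 2) + i))]
    unfold des
    rw [Finset.card_filter]
    refine Finset.sum_congr rfl fun i _ => ?_
    show (if lab (π (wpos (win_le hm k) i.succ)) < lab (π (wpos (win_le hm k) i.castSucc)) then 1 else 0) = _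
    rw [ltr_wpos (win_le hm k) lab π i.succ, ltr_wpos (win_le hm k) lab π i.castSucc]
    rfl
  have h2 : (if lab (π (wpos (win_le hm k) 0)) < cB lab B k.val π then 1 else 0) =
      (if k.val = 0 then 0 else dsc lab π (k.val * (B + 2) - 1)) := by
    rw [ltr_wpos (win_le hm k) lab π 0]
    unfold cB
    by_cases hk : k.val = 0
    · simp only [hk, if_true]
      simp
    · simp only [hk, if_false]
      unfold dsc
      have h3 : 0 < k.val * (B + 2) := Nat.mul_pos (Nat.pos_of_ne_zero hk) (by omega)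
      rw [show k.val * (B + 2) - 1 + 1 = k.val * (B + 2) by omega]
      rfl
  have h3 : (if dB lab B k.val π < lab (π (wpos (win_le hm k) (Fin.last B))) then 1 else 0) =
      dsc lab π (k.val * (B + 2) + B) := by
    rw [ltr_wpos (win_le hm k) lab π (Fin.last B)]
    rfl
  unfold desB
  rw [h1]
  show _ + (if lab (π (wpos (win_le hm k) 0)) < cB lab B k.val π then 1 else 0) +
    (if dB lab B k.val π < lab (π (wpos (win_le hm k) (Fin.last B))) then 1 else 0) = _
  rw [h2, h3]

private theorem sum_windows (D : ℕ → ℕ) (B m : ℕ) :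
    ∑ k ∈ Finset.range m, ((∑ i ∈ Finset.range B, D (k * (B + 2) + i)) +
      (if k = 0 then 0 else D (k * (B + 2) - 1)) + D (k * (B + 2) + B)) =
    ∑ p ∈ Finset.range (m * (B + 2) - 1), D p := by
  induction m with
  | zero => simp
  | succ m ih =>
    rw [Finset.sum_range_succ, ih]
    rcases Nat.eq_zero_or_pos m with rfl | hm
    · rw [show (0 + 1) * (B + 2) - 1 = B + 1 by omega, Finset.sum_range_succ]
      simp
    · have h3 : 0 < m * (B + 2) := Nat.mul_pos hm (by omega)
      have h4 : (m + 1) * (B + 2) - 1 = (m * (B + 2) - 1) + 1 + (B + 1) := by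
        have : (m + 1) * (B + 2) = m * (B + 2) + (B + 2) := by ring
        omega
      rw [h4, Finset.sum_range_add, Finset.sum_range_succ, Finset.sum_range_succ,
        if_neg hm.ne', show m * (B + 2) - 1 + 1 = m * (B + 2) by omega]
      ring

/-- descents split over the windows (each pair of neighbours `(p, p + 1)` with `p + 1 < m (B + 2)`
touches exactly one window) -/
theorem des_eq_sum {N B m : ℕ} (hm : m * (B + 2) ≤ N + 1) (lab : Fin (N + 1) → ℕ)
    (π : Equiv.Perm (Fin (N + 1))) :
    des lab π = (∑ k : Fin m, desB (fun i => lab (π (wpos (win_le hm k) i))) (cB lab B k.val π)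
      (dB lab B k.val π) 1) + rest lab B m π := by
  rw [des_range, rest_range, Finset.sum_congr rfl fun k _ => desB_range hm lab π k,
    Fin.sum_univ_eq_sum_range (fun k => (∑ i ∈ Finset.range B, dsc lab π (k * (B + 2) + i)) +
      (if k = 0 then 0 else dsc lab π (k * (B + 2) - 1)) + dsc lab π (k * (B + 2) + B)),
    sum_windows]
  obtain ⟨M, hM⟩ : ∃ M, M = m * (B + 2) - 1 := ⟨_, rfl⟩
  rw [← hM]
  obtain ⟨r, hr⟩ : ∃ r, N = M + r := ⟨N - M, by omega⟩
  have h0 : ∀ F : ℕ → ℕ, ∑ p ∈ Finset.range N, F p =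
      ∑ p ∈ Finset.range M, F p + ∑ p ∈ Finset.range r, F (M + p) := by
    intro F
    rw [hr, Finset.sum_range_add]
  rw [h0, h0 (fun p => if m * (B + 2) ≤ p + 1 then dsc lab π p else 0)]
  have h1 : ∑ p ∈ Finset.range M, (if m * (B + 2) ≤ p + 1 then dsc lab π p else 0) = 0 := by
    apply Finset.sum_eq_zero
    intro p hp
    rw [Finset.mem_range] at hp
    rw [if_neg (by omega)]
  have h2 : ∑ p ∈ Finset.range r, (if m * (B + 2) ≤ M + p + 1 then dsc lab π (M + p) else 0) =
      ∑ p ∈ Finset.range r, dsc lab π (M + p) := by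
    refine Finset.sum_congr rfl fun p _ => ?_
    rw [if_pos (by omega)]
  rw [h1, h2, zero_add]

end Pool.HB45
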